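import Pool.Agent.H548R2.Cross

/-!
Decomposable real arithmetic circuits.
-/

namespace Pool.Agent.H548R2

open Finset

/-- `Ψ` is a linear combination, with coefficients of total absolute value at most one, of
products of functions with values in `[-1,1]`, each depending on at most `d` variables. -/
def IsMix {V : Type} (d : ℕ) (Ψ : (V → Bool) → ℝ) : Prop :=
  ∃ (κ : Type) (_ : Fintype κ) (l : κ → ℝ) (Φ : κ → (V → Bool) → ℝ),
    (∀ k, IsLocal d (Φ k)) ∧ ∑ k, |l k| ≤ 1 ∧ ∀ a, Ψ a = ∑ k, l k * Φ k a

/-- Gate number `k` of an arithmetic circuit over the variable set `V`: a leaf computing an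
arbitrary real function `g` with declared variable set `S` (two kinds of leaves), a sum gate or
a product gate; the inputs of the latter two are earlier gates. -/
inductive AGate (V : Type) (k : ℕ) : Type
  | leaf (S : Finset V) (g : (V → Bool) → ℝ)
  | loc (S : Finset V) (g : (V → Bool) → ℝ)
  | add (i j : Fin k)
  | mul (i j : Fin k)

/-- An arithmetic circuit: the gates number `0, ..., out`, the last of them being the output
(gates with number larger than `out` are irrelevant). Gates can be used any number of times. -/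
structure ACircuit (V : Type) where
  gate : (k : ℕ) → AGate V k
  out : ℕ

namespace ACircuit

variable {V : Type}

/-- Number of gates. -/
def size (C : ACircuit V) : ℕ := C.out + 1

/-- Value of gate number `k` at the assignment `a`. -/
noncomputable def val (C : ACircuit V) (k : ℕ) (a : V → Bool) : ℝ :=
  match C.gate k with
  | .leaf _ g => g a
  | .loc _ g => g a
  | .add i j => C.val i a + C.val j a
  | .mul i j => C.val i a * C.val j a
termination_by k
decreasing_by
  all_goals first | exact i.2 | exact j.2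

/-- Value of gate number `k` at the assignment `a` when every leaf function is replaced by its
absolute value (by the constant `1` for leaves of the second kind). -/
noncomputable def absVal (C : ACircuit V) (k : ℕ) (a : V → Bool) : ℝ :=
  match C.gate k with
  | .leaf _ g => |g a|
  | .loc _ _ => 1
  | .add i j => C.absVal i a + C.absVal j a
  | .mul i j => C.absVal i a * C.absVal j a
termination_by k
decreasing_by
  all_goals first | exact i.2 | exact j.2

/-- The set of variables below gate number `k`. -/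
def vars [DecidableEq V] (C : ACircuit V) (k : ℕ) : Finset V :=
  match C.gate k with
  | .leaf S _ => S
  | .loc S _ => S
  | .add i j => C.vars i ∪ C.vars j
  | .mul i j => C.vars i ∪ C.vars j
termination_by k
decreasing_by
  all_goals first | exact i.2 | exact j.2

/-- Gate `k` is big if fewer than `|V| / D` variables are missing below it. -/
def Big [Fintype V] [DecidableEq V] (C : ACircuit V) (D k : ℕ) : Prop :=
  D * ((C.vars k)ᶜ).card < Fintype.card V

instance [Fintype V] [DecidableEq V] (C : ACircuit V) (D k : ℕ) : Decidable (C.Big D k) :=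
  inferInstanceAs (Decidable (_ < _))

/-- The circuit is decomposable (the inputs of a product gate have disjoint sets of variables);
leaves of the first kind may compute any real function that ignores at least `|V| / D` of the
variables, leaves of the second kind any function with property `IsMix d`. -/
def Valid [Fintype V] [DecidableEq V] (C : ACircuit V) (d D : ℕ) : Prop :=
  ∀ k ≤ C.out, match C.gate k with
    | .leaf S g => DependsOn g (S : Set V) ∧ ¬ C.Big D k
    | .loc S g => DependsOn g (S : Set V) ∧ IsMix d g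
    | .add _ _ => True
    | .mul i j => Disjoint (C.vars i) (C.vars j)

section basic

variable (C : ACircuit V)

theorem val_leaf {k : ℕ} {S : Finset V} {g : (V → Bool) → ℝ} (h : C.gate k = .leaf S g)
    (a : V → Bool) : C.val k a = g a := by
  rw [val, h]

theorem val_loc {k : ℕ} {S : Finset V} {g : (V → Bool) → ℝ} (h : C.gate k = .loc S g)
    (a : V → Bool) : C.val k a = g a := by
  rw [val, h]

theorem val_add {k : ℕ} {i j : Fin k} (h : C.gate k = .add i j)
    (a : V → Bool) : C.val k a = C.val i a + C.val j a := by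
  rw [val, h]

theorem val_mul {k : ℕ} {i j : Fin k} (h : C.gate k = .mul i j)
    (a : V → Bool) : C.val k a = C.val i a * C.val j a := by
  rw [val, h]

theorem absVal_leaf {k : ℕ} {S : Finset V} {g : (V → Bool) → ℝ} (h : C.gate k = .leaf S g)
    (a : V → Bool) : C.absVal k a = |g a| := by
  rw [absVal, h]

theorem absVal_loc {k : ℕ} {S : Finset V} {g : (V → Bool) → ℝ} (h : C.gate k = .loc S g)
    (a : V → Bool) : C.absVal k a = 1 := by
  rw [absVal, h]

theorem absVal_add {k : ℕ} {i j : Fin k} (h : C.gate k = .add i j)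
    (a : V → Bool) : C.absVal k a = C.absVal i a + C.absVal j a := by
  rw [absVal, h]

theorem absVal_mul {k : ℕ} {i j : Fin k} (h : C.gate k = .mul i j)
    (a : V → Bool) : C.absVal k a = C.absVal i a * C.absVal j a := by
  rw [absVal, h]

variable [DecidableEq V]

theorem vars_leaf {k : ℕ} {S : Finset V} {g : (V → Bool) → ℝ} (h : C.gate k = .leaf S g) :
    C.vars k = S := by
  rw [vars, h]

theorem vars_loc {k : ℕ} {S : Finset V} {g : (V → Bool) → ℝ} (h : C.gate k = .loc S g) :
    C.vars k = S := by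
  rw [vars, h]

theorem vars_add {k : ℕ} {i j : Fin k} (h : C.gate k = .add i j) :
    C.vars k = C.vars i ∪ C.vars j := by
  rw [vars, h]

theorem vars_mul {k : ℕ} {i j : Fin k} (h : C.gate k = .mul i j) :
    C.vars k = C.vars i ∪ C.vars j := by
  rw [vars, h]

theorem absVal_nonneg : ∀ k, ∀ a : V → Bool, 0 ≤ C.absVal k a := by
  intro k
  induction k using Nat.strong_induction_on with
  | _ k ih =>
    intro a
    rcases hg : C.gate k with ⟨S, g⟩ | ⟨S, g⟩ | ⟨i, j⟩ | ⟨i, j⟩
    · rw [C.absVal_leaf hg]; exact abs_nonneg _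
    · rw [C.absVal_loc hg]; exact zero_le_one
    · rw [C.absVal_add hg]; exact add_nonneg (ih i i.2 a) (ih j j.2 a)
    · rw [C.absVal_mul hg]; exact mul_nonneg (ih i i.2 a) (ih j j.2 a)

variable [Fintype V] {d D : ℕ}

theorem valid_leaf (hC : C.Valid d D) {k : ℕ} (hk : k ≤ C.out)
    {S : Finset V} {g : (V → Bool) → ℝ} (h : C.gate k = .leaf S g) :
    DependsOn g (S : Set V) ∧ ¬ C.Big D k := by
  have := hC k hk
  rw [h] at this
  exact this

theorem valid_loc (hC : C.Valid d D) {k : ℕ} (hk : k ≤ C.out)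
    {S : Finset V} {g : (V → Bool) → ℝ} (h : C.gate k = .loc S g) :
    DependsOn g (S : Set V) ∧ IsMix d g := by
  have := hC k hk
  rw [h] at this
  exact this

theorem valid_mul (hC : C.Valid d D) {k : ℕ} (hk : k ≤ C.out) {i j : Fin k}
    (h : C.gate k = .mul i j) : Disjoint (C.vars i) (C.vars j) := by
  have := hC k hk
  rw [h] at this
  exact this

end basic

end ACircuit

section local_lemmas

variable {V : Type}

theorem IsLocal.abs_le {d : ℕ} {Ψ : (V → Bool) → ℝ} (h : IsLocal d Ψ) (a : V → Bool) :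
    |Ψ a| ≤ 1 := by
  obtain ⟨κ, _, S, ψ, _, _, h3, h4⟩ := h
  rw [h4, Finset.abs_prod]
  exact Finset.prod_le_one (fun _ _ => abs_nonneg _) (fun t _ => h3 t a)

theorem isLocal_one (d : ℕ) : IsLocal d (fun _ : V → Bool => (1 : ℝ)) :=
  ⟨Empty, inferInstance, fun x => x.elim, fun x => x.elim, fun x => x.elim, fun x => x.elim,
    fun x => x.elim, fun a => by simp⟩

theorem IsLocal.mul {d : ℕ} {Ψ Φ : (V → Bool) → ℝ} (h : IsLocal d Ψ) (h' : IsLocal d Φ) :
    IsLocal d (fun a => Ψ a * Φ a) := by
  obtain ⟨κ, i1, S, ψ, h1, h2, h3, h4⟩ := h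
  obtain ⟨κ', i1', S', ψ', h1', h2', h3', h4'⟩ := h'
  refine ⟨κ ⊕ κ', inferInstance, Sum.elim S S', Sum.elim ψ ψ', ?_, ?_, ?_, ?_⟩
  · rintro (t | t)
    · exact h1 t
    · exact h1' t
  · rintro (t | t)
    · exact h2 t
    · exact h2' t
  · rintro (t | t)
    · exact h3 t
    · exact h3' t
  · intro a
    simp only [h4, h4', Fintype.prod_sum_type, Sum.elim_inl, Sum.elim_inr]

theorem IsLocal.isMix {d : ℕ} {Ψ : (V → Bool) → ℝ} (h : IsLocal d Ψ) : IsMix d Ψ :=
  ⟨Unit, inferInstance, fun _ => 1, fun _ => Ψ, fun _ => h, by simp, fun a => by simp⟩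

theorem isMix_one (d : ℕ) : IsMix d (fun _ : V → Bool => (1 : ℝ)) := (isLocal_one d).isMix

theorem IsMix.abs_le {d : ℕ} {Ψ : (V → Bool) → ℝ} (h : IsMix d Ψ) (a : V → Bool) :
    |Ψ a| ≤ 1 := by
  obtain ⟨κ, _, l, Φ, h1, h2, h3⟩ := h
  rw [h3]
  refine (Finset.abs_sum_le_sum_abs _ _).trans ((Finset.sum_le_sum fun k _ => ?_).trans h2)
  rw [abs_mul]
  exact mul_le_of_le_one_right (abs_nonneg _) ((h1 k).abs_le a)

theorem IsMix.mul {d : ℕ} {Ψ Φ : (V → Bool) → ℝ} (h : IsMix d Ψ) (h' : IsMix d Φ) :
    IsMix d (fun a => Ψ a * Φ a) := by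
  obtain ⟨κ, i1, l, F, h1, h2, h3⟩ := h
  obtain ⟨κ', i1', l', F', h1', h2', h3'⟩ := h'
  refine ⟨κ × κ', inferInstance, fun k => l k.1 * l' k.2, fun k a => F k.1 a * F' k.2 a,
    fun k => (h1 k.1).mul (h1' k.2), ?_, fun a => ?_⟩
  · rw [Fintype.sum_prod_type]
    simp only [abs_mul, ← Finset.mul_sum]
    rw [← Finset.sum_mul]
    exact mul_le_one₀ h2 (Finset.sum_nonneg fun _ _ => abs_nonneg _) h2'
  · show Ψ a * Φ a = ∑ k : κ × κ', l k.1 * l' k.2 * (F k.1 a * F' k.2 a)
    rw [h3, h3', Fintype.sum_prod_type, Finset.sum_mul_sum]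
    refine Finset.sum_congr rfl fun k _ => Finset.sum_congr rfl fun k' _ => ?_
    ring

end local_lemmas

section rectangles

variable {V : Type} [Fintype V] [DecidableEq V]

/-- A product of two functions that depend on complementary sets of variables, both containing
at least `|V| / E` variables. -/
def IsRect (E : ℕ) (t : (V → Bool) → ℝ) : Prop :=
  ∃ X : Finset V, Fintype.card V ≤ E * X.card ∧ Fintype.card V ≤ E * (Xᶜ).card ∧
    ∃ A B : (V → Bool) → ℝ, DependsOn A (X : Set V) ∧ DependsOn B ((X : Set V)ᶜ) ∧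
      ∀ a, t a = A a * B a

theorem exists_split {D E : ℕ} (hDE : D ≤ E) (hE : 4 ≤ E) (hD : 2 ≤ D)
    (hV : 2 ≤ Fintype.card V) {S T : Finset V} (hST : S ⊆ T)
    (hS : ¬ D * (Sᶜ).card < Fintype.card V) (hT : D * (Tᶜ).card < Fintype.card V) :
    ∃ X : Finset V, S ⊆ X ∧ X ⊆ T ∧
      Fintype.card V ≤ E * X.card ∧ Fintype.card V ≤ E * (Xᶜ).card := by
  set N := Fintype.card V with hN
  have hex : ∃ n, N ≤ D * n := ⟨(Sᶜ).card, not_lt.mp hS⟩
  classical
  obtain ⟨n0, hn0, hmin⟩ : ∃ n0, N ≤ D * n0 ∧ ∀ m < n0, D * m < N :=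
    ⟨Nat.find hex, Nat.find_spec hex, fun m hm => not_le.mp (Nat.find_min hex hm)⟩
  have hTn : (Tᶜ).card < n0 := by
    by_contra hcon
    have := Nat.mul_le_mul_left D (not_lt.mp hcon)
    omega
  have hSn : n0 ≤ (Sᶜ).card := by
    by_contra hcon
    exact hS (hmin _ (not_le.mp hcon))
  have cS : (Sᶜ).card = N - S.card := Finset.card_compl S
  have cT : (Tᶜ).card = N - T.card := Finset.card_compl T
  have lS : S.card ≤ N := Finset.card_le_univ S
  have lT : T.card ≤ N := Finset.card_le_univ T
  obtain ⟨X, hSX, hXT, hXc⟩ := Finset.exists_subsuperset_card_eq hST (n := N - n0)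
    (by omega) (by omega)
  have cX : (Xᶜ).card = n0 := by
    rw [Finset.card_compl, hXc]; omega
  have h2 : 2 * (n0 - 1) < N := by
    have := hmin (n0 - 1) (by omega)
    have h3 : 2 * (n0 - 1) ≤ D * (n0 - 1) := Nat.mul_le_mul_right _ hD
    omega
  refine ⟨X, hSX, hXT, ?_, ?_⟩
  · rw [hXc]
    have h3 : 4 * (N - n0) ≤ E * (N - n0) := Nat.mul_le_mul_right _ hE
    omega
  · rw [cX]
    have h3 : D * n0 ≤ E * n0 := Nat.mul_le_mul_right _ hDE
    omega

theorem isRect_small {D E : ℕ} (hDE : D ≤ E) (hE : 4 ≤ E) (hD : 2 ≤ D)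
    (hV : 2 ≤ Fintype.card V) {S T : Finset V} (hST : S ⊆ T)
    (hS : ¬ D * (Sᶜ).card < Fintype.card V) (hT : D * (Tᶜ).card < Fintype.card V)
    {A c : (V → Bool) → ℝ} (hA : DependsOn A (S : Set V)) (hc : DependsOn c ((T : Set V)ᶜ)) :
    IsRect E (fun a => c a * A a) := by
  obtain ⟨X, h1, h2, h3, h4⟩ := exists_split hDE hE hD hV hST hS hT
  refine ⟨X, h3, h4, A, c, ?_, ?_, fun a => mul_comm _ _⟩
  · intro a b hab
    exact hA fun x hx => hab x (Finset.mem_coe.mpr (h1 (Finset.mem_coe.mp hx)))
  · intro a b hab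
    exact hc fun x hx => hab x fun h => hx (Finset.mem_coe.mpr (h2 (Finset.mem_coe.mp h)))

theorem isRect_heavy_aux {D E : ℕ} (hDE : D ≤ E) (hE : 4 ≤ E) (hD : 2 ≤ D)
    {S₁ S₂ : Finset V} (hdis : Disjoint S₁ S₂) (hle : S₂.card ≤ S₁.card)
    (h1 : ¬ D * (S₁ᶜ).card < Fintype.card V)
    (hT : D * ((S₁ ∪ S₂)ᶜ).card < Fintype.card V)
    {A B c : (V → Bool) → ℝ} (hA : DependsOn A (S₁ : Set V)) (hB : DependsOn B (S₂ : Set V))
    (hc : DependsOn c (((S₁ ∪ S₂ : Finset V) : Set V)ᶜ)) :
    IsRect E (fun a => c a * (A a * B a)) := by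
  have cU : ((S₁ ∪ S₂)ᶜ).card = Fintype.card V - (S₁ ∪ S₂).card := Finset.card_compl _
  have cu : (S₁ ∪ S₂).card = S₁.card + S₂.card := Finset.card_union_of_disjoint hdis
  have lu : (S₁ ∪ S₂).card ≤ Fintype.card V := Finset.card_le_univ _
  refine ⟨S₁, ?_, ?_, A, fun a => B a * c a, hA, ?_, fun a => by ring⟩
  · have h3 : 2 * ((S₁ ∪ S₂)ᶜ).card ≤ D * ((S₁ ∪ S₂)ᶜ).card := Nat.mul_le_mul_right _ hD
    have h4 : 4 * S₁.card ≤ E * S₁.card := Nat.mul_le_mul_right _ hE
    omega
  · have h3 : D * (S₁ᶜ).card ≤ E * (S₁ᶜ).card := Nat.mul_le_mul_right _ hDE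
    omega
  · intro a b hab
    have e1 : B a = B b := hB fun x hx => hab x (fun h =>
      (Finset.disjoint_left.mp hdis) (Finset.mem_coe.mp h) (Finset.mem_coe.mp hx))
    have e2 : c a = c b := hc fun x hx => hab x (fun h => hx (by
      simp only [Finset.coe_union, Set.mem_union]
      exact Or.inl h))
    simp only [e1, e2]

theorem isRect_heavy {D E : ℕ} (hDE : D ≤ E) (hE : 4 ≤ E) (hD : 2 ≤ D)
    {S₁ S₂ : Finset V} (hdis : Disjoint S₁ S₂)
    (h1 : ¬ D * (S₁ᶜ).card < Fintype.card V) (h2 : ¬ D * (S₂ᶜ).card < Fintype.card V)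
    (hT : D * ((S₁ ∪ S₂)ᶜ).card < Fintype.card V)
    {A B c : (V → Bool) → ℝ} (hA : DependsOn A (S₁ : Set V)) (hB : DependsOn B (S₂ : Set V))
    (hc : DependsOn c (((S₁ ∪ S₂ : Finset V) : Set V)ᶜ)) :
    IsRect E (fun a => c a * (A a * B a)) := by
  rcases le_total S₂.card S₁.card with hle | hle
  · exact isRect_heavy_aux hDE hE hD hdis hle h1 hT hA hB hc
  · have := isRect_heavy_aux hDE hE hD hdis.symm hle h2 (by rwa [Finset.union_comm]) hB hA
      (by rwa [Finset.union_comm])
    refine (congrArg (IsRect E) ?_).mp this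
    funext a
    ring

end rectangles

namespace ACircuit

variable {V : Type} [Fintype V] [DecidableEq V] (C : ACircuit V) {d D E : ℕ}

theorem val_dep (hC : C.Valid d D) : ∀ k ≤ C.out, DependsOn (C.val k) (C.vars k : Set V) := by
  intro k
  induction k using Nat.strong_induction_on with
  | _ k ih =>
    intro hk a b hab
    rcases hg : C.gate k with ⟨S, g⟩ | ⟨S, g⟩ | ⟨i, j⟩ | ⟨i, j⟩
    · have h1 := (C.valid_leaf hC hk hg).1
      rw [C.val_leaf hg, C.val_leaf hg]
      rw [C.vars_leaf hg] at hab
      rw [h1 hab]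
    · have h1 := (C.valid_loc hC hk hg).1
      rw [C.val_loc hg, C.val_loc hg]
      rw [C.vars_loc hg] at hab
      rw [h1 hab]
    · have hi := ih i i.2 (i.2.le.trans hk)
      have hj := ih j j.2 (j.2.le.trans hk)
      rw [C.vars_add hg] at hab
      rw [C.val_add hg, C.val_add hg]
      rw [hi (fun x hx => hab x (by simp [Finset.mem_coe.mp hx])),
        hj (fun x hx => hab x (by simp [Finset.mem_coe.mp hx]))]
    · have hi := ih i i.2 (i.2.le.trans hk)
      have hj := ih j j.2 (j.2.le.trans hk)
      rw [C.vars_mul hg] at hab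
      rw [C.val_mul hg, C.val_mul hg]
      rw [hi (fun x hx => hab x (by simp [Finset.mem_coe.mp hx])),
        hj (fun x hx => hab x (by simp [Finset.mem_coe.mp hx]))]

theorem abs_val_le (hC : C.Valid d D) : ∀ k ≤ C.out, ∀ a, |C.val k a| ≤ C.absVal k a := by
  intro k
  induction k using Nat.strong_induction_on with
  | _ k ih =>
    intro hk a
    rcases hg : C.gate k with ⟨S, g⟩ | ⟨S, g⟩ | ⟨i, j⟩ | ⟨i, j⟩
    · rw [C.val_leaf hg, C.absVal_leaf hg]
    · rw [C.val_loc hg, C.absVal_loc hg]
      exact (C.valid_loc hC hk hg).2.abs_le a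
    · rw [C.val_add hg, C.absVal_add hg]
      exact (abs_add_le _ _).trans
        (add_le_add (ih i i.2 (i.2.le.trans hk) a) (ih j j.2 (j.2.le.trans hk) a))
    · rw [C.val_mul hg, C.absVal_mul hg, abs_mul]
      exact mul_le_mul (ih i i.2 (i.2.le.trans hk) a) (ih j j.2 (j.2.le.trans hk) a)
        (abs_nonneg _) (C.absVal_nonneg _ _)

/-- State of the top-down sweep: gates number `≥ m` have been expanded. -/
structure Sweep (d D E m : ℕ) (T : List (((V → Bool) → ℝ) × ((V → Bool) → ℝ)))
    (c : ℕ → (V → Bool) → ℝ) (F G : (V → Bool) → ℝ) : Prop where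
  rect : ∀ t ∈ T, IsRect E t.1 ∧ IsMix d t.2
  dep : ∀ i < m, DependsOn (c i) ((C.vars i : Set V)ᶜ)
  val : ∀ a, F a = (T.map fun t => t.1 a * t.2 a).sum +
    ∑ i ∈ Finset.range m, if C.Big D i then c i a * C.val i a else 0
  abs : ∀ a, (T.map fun t => |t.1 a|).sum +
    (∑ i ∈ Finset.range m, if C.Big D i then |c i a| * C.absVal i a else 0) ≤ G a

variable {C}

theorem Sweep.cons {m : ℕ} {T : List (((V → Bool) → ℝ) × ((V → Bool) → ℝ))}
    {c : ℕ → (V → Bool) → ℝ} {F G : (V → Bool) → ℝ} (h : C.Sweep d D E m T c F G)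
    {t g : (V → Bool) → ℝ} (ht : IsRect E t) (hg : IsMix d g) :
    C.Sweep d D E m ((t, g) :: T) c (fun a => F a + t a * g a) (fun a => G a + |t a|) := by
  refine ⟨?_, h.dep, ?_, ?_⟩
  · intro u hu
    rcases List.mem_cons.mp hu with rfl | hu
    · exact ⟨ht, hg⟩
    · exact h.rect u hu
  · intro a
    rw [List.map_cons, List.sum_cons, h.val a]
    ring
  · intro a
    rw [List.map_cons, List.sum_cons]
    have := h.abs a
    linarith

theorem Sweep.absorb {m : ℕ} {T : List (((V → Bool) → ℝ) × ((V → Bool) → ℝ))}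
    {c : ℕ → (V → Bool) → ℝ} {F G : (V → Bool) → ℝ} (h : C.Sweep d D E m T c F G)
    (hC : C.Valid d D) (hm : m ≤ C.out + 1)
    {i : ℕ} (hi : i < m) {γ : (V → Bool) → ℝ} (hγ : DependsOn γ ((C.vars i : Set V)ᶜ))
    (hr : ¬ C.Big D i → IsRect E (fun a => γ a * C.val i a)) :
    ∃ T' c', T'.length ≤ T.length + 1 ∧
      C.Sweep d D E m T' c' (fun a => F a + γ a * C.val i a)
        (fun a => G a + |γ a| * C.absVal i a) := by
  by_cases hb : C.Big D i
  · refine ⟨T, fun x a => c x a + if x = i then γ a else 0, Nat.le_succ _, h.rect, ?_, ?_, ?_⟩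
    · intro x hx a b hab
      show c x a + (if x = i then γ a else 0) = c x b + (if x = i then γ b else 0)
      rw [h.dep x hx hab]
      by_cases hxi : x = i
      · subst hxi
        rw [if_pos rfl, if_pos rfl, hγ hab]
      · rw [if_neg hxi, if_neg hxi]
    · intro a
      rw [h.val a, add_assoc]
      congr 1
      have e1 : ∑ x ∈ Finset.range m, (if C.Big D x then
            (c x a + if x = i then γ a else 0) * C.val x a else 0)
          = ∑ x ∈ Finset.range m, ((if C.Big D x then c x a * C.val x a else 0)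
            + if x = i then γ a * C.val i a else 0) := by
        refine Finset.sum_congr rfl fun x _ => ?_
        by_cases hxi : x = i
        · subst hxi
          simp only [if_pos hb, if_true]
          ring
        · simp only [if_neg hxi, add_zero]
      rw [e1, Finset.sum_add_distrib, Finset.sum_ite_eq' (Finset.range m) i,
        if_pos (Finset.mem_range.mpr hi)]
    · intro a
      have e1 : ∑ x ∈ Finset.range m, (if C.Big D x then
            |c x a + if x = i then γ a else 0| * C.absVal x a else 0)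
          ≤ ∑ x ∈ Finset.range m, ((if C.Big D x then |c x a| * C.absVal x a else 0)
            + if x = i then |γ a| * C.absVal i a else 0) := by
        refine Finset.sum_le_sum fun x _ => ?_
        by_cases hxi : x = i
        · subst hxi
          simp only [if_pos hb, if_true]
          rw [← add_mul]
          exact mul_le_mul_of_nonneg_right (abs_add_le _ _) (C.absVal_nonneg _ _)
        · simp only [if_neg hxi, add_zero, le_refl]
      rw [Finset.sum_add_distrib, Finset.sum_ite_eq' (Finset.range m) i,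
        if_pos (Finset.mem_range.mpr hi)] at e1
      have := h.abs a
      linarith
  · have h1 := h.cons (hr hb) (isMix_one d)
    refine ⟨_, c, le_of_eq (List.length_cons), h1.rect, h1.dep, ?_, ?_⟩
    · intro a
      rw [← h1.val a, mul_one]
    · intro a
      refine (h1.abs a).trans ?_
      rw [abs_mul]
      have h2 := C.abs_val_le hC i (by omega) a
      have h3 := mul_le_mul_of_nonneg_left h2 (abs_nonneg (γ a))
      linarith

theorem Sweep.mono {m : ℕ} {T : List (((V → Bool) → ℝ) × ((V → Bool) → ℝ))}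
    {c : ℕ → (V → Bool) → ℝ} {F G F' G' : (V → Bool) → ℝ} (h : C.Sweep d D E m T c F G)
    (hF : ∀ a, F a = F' a) (hG : ∀ a, G a ≤ G' a) : C.Sweep d D E m T c F' G' :=
  ⟨h.rect, h.dep, fun a => by rw [← hF, h.val a], fun a => (h.abs a).trans (hG a)⟩

theorem Sweep.pop {k : ℕ} {T : List (((V → Bool) → ℝ) × ((V → Bool) → ℝ))}
    {c : ℕ → (V → Bool) → ℝ} {F G : (V → Bool) → ℝ} (h : C.Sweep d D E (k + 1) T c F G)
    (hb : C.Big D k) : C.Sweep d D E k T c (fun a => F a - c k a * C.val k a)
      (fun a => G a - |c k a| * C.absVal k a) := by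
  refine ⟨h.rect, fun i hi => h.dep i (by omega), fun a => ?_, fun a => ?_⟩
  · rw [h.val a, Finset.sum_range_succ, if_pos hb]
    ring
  · have := h.abs a
    rw [Finset.sum_range_succ, if_pos hb] at this
    linarith

theorem vars_subset_of_add {k : ℕ} {i j : Fin k} (h : C.gate k = .add i j) :
    C.vars i ⊆ C.vars k ∧ C.vars j ⊆ C.vars k := by
  rw [C.vars_add h]
  exact ⟨Finset.subset_union_left, Finset.subset_union_right⟩

theorem vars_subset_of_mul {k : ℕ} {i j : Fin k} (h : C.gate k = .mul i j) :
    C.vars i ⊆ C.vars k ∧ C.vars j ⊆ C.vars k := by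
  rw [C.vars_mul h]
  exact ⟨Finset.subset_union_left, Finset.subset_union_right⟩

theorem dep_compl {c : (V → Bool) → ℝ} {S T : Finset V} (hST : S ⊆ T)
    (h : DependsOn c ((T : Set V)ᶜ)) : DependsOn c ((S : Set V)ᶜ) := by
  intro a b hab
  exact h fun x hx => hab x fun hxS => hx (Finset.mem_coe.mpr (hST (Finset.mem_coe.mp hxS)))

theorem dep_mul_compl {c f : (V → Bool) → ℝ} {S S' T : Finset V} (hST : S ⊆ T)
    (hdis : Disjoint S S')
    (h : DependsOn c ((T : Set V)ᶜ)) (hf : DependsOn f (S' : Set V)) :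
    DependsOn (fun a => c a * f a) ((S : Set V)ᶜ) := by
  intro a b hab
  have h1 := dep_compl hST h hab
  have h2 : f a = f b := hf fun x hx => hab x fun hxS =>
    (Finset.disjoint_left.mp hdis) (Finset.mem_coe.mp hxS) (Finset.mem_coe.mp hx)
  simp only [h1, h2]

theorem Sweep.step (hC : C.Valid d D) (hDE : D ≤ E) (hE : 4 ≤ E) (hD : 2 ≤ D)
    (hV : 2 ≤ Fintype.card V) {k : ℕ} (hk : k ≤ C.out)
    {T : List (((V → Bool) → ℝ) × ((V → Bool) → ℝ))}
    {c : ℕ → (V → Bool) → ℝ} {F G : (V → Bool) → ℝ} (h : C.Sweep d D E (k + 1) T c F G) :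
    ∃ T' c', T'.length ≤ T.length + 2 ∧ C.Sweep d D E k T' c' F G := by
  by_cases hb : C.Big D k
  · have hp := h.pop hb
    have hck := h.dep k (Nat.lt_succ_self k)
    rcases hg : C.gate k with ⟨S, g⟩ | ⟨S, g⟩ | ⟨i, j⟩ | ⟨i, j⟩
    · exact absurd hb (C.valid_leaf hC hk hg).2
    · -- a local leaf
      have hr : IsRect E (fun a => c k a * (fun _ : V → Bool => (1 : ℝ)) a) :=
        isRect_small hDE hE hD hV (Finset.empty_subset (C.vars k))
          (by
            rw [Finset.compl_empty, Finset.card_univ, not_lt]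
            exact Nat.le_mul_of_pos_left _ (by omega)) hb
          (fun _ _ _ => rfl) hck
      have h1 := hp.cons hr (C.valid_loc hC hk hg).2
      refine ⟨_, c, ?_, h1.mono (fun a => ?_) (fun a => ?_)⟩
      · rw [List.length_cons]; omega
      · rw [C.val_loc hg]; ring
      · rw [C.absVal_loc hg]
        simp
    · obtain ⟨s1, s2⟩ := vars_subset_of_add hg
      obtain ⟨T1, c1, l1, h1⟩ := hp.absorb hC (by omega) i.2 (dep_compl s1 hck)
        (fun hnb => isRect_small hDE hE hD hV s1 hnb hb
          (C.val_dep hC i (i.2.le.trans hk)) hck)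
      obtain ⟨T2, c2, l2, h2⟩ := h1.absorb hC (by omega) j.2 (dep_compl s2 hck)
        (fun hnb => isRect_small hDE hE hD hV s2 hnb hb
          (C.val_dep hC j (j.2.le.trans hk)) hck)
      refine ⟨T2, c2, by omega, h2.mono (fun a => ?_) (fun a => ?_)⟩
      · rw [C.val_add hg]; ring
      · rw [C.absVal_add hg]
        apply le_of_eq
        ring
    · obtain ⟨s1, s2⟩ := vars_subset_of_mul hg
      have hdis := C.valid_mul hC hk hg
      have di := C.val_dep hC i (i.2.le.trans hk)
      have dj := C.val_dep hC j (j.2.le.trans hk)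
      by_cases hbi : C.Big D i
      · obtain ⟨T1, c1, l1, h1⟩ := hp.absorb hC (by omega) i.2
          (dep_mul_compl s1 hdis hck dj) (fun hnb => absurd hbi hnb)
        refine ⟨T1, c1, by omega, h1.mono (fun a => ?_) (fun a => ?_)⟩
        · rw [C.val_mul hg]; ring
        · rw [C.absVal_mul hg, abs_mul]
          have h3 := C.abs_val_le hC j (j.2.le.trans hk) a
          have h4 := mul_le_mul_of_nonneg_left h3
            (mul_nonneg (abs_nonneg (c k a)) (C.absVal_nonneg i a))
          linarith
      · by_cases hbj : C.Big D j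
        · obtain ⟨T1, c1, l1, h1⟩ := hp.absorb hC (by omega) j.2
            (dep_mul_compl s2 hdis.symm hck di) (fun hnb => absurd hbj hnb)
          refine ⟨T1, c1, by omega, h1.mono (fun a => ?_) (fun a => ?_)⟩
          · rw [C.val_mul hg]; ring
          · rw [C.absVal_mul hg, abs_mul]
            have h3 := C.abs_val_le hC i (i.2.le.trans hk) a
            have h4 := mul_le_mul_of_nonneg_left h3
              (mul_nonneg (abs_nonneg (c k a)) (C.absVal_nonneg j a))
            linarith
        · have hr : IsRect E (fun a => c k a * (C.val i a * C.val j a)) := by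
            refine isRect_heavy hDE hE hD hdis hbi hbj ?_ di dj ?_
            · have := hb
              unfold Big at this
              rwa [C.vars_mul hg] at this
            · rw [C.vars_mul hg] at hck
              exact hck
          have h1 := hp.cons hr (isMix_one d)
          refine ⟨_, c, ?_, h1.mono (fun a => ?_) (fun a => ?_)⟩
          · rw [List.length_cons]; omega
          · rw [C.val_mul hg]; ring
          · rw [C.absVal_mul hg, abs_mul, abs_mul]
            have h3 := C.abs_val_le hC i (i.2.le.trans hk) a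
            have h4 := C.abs_val_le hC j (j.2.le.trans hk) a
            have h5 := mul_le_mul h3 h4 (abs_nonneg _) (C.absVal_nonneg i a)
            have h6 := mul_le_mul_of_nonneg_left h5 (abs_nonneg (c k a))
            linarith
  · refine ⟨T, c, by omega, h.rect, fun i hi => h.dep i (by omega), fun a => ?_, fun a => ?_⟩
    · rw [h.val a, Finset.sum_range_succ, if_neg hb, add_zero]
    · have := h.abs a
      rwa [Finset.sum_range_succ, if_neg hb, add_zero] at this

/-- Every valid circuit is a sum of few rectangles times local functions, dominated by the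
absolute value of the circuit. -/
theorem decomp (hC : C.Valid d D) (hDE : D ≤ E) (hE : 4 ≤ E) (hD : 2 ≤ D)
    (hV : 2 ≤ Fintype.card V) :
    ∃ T : List (((V → Bool) → ℝ) × ((V → Bool) → ℝ)),
      (∀ t ∈ T, IsRect E t.1 ∧ IsMix d t.2) ∧ T.length ≤ 2 * C.size ∧
      (∀ a, C.val C.out a = (T.map fun t => t.1 a * t.2 a).sum) ∧
      ∀ a, (T.map fun t => |t.1 a|).sum ≤ C.absVal C.out a := by
  by_cases hb : C.Big D C.out
  · have key : ∀ q, q ≤ C.out + 1 → ∃ T c, T.length ≤ 2 * q ∧
        C.Sweep d D E (C.out + 1 - q) T c (C.val C.out) (C.absVal C.out) := by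
      intro q
      induction q with
      | zero =>
        intro _
        refine ⟨[], fun i _ => if i = C.out then 1 else 0, le_refl _, ?_, ?_, ?_, ?_⟩
        · intro t ht
          simp at ht
        · intro i _ a b _
          rfl
        · intro a
          rw [List.map_nil, List.sum_nil, zero_add, Nat.sub_zero,
            Finset.sum_eq_single_of_mem C.out (Finset.mem_range.mpr (Nat.lt_succ_self _))]
          · rw [if_pos hb, if_pos rfl, one_mul]
          · intro x _ hx
            rw [if_neg hx, zero_mul]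
            split_ifs <;> rfl
        · intro a
          rw [List.map_nil, List.sum_nil, zero_add, Nat.sub_zero,
            Finset.sum_eq_single_of_mem C.out (Finset.mem_range.mpr (Nat.lt_succ_self _))]
          · rw [if_pos hb, if_pos rfl, abs_one, one_mul]
          · intro x _ hx
            rw [if_neg hx, abs_zero, zero_mul]
            split_ifs <;> rfl
      | succ q ih =>
        intro hq
        obtain ⟨T, c, hl, hs⟩ := ih (by omega)
        have e : C.out + 1 - q = (C.out + 1 - (q + 1)) + 1 := by omega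
        rw [e] at hs
        obtain ⟨T', c', hl', hs'⟩ := hs.step hC hDE hE hD hV (by omega)
        exact ⟨T', c', by omega, hs'⟩
    obtain ⟨T, c, hl, hs⟩ := key (C.out + 1) le_rfl
    rw [Nat.sub_self] at hs
    refine ⟨T, hs.rect, hl, fun a => ?_, fun a => ?_⟩
    · rw [hs.val a, Finset.range_zero, Finset.sum_empty, add_zero]
    · have := hs.abs a
      rwa [Finset.range_zero, Finset.sum_empty, add_zero] at this
  · refine ⟨[(fun a => 1 * C.val C.out a, fun _ => 1)], ?_, ?_, ?_, ?_⟩
    · intro t ht
      rw [List.mem_singleton] at ht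
      subst ht
      refine ⟨?_, isMix_one d⟩
      exact isRect_small hDE hE hD hV (Finset.subset_univ _) hb
        (by rw [Finset.compl_univ, Finset.card_empty, mul_zero]; omega)
        (C.val_dep hC _ le_rfl) (fun _ _ _ => rfl)
    · unfold size
      simp only [List.length_singleton]
      omega
    · intro a
      simp
    · intro a
      simpa using C.abs_val_le hC _ le_rfl a

end ACircuit

end Pool.Agent.H548R2
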