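import Pool.Agent.H548R2.CircBound

/-!
The number of chains is at most `(2 * size + 1) ^ nest`, where `nest` is the nesting depth of
big exclusive-or gates.
-/

namespace Pool.Agent.H548R2

open Finset

namespace Circuit

variable {V : Type} [Fintype V] [DecidableEq V]

/-- The maximal number of big exclusive-or gates on a descending path of big gates that starts
at gate `k`. -/
def nest (C : Circuit V) (D : ℕ) (k : ℕ) : ℕ :=
  if C.Big D k then
    match C.gate k with
    | .leaf _ _ => 0
    | .and i j => max (C.nest D i) (C.nest D j)
    | .or i j => max (C.nest D i) (C.nest D j)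
    | .xor i j => 1 + max (C.nest D i) (C.nest D j)
  else 0
termination_by k
decreasing_by
  all_goals first | exact i.2 | exact j.2

theorem nest_and (C : Circuit V) {D k : ℕ} {i j : Fin k} (hb : C.Big D k)
    (hg : C.gate k = .and i j) : C.nest D k = max (C.nest D i) (C.nest D j) := by
  rw [nest, if_pos hb, hg]

theorem nest_or (C : Circuit V) {D k : ℕ} {i j : Fin k} (hb : C.Big D k)
    (hg : C.gate k = .or i j) : C.nest D k = max (C.nest D i) (C.nest D j) := by
  rw [nest, if_pos hb, hg]

theorem nest_xor (C : Circuit V) {D k : ℕ} {i j : Fin k} (hb : C.Big D k)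
    (hg : C.gate k = .xor i j) : C.nest D k = 1 + max (C.nest D i) (C.nest D j) := by
  rw [nest, if_pos hb, hg]

theorem nest_blocks (C : Circuit V) (D : ℕ) : ∀ k, ∀ h ∈ C.blocks D k, ∀ i ∈ C.xorInputs h,
    C.nest D i + 1 ≤ C.nest D k := by
  intro k
  induction k using Nat.strong_induction_on with
  | _ k ih =>
    intro h hh i hi
    by_cases hb : C.Big D k
    · rcases hg : C.gate k with ⟨S, g⟩ | ⟨a, b⟩ | ⟨a, b⟩ | ⟨a, b⟩
      · rw [blocks, if_pos hb, hg] at hh
        simp at hh
      · rw [C.blocks_and hb hg, Finset.mem_union] at hh
        rw [C.nest_and hb hg]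
        rcases hh with hh | hh
        · exact (ih a a.2 h hh i hi).trans (le_max_left _ _)
        · exact (ih b b.2 h hh i hi).trans (le_max_right _ _)
      · rw [C.blocks_or hb hg, Finset.mem_union] at hh
        rw [C.nest_or hb hg]
        rcases hh with hh | hh
        · exact (ih a a.2 h hh i hi).trans (le_max_left _ _)
        · exact (ih b b.2 h hh i hi).trans (le_max_right _ _)
      · rw [C.blocks_xor hb hg, Finset.mem_singleton] at hh
        subst hh
        rw [C.nest_xor hb hg]
        unfold xorInputs at hi
        rw [hg] at hi
        simp only [Finset.mem_insert, Finset.mem_singleton] at hi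
        rcases hi with rfl | rfl
        · have := le_max_left (C.nest D a) (C.nest D b)
          omega
        · have := le_max_right (C.nest D a) (C.nest D b)
          omega
    · rw [C.blocks_not_big hb] at hh
      simp at hh

theorem card_xorInputs (C : Circuit V) (h : ℕ) : (C.xorInputs h).card ≤ 2 := by
  unfold xorInputs
  rcases hg : C.gate h with ⟨S, g⟩ | ⟨a, b⟩ | ⟨a, b⟩ | ⟨a, b⟩
  · simp
  · simp
  · simp
  · exact Finset.card_le_two

theorem chains_le (C : Circuit V) (D : ℕ) : ∀ k ≤ C.out,
    C.chains D k ≤ (2 * C.size + 1) ^ C.nest D k := by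
  intro k
  induction k using Nat.strong_induction_on with
  | _ k ih =>
    intro hk
    rw [C.chains_eq D k]
    by_cases hbl : C.blocks D k = ∅
    · rw [hbl]
      simp only [Finset.sum_empty, add_zero]
      exact Nat.one_le_pow _ _ (by omega)
    · obtain ⟨h0, hh0⟩ := Finset.nonempty_iff_ne_empty.mpr hbl
      -- the nesting depth is positive or the sum vanishes
      by_cases hn : C.nest D k = 0
      · have hz : ∑ h ∈ C.blocks D k, ∑ i ∈ C.xorInputs h, C.chains D i = 0 := by
          refine Finset.sum_eq_zero fun h hh => Finset.sum_eq_zero fun i hi => ?_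
          have := C.nest_blocks D k h hh i hi
          omega
        rw [hz]
        exact Nat.one_le_pow _ _ (by omega)
      · obtain ⟨q, hq⟩ := Nat.exists_eq_succ_of_ne_zero hn
        have h1 : ∀ h ∈ C.blocks D k, ∑ i ∈ C.xorInputs h, C.chains D i
            ≤ 2 * (2 * C.size + 1) ^ q := by
          intro h hh
          have h2 : ∀ i ∈ C.xorInputs h, C.chains D i ≤ (2 * C.size + 1) ^ q := by
            intro i hi
            have l1 := C.xorInputs_lt hi
            have l2 := C.blocks_le k h hh
            refine (ih i (lt_of_lt_of_le l1 l2) ((l1.le.trans l2).trans hk)).trans ?_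
            have := C.nest_blocks D k h hh i hi
            exact Nat.pow_le_pow_right (by omega) (by omega)
          refine (Finset.sum_le_card_nsmul _ _ _ h2).trans ?_
          rw [smul_eq_mul]
          exact Nat.mul_le_mul_right _ (C.card_xorInputs h)
        have h3 : (C.blocks D k).card ≤ C.size := by
          have : C.blocks D k ⊆ Finset.range (C.out + 1) := by
            intro h hh
            rw [Finset.mem_range]
            exact Nat.lt_succ_of_le ((C.blocks_le k h hh).trans hk)
          have := Finset.card_le_card this
          rwa [Finset.card_range] at this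
        have h4 := Finset.sum_le_card_nsmul _ _ _ h1
        rw [smul_eq_mul] at h4
        rw [hq, Nat.succ_eq_add_one, pow_succ]
        have h5 : (C.blocks D k).card * (2 * (2 * C.size + 1) ^ q)
            ≤ C.size * (2 * (2 * C.size + 1) ^ q) := Nat.mul_le_mul_right _ h3
        have h6 : 1 ≤ (2 * C.size + 1) ^ q := Nat.one_le_pow _ _ (by omega)
        nlinarith

end Circuit

end Pool.Agent.H548R2
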