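import Pool.Agent.H548R2.Formula
import Pool.Agent.H548R2.Nest

/-!
Assembly of the lower bound.
-/

namespace Pool.Agent.H548R2

open Finset

/-- The parameters: for every `d` and `E` there are constants such that for every `n` the formula
`hard` has small correlation with balanced rectangles times `d`-local weights. -/
theorem exists_hard (d E : ℕ) (hE : 4 ≤ E) : ∃ C : ℕ, ∀ n : ℕ, 1 ≤ n →
    ∃ (V : Type) (_ : Fintype V) (_ : DecidableEq V) (φ : CNF V) (w : (V → Bool) → ℝ) (τ : ℝ),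
      2 ≤ Fintype.card V ∧ Fintype.card V ≤ C * n ∧ φ.length ≤ C * n ∧ (∀ K ∈ φ, K.length ≤ C) ∧
      (∀ v, Occurs v φ) ∧ 0 ≤ τ ∧
      (∀ a, |w a| = 1) ∧ (∀ a, Satisfies a φ → w a = 1) ∧
      (∀ Ψ, IsLocal d Ψ → Disc (fun a => w a * Ψ a) τ E) ∧
      6 * (2 : ℝ) ^ (2 * n) * τ ≤ modelCount φ ∧ 0 < modelCount φ := by
  classical
  obtain ⟨b, hb⟩ := exists_pow_lt_of_lt_one (show (0 : ℝ) < (1 / 2) ^ 12 by positivity)
    (bet_lt_one (d + 2))
  have hb1 : 1 ≤ b := by
    rcases Nat.eq_zero_or_pos b with h | h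
    · subst h
      norm_num at hb
    · exact h
  obtain ⟨D0, hD0⟩ := exists_degree (16 * E) (by omega)
  set B := 16 * E * b with hB
  set L := D0 + 1 with hL
  set K := 2 + B * (L * 2) * (d + 3) with hK
  refine ⟨B + (B + (B * (L * (d + 2)) + 2)) + (2 ^ K + 2) + K, fun n hn => ?_⟩
  obtain ⟨g, hg⟩ := exists_mixing (16 * E) (n * b) D0 (by omega) (Nat.mul_pos hn hb1) hD0
    (Fin n × Fin B) (by simp [hB]; ring)
  set f : Fin n × Fin B → Fin L → Fin n × Fin B :=
    fun t l => Fin.cases t (fun l' => g (t, l')) l with hf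
  have hf0 : ∀ t, f t 0 = t := fun t => rfl
  have hfs : ∀ t l', f t (Fin.succ l') = g (t, l') := fun t l' => rfl
  have hmix : ∀ A B' : Finset (Fin n × Fin B), n * b ≤ A.card → n * b ≤ B'.card →
      ∃ t ∈ A, ∃ l, f t l ∈ B' := by
    intro A B' hA hB'
    obtain ⟨t, ht, l', hl'⟩ := hg A B' hA hB'
    exact ⟨t, ht, Fin.succ l', by rw [hfs]; exact hl'⟩
  have hcross : ∀ X : Finset (Var n B L d), Fintype.card (Var n B L d) ≤ E * X.card →
      Fintype.card (Var n B L d) ≤ E * (Xᶜ).card → Cross f (n * b) X := by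
    intro X h1 h2
    exact cross_all f (n * b) E (Nat.le_mul_of_pos_right _ hb1) hn (by rw [hB]; ring) (by omega)
      hmix X h1 h2
  have hdisc := disc_of_cross (d := d) f (n * b) E hcross
  have hpow : bet (d + 2) ^ (n * b) ≤ ((1 / 2 : ℝ) ^ 12) ^ n := by
    rw [mul_comm n b, pow_mul]
    exact pow_le_pow_left₀ (pow_nonneg (bet_nonneg _) _) hb.le n
  have hcardV : Fintype.card (Var n B L d) = n * B + (n * B + (n * B * (L * (d + 2)) + (n + 1))) :=
    card_var
  set N := Fintype.card (Var n B L d) with hN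
  have hhalf : ((1 / 2 : ℝ) ^ 12) ^ n ≤ 1 / 2 := by
    calc ((1 / 2 : ℝ) ^ 12) ^ n ≤ ((1 / 2 : ℝ) ^ 12) ^ 1 :=
          pow_le_pow_of_le_one (by positivity) (by norm_num) hn
      _ ≤ 1 / 2 := by norm_num
  have hsum : |∑ a : Var n B L d → Bool, sig f a| ≤ 2 ^ N / 2 := by
    -- apply the discrepancy bound with trivial factors to a balanced set of variables
    have hloc : IsLocal d (fun _ : Var n B L d → Bool => (1 : ℝ)) :=
      ⟨Empty, inferInstance, fun x => x.elim, fun x => x.elim, fun x => x.elim, fun x => x.elim,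
        fun x => x.elim, fun a => by simp⟩
    obtain ⟨X, hX⟩ : ∃ X : Finset (Var n B L d), X.card = N / 2 := by
      obtain ⟨X, _, hX⟩ := Finset.exists_subset_card_eq (s := (Finset.univ : Finset (Var n B L d)))
        (n := N / 2) (by rw [Finset.card_univ]; exact Nat.div_le_self _ _)
      exact ⟨X, hX⟩
    have hXc : (Xᶜ).card = N - N / 2 := by rw [Finset.card_compl, hX]
    have hN2 : 2 ≤ N := by rw [hcardV]; omega
    have h4 : 4 * (N / 2) ≤ E * (N / 2) := Nat.mul_le_mul_right _ hE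
    have h4' : 4 * (N - N / 2) ≤ E * (N - N / 2) := Nat.mul_le_mul_right _ hE
    have := hdisc (fun _ => 1) hloc X (by rw [hX]; omega) (by rw [hXc]; omega)
      (fun _ => 1) (fun _ => 1) (fun _ _ _ => rfl) (fun _ _ _ => rfl) (fun _ => by simp)
      (fun _ => by simp)
    simp only [mul_one] at this
    refine this.trans ?_
    have h5 := hpow.trans hhalf
    have h6 : (0 : ℝ) ≤ 2 ^ N := by positivity
    nlinarith
  have hcount := count_lower (d := d) f hsum
  have hNpos : (0 : ℝ) < 2 ^ N := by positivity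
  have hcpos : (0 : ℝ) < modelCount (hard (d := d) f) := by
    by_contra hcon
    have h7 : (modelCount (hard (d := d) f) : ℝ) = 0 :=
      le_antisymm (not_lt.mp hcon) (Nat.cast_nonneg _)
    rw [h7, mul_zero] at hcount
    linarith
  refine ⟨Var n B L d, inferInstance, inferInstance, hard f, sig f,
    2 ^ N * bet (d + 2) ^ (n * b), ?_, ?_, ?_, ?_, ?_, ?_, ?_, ?_, hdisc, ?_, ?_⟩
  · rw [← hN, hcardV]; omega
  · rw [← hN, hcardV]
    have h1 : n * B * (L * (d + 2)) = B * (L * (d + 2)) * n := by ring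
    nlinarith [Nat.zero_le (n * 2 ^ K), Nat.zero_le (n * K)]
  · refine (hard_length f).trans ?_
    rw [← hK]
    nlinarith [Nat.zero_le (n * (B * (L * (d + 2)))), Nat.zero_le (n * B), Nat.zero_le (n * K)]
  · intro C hC
    refine (hard_width f C hC).trans ?_
    rw [← hK]
    exact Nat.le_add_left _ _
  · exact hard_occurs f 0 hf0
  · exact mul_nonneg hNpos.le (pow_nonneg (bet_nonneg _) _)
  · intro a
    rcases sig_eq_or f a with h | h <;> rw [h] <;> simp
  · exact sig_of_satisfies f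
  · -- numerics
    have h1 : (2 : ℝ) ^ N * bet (d + 2) ^ (n * b) ≤ 2 ^ N * ((1 / 2 : ℝ) ^ 12) ^ n :=
      mul_le_mul_of_nonneg_left hpow hNpos.le
    have h2 : 6 * (2 : ℝ) ^ (2 * n) * (2 ^ N * bet (d + 2) ^ (n * b))
        ≤ 6 * (2 : ℝ) ^ (2 * n) * (2 ^ (n + 3) * modelCount (hard (d := d) f)
          * ((1 / 2 : ℝ) ^ 12) ^ n) := by
      refine mul_le_mul_of_nonneg_left (h1.trans ?_) (by positivity)
      exact mul_le_mul_of_nonneg_right hcount (by positivity)
    refine h2.trans ?_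
    have h3 : 6 * (2 : ℝ) ^ (2 * n) * (2 ^ (n + 3) * modelCount (hard (d := d) f)
          * ((1 / 2 : ℝ) ^ 12) ^ n)
        = (6 * 8 * ((2 : ℝ) ^ 3 * (1 / 2) ^ 12) ^ n) * modelCount (hard (d := d) f) := by
      rw [mul_pow, ← pow_mul, ← pow_mul, show (2 : ℝ) ^ (3 * n) = 2 ^ (2 * n) * 2 ^ n by
        rw [← pow_add]; congr 1; ring, pow_add]
      ring
    rw [h3]
    have h4 : ((2 : ℝ) ^ 3 * (1 / 2) ^ 12) ^ n ≤ ((2 : ℝ) ^ 3 * (1 / 2) ^ 12) ^ 1 :=
      pow_le_pow_of_le_one (by positivity) (by norm_num) hn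
    have h5 : 6 * 8 * ((2 : ℝ) ^ 3 * (1 / 2) ^ 12) ^ n ≤ 1 := by
      refine (mul_le_mul_of_nonneg_left h4 (by norm_num)).trans ?_
      norm_num
    calc _ ≤ 1 * (modelCount (hard (d := d) f) : ℝ) :=
          mul_le_mul_of_nonneg_right h5 hcpos.le
      _ = _ := one_mul _
  · exact_mod_cast hcpos

theorem main (d D : ℕ) (hD : 2 ≤ D) : ∃ C : ℕ, ∀ n : ℕ, 1 ≤ n →
    ∃ (V : Type) (_ : Fintype V) (_ : DecidableEq V) (φ : CNF V),
      Fintype.card V ≤ C * n ∧ φ.length ≤ C * n ∧ (∀ K ∈ φ, K.length ≤ C) ∧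
      (∀ v, Occurs v φ) ∧ 0 < modelCount φ ∧
      ∀ (J : Type) (_ : Fintype J) (coef : J → ℝ) (Ψ : J → (V → Bool) → ℝ) (G : J → Circuit V),
        (∀ j, IsLocal d (Ψ j)) → (∀ j, (G j).Valid D) →
        ∑ a, |indicator φ a - ∑ j, coef j * Ψ j a * (if (G j).val (G j).out a then 1 else 0)|
          ≤ (1 - (1 / 2) ^ n) * modelCount φ →
        (2 : ℝ) ^ n ≤ ∑ j, |coef j| * (G j).size * (G j).chains D (G j).out ∧
        ∀ j, (G j).chains D (G j).out ≤ (2 * (G j).size + 1) ^ (G j).nest D (G j).out := by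
  obtain ⟨C, hC⟩ := exists_hard d (max D 4) (le_max_right _ _)
  refine ⟨C, fun n hn => ?_⟩
  obtain ⟨V, i1, i2, φ, w, τ, hV2, hV, hlen, hwid, hocc, hτ, hw1, hws, hdisc, hnum, hpos⟩ := hC n hn
  refine ⟨V, i1, i2, φ, hV, hlen, hwid, hocc, hpos, ?_⟩
  intro J _ coef Ψ G hΨ hG happ
  refine ⟨?_, fun j => (G j).chains_le D _ le_rfl⟩
  have hcount := modelCount_eq φ
  -- test against w
  have e1 : ∑ a, w a * indicator φ a = modelCount φ := by
    rw [hcount]
    refine Finset.sum_congr rfl fun a _ => ?_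
    unfold indicator
    split_ifs with h
    · rw [hws a h, mul_one]
    · simp
  set R : (V → Bool) → ℝ := fun a => ∑ j, coef j * Ψ j a *
    (if (G j).val (G j).out a then 1 else 0) with hR
  have e2 : |∑ a, w a * (indicator φ a - R a)| ≤ (1 - (1 / 2) ^ n) * modelCount φ := by
    refine (Finset.abs_sum_le_sum_abs _ _).trans (le_trans (Finset.sum_le_sum fun a _ => ?_) happ)
    rw [abs_mul, hw1 a, one_mul]
  have e3 : ∑ a, w a * (indicator φ a - R a)
      = modelCount φ - ∑ a, w a * R a := by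
    rw [← e1, ← Finset.sum_sub_distrib]
    refine Finset.sum_congr rfl fun a _ => ?_
    ring
  have e4 : (1 / 2 : ℝ) ^ n * modelCount φ ≤ ∑ a, w a * R a := by
    rw [e3] at e2
    have := (abs_le.mp e2).2
    linarith
  have e5 : ∑ a, w a * R a = ∑ j, coef j * ∑ a, (w a * Ψ j a) * (G j).fr (G j).out a := by
    simp only [hR, Finset.mul_sum]
    rw [Finset.sum_comm]
    refine Finset.sum_congr rfl fun j _ => Finset.sum_congr rfl fun a _ => ?_
    unfold Circuit.fr
    ring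
  have e6 : ∑ a, w a * R a ≤ ∑ j, |coef j| * (6 * (G j).size * (G j).chains D (G j).out * τ) := by
    rw [e5]
    refine Finset.sum_le_sum fun j _ => ?_
    refine (le_abs_self _).trans ?_
    rw [abs_mul]
    refine mul_le_mul_of_nonneg_left ?_ (abs_nonneg _)
    exact Circuit.out_bound (hdisc (Ψ j) (hΨ j)) (le_max_left _ _) (le_max_right _ _) hD hV2 hτ
      (G j) (hG j)
  have e7 : ∑ j, |coef j| * (6 * (G j).size * (G j).chains D (G j).out * τ)
      = 6 * τ * ∑ j, |coef j| * (G j).size * (G j).chains D (G j).out := by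
    rw [Finset.mul_sum]
    refine Finset.sum_congr rfl fun j _ => ?_
    ring
  set S := ∑ j, |coef j| * (G j).size * (G j).chains D (G j).out with hS
  have hcpos : (0 : ℝ) < modelCount φ := by exact_mod_cast hpos
  have e8 : (1 / 2 : ℝ) ^ n * modelCount φ ≤ 6 * τ * S := by
    rw [← e7]; exact e4.trans e6
  -- 6 * 4^n * τ ≤ count
  have hSpos : 0 ≤ S := by
    refine Finset.sum_nonneg fun j _ => ?_
    positivity
  have e9 : 6 * (2 : ℝ) ^ (2 * n) * τ * S ≤ modelCount φ * S :=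
    mul_le_mul_of_nonneg_right hnum hSpos
  have e10 : (2 : ℝ) ^ (2 * n) * ((1 / 2 : ℝ) ^ n * modelCount φ) ≤ modelCount φ * S := by
    calc _ ≤ (2 : ℝ) ^ (2 * n) * (6 * τ * S) := mul_le_mul_of_nonneg_left e8 (by positivity)
      _ = 6 * (2 : ℝ) ^ (2 * n) * τ * S := by ring
      _ ≤ _ := e9
  have e11 : (2 : ℝ) ^ (2 * n) * (1 / 2 : ℝ) ^ n = 2 ^ n := by
    rw [pow_mul', sq, mul_assoc, ← mul_pow]
    norm_num
  rw [← mul_assoc, e11, mul_comm] at e10
  exact le_of_mul_le_mul_left e10 hcpos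

end Pool.Agent.H548R2
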