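import Pool.Agent.H548R2.Arith
import Pool.Agent.H548R2.Main

/-!
Size times cancellation of decomposable arithmetic circuits.
-/

namespace Pool.Agent.H548R2

open Finset

section scaled

variable {V : Type} [Fintype V] [DecidableEq V] {w : (V → Bool) → ℝ} {τ : ℝ} {E : ℕ}

theorem disc_scaled (hw : Disc w τ E) (hτ : 0 ≤ τ) {t : (V → Bool) → ℝ} (ht : IsRect E t) {W : ℝ}
    (hW : ∀ a, |t a| ≤ W) : |∑ a, w a * t a| ≤ W * τ := by
  classical
  obtain ⟨X, h1, h2, A, B, hA, hB, htAB⟩ := ht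
  obtain ⟨a1, ha1⟩ := Finite.exists_max (fun a : V → Bool => |A a|)
  obtain ⟨a2, ha2⟩ := Finite.exists_max (fun a : V → Bool => |B a|)
  set a3 : V → Bool := fun v => if v ∈ X then a1 v else a2 v with ha3
  have e1 : A a3 = A a1 := hA fun x hx => by
    have hx' : x ∈ X := Finset.mem_coe.mp hx
    simp [ha3, hx']
  have e2 : B a3 = B a2 := hB fun x hx => by
    have hx' : x ∉ X := fun h => hx (Finset.mem_coe.mpr h)
    simp [ha3, hx']
  have e3 : |A a1| * |B a2| ≤ W := by
    rw [← e1, ← e2, ← abs_mul, ← htAB]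
    exact hW a3
  rcases (abs_nonneg (A a1)).eq_or_lt with hz | hU
  · have : ∀ a, t a = 0 := fun a => by
      have := ha1 a
      rw [htAB, abs_eq_zero.mp (le_antisymm (this.trans hz.symm.le) (abs_nonneg _)), zero_mul]
    simp only [this, mul_zero, Finset.sum_const_zero, abs_zero]
    exact mul_nonneg ((mul_nonneg (abs_nonneg _) (abs_nonneg _)).trans e3) hτ
  rcases (abs_nonneg (B a2)).eq_or_lt with hz | hU'
  · have : ∀ a, t a = 0 := fun a => by
      have := ha2 a
      rw [htAB, abs_eq_zero.mp (le_antisymm (this.trans hz.symm.le) (abs_nonneg _)), mul_zero]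
    simp only [this, mul_zero, Finset.sum_const_zero, abs_zero]
    exact mul_nonneg ((mul_nonneg (abs_nonneg _) (abs_nonneg _)).trans e3) hτ
  have key := hw X h1 h2 (fun a => A a / |A a1|) (fun a => B a / |B a2|)
    (fun a b hab => by show A a / |A a1| = A b / |A a1|; rw [hA hab])
    (fun a b hab => by show B a / |B a2| = B b / |B a2|; rw [hB hab])
    (fun a => by rw [abs_div, abs_abs]; exact (div_le_one hU).mpr (ha1 a))
    (fun a => by rw [abs_div, abs_abs]; exact (div_le_one hU').mpr (ha2 a))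
  have e4 : ∑ a, w a * t a = (|A a1| * |B a2|) *
      ∑ a, w a * (A a / |A a1| * (B a / |B a2|)) := by
    rw [Finset.mul_sum]
    refine Finset.sum_congr rfl fun a _ => ?_
    rw [htAB]
    field_simp
  rw [e4, abs_mul, abs_of_nonneg (mul_nonneg hU.le hU'.le)]
  exact mul_le_mul e3 key (abs_nonneg _) ((mul_nonneg hU.le hU'.le).trans e3)

end scaled

theorem list_sum_bound {α : Type} (T : List α) (f : α → ℝ) (b : ℝ) (h : ∀ t ∈ T, f t ≤ b) :
    (T.map f).sum ≤ T.length * b := by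
  induction T with
  | nil => simp
  | cons t T ih =>
    rw [List.map_cons, List.sum_cons, List.length_cons]
    have h1 := h t List.mem_cons_self
    have h2 := ih fun u hu => h u (List.mem_cons_of_mem _ hu)
    push_cast
    linarith

theorem list_single_le {α : Type} (T : List α) (f : α → ℝ) (hf : ∀ t ∈ T, 0 ≤ f t) {t : α}
    (ht : t ∈ T) : f t ≤ (T.map f).sum := by
  induction T with
  | nil => simp at ht
  | cons u T ih =>
    rw [List.map_cons, List.sum_cons]
    have h0 := hf u List.mem_cons_self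
    have h3 : 0 ≤ (T.map f).sum := List.sum_nonneg (by
      intro x hx
      obtain ⟨y, hy, rfl⟩ := List.mem_map.mp hx
      exact hf y (List.mem_cons_of_mem _ hy))
    rcases List.mem_cons.mp ht with rfl | ht
    · linarith
    · have := ih (fun y hy => hf y (List.mem_cons_of_mem _ hy)) ht
      linarith

theorem sum_list_comm {α β : Type} (s : Finset β) (T : List α) (f : α → β → ℝ) :
    ∑ b ∈ s, (T.map fun t => f t b).sum = (T.map fun t => ∑ b ∈ s, f t b).sum := by
  induction T with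
  | nil => simp
  | cons t T ih =>
    simp only [List.map_cons, List.sum_cons]
    rw [Finset.sum_add_distrib, ih]

theorem abs_list_sum_le {α : Type} (T : List α) (f : α → ℝ) :
    |(T.map f).sum| ≤ (T.map fun t => |f t|).sum := by
  induction T with
  | nil => simp
  | cons t T ih =>
    simp only [List.map_cons, List.sum_cons]
    exact (abs_add_le _ _).trans (add_le_add le_rfl ih)

theorem list_mul_sum {α : Type} (T : List α) (f : α → ℝ) (x : ℝ) :
    x * (T.map f).sum = (T.map fun t => x * f t).sum := by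
  induction T with
  | nil => simp
  | cons t T ih =>
    simp only [List.map_cons, List.sum_cons]
    rw [mul_add, ih]

/-- Discrepancy against mixtures of local functions. -/
theorem disc_mix {V : Type} [Fintype V] [DecidableEq V] {d E : ℕ}
    {w : (V → Bool) → ℝ} {τ : ℝ} (hτ : 0 ≤ τ)
    (hdisc : ∀ Ψ, IsLocal d Ψ → Disc (fun a => w a * Ψ a) τ E) {Ψ : (V → Bool) → ℝ}
    (hΨ : IsMix d Ψ) : Disc (fun a => w a * Ψ a) τ E := by
  obtain ⟨κ, _, l, Φ, h1, h2, h3⟩ := hΨ
  intro X hX1 hX2 A B hA hB hA1 hB1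
  have e : ∑ a, w a * Ψ a * (A a * B a) = ∑ k, l k * ∑ a, w a * Φ k a * (A a * B a) := by
    simp only [Finset.mul_sum]
    rw [Finset.sum_comm]
    refine Finset.sum_congr rfl fun a _ => ?_
    rw [h3, Finset.mul_sum, Finset.sum_mul]
    refine Finset.sum_congr rfl fun k _ => ?_
    ring
  rw [e]
  refine (Finset.abs_sum_le_sum_abs _ _).trans ?_
  have e2 : ∑ k, |l k * ∑ a, w a * Φ k a * (A a * B a)| ≤ ∑ k, |l k| * τ := by
    refine Finset.sum_le_sum fun k _ => ?_
    rw [abs_mul]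
    exact mul_le_mul_of_nonneg_left (hdisc _ (h1 k) X hX1 hX2 A B hA hB hA1 hB1) (abs_nonneg _)
  refine e2.trans ?_
  rw [← Finset.sum_mul]
  calc _ ≤ 1 * τ := mul_le_mul_of_nonneg_right h2 hτ
    _ = τ := one_mul _

/-- Correlation bound for arithmetic circuits. -/
theorem ACircuit.out_bound {V : Type} [Fintype V] [DecidableEq V] {C : ACircuit V} {d D E : ℕ}
    {w : (V → Bool) → ℝ} {τ : ℝ}
    (hdisc : ∀ Ψ, IsLocal d Ψ → Disc (fun a => w a * Ψ a) τ E) (hC : C.Valid d D) (hDE : D ≤ E)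
    (hE : 4 ≤ E) (hD : 2 ≤ D) (hV : 2 ≤ Fintype.card V) (hτ : 0 ≤ τ) {Ψ : (V → Bool) → ℝ}
    (hΨ : IsMix d Ψ) {W : ℝ} (hW : ∀ a, C.absVal C.out a ≤ W) :
    |∑ a, w a * (Ψ a * C.val C.out a)| ≤ 2 * C.size * W * τ := by
  obtain ⟨T, hT, hlen, hval, habs⟩ := ACircuit.decomp (C := C) hC hDE hE hD hV
  have e1 : ∑ a, w a * (Ψ a * C.val C.out a)
      = (T.map fun t => ∑ a, (w a * (Ψ a * t.2 a)) * t.1 a).sum := by
    rw [← sum_list_comm]
    refine Finset.sum_congr rfl fun a _ => ?_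
    rw [hval a, list_mul_sum, list_mul_sum]
    congr 1
    refine List.map_congr_left fun t _ => ?_
    ring
  have hW0 : 0 ≤ W := (C.absVal_nonneg _ _).trans (hW fun _ => true)
  rw [e1]
  refine (abs_list_sum_le _ _).trans ?_
  have e2 : ∀ t ∈ T, |∑ a, (w a * (Ψ a * t.2 a)) * t.1 a| ≤ W * τ := by
    intro t ht
    obtain ⟨h1, h2⟩ := hT t ht
    refine disc_scaled (disc_mix hτ hdisc (hΨ.mul h2)) hτ h1 fun a => ?_
    exact (list_single_le T (fun t => |t.1 a|) (fun _ _ => abs_nonneg _) ht).trans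
      ((habs a).trans (hW a))
  refine (list_sum_bound _ _ _ e2).trans ?_
  have h3 : (T.length : ℝ) ≤ 2 * C.size := by exact_mod_cast hlen
  have h4 : 0 ≤ W * τ := mul_nonneg hW0 hτ
  nlinarith [mul_le_mul_of_nonneg_right h3 h4]

theorem cancel_main (d D : ℕ) (hD : 2 ≤ D) : ∃ C : ℕ, ∀ n : ℕ, 1 ≤ n →
    ∃ (V : Type) (_ : Fintype V) (_ : DecidableEq V) (φ : CNF V),
      Fintype.card V ≤ C * n ∧ φ.length ≤ C * n ∧ (∀ K ∈ φ, K.length ≤ C) ∧
      (∀ v, Occurs v φ) ∧ 0 < modelCount φ ∧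
      ∀ (J : Type) (_ : Fintype J) (Ψ : J → (V → Bool) → ℝ) (A : J → ACircuit V) (W : J → ℝ),
        (∀ j, IsMix d (Ψ j)) → (∀ j, (A j).Valid d D) →
        (∀ j a, (A j).absVal (A j).out a ≤ W j) →
        ∑ a, |indicator φ a - ∑ j, Ψ j a * (A j).val (A j).out a|
          ≤ (1 - (1 / 2) ^ n) * modelCount φ →
        (2 : ℝ) ^ n ≤ ∑ j, (A j).size * W j := by
  obtain ⟨C, hC⟩ := exists_hard d (max D 4) (le_max_right _ _)
  refine ⟨C, fun n hn => ?_⟩
  obtain ⟨V, i1, i2, φ, w, τ, hV2, hV, hlen, hwid, hocc, hτ, hw1, hws, hdisc, hnum, hpos⟩ := hC n hn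
  refine ⟨V, i1, i2, φ, hV, hlen, hwid, hocc, hpos, ?_⟩
  intro J _ Ψ A W hΨ hA hW happ
  have hcount := modelCount_eq φ
  have e1 : ∑ a, w a * indicator φ a = modelCount φ := by
    rw [hcount]
    refine Finset.sum_congr rfl fun a _ => ?_
    unfold indicator
    split_ifs with h
    · rw [hws a h, mul_one]
    · simp
  set R : (V → Bool) → ℝ := fun a => ∑ j, Ψ j a * (A j).val (A j).out a with hR
  have e2 : |∑ a, w a * (indicator φ a - R a)| ≤ (1 - (1 / 2) ^ n) * modelCount φ := by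
    refine (Finset.abs_sum_le_sum_abs _ _).trans (le_trans (Finset.sum_le_sum fun a _ => ?_) happ)
    rw [abs_mul, hw1 a, one_mul]
  have e3 : ∑ a, w a * (indicator φ a - R a)
      = modelCount φ - ∑ a, w a * R a := by
    rw [← e1, ← Finset.sum_sub_distrib]
    refine Finset.sum_congr rfl fun a _ => ?_
    ring
  have e4 : (1 / 2 : ℝ) ^ n * modelCount φ ≤ ∑ a, w a * R a := by
    rw [e3] at e2
    have := (abs_le.mp e2).2
    linarith
  have e5 : ∑ a, w a * R a = ∑ j, ∑ a, w a * (Ψ j a * (A j).val (A j).out a) := by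
    simp only [hR, Finset.mul_sum]
    rw [Finset.sum_comm]
  have e6 : ∑ a, w a * R a ≤ ∑ j, 2 * (A j).size * W j * τ := by
    rw [e5]
    refine Finset.sum_le_sum fun j _ => ?_
    exact (le_abs_self _).trans (ACircuit.out_bound hdisc (hA j) (le_max_left _ _)
      (le_max_right _ _) hD hV2 hτ (hΨ j) (hW j))
  have e7 : ∑ j, 2 * (A j).size * W j * τ = 2 * τ * ∑ j, (A j).size * W j := by
    rw [Finset.mul_sum]
    refine Finset.sum_congr rfl fun j _ => ?_
    ring
  set S := ∑ j, (A j).size * W j with hS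
  have hcpos : (0 : ℝ) < modelCount φ := by exact_mod_cast hpos
  have e8 : (1 / 2 : ℝ) ^ n * modelCount φ ≤ 2 * τ * S := by
    rw [← e7]; exact e4.trans e6
  have hSpos : 0 ≤ S := by
    refine Finset.sum_nonneg fun j _ => mul_nonneg (Nat.cast_nonneg _) ?_
    exact ((A j).absVal_nonneg _ _).trans (hW j fun _ => true)
  have e9 : 6 * (2 : ℝ) ^ (2 * n) * τ * S ≤ modelCount φ * S :=
    mul_le_mul_of_nonneg_right hnum hSpos
  have e10 : (2 : ℝ) ^ (2 * n) * ((1 / 2 : ℝ) ^ n * modelCount φ) ≤ modelCount φ * S := by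
    calc _ ≤ (2 : ℝ) ^ (2 * n) * (2 * τ * S) := mul_le_mul_of_nonneg_left e8 (by positivity)
      _ ≤ 6 * (2 : ℝ) ^ (2 * n) * τ * S := by
          have : 0 ≤ (2 : ℝ) ^ (2 * n) * τ * S := by positivity
          nlinarith
      _ ≤ _ := e9
  have e11 : (2 : ℝ) ^ (2 * n) * (1 / 2 : ℝ) ^ n = 2 ^ n := by
    rw [pow_mul', sq, mul_assoc, ← mul_pow]
    norm_num
  rw [← mul_assoc, e11, mul_comm] at e10
  exact le_of_mul_le_mul_left e10 hcpos

end Pool.Agent.H548R2
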