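import Pool.Agent.H548R2.Cross

/-!
Every balanced partition of the variables is crossed by many monomials.
-/

namespace Pool.Agent.H548R2

open Finset

section

variable {r B L d : ℕ}

@[simp] theorem vU_inj {t t' : Fin r × Fin B} : (vU t : Var r B L d) = vU t' ↔ t = t' := by
  simp [vU]
@[simp] theorem vW_inj {t t' : Fin r × Fin B} : (vW t : Var r B L d) = vW t' ↔ t = t' := by
  simp [vW]
@[simp] theorem vY_inj {t t' : Fin r × Fin B} {l l' : Fin L} {s s' : Fin (d + 2)} :
    (vY t l s : Var r B L d) = vY t' l' s' ↔ t = t' ∧ l = l' ∧ s = s' := by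
  simp [vY]
@[simp] theorem vP_inj {j j' : Fin (r + 1)} : (vP j : Var r B L d) = vP j' ↔ j = j' := by
  simp [vP]
@[simp] theorem vU_ne_vW {t t' : Fin r × Fin B} : (vU t : Var r B L d) ≠ vW t' := by
  simp [vU, vW]
@[simp] theorem vW_ne_vU {t t' : Fin r × Fin B} : (vW t : Var r B L d) ≠ vU t' := by
  simp [vU, vW]
@[simp] theorem vU_ne_vY {t t' : Fin r × Fin B} {l : Fin L} {s : Fin (d + 2)} :
    (vU t : Var r B L d) ≠ vY t' l s := by
  simp [vU, vY]
@[simp] theorem vY_ne_vU {t t' : Fin r × Fin B} {l : Fin L} {s : Fin (d + 2)} :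
    (vY t' l s : Var r B L d) ≠ vU t := by
  simp [vU, vY]
@[simp] theorem vW_ne_vY {t t' : Fin r × Fin B} {l : Fin L} {s : Fin (d + 2)} :
    (vW t : Var r B L d) ≠ vY t' l s := by
  simp [vW, vY]
@[simp] theorem vY_ne_vW {t t' : Fin r × Fin B} {l : Fin L} {s : Fin (d + 2)} :
    (vY t' l s : Var r B L d) ≠ vW t := by
  simp [vW, vY]
@[simp] theorem vP_ne_vU {t : Fin r × Fin B} {j : Fin (r + 1)} :
    (vP j : Var r B L d) ≠ vU t := by
  simp [vU, vP]
@[simp] theorem vP_ne_vW {t : Fin r × Fin B} {j : Fin (r + 1)} :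
    (vP j : Var r B L d) ≠ vW t := by
  simp [vW, vP]
@[simp] theorem vP_ne_vY {t : Fin r × Fin B} {l : Fin L} {s : Fin (d + 2)} {j : Fin (r + 1)} :
    (vP j : Var r B L d) ≠ vY t l s := by
  simp [vY, vP]

theorem mem_mon_true (f : Fin r × Fin B → Fin L → Fin r × Fin B) (t : Fin r × Fin B) (l : Fin L)
    (x : Var r B L d) : x ∈ mon f (t, l, true) ↔ x = vU t ∨ ∃ s, x = vY t l s := by
  unfold mon
  simp only [if_true, Finset.mem_insert, Finset.mem_image, Finset.mem_univ, true_and]
  refine or_congr Iff.rfl ⟨?_, ?_⟩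
  · rintro ⟨s, rfl⟩; exact ⟨s, rfl⟩
  · rintro ⟨s, rfl⟩; exact ⟨s, rfl⟩

theorem mem_mon_false (f : Fin r × Fin B → Fin L → Fin r × Fin B) (t : Fin r × Fin B) (l : Fin L)
    (x : Var r B L d) : x ∈ mon f (t, l, false) ↔
      x = vU t ∨ x = vW (f t l) ∨ ∃ s : Fin (d + 1), x = vY t l s.castSucc := by
  unfold mon
  simp only [Bool.false_eq_true, if_false, Finset.mem_insert, Finset.mem_image, Finset.mem_univ,
    true_and]
  refine or_congr Iff.rfl (or_congr Iff.rfl ⟨?_, ?_⟩)
  · rintro ⟨s, rfl⟩; exact ⟨s, rfl⟩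
  · rintro ⟨s, rfl⟩; exact ⟨s, rfl⟩

theorem cross_case1 (f : Fin r × Fin B → Fin L → Fin r × Fin B) (m : ℕ)
    (X : Finset (Var r B L d)) (t : Fin m → Fin r × Fin B) (l : Fin m → Fin L)
    (ht : Function.Injective t) (hw : Function.Injective (fun e => f (t e) (l e)))
    (hU : ∀ e, vU (t e) ∈ X) (hW : ∀ e, vW (f (t e) (l e)) ∉ X) : Cross f m X := by
  let v : Fin (d + 1 + 1 + 1) → Fin m → Var r B L d :=
    Fin.cons (fun e => vU (t e)) (Fin.cons (fun e => vW (f (t e) (l e)))
      (fun (s : Fin (d + 1)) e => vY (t e) (l e) s.castSucc))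
  have v0 : ∀ e, v 0 e = vU (t e) := fun e => rfl
  have v1 : ∀ e, v (Fin.succ 0) e = vW (f (t e) (l e)) := fun e => rfl
  have v2 : ∀ (s : Fin (d + 1)) e, v (Fin.succ (Fin.succ s)) e = vY (t e) (l e) s.castSucc :=
    fun s e => rfl
  refine ⟨v, fun e => (t e, l e, false), ?_, ?_, ?_, ?_, ⟨0, fun e => by rw [v0]; exact hU e⟩,
    ⟨Fin.succ 0, fun e => by rw [v1]; exact hW e⟩⟩
  · rintro ⟨i, e⟩ ⟨j, e'⟩ h
    simp only at h
    induction i using Fin.cases with
    | zero =>
      induction j using Fin.cases with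
      | zero =>
        rw [v0, v0, vU_inj] at h
        rw [ht h]
      | succ j =>
        induction j using Fin.cases with
        | zero => rw [v0, v1] at h; exact absurd h vU_ne_vW
        | succ j => rw [v0, v2] at h; exact absurd h vU_ne_vY
    | succ i =>
      induction i using Fin.cases with
      | zero =>
        induction j using Fin.cases with
        | zero => rw [v0, v1] at h; exact absurd h vW_ne_vU
        | succ j =>
          induction j using Fin.cases with
          | zero =>
            rw [v1, v1, vW_inj] at h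
            rw [hw h]
          | succ j => rw [v1, v2] at h; exact absurd h vW_ne_vY
      | succ i =>
        induction j using Fin.cases with
        | zero => rw [v0, v2] at h; exact absurd h vY_ne_vU
        | succ j =>
          induction j using Fin.cases with
          | zero => rw [v1, v2] at h; exact absurd h vY_ne_vW
          | succ j =>
            rw [v2, v2, vY_inj] at h
            obtain ⟨h1, h2, h3⟩ := h
            rw [ht h1, Fin.castSucc_injective _ h3]
  · intro e e' h
    exact ht (congrArg Prod.fst h)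
  · intro e x
    rw [mem_mon_false]
    constructor
    · rintro (rfl | rfl | ⟨s, rfl⟩)
      · exact ⟨0, v0 e⟩
      · exact ⟨Fin.succ 0, v1 e⟩
      · exact ⟨Fin.succ (Fin.succ s), v2 s e⟩
    · rintro ⟨i, rfl⟩
      induction i using Fin.cases with
      | zero => left; exact v0 e
      | succ i =>
        induction i using Fin.cases with
        | zero => right; left; exact v1 e
        | succ i => right; right; exact ⟨i, v2 i e⟩
  · rintro ⟨t', l', b⟩ hq
    cases b
    · -- first kind, another edge: the first private block is missed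
      refine ⟨Fin.succ (Fin.succ 0), fun e => ?_⟩
      rw [v2, mem_mon_false]
      rintro (h | h | ⟨s, h⟩)
      · exact absurd h vY_ne_vU
      · exact absurd h vY_ne_vW
      · rw [vY_inj] at h
        apply hq e
        show (t e, l e, false) = (t', l', false)
        rw [h.1, h.2.1]
    · refine ⟨Fin.succ 0, fun e => ?_⟩
      rw [v1, mem_mon_true]
      rintro (h | ⟨s, h⟩)
      · exact absurd h vW_ne_vU
      · exact absurd h vW_ne_vY

theorem cross_case2 (f : Fin r × Fin B → Fin L → Fin r × Fin B) (m : ℕ)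
    (X : Finset (Var r B L d)) (t : Fin m → Fin r × Fin B) (l : Fin m → Fin L)
    (s : Fin m → Fin (d + 2))
    (ht : Function.Injective t)
    (hU : ∀ e, vU (t e) ∈ X) (hY : ∀ e, vY (t e) (l e) (s e) ∉ X) : Cross f m X := by
  let v : Fin (d + 2 + 1) → Fin m → Var r B L d :=
    Fin.cons (fun e => vU (t e)) (fun (i : Fin (d + 2)) e => vY (t e) (l e)
      (Equiv.swap 0 (s e) i))
  have v0 : ∀ e, v 0 e = vU (t e) := fun e => rfl
  have v1 : ∀ (i : Fin (d + 2)) e, v (Fin.succ i) e = vY (t e) (l e) (Equiv.swap 0 (s e) i) :=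
    fun i e => rfl
  refine ⟨v, fun e => (t e, l e, true), ?_, ?_, ?_, ?_, ⟨0, fun e => by rw [v0]; exact hU e⟩,
    ⟨Fin.succ 0, fun e => by rw [v1, Equiv.swap_apply_left]; exact hY e⟩⟩
  · rintro ⟨i, e⟩ ⟨j, e'⟩ h
    simp only at h
    induction i using Fin.cases with
    | zero =>
      induction j using Fin.cases with
      | zero =>
        rw [v0, v0, vU_inj] at h
        rw [ht h]
      | succ j => rw [v0, v1] at h; exact absurd h vU_ne_vY
    | succ i =>
      induction j using Fin.cases with
      | zero => rw [v0, v1] at h; exact absurd h vY_ne_vU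
      | succ j =>
        rw [v1, v1, vY_inj] at h
        obtain ⟨h1, h2, h3⟩ := h
        have h4 := ht h1
        subst h4
        rw [(Equiv.swap 0 (s e)).injective h3]
  · intro e e' h
    exact ht (congrArg Prod.fst h)
  · intro e x
    rw [mem_mon_true]
    constructor
    · rintro (rfl | ⟨i, rfl⟩)
      · exact ⟨0, v0 e⟩
      · refine ⟨Fin.succ (Equiv.swap 0 (s e) i), ?_⟩
        rw [v1, Equiv.swap_apply_self]
    · rintro ⟨i, rfl⟩
      induction i using Fin.cases with
      | zero => left; exact v0 e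
      | succ i => right; exact ⟨_, v1 i e⟩
  · rintro ⟨t', l', b⟩ hq
    cases b
    · by_cases hex : ∃ e0, t e0 = t' ∧ l e0 = l'
      · obtain ⟨e0, rfl, rfl⟩ := hex
        refine ⟨Fin.succ (Equiv.swap 0 (s e0) (Fin.last (d + 1))), fun e => ?_⟩
        rw [v1, mem_mon_false]
        rintro (h | h | ⟨i, h⟩)
        · exact absurd h vY_ne_vU
        · exact absurd h vY_ne_vW
        · rw [vY_inj] at h
          obtain ⟨h1, h2, h3⟩ := h
          have h4 := ht h1
          subst h4
          rw [Equiv.swap_apply_self] at h3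
          exact (Fin.castSucc_lt_last i).ne h3.symm
      · refine ⟨Fin.succ 0, fun e => ?_⟩
        rw [v1, mem_mon_false]
        rintro (h | h | ⟨i, h⟩)
        · exact absurd h vY_ne_vU
        · exact absurd h vY_ne_vW
        · rw [vY_inj] at h
          exact hex ⟨e, h.1, h.2.1⟩
    · refine ⟨Fin.succ 0, fun e => ?_⟩
      rw [v1, mem_mon_true]
      rintro (h | ⟨i, h⟩)
      · exact absurd h vY_ne_vU
      · rw [vY_inj] at h
        apply hq e
        show (t e, l e, true) = (t', l', true)
        rw [h.1, h.2.1]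

/-- The two good cases for a set `X`. -/
theorem cross_aux (f : Fin r × Fin B → Fin L → Fin r × Fin B) (m E : ℕ) (hm : r ≤ m)
    (hr : 1 ≤ r) (hT : r * B = 16 * E * m) (hE : 1 ≤ E) 
    (hf : ∀ A B' : Finset (Fin r × Fin B), m ≤ A.card → m ≤ B'.card → ∃ t ∈ A, ∃ l, f t l ∈ B')
    (X : Finset (Var r B L d)) (hX : Fintype.card (Var r B L d) ≤ E * (Xᶜ).card)
    (h : (2 * m ≤ (Finset.univ.filter (fun t : Fin r × Fin B => (vU t : Var r B L d) ∈ X)).card ∧
          2 * m ≤ (Finset.univ.filter (fun t : Fin r × Fin B => (vW t : Var r B L d) ∉ X)).card) ∨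
        ((Finset.univ.filter (fun t : Fin r × Fin B => (vU t : Var r B L d) ∉ X)).card < 2 * m ∧
          (Finset.univ.filter (fun t : Fin r × Fin B => (vW t : Var r B L d) ∉ X)).card < 2 * m)) :
    Cross f m X := by
  classical
  rcases h with ⟨h1, h2⟩ | ⟨h1, h2⟩
  · obtain ⟨t, l, a1, a2, a3, a4⟩ := exists_matching m f hf _ _ h1 h2
    refine cross_case1 f m X t l a1 a2 (fun e => ?_) (fun e => ?_)
    · exact (Finset.mem_filter.mp (a3 e)).2
    · exact (Finset.mem_filter.mp (a4 e)).2
  · set UX := Finset.univ.filter (fun t : Fin r × Fin B => (vU t : Var r B L d) ∉ X) with hUX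
    set WX := Finset.univ.filter (fun t : Fin r × Fin B => (vW t : Var r B L d) ∉ X) with hWX
    set Z := Finset.univ.filter (fun t : Fin r × Fin B => ∃ l s, (vY t l s : Var r B L d) ∉ X)
      with hZ
    set YX : Finset ((Fin r × Fin B) × Fin L × Fin (d + 2)) := Finset.univ.filter
      (fun y => (vY y.1 y.2.1 y.2.2 : Var r B L d) ∉ X) with hYX
    have c1 : (Xᶜ).card ≤ UX.card + WX.card + YX.card + (r + 1) := by
      have hsub : Xᶜ ⊆ (UX.image vU ∪ WX.image vW) ∪
          (YX.image (fun y => vY y.1 y.2.1 y.2.2)) ∪ (Finset.univ.image vP) := by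
        intro x hx
        rw [Finset.mem_compl] at hx
        rcases x with t | t | y | j
        · refine Finset.mem_union_left _ (Finset.mem_union_left _ (Finset.mem_union_left _ ?_))
          exact Finset.mem_image.mpr ⟨t, Finset.mem_filter.mpr ⟨Finset.mem_univ _, hx⟩, rfl⟩
        · refine Finset.mem_union_left _ (Finset.mem_union_left _ (Finset.mem_union_right _ ?_))
          exact Finset.mem_image.mpr ⟨t, Finset.mem_filter.mpr ⟨Finset.mem_univ _, hx⟩, rfl⟩
        · refine Finset.mem_union_left _ (Finset.mem_union_right _ ?_)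
          exact Finset.mem_image.mpr ⟨y, Finset.mem_filter.mpr ⟨Finset.mem_univ _, hx⟩, rfl⟩
        · refine Finset.mem_union_right _ ?_
          exact Finset.mem_image.mpr ⟨j, Finset.mem_univ _, rfl⟩
      refine (Finset.card_le_card hsub).trans ?_
      refine (Finset.card_union_le _ _).trans ?_
      have a1 : (Finset.univ.image (vP : Fin (r + 1) → Var r B L d)).card ≤ r + 1 := by
        refine Finset.card_image_le.trans ?_
        simp
      have a2 : (YX.image (fun y => (vY y.1 y.2.1 y.2.2 : Var r B L d))).card ≤ YX.card :=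
        Finset.card_image_le
      have a3 : (UX.image (vU : _ → Var r B L d)).card ≤ UX.card := Finset.card_image_le
      have a4 : (WX.image (vW : _ → Var r B L d)).card ≤ WX.card := Finset.card_image_le
      have a5 := Finset.card_union_le (UX.image (vU : _ → Var r B L d)) (WX.image vW)
      have a6 := Finset.card_union_le (UX.image (vU : _ → Var r B L d) ∪ WX.image vW)
        (YX.image (fun y => (vY y.1 y.2.1 y.2.2 : Var r B L d)))
      omega
    have c2 : YX.card ≤ Z.card * (L * (d + 2)) := by
      have hsub : YX ⊆ Z ×ˢ (Finset.univ : Finset (Fin L × Fin (d + 2))) := by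
        intro y hy
        rw [Finset.mem_filter] at hy
        rw [Finset.mem_product]
        refine ⟨Finset.mem_filter.mpr ⟨Finset.mem_univ _, y.2.1, y.2.2, hy.2⟩, Finset.mem_univ _⟩
      refine (Finset.card_le_card hsub).trans ?_
      rw [Finset.card_product, Finset.card_univ]
      simp
    have c3 : 3 * m < Z.card := by
      by_contra hcon
      push Not at hcon
      have e1 : YX.card ≤ 3 * m * (L * (d + 2)) := c2.trans (Nat.mul_le_mul_right _ hcon)
      rw [card_var] at hX
      have e2 : (Xᶜ).card ≤ 4 * m + 3 * m * (L * (d + 2)) + 2 * m := by omega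
      have e3 : E * (Xᶜ).card ≤ E * (4 * m + 3 * m * (L * (d + 2)) + 2 * m) :=
        Nat.mul_le_mul_left _ e2
      rw [hT] at hX
      have e4 : E * (4 * m + 3 * m * (L * (d + 2)) + 2 * m)
          ≤ 16 * E * m * (L * (d + 2)) + 6 * (E * m) := by
        have : 3 * (E * m * (L * (d + 2))) ≤ 16 * (E * m * (L * (d + 2))) :=
          Nat.mul_le_mul_right _ (by norm_num)
        nlinarith
      have e5 : 1 ≤ E * m := Nat.mul_pos (by omega) (by omega)
      nlinarith
    have c4 : m ≤ (Z \ UX).card := by
      have := Finset.le_card_sdiff UX Z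
      omega
    obtain ⟨Z', hZ', hZ'c⟩ := Finset.exists_subset_card_eq c4
    let eqv : Fin m ≃ Z' := (Finset.equivFinOfCardEq hZ'c).symm
    have hmem : ∀ e : Fin m, (vU ((eqv e : Z') : Fin r × Fin B) : Var r B L d) ∈ X ∧
        ∃ l s, (vY ((eqv e : Z') : Fin r × Fin B) l s : Var r B L d) ∉ X := by
      intro e
      have h1 := hZ' (eqv e).2
      rw [Finset.mem_sdiff] at h1
      constructor
      · by_contra hcon
        exact h1.2 (Finset.mem_filter.mpr ⟨Finset.mem_univ _, hcon⟩)
      · exact (Finset.mem_filter.mp h1.1).2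
    choose l s hls using fun e => (hmem e).2
    refine cross_case2 f m X (fun e => ((eqv e : Z') : Fin r × Fin B)) l s ?_
      (fun e => (hmem e).1) hls
    intro e e' h
    exact eqv.injective (Subtype.ext h)

theorem cross_all (f : Fin r × Fin B → Fin L → Fin r × Fin B) (m E : ℕ) (hm : r ≤ m)
    (hr : 1 ≤ r) (hT : r * B = 16 * E * m) (hE : 1 ≤ E)
    (hf : ∀ A B' : Finset (Fin r × Fin B), m ≤ A.card → m ≤ B'.card → ∃ t ∈ A, ∃ l, f t l ∈ B')
    (X : Finset (Var r B L d)) (hX : Fintype.card (Var r B L d) ≤ E * X.card)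
    (hXc : Fintype.card (Var r B L d) ≤ E * (Xᶜ).card) : Cross f m X := by
  classical
  have hcard : Fintype.card (Fin r × Fin B) = r * B := by simp
  have u1 := Finset.card_filter_add_card_filter_not (s := (Finset.univ : Finset (Fin r × Fin B)))
    (fun t : Fin r × Fin B => (vU t : Var r B L d) ∈ X)
  have w1 := Finset.card_filter_add_card_filter_not (s := (Finset.univ : Finset (Fin r × Fin B)))
    (fun t : Fin r × Fin B => (vW t : Var r B L d) ∈ X)
  rw [Finset.card_univ, hcard, hT] at u1 w1
  have hEm : m ≤ E * m := Nat.le_mul_of_pos_left _ hE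
  have h16 : 16 * E * m = 16 * (E * m) := by ring
  by_cases hA : (2 * m ≤ (Finset.univ.filter
      (fun t : Fin r × Fin B => (vU t : Var r B L d) ∈ X)).card ∧
          2 * m ≤ (Finset.univ.filter (fun t : Fin r × Fin B => (vW t : Var r B L d) ∉ X)).card) ∨
        ((Finset.univ.filter (fun t : Fin r × Fin B => (vU t : Var r B L d) ∉ X)).card < 2 * m ∧
          (Finset.univ.filter (fun t : Fin r × Fin B => (vW t : Var r B L d) ∉ X)).card < 2 * m)
  · exact cross_aux f m E hm hr hT hE hf X hXc hA
  · apply Cross.symm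
    refine cross_aux f m E hm hr hT hE hf Xᶜ (by rw [compl_compl]; exact hX) ?_
    simp only [Finset.mem_compl, not_not]
    omega

end

end Pool.Agent.H548R2
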