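import Mathlib

/-!
Deterministic decomposable circuits with exclusive-or (hence negation) gates whose leaves are
arbitrary functions ignoring a fixed fraction of the variables.
-/

namespace Pool.Agent.H548R2

open Finset

/-- Gate number `k` of a circuit over the variable set `V`: a leaf computing an arbitrary Boolean
function `g` with declared variable set `S`, or a binary gate whose inputs are earlier gates. -/
inductive Gate (V : Type) (k : ℕ) : Type
  | leaf (S : Finset V) (g : (V → Bool) → Bool)
  | and (i j : Fin k)
  | or (i j : Fin k)
  | xor (i j : Fin k)

/-- A circuit: the gates number `0, ..., out`, the last of them being the output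
(gates with number larger than `out` are irrelevant). Gates can be used any number of times. -/
structure Circuit (V : Type) where
  gate : (k : ℕ) → Gate V k
  out : ℕ

namespace Circuit

variable {V : Type}

/-- Number of gates. -/
def size (C : Circuit V) : ℕ := C.out + 1

/-- Value of gate number `k` at the assignment `a`. -/
def val (C : Circuit V) (k : ℕ) (a : V → Bool) : Bool :=
  match C.gate k with
  | .leaf _ g => g a
  | .and i j => C.val i a && C.val j a
  | .or i j => C.val i a || C.val j a
  | .xor i j => Bool.xor (C.val i a) (C.val j a)
termination_by k
decreasing_by
  all_goals first | exact i.2 | exact j.2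

/-- The set of variables below gate number `k`. -/
def vars [DecidableEq V] (C : Circuit V) (k : ℕ) : Finset V :=
  match C.gate k with
  | .leaf S _ => S
  | .and i j => C.vars i ∪ C.vars j
  | .or i j => C.vars i ∪ C.vars j
  | .xor i j => C.vars i ∪ C.vars j
termination_by k
decreasing_by
  all_goals first | exact i.2 | exact j.2

/-- Gate `k` is big if fewer than `|V| / D` variables are missing below it. -/
def Big [Fintype V] [DecidableEq V] (C : Circuit V) (D k : ℕ) : Prop :=
  D * ((C.vars k)ᶜ).card < Fintype.card V

instance [Fintype V] [DecidableEq V] (C : Circuit V) (D k : ℕ) : Decidable (C.Big D k) :=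
  inferInstanceAs (Decidable (_ < _))

/-- The circuit is deterministic and decomposable, and its leaves are not big: a leaf may compute
any Boolean function that ignores at least `|V| / D` of the variables. -/
def Valid [Fintype V] [DecidableEq V] (C : Circuit V) (D : ℕ) : Prop :=
  ∀ k ≤ C.out, match C.gate k with
    | .leaf S g => DependsOn g (S : Set V) ∧ ¬ C.Big D k
    | .and i j => Disjoint (C.vars i) (C.vars j)
    | .or i j => ∀ a, ¬ (C.val i a = true ∧ C.val j a = true)
    | .xor i j => Disjoint (C.vars i) (C.vars j)

/-- The big exclusive-or gates that can be reached from gate `k` (itself included) going down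
through big `and`- and `or`-gates only. -/
def blocks [Fintype V] [DecidableEq V] (C : Circuit V) (D : ℕ) (k : ℕ) : Finset ℕ :=
  if C.Big D k then
    match C.gate k with
    | .leaf _ _ => ∅
    | .and i j => C.blocks D i ∪ C.blocks D j
    | .or i j => C.blocks D i ∪ C.blocks D j
    | .xor _ _ => {k}
  else ∅
termination_by k
decreasing_by
  all_goals first | exact i.2 | exact j.2

/-- The inputs of an exclusive-or gate. -/
def xorInputs (C : Circuit V) (h : ℕ) : Finset ℕ :=
  match C.gate h with
  | .xor i j => {i.1, j.1}
  | _ => ∅

/-- The number of descending chains of big exclusive-or gates starting at gate `k`: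
`chains k = 1 + ∑ chains i`, the sum being over all pairs `(h, i)` where `h ∈ blocks k` and `i`
is an input of `h`. -/
def chains [Fintype V] [DecidableEq V] (C : Circuit V) (D : ℕ) (k : ℕ) : ℕ :=
  1 + ∑ i : Fin k, ((C.blocks D k).filter (fun h => i.1 ∈ C.xorInputs h)).card * C.chains D i
termination_by k
decreasing_by
  exact i.2

end Circuit

end Pool.Agent.H548R2
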