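import Pool.Agent.H548R2.Circ

/-!
The correlation of a deterministic decomposable circuit with a weight that has small correlation
with all balanced rectangles.
-/

namespace Pool.Agent.H548R2

open Finset

variable {V : Type}

namespace Circuit

section basic

variable (C : Circuit V)

/-- real value of a gate -/
def fr (k : ℕ) (a : V → Bool) : ℝ := if C.val k a = true then 1 else 0

theorem fr_nonneg (k : ℕ) (a : V → Bool) : 0 ≤ C.fr k a := by
  unfold fr; split_ifs <;> norm_num

theorem fr_le_one (k : ℕ) (a : V → Bool) : C.fr k a ≤ 1 := by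
  unfold fr; split_ifs <;> norm_num

theorem abs_fr_le (k : ℕ) (a : V → Bool) : |C.fr k a| ≤ 1 := by
  rw [abs_of_nonneg (C.fr_nonneg k a)]; exact C.fr_le_one k a

theorem val_leaf {k : ℕ} {S : Finset V} {g : (V → Bool) → Bool} (h : C.gate k = .leaf S g)
    (a : V → Bool) : C.val k a = g a := by
  rw [val, h]

theorem val_and {k : ℕ} {i j : Fin k} (h : C.gate k = .and i j)
    (a : V → Bool) : C.val k a = (C.val i a && C.val j a) := by
  rw [val, h]

theorem val_or {k : ℕ} {i j : Fin k} (h : C.gate k = .or i j)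
    (a : V → Bool) : C.val k a = (C.val i a || C.val j a) := by
  rw [val, h]

theorem val_xor {k : ℕ} {i j : Fin k} (h : C.gate k = .xor i j)
    (a : V → Bool) : C.val k a = Bool.xor (C.val i a) (C.val j a) := by
  rw [val, h]

variable [DecidableEq V]

theorem vars_leaf {k : ℕ} {S : Finset V} {g : (V → Bool) → Bool} (h : C.gate k = .leaf S g) :
    C.vars k = S := by
  rw [vars, h]

theorem vars_and {k : ℕ} {i j : Fin k} (h : C.gate k = .and i j) :
    C.vars k = C.vars i ∪ C.vars j := by
  rw [vars, h]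

theorem vars_or {k : ℕ} {i j : Fin k} (h : C.gate k = .or i j) :
    C.vars k = C.vars i ∪ C.vars j := by
  rw [vars, h]

theorem vars_xor {k : ℕ} {i j : Fin k} (h : C.gate k = .xor i j) :
    C.vars k = C.vars i ∪ C.vars j := by
  rw [vars, h]

variable [Fintype V]

theorem valid_leaf {D : ℕ} (hC : C.Valid D) {k : ℕ} (hk : k ≤ C.out)
    {S : Finset V} {g : (V → Bool) → Bool} (h : C.gate k = .leaf S g) :
    DependsOn g (S : Set V) ∧ ¬ C.Big D k := by
  have := hC k hk
  rw [h] at this
  exact this

theorem valid_and {D : ℕ} (hC : C.Valid D) {k : ℕ} (hk : k ≤ C.out)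
    {i j : Fin k} (h : C.gate k = .and i j) : Disjoint (C.vars i) (C.vars j) := by
  have := hC k hk
  rw [h] at this
  exact this

theorem valid_or {D : ℕ} (hC : C.Valid D) {k : ℕ} (hk : k ≤ C.out)
    {i j : Fin k} (h : C.gate k = .or i j) : ∀ a, ¬ (C.val i a = true ∧ C.val j a = true) := by
  have := hC k hk
  rw [h] at this
  exact this

theorem valid_xor {D : ℕ} (hC : C.Valid D) {k : ℕ} (hk : k ≤ C.out)
    {i j : Fin k} (h : C.gate k = .xor i j) : Disjoint (C.vars i) (C.vars j) := by
  have := hC k hk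
  rw [h] at this
  exact this

theorem fr_and {k : ℕ} {i j : Fin k} (h : C.gate k = .and i j)
    (a : V → Bool) : C.fr k a = C.fr i a * C.fr j a := by
  unfold fr
  rw [C.val_and h]
  cases C.val i a <;> cases C.val j a <;> simp

theorem fr_or {D : ℕ} (hC : C.Valid D) {k : ℕ} (hk : k ≤ C.out) {i j : Fin k}
    (h : C.gate k = .or i j) (a : V → Bool) : C.fr k a = C.fr i a + C.fr j a := by
  have h2 := C.valid_or hC hk h a
  unfold fr
  rw [C.val_or h]
  revert h2
  cases C.val i a <;> cases C.val j a <;> simp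

theorem fr_xor {k : ℕ} {i j : Fin k} (h : C.gate k = .xor i j)
    (a : V → Bool) : C.fr k a = C.fr i a + C.fr j a - 2 * C.fr i a * C.fr j a := by
  unfold fr
  rw [C.val_xor h]
  cases C.val i a <;> cases C.val j a <;> simp
  norm_num

theorem fr_dep {D : ℕ} (hC : C.Valid D) : ∀ k ≤ C.out,
    DependsOn (C.fr k) (C.vars k : Set V) := by
  intro k
  induction k using Nat.strong_induction_on with
  | _ k ih =>
    intro hk a b hab
    rcases hg : C.gate k with ⟨S, g⟩ | ⟨i, j⟩ | ⟨i, j⟩ | ⟨i, j⟩
    · have h1 := (C.valid_leaf hC hk hg).1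
      unfold fr
      rw [C.val_leaf hg, C.val_leaf hg]
      rw [C.vars_leaf hg] at hab
      rw [h1 hab]
    · have hi := ih i i.2 (i.2.le.trans hk)
      have hj := ih j j.2 (j.2.le.trans hk)
      rw [C.vars_and hg] at hab
      rw [C.fr_and hg, C.fr_and hg]
      rw [hi (fun x hx => hab x (by simp [Finset.mem_coe.mp hx])),
        hj (fun x hx => hab x (by simp [Finset.mem_coe.mp hx]))]
    · have hi := ih i i.2 (i.2.le.trans hk)
      have hj := ih j j.2 (j.2.le.trans hk)
      rw [C.vars_or hg] at hab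
      rw [C.fr_or hC hk hg, C.fr_or hC hk hg]
      rw [hi (fun x hx => hab x (by simp [Finset.mem_coe.mp hx])),
        hj (fun x hx => hab x (by simp [Finset.mem_coe.mp hx]))]
    · have hi := ih i i.2 (i.2.le.trans hk)
      have hj := ih j j.2 (j.2.le.trans hk)
      rw [C.vars_xor hg] at hab
      rw [C.fr_xor hg, C.fr_xor hg]
      rw [hi (fun x hx => hab x (by simp [Finset.mem_coe.mp hx])),
        hj (fun x hx => hab x (by simp [Finset.mem_coe.mp hx]))]

theorem big_mono {D : ℕ} {i k : ℕ} (h : C.vars i ⊆ C.vars k) (hi : C.Big D i) : C.Big D k := by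
  unfold Big at *
  refine lt_of_le_of_lt ?_ hi
  refine Nat.mul_le_mul_left _ (Finset.card_le_card ?_)
  exact Finset.compl_subset_compl.mpr h

theorem blocks_not_big {D k : ℕ} (h : ¬ C.Big D k) : C.blocks D k = ∅ := by
  rw [blocks, if_neg h]

theorem blocks_and {D : ℕ} {k : ℕ} (hb : C.Big D k) {i j : Fin k} (h : C.gate k = .and i j) :
    C.blocks D k = C.blocks D i ∪ C.blocks D j := by
  rw [blocks, if_pos hb, h]

theorem blocks_or {D : ℕ} {k : ℕ} (hb : C.Big D k) {i j : Fin k} (h : C.gate k = .or i j) :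
    C.blocks D k = C.blocks D i ∪ C.blocks D j := by
  rw [blocks, if_pos hb, h]

theorem blocks_xor {D : ℕ} {k : ℕ} (hb : C.Big D k) {i j : Fin k} (h : C.gate k = .xor i j) :
    C.blocks D k = {k} := by
  rw [blocks, if_pos hb, h]

theorem blocks_le {D : ℕ} : ∀ k, ∀ h ∈ C.blocks D k, h ≤ k := by
  intro k
  induction k using Nat.strong_induction_on with
  | _ k ih =>
    intro h hh
    by_cases hb : C.Big D k
    · rcases hg : C.gate k with ⟨S, g⟩ | ⟨i, j⟩ | ⟨i, j⟩ | ⟨i, j⟩
      · rw [blocks, if_pos hb, hg] at hh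
        simp at hh
      · rw [C.blocks_and hb hg, Finset.mem_union] at hh
        rcases hh with hh | hh
        · exact (ih i i.2 h hh).trans i.2.le
        · exact (ih j j.2 h hh).trans j.2.le
      · rw [C.blocks_or hb hg, Finset.mem_union] at hh
        rcases hh with hh | hh
        · exact (ih i i.2 h hh).trans i.2.le
        · exact (ih j j.2 h hh).trans j.2.le
      · rw [C.blocks_xor hb hg, Finset.mem_singleton] at hh
        exact hh.le
    · rw [C.blocks_not_big hb] at hh
      simp at hh

theorem xorInputs_lt {h i : ℕ} (hi : i ∈ C.xorInputs h) : i < h := by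
  unfold xorInputs at hi
  rcases hg : C.gate h with ⟨S, g⟩ | ⟨i, j⟩ | ⟨i, j⟩ | ⟨i, j⟩
  · rw [hg] at hi; simp at hi
  · rw [hg] at hi; simp at hi
  · rw [hg] at hi; simp at hi
  · rw [hg] at hi
    simp only [Finset.mem_insert, Finset.mem_singleton] at hi
    rcases hi with rfl | rfl
    · exact i.2
    · exact j.2

theorem chains_eq (D k : ℕ) : C.chains D k
    = 1 + ∑ h ∈ C.blocks D k, ∑ i ∈ C.xorInputs h, C.chains D i := by
  rw [chains]
  congr 1
  rw [Fin.sum_univ_eq_sum_range
    (fun i => ((C.blocks D k).filter (fun h => i ∈ C.xorInputs h)).card * C.chains D i) k]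
  have h1 : ∀ h ∈ C.blocks D k, ∑ i ∈ C.xorInputs h, C.chains D i
      = ∑ i ∈ Finset.range k, if i ∈ C.xorInputs h then C.chains D i else 0 := by
    intro h hh
    rw [← Finset.sum_filter]
    refine Finset.sum_congr ?_ fun _ _ => rfl
    ext i
    simp only [Finset.mem_filter, Finset.mem_range]
    constructor
    · intro hi
      exact ⟨lt_of_lt_of_le (C.xorInputs_lt hi) (C.blocks_le k h hh), hi⟩
    · exact fun h => h.2
  rw [Finset.sum_congr rfl h1, Finset.sum_comm]
  refine Finset.sum_congr rfl fun i _ => ?_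
  rw [← Finset.sum_filter, Finset.sum_const, smul_eq_mul]

end basic

/-! ### Regions -/

section region

variable [Fintype V] [DecidableEq V] (C : Circuit V) (D : ℕ)

def left (p : ℕ) : ℕ := match C.gate p with
  | .leaf _ _ => 0
  | .and i _ => i
  | .or i _ => i
  | .xor i _ => i

def right (p : ℕ) : ℕ := match C.gate p with
  | .leaf _ _ => 0
  | .and _ j => j
  | .or _ j => j
  | .xor _ j => j

/-- the functions at which the unfolding of a region stops -/
def tm (p : ℕ) (t : Fin 3) (a : V → Bool) : ℝ :=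
  if t = 0 then C.fr (C.left p) a else if t = 1 then C.fr (C.right p) a else C.fr p a

def StopOK (k p : ℕ) (t : Fin 3) : Prop :=
  (t = 0 ∧ ∃ i j, C.gate p = .or i j ∧ ¬ C.Big D i) ∨
  (t = 1 ∧ ∃ i j, C.gate p = .or i j ∧ ¬ C.Big D j) ∨
  (t = 2 ∧ ∃ i j, C.gate p = .and i j ∧ ¬ C.Big D i ∧ ¬ C.Big D j) ∨
  (t = 2 ∧ p ∈ C.blocks D k ∧ ∃ i j, C.gate p = .xor i j)

structure Region (k : ℕ) (ctx : ℕ → Fin 3 → (V → Bool) → ℝ) : Prop where
  sum : ∀ a, (if C.Big D k then C.fr k a else 0)
    = ∑ p ∈ Finset.range (C.out + 1), ∑ t : Fin 3, ctx p t a * C.tm p t a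
  nonneg : ∀ p t a, 0 ≤ ctx p t a
  dep : ∀ p t, DependsOn (ctx p t) ((C.vars p : Set V)ᶜ)
  ok : ∀ p t a, ctx p t a ≠ 0 →
    C.vars p ⊆ C.vars k ∧ C.Big D p ∧ p ≤ C.out ∧ C.StopOK D k p t

theorem StopOK.mono {k k' p : ℕ} {t : Fin 3} (h : C.StopOK D k p t)
    (hb : C.blocks D k ⊆ C.blocks D k') : C.StopOK D k' p t := by
  rcases h with h | h | h | h
  · exact Or.inl h
  · exact Or.inr (Or.inl h)
  · exact Or.inr (Or.inr (Or.inl h))
  · exact Or.inr (Or.inr (Or.inr ⟨h.1, hb h.2.1, h.2.2⟩))

/-- point mass context -/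
noncomputable def dl (k : ℕ) (t0 : Fin 3) (x : ℝ) : ℕ → Fin 3 → (V → Bool) → ℝ :=
  fun p t _ => if p = k ∧ t = t0 then x else 0

omit [Fintype V] [DecidableEq V] in
theorem sum_dl {n k : ℕ} (hk : k < n) (t0 : Fin 3) (x : ℝ) (a : V → Bool)
    (F : ℕ → Fin 3 → ℝ) :
    ∑ p ∈ Finset.range n, ∑ t : Fin 3, dl k t0 x p t a * F p t = x * F k t0 := by
  rw [Finset.sum_eq_single k]
  · rw [Finset.sum_eq_single t0]
    · simp [dl]
    · intro t _ ht
      simp [dl, ht]
    · simp
  · intro p _ hp
    refine Finset.sum_eq_zero fun t _ => ?_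
    simp [dl, hp]
  · intro h
    exact absurd (Finset.mem_range.mpr hk) h

theorem exists_region (hC : C.Valid D) : ∀ k ≤ C.out, ∃ ctx, C.Region D k ctx := by
  intro k
  induction k using Nat.strong_induction_on with
  | _ k ih =>
    intro hk
    by_cases hb : C.Big D k
    swap
    · refine ⟨fun _ _ _ => 0, ?_, ?_, ?_, ?_⟩
      · intro a; simp [hb]
      · intro p t a; exact le_refl _
      · intro p t a b _; rfl
      · intro p t a h; exact absurd rfl h
    rcases hg : C.gate k with ⟨S, g⟩ | ⟨i, j⟩ | ⟨i, j⟩ | ⟨i, j⟩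
    · exact absurd hb (C.valid_leaf hC hk hg).2
    · -- and gate
      obtain ⟨ci, hi⟩ := ih i i.2 (i.2.le.trans hk)
      obtain ⟨cj, hj⟩ := ih j j.2 (j.2.le.trans hk)
      have hdis := C.valid_and hC hk hg
      have hvi : C.vars i ⊆ C.vars k := by rw [C.vars_and hg]; exact Finset.subset_union_left
      have hvj : C.vars j ⊆ C.vars k := by rw [C.vars_and hg]; exact Finset.subset_union_right
      have hbl := C.blocks_and hb hg
      by_cases hbi : C.Big D i
      · refine ⟨fun p t a => ci p t a * C.fr j a, ?_, ?_, ?_, ?_⟩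
        · intro a
          rw [if_pos hb, C.fr_and hg]
          have := hi.sum a
          rw [if_pos hbi] at this
          rw [this, Finset.sum_mul]
          refine Finset.sum_congr rfl fun p _ => ?_
          rw [Finset.sum_mul]
          refine Finset.sum_congr rfl fun t _ => ?_
          ring
        · intro p t a
          exact mul_nonneg (hi.nonneg p t a) (C.fr_nonneg _ _)
        · intro p t a b hab
          have h1 := hi.dep p t hab
          simp only
          rw [h1]
          by_cases hz : ci p t b = 0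
          · rw [hz]; simp
          · have h2 := (hi.ok p t b hz).1
            rw [C.fr_dep hC j (j.2.le.trans hk) (fun x hx => hab x (by
              intro hxp
              exact (Finset.disjoint_left.mp hdis) (h2 (Finset.mem_coe.mp hxp))
                (Finset.mem_coe.mp hx)))]
        · intro p t a hne
          have hne' : ci p t a ≠ 0 := fun h => hne (by
            show ci p t a * _ = 0
            rw [h, zero_mul])
          obtain ⟨h1, h2, h3, h4⟩ := hi.ok p t a hne'
          refine ⟨h1.trans hvi, h2, h3, h4.mono C D ?_⟩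
          rw [hbl]; exact Finset.subset_union_left
      by_cases hbj : C.Big D j
      · refine ⟨fun p t a => cj p t a * C.fr i a, ?_, ?_, ?_, ?_⟩
        · intro a
          rw [if_pos hb, C.fr_and hg]
          have := hj.sum a
          rw [if_pos hbj] at this
          rw [this, Finset.mul_sum]
          refine Finset.sum_congr rfl fun p _ => ?_
          rw [Finset.mul_sum]
          refine Finset.sum_congr rfl fun t _ => ?_
          ring
        · intro p t a
          exact mul_nonneg (hj.nonneg p t a) (C.fr_nonneg _ _)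
        · intro p t a b hab
          have h1 := hj.dep p t hab
          simp only
          rw [h1]
          by_cases hz : cj p t b = 0
          · rw [hz]; simp
          · have h2 := (hj.ok p t b hz).1
            rw [C.fr_dep hC i (i.2.le.trans hk) (fun x hx => hab x (by
              intro hxp
              exact (Finset.disjoint_right.mp hdis) (h2 (Finset.mem_coe.mp hxp))
                (Finset.mem_coe.mp hx)))]
        · intro p t a hne
          have hne' : cj p t a ≠ 0 := fun h => hne (by
            show cj p t a * _ = 0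
            rw [h, zero_mul])
          obtain ⟨h1, h2, h3, h4⟩ := hj.ok p t a hne'
          refine ⟨h1.trans hvj, h2, h3, h4.mono C D ?_⟩
          rw [hbl]; exact Finset.subset_union_right
      · refine ⟨dl k 2 1, ?_, ?_, ?_, ?_⟩
        · intro a
          rw [if_pos hb, sum_dl (Nat.lt_succ_of_le hk)]
          simp [tm]
        · intro p t a
          unfold dl; split_ifs <;> norm_num
        · intro p t a b _; rfl
        · intro p t a hne
          unfold dl at hne
          by_cases hpt : p = k ∧ t = 2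
          · obtain ⟨rfl, rfl⟩ := hpt
            exact ⟨Finset.Subset.refl _, hb, hk, Or.inr (Or.inr (Or.inl ⟨rfl, i, j, hg, hbi, hbj⟩))⟩
          · rw [if_neg hpt] at hne
            exact absurd rfl hne
    · -- or gate
      obtain ⟨ci, hi⟩ := ih i i.2 (i.2.le.trans hk)
      obtain ⟨cj, hj⟩ := ih j j.2 (j.2.le.trans hk)
      have hvi : C.vars i ⊆ C.vars k := by rw [C.vars_or hg]; exact Finset.subset_union_left
      have hvj : C.vars j ⊆ C.vars k := by rw [C.vars_or hg]; exact Finset.subset_union_right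
      have hbl := C.blocks_or hb hg
      have hl : C.left k = i := by unfold left; rw [hg]
      have hr : C.right k = j := by unfold right; rw [hg]
      refine ⟨fun p t a => ci p t a + cj p t a
        + dl k 0 (if C.Big D i then 0 else 1) p t a + dl k 1 (if C.Big D j then 0 else 1) p t a,
        ?_, ?_, ?_, ?_⟩
      · intro a
        rw [if_pos hb, C.fr_or hC hk hg]
        have e1 : ∑ p ∈ Finset.range (C.out + 1), ∑ t : Fin 3,
            (ci p t a + cj p t a + dl k 0 (if C.Big D i then 0 else 1) p t a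
              + dl k 1 (if C.Big D j then 0 else 1) p t a) * C.tm p t a
            = (∑ p ∈ Finset.range (C.out + 1), ∑ t : Fin 3, ci p t a * C.tm p t a)
            + (∑ p ∈ Finset.range (C.out + 1), ∑ t : Fin 3, cj p t a * C.tm p t a)
            + (∑ p ∈ Finset.range (C.out + 1), ∑ t : Fin 3,
                dl k 0 (if C.Big D i then 0 else 1) p t a * C.tm p t a)
            + (∑ p ∈ Finset.range (C.out + 1), ∑ t : Fin 3,
                dl k 1 (if C.Big D j then 0 else 1) p t a * C.tm p t a) := by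
          simp only [← Finset.sum_add_distrib]
          refine Finset.sum_congr rfl fun p _ => Finset.sum_congr rfl fun t _ => ?_
          ring
        rw [e1, ← hi.sum a, ← hj.sum a, sum_dl (Nat.lt_succ_of_le hk) 0 _ a
          (fun p t => C.tm p t a), sum_dl (Nat.lt_succ_of_le hk) 1 _ a (fun p t => C.tm p t a)]
        have t0 : C.tm k 0 a = C.fr i a := by simp [tm, hl]
        have t1 : C.tm k 1 a = C.fr j a := by simp [tm, hr]
        rw [t0, t1]
        split_ifs <;> ring
      · intro p t a
        have h1 : ∀ (x : ℝ), 0 ≤ x → ∀ t0 : Fin 3, 0 ≤ dl (V := V) k t0 x p t a := by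
          intro x hx t0; unfold dl; split_ifs
          · exact hx
          · exact le_refl _
        have h2 : (0 : ℝ) ≤ if C.Big D i then 0 else 1 := by split_ifs <;> norm_num
        have h3 : (0 : ℝ) ≤ if C.Big D j then 0 else 1 := by split_ifs <;> norm_num
        have := h1 _ h2 0
        have := h1 _ h3 1
        have := hi.nonneg p t a
        have := hj.nonneg p t a
        positivity
      · intro p t a b hab
        have h1 := hi.dep p t hab
        have h2 := hj.dep p t hab
        simp only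
        rw [h1, h2]
        rfl
      · intro p t a hne
        by_cases h1 : ci p t a = 0
        · by_cases h2 : cj p t a = 0
          · simp only [h1, h2, zero_add] at hne
            unfold dl at hne
            by_cases hpt : p = k ∧ t = 0
            · obtain ⟨rfl, rfl⟩ := hpt
              have hbi : ¬ C.Big D i := by
                intro hbi
                apply hne
                simp [hbi]
              exact ⟨Finset.Subset.refl _, hb, hk, Or.inl ⟨rfl, i, j, hg, hbi⟩⟩
            · rw [if_neg hpt, zero_add] at hne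
              by_cases hpt1 : p = k ∧ t = 1
              · obtain ⟨rfl, rfl⟩ := hpt1
                have hbj : ¬ C.Big D j := by
                  intro hbj
                  apply hne
                  simp [hbj]
                exact ⟨Finset.Subset.refl _, hb, hk, Or.inr (Or.inl ⟨rfl, i, j, hg, hbj⟩)⟩
              · rw [if_neg hpt1] at hne
                exact absurd rfl hne
          · obtain ⟨a1, a2, a3, a4⟩ := hj.ok p t a h2
            refine ⟨a1.trans hvj, a2, a3, a4.mono C D ?_⟩
            rw [hbl]; exact Finset.subset_union_right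
        · obtain ⟨a1, a2, a3, a4⟩ := hi.ok p t a h1
          refine ⟨a1.trans hvi, a2, a3, a4.mono C D ?_⟩
          rw [hbl]; exact Finset.subset_union_left
    · -- xor gate
      refine ⟨dl k 2 1, ?_, ?_, ?_, ?_⟩
      · intro a
        rw [if_pos hb, sum_dl (Nat.lt_succ_of_le hk)]
        simp [tm]
      · intro p t a
        unfold dl; split_ifs <;> norm_num
      · intro p t a b _; rfl
      · intro p t a hne
        unfold dl at hne
        by_cases hpt : p = k ∧ t = 2
        · obtain ⟨rfl, rfl⟩ := hpt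
          refine ⟨Finset.Subset.refl _, hb, hk, Or.inr (Or.inr (Or.inr ⟨rfl, ?_, i, j, hg⟩))⟩
          rw [C.blocks_xor hb hg]; simp
        · rw [if_neg hpt] at hne
          exact absurd rfl hne

theorem tm_dep (hC : C.Valid D) {k p : ℕ} {t : Fin 3} (hp : p ≤ C.out)
    (h : C.StopOK D k p t) : DependsOn (C.tm p t) (C.vars p : Set V) := by
  rcases h with ⟨rfl, i, j, hg, _⟩ | ⟨rfl, i, j, hg, _⟩ | ⟨rfl, _⟩ | ⟨rfl, _⟩
  · have hl : C.left p = i := by unfold left; rw [hg]
    intro a b hab
    have := C.fr_dep hC i (i.2.le.trans hp) (fun x hx => hab x (by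
      rw [C.vars_or hg]; simp [Finset.mem_coe.mp hx]))
    simp [tm, hl, this]
  · have hr : C.right p = j := by unfold right; rw [hg]
    intro a b hab
    have := C.fr_dep hC j (j.2.le.trans hp) (fun x hx => hab x (by
      rw [C.vars_or hg]; simp [Finset.mem_coe.mp hx]))
    simp [tm, hr, this]
  · intro a b hab
    have := C.fr_dep hC p hp hab
    simp [tm, this]
  · intro a b hab
    have := C.fr_dep hC p hp hab
    simp [tm, this]

omit [Fintype V] [DecidableEq V] in
theorem tm_zero_or_one (p : ℕ) (t : Fin 3) (a : V → Bool) : C.tm p t a = 0 ∨ C.tm p t a = 1 := by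
  unfold tm fr
  split_ifs <;> simp

omit [Fintype V] [DecidableEq V] in
theorem tm_nonneg (p : ℕ) (t : Fin 3) (a : V → Bool) : 0 ≤ C.tm p t a := by
  rcases C.tm_zero_or_one p t a with h | h <;> rw [h]
  exact zero_le_one

omit [Fintype V] [DecidableEq V] in
theorem abs_tm_le (p : ℕ) (t : Fin 3) (a : V → Bool) : |C.tm p t a| ≤ 1 := by
  rcases C.tm_zero_or_one p t a with h | h <;> rw [h] <;> simp

theorem ctx_le (hC : C.Valid D) {k : ℕ} {ctx : ℕ → Fin 3 → (V → Bool) → ℝ}
    (hR : C.Region D k ctx) (p : ℕ) (t : Fin 3) (a0 : V → Bool) (h0 : C.tm p t a0 = 1)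
    (a : V → Bool) : ctx p t a ≤ 1 := by
  by_cases hz : ctx p t a = 0
  · rw [hz]; exact zero_le_one
  obtain ⟨_, _, h3, h4⟩ := hR.ok p t a hz
  set a' : V → Bool := fun x => if x ∈ C.vars p then a0 x else a x with ha'
  have e1 : ctx p t a' = ctx p t a := by
    apply hR.dep p t
    intro x hx
    have : x ∉ C.vars p := fun h => hx (Finset.mem_coe.mpr h)
    simp [ha', this]
  have e2 : C.tm p t a' = 1 := by
    rw [← h0]
    apply C.tm_dep D hC h3 h4
    intro x hx
    simp [ha', Finset.mem_coe.mp hx]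
  have h5 := hR.sum a'
  have h6 : ctx p t a' * C.tm p t a' ≤ ∑ t : Fin 3, ctx p t a' * C.tm p t a' :=
    Finset.single_le_sum (f := fun t => ctx p t a' * C.tm p t a')
      (fun t _ => mul_nonneg (hR.nonneg p t a') (C.tm_nonneg p t a')) (Finset.mem_univ t)
  have h7 : ∑ t : Fin 3, ctx p t a' * C.tm p t a'
      ≤ ∑ p ∈ Finset.range (C.out + 1), ∑ t : Fin 3, ctx p t a' * C.tm p t a' :=
    Finset.single_le_sum (f := fun p => ∑ t : Fin 3, ctx p t a' * C.tm p t a')
      (fun p _ => Finset.sum_nonneg fun t _ =>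
        mul_nonneg (hR.nonneg p t a') (C.tm_nonneg p t a'))
      (Finset.mem_range.mpr (Nat.lt_succ_of_le h3))
  rw [← h5] at h7
  have h8 : (if C.Big D k then C.fr k a' else 0) ≤ 1 := by
    split_ifs
    · exact C.fr_le_one _ _
    · exact zero_le_one
  rw [e1, e2, mul_one] at h6
  linarith

end region

end Circuit

/-- `w` has correlation at most `τ` with every rectangle whose two sides both see at least
`|V| / E` variables. -/
def Disc [Fintype V] [DecidableEq V] (w : (V → Bool) → ℝ) (τ : ℝ) (E : ℕ) : Prop :=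
  ∀ X : Finset V, Fintype.card V ≤ E * X.card → Fintype.card V ≤ E * (Xᶜ).card →
    ∀ A B : (V → Bool) → ℝ, DependsOn A (X : Set V) → DependsOn B ((X : Set V)ᶜ) →
      (∀ a, |A a| ≤ 1) → (∀ a, |B a| ≤ 1) → |∑ a, w a * (A a * B a)| ≤ τ

section rect

variable [Fintype V] [DecidableEq V] {w : (V → Bool) → ℝ} {τ : ℝ} {E D : ℕ}

theorem small_rect (hw : Disc w τ E) (hDE : D ≤ E) (hE : 4 ≤ E) (hD : 2 ≤ D)
    (hV : 2 ≤ Fintype.card V) {S T : Finset V} (hST : S ⊆ T)
    (hS : ¬ D * (Sᶜ).card < Fintype.card V) (hT : D * (Tᶜ).card < Fintype.card V)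
    {A c : (V → Bool) → ℝ} (hA : DependsOn A (S : Set V)) (hc : DependsOn c ((T : Set V)ᶜ))
    (hA1 : ∀ a, |A a| ≤ 1) (hc1 : ∀ a, |c a| ≤ 1) : |∑ a, w a * (A a * c a)| ≤ τ := by
  set N := Fintype.card V with hN
  have hex : ∃ n, N ≤ D * n := ⟨(Sᶜ).card, not_lt.mp hS⟩
  classical
  obtain ⟨n0, hn0, hmin⟩ : ∃ n0, N ≤ D * n0 ∧ ∀ m < n0, D * m < N :=
    ⟨Nat.find hex, Nat.find_spec hex, fun m hm => not_le.mp (Nat.find_min hex hm)⟩
  have hTn : (Tᶜ).card < n0 := by
    by_contra hcon
    have := Nat.mul_le_mul_left D (not_lt.mp hcon)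
    omega
  have hSn : n0 ≤ (Sᶜ).card := by
    by_contra hcon
    exact hS (hmin _ (not_le.mp hcon))
  have cS : (Sᶜ).card = N - S.card := Finset.card_compl S
  have cT : (Tᶜ).card = N - T.card := Finset.card_compl T
  have lS : S.card ≤ N := Finset.card_le_univ S
  have lT : T.card ≤ N := Finset.card_le_univ T
  obtain ⟨X, hSX, hXT, hXc⟩ := Finset.exists_subsuperset_card_eq hST (n := N - n0)
    (by omega) (by omega)
  have cX : (Xᶜ).card = n0 := by
    rw [Finset.card_compl, hXc]; omega
  have h2 : 2 * (n0 - 1) < N := by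
    have := hmin (n0 - 1) (by omega)
    have h3 : 2 * (n0 - 1) ≤ D * (n0 - 1) := Nat.mul_le_mul_right _ hD
    omega
  refine hw X ?_ ?_ A c ?_ ?_ hA1 hc1
  · rw [hXc]
    have h3 : 4 * (N - n0) ≤ E * (N - n0) := Nat.mul_le_mul_right _ hE
    omega
  · rw [cX]
    have h3 : D * n0 ≤ E * n0 := Nat.mul_le_mul_right _ hDE
    omega
  · intro a b hab
    exact hA fun x hx => hab x (Finset.mem_coe.mpr (hSX (Finset.mem_coe.mp hx)))
  · intro a b hab
    exact hc fun x hx => hab x fun h => hx (Finset.mem_coe.mpr (hXT (Finset.mem_coe.mp h)))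

theorem heavy_rect_aux (hw : Disc w τ E) (hDE : D ≤ E) (hE : 4 ≤ E) (hD : 2 ≤ D)
    {S₁ S₂ : Finset V} (hdis : Disjoint S₁ S₂) (hle : S₂.card ≤ S₁.card)
    (h1 : ¬ D * (S₁ᶜ).card < Fintype.card V)
    (hT : D * ((S₁ ∪ S₂)ᶜ).card < Fintype.card V)
    {A B c : (V → Bool) → ℝ} (hA : DependsOn A (S₁ : Set V)) (hB : DependsOn B (S₂ : Set V))
    (hc : DependsOn c (((S₁ ∪ S₂ : Finset V) : Set V)ᶜ))
    (hA1 : ∀ a, |A a| ≤ 1) (hB1 : ∀ a, |B a| ≤ 1) (hc1 : ∀ a, |c a| ≤ 1) :
    |∑ a, w a * (A a * (B a * c a))| ≤ τ := by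
  have cU : ((S₁ ∪ S₂)ᶜ).card = Fintype.card V - (S₁ ∪ S₂).card := Finset.card_compl _
  have cu : (S₁ ∪ S₂).card = S₁.card + S₂.card := Finset.card_union_of_disjoint hdis
  have lu : (S₁ ∪ S₂).card ≤ Fintype.card V := Finset.card_le_univ _
  refine hw S₁ ?_ ?_ A (fun a => B a * c a) hA ?_ hA1 ?_
  · have h3 : 2 * ((S₁ ∪ S₂)ᶜ).card ≤ D * ((S₁ ∪ S₂)ᶜ).card := Nat.mul_le_mul_right _ hD
    have h4 : 4 * S₁.card ≤ E * S₁.card := Nat.mul_le_mul_right _ hE
    omega
  · have h3 : D * (S₁ᶜ).card ≤ E * (S₁ᶜ).card := Nat.mul_le_mul_right _ hDE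
    omega
  · intro a b hab
    have e1 : B a = B b := hB fun x hx => hab x (fun h =>
      (Finset.disjoint_left.mp hdis) (Finset.mem_coe.mp h) (Finset.mem_coe.mp hx))
    have e2 : c a = c b := hc fun x hx => hab x (fun h => hx (by
      simp only [Finset.coe_union, Set.mem_union]
      exact Or.inl h))
    simp only [e1, e2]
  · intro a
    rw [abs_mul]
    exact mul_le_one₀ (hB1 a) (abs_nonneg _) (hc1 a)

theorem heavy_rect (hw : Disc w τ E) (hDE : D ≤ E) (hE : 4 ≤ E) (hD : 2 ≤ D)
    {S₁ S₂ : Finset V} (hdis : Disjoint S₁ S₂)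
    (h1 : ¬ D * (S₁ᶜ).card < Fintype.card V) (h2 : ¬ D * (S₂ᶜ).card < Fintype.card V)
    (hT : D * ((S₁ ∪ S₂)ᶜ).card < Fintype.card V)
    {A B c : (V → Bool) → ℝ} (hA : DependsOn A (S₁ : Set V)) (hB : DependsOn B (S₂ : Set V))
    (hc : DependsOn c (((S₁ ∪ S₂ : Finset V) : Set V)ᶜ))
    (hA1 : ∀ a, |A a| ≤ 1) (hB1 : ∀ a, |B a| ≤ 1) (hc1 : ∀ a, |c a| ≤ 1) :
    |∑ a, w a * (c a * (A a * B a))| ≤ τ := by
  rcases le_total S₂.card S₁.card with hle | hle
  · have := heavy_rect_aux hw hDE hE hD hdis hle h1 hT hA hB hc hA1 hB1 hc1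
    refine le_trans (le_of_eq ?_) this
    congr 1
    refine Finset.sum_congr rfl fun a _ => ?_
    ring
  · have := heavy_rect_aux hw hDE hE hD hdis.symm hle h2 (by rwa [Finset.union_comm]) hB hA
      (by rwa [Finset.union_comm]) hB1 hA1 hc1
    refine le_trans (le_of_eq ?_) this
    congr 1
    refine Finset.sum_congr rfl fun a _ => ?_
    ring

end rect

end Pool.Agent.H548R2
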