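import Pool.Agent.H548R2.CircBound

/-!
Main bound for circuits: the correlation with `w` is at most `6 * size * chains * τ`.
-/

namespace Pool.Agent.H548R2

open Finset

variable {V : Type} [Fintype V] [DecidableEq V] {w : (V → Bool) → ℝ} {τ : ℝ} {E D : ℕ}

namespace Circuit

/-- the bound for gate `k` -/
noncomputable def bnd (C : Circuit V) (D : ℕ) (τ : ℝ) (k : ℕ) : ℝ :=
  6 * C.size * C.chains D k * τ

theorem bnd_nonneg (C : Circuit V) (D : ℕ) {τ : ℝ} (hτ : 0 ≤ τ) (k : ℕ) : 0 ≤ C.bnd D τ k := by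
  unfold bnd; positivity

theorem abs_sum_le_add {α : Type} (s : Finset α) (f g : α → ℝ) :
    |∑ a ∈ s, (f a + g a)| ≤ |∑ a ∈ s, f a| + |∑ a ∈ s, g a| := by
  rw [Finset.sum_add_distrib]
  exact abs_add_le _ _

theorem xor_bound (hw : Disc w τ E) (hDE : D ≤ E) (hE : 4 ≤ E) (hD : 2 ≤ D)
    (hV : 2 ≤ Fintype.card V) (hτ : 0 ≤ τ) (C : Circuit V) (hC : C.Valid D)
    {p : ℕ} (hp : p ≤ C.out) (hbp : C.Big D p) {i j : Fin p} (hg : C.gate p = .xor i j)
    (ih : ∀ q < p, C.Big D q → ∀ c : (V → Bool) → ℝ, DependsOn c ((C.vars q : Set V)ᶜ) →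
      (∀ a, |c a| ≤ 1) → |∑ a, w a * (c a * C.fr q a)| ≤ C.bnd D τ q)
    (c : (V → Bool) → ℝ) (hc : DependsOn c ((C.vars p : Set V)ᶜ)) (hc1 : ∀ a, |c a| ≤ 1) :
    |∑ a, w a * (c a * C.fr p a)| ≤ 4 * τ + ∑ q ∈ C.xorInputs p, C.bnd D τ q := by
  have hdis := C.valid_xor hC hp hg
  have hv := C.vars_xor hg
  have hin : C.xorInputs p = {i.1, j.1} := by unfold xorInputs; rw [hg]
  have hvi : C.vars i ⊆ C.vars p := by rw [hv]; exact Finset.subset_union_left
  have hvj : C.vars j ⊆ C.vars p := by rw [hv]; exact Finset.subset_union_right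
  have hdi := C.fr_dep hC i (i.2.le.trans hp)
  have hdj := C.fr_dep hC j (j.2.le.trans hp)
  have key : ∀ (q r : Fin p), Disjoint (C.vars q) (C.vars r) → C.vars q ⊆ C.vars p →
      C.vars r ⊆ C.vars p → DependsOn (C.fr r) (C.vars r : Set V) →
      (∀ a, C.fr p a = C.fr r a + (1 - 2 * C.fr r a) * C.fr q a) →
      C.Big D q → q.1 ∈ C.xorInputs p →
      |∑ a, w a * (c a * C.fr p a)| ≤ 4 * τ + ∑ q ∈ C.xorInputs p, C.bnd D τ q := by
    intro q r hqr hvq hvr hdr hf hbq hqin
    have hsr : ¬ C.Big D r := by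
      intro hbr
      unfold Big at hbq hbr
      have c1 : ((C.vars q)ᶜ).card = Fintype.card V - (C.vars q).card := Finset.card_compl _
      have c2 : ((C.vars r)ᶜ).card = Fintype.card V - (C.vars r).card := Finset.card_compl _
      have c3 : (C.vars q ∪ C.vars r).card = (C.vars q).card + (C.vars r).card :=
        Finset.card_union_of_disjoint hqr
      have c4 : (C.vars q ∪ C.vars r).card ≤ Fintype.card V := Finset.card_le_univ _
      have c5 := Nat.mul_le_mul_right ((C.vars q)ᶜ).card hD
      have c6 := Nat.mul_le_mul_right ((C.vars r)ᶜ).card hD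
      omega
    have e1 : ∑ a, w a * (c a * C.fr p a)
        = ∑ a, (w a * (C.fr r a * c a) + w a * ((c a * (1 - 2 * C.fr r a)) * C.fr q a)) := by
      refine Finset.sum_congr rfl fun a _ => ?_
      rw [hf a]; ring
    rw [e1]
    refine (abs_sum_le_add _ _ _).trans ?_
    have b1 : |∑ a, w a * (C.fr r a * c a)| ≤ τ :=
      small_rect hw hDE hE hD hV hvr hsr hbp hdr hc (C.abs_fr_le r) hc1
    have b2 : |∑ a, w a * ((c a * (1 - 2 * C.fr r a)) * C.fr q a)| ≤ C.bnd D τ q := by
      apply ih q q.2 hbq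
      · intro a b hab
        have x1 : c a = c b := hc fun x hx => hab x fun h => hx (Finset.mem_coe.mpr (hvq
          (Finset.mem_coe.mp h)))
        have x2 : C.fr r a = C.fr r b := hdr fun x hx => hab x fun h =>
          (Finset.disjoint_left.mp hqr) (Finset.mem_coe.mp h) (Finset.mem_coe.mp hx)
        simp only [x1, x2]
      · intro a
        rw [abs_mul]
        refine mul_le_one₀ (hc1 a) (abs_nonneg _) ?_
        have := C.fr_nonneg r a
        have := C.fr_le_one r a
        rw [abs_le]
        constructor <;> linarith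
    have b3 : C.bnd D τ q ≤ ∑ q ∈ C.xorInputs p, C.bnd D τ q :=
      Finset.single_le_sum (f := fun q => C.bnd D τ q) (fun q _ => C.bnd_nonneg D hτ q) hqin
    linarith
  by_cases hbi : C.Big D i
  · refine key i j hdis hvi hvj hdj (fun a => ?_) hbi (by rw [hin]; simp)
    rw [C.fr_xor hg]; ring
  by_cases hbj : C.Big D j
  · refine key j i hdis.symm hvj hvi hdi (fun a => ?_) hbj (by rw [hin]; simp)
    rw [C.fr_xor hg]; ring
  have b0 : 0 ≤ ∑ q ∈ C.xorInputs p, C.bnd D τ q :=
    Finset.sum_nonneg fun q _ => C.bnd_nonneg D hτ q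
  have e1 : ∑ a, w a * (c a * C.fr p a)
      = ∑ a, (w a * (C.fr i a * c a) + (w a * (C.fr j a * c a)
        + (-2) * (w a * (c a * (C.fr i a * C.fr j a))))) := by
    refine Finset.sum_congr rfl fun a _ => ?_
    rw [C.fr_xor hg a]; ring
  rw [e1]
  refine (abs_sum_le_add _ _ _).trans ?_
  have b1 : |∑ a, w a * (C.fr i a * c a)| ≤ τ :=
    small_rect hw hDE hE hD hV hvi hbi hbp hdi hc (C.abs_fr_le i) hc1
  have b2 : |∑ a, w a * (C.fr j a * c a)| ≤ τ :=
    small_rect hw hDE hE hD hV hvj hbj hbp hdj hc (C.abs_fr_le j) hc1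
  have b3 : |∑ a, w a * (c a * (C.fr i a * C.fr j a))| ≤ τ := by
    refine heavy_rect hw hDE hE hD hdis hbi hbj ?_ hdi hdj ?_ (C.abs_fr_le i) (C.abs_fr_le j) hc1
    · rw [← hv]; exact hbp
    · rw [← hv]; exact hc
  have b4 : |∑ a, (w a * (C.fr j a * c a) + (-2) * (w a * (c a * (C.fr i a * C.fr j a))))|
      ≤ 3 * τ := by
    refine (abs_sum_le_add _ _ _).trans ?_
    rw [← Finset.mul_sum, abs_mul]
    norm_num
    linarith
  linarith

theorem region_bound (hw : Disc w τ E) (hDE : D ≤ E) (hE : 4 ≤ E) (hD : 2 ≤ D)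
    (hV : 2 ≤ Fintype.card V) (hτ : 0 ≤ τ) (C : Circuit V) (hC : C.Valid D) :
    ∀ k ≤ C.out, C.Big D k → ∀ c : (V → Bool) → ℝ, DependsOn c ((C.vars k : Set V)ᶜ) →
      (∀ a, |c a| ≤ 1) → |∑ a, w a * (c a * C.fr k a)| ≤ C.bnd D τ k := by
  intro k
  induction k using Nat.strong_induction_on with
  | _ k ih =>
    intro hk hbk c hc hc1
    obtain ⟨ctx, hR⟩ := C.exists_region D hC k hk
    set z : ℕ → Fin 3 → ℝ := fun p t => ∑ a, w a * (c a * (ctx p t a * C.tm p t a)) with hz
    have e1 : ∑ a, w a * (c a * C.fr k a) = ∑ p ∈ Finset.range (C.out + 1), ∑ t : Fin 3, z p t := by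
      have h1 : ∀ a, w a * (c a * C.fr k a) = ∑ p ∈ Finset.range (C.out + 1), ∑ t : Fin 3,
          w a * (c a * (ctx p t a * C.tm p t a)) := by
        intro a
        have := hR.sum a
        rw [if_pos hbk] at this
        rw [this, Finset.mul_sum, Finset.mul_sum]
        refine Finset.sum_congr rfl fun p _ => ?_
        rw [Finset.mul_sum, Finset.mul_sum]
      rw [Finset.sum_congr rfl fun a _ => h1 a, Finset.sum_comm]
      refine Finset.sum_congr rfl fun p _ => ?_
      rw [Finset.sum_comm]
    -- bound for a single stop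
    have hstop : ∀ p ≤ C.out, ∀ t : Fin 3,
        |z p t| ≤ (if t = 2 then 4 * τ + (if p ∈ C.blocks D k then
          ∑ q ∈ C.xorInputs p, C.bnd D τ q else 0) else τ) := by
      intro p hp t
      have hrhs : 0 ≤ (if t = 2 then 4 * τ + (if p ∈ C.blocks D k then
          ∑ q ∈ C.xorInputs p, C.bnd D τ q else 0) else τ) := by
        have b0 : 0 ≤ ∑ q ∈ C.xorInputs p, C.bnd D τ q :=
          Finset.sum_nonneg fun q _ => C.bnd_nonneg D hτ q
        split_ifs <;> linarith
      by_cases hne : ∃ a, ctx p t a ≠ 0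
      swap
      · have : z p t = 0 := by
          refine Finset.sum_eq_zero fun a _ => ?_
          have : ctx p t a = 0 := by
            by_contra h
            exact hne ⟨a, h⟩
          rw [this]; ring
        rw [this, abs_zero]; exact hrhs
      by_cases h1 : ∃ a0, C.tm p t a0 = 1
      swap
      · have : z p t = 0 := by
          refine Finset.sum_eq_zero fun a _ => ?_
          have : C.tm p t a = 0 := by
            rcases C.tm_zero_or_one p t a with h | h
            · exact h
            · exact absurd ⟨a, h⟩ h1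
          rw [this]; ring
        rw [this, abs_zero]; exact hrhs
      obtain ⟨a0, h0⟩ := h1
      obtain ⟨a1, ha1⟩ := hne
      obtain ⟨hsub, hbp, _, hok⟩ := hR.ok p t a1 ha1
      have hctx1 := C.ctx_le D hC hR p t a0 h0
      set c' : (V → Bool) → ℝ := fun a => c a * ctx p t a with hc'
      have hc'dep : DependsOn c' ((C.vars p : Set V)ᶜ) := by
        intro a b hab
        have x1 : c a = c b := hc fun x hx => hab x fun h => hx (Finset.mem_coe.mpr (hsub
          (Finset.mem_coe.mp h)))
        have x2 := hR.dep p t hab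
        simp only [hc', x1, x2]
      have hc'1 : ∀ a, |c' a| ≤ 1 := by
        intro a
        simp only [hc', abs_mul]
        refine mul_le_one₀ (hc1 a) (abs_nonneg _) ?_
        rw [abs_of_nonneg (hR.nonneg p t a)]
        exact hctx1 a
      have hzz : z p t = ∑ a, w a * (c' a * C.tm p t a) := by
        refine Finset.sum_congr rfl fun a _ => ?_
        simp only [hc']; ring
      have hzz' : z p t = ∑ a, w a * (C.tm p t a * c' a) := by
        rw [hzz]
        refine Finset.sum_congr rfl fun a _ => ?_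
        ring
      rcases hok with ⟨rfl, i, j, hg, hbi⟩ | ⟨rfl, i, j, hg, hbj⟩ | ⟨rfl, i, j, hg, hbi, hbj⟩
        | ⟨rfl, hpb, i, j, hg⟩
      · have hl : C.left p = i := by unfold left; rw [hg]
        have htm : ∀ a, C.tm p 0 a = C.fr i a := by intro a; simp [tm, hl]
        rw [if_neg (by decide), hzz', Finset.sum_congr rfl fun a _ => by rw [htm a]]
        refine small_rect hw hDE hE hD hV ?_ hbi hbp (C.fr_dep hC i (i.2.le.trans hp)) hc'dep
          (C.abs_fr_le i) hc'1
        rw [C.vars_or hg]; exact Finset.subset_union_left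
      · have hr : C.right p = j := by unfold right; rw [hg]
        have htm : ∀ a, C.tm p 1 a = C.fr j a := by intro a; simp [tm, hr]
        rw [if_neg (by decide), hzz', Finset.sum_congr rfl fun a _ => by rw [htm a]]
        refine small_rect hw hDE hE hD hV ?_ hbj hbp (C.fr_dep hC j (j.2.le.trans hp)) hc'dep
          (C.abs_fr_le j) hc'1
        rw [C.vars_or hg]; exact Finset.subset_union_right
      · have htm : ∀ a, C.tm p 2 a = C.fr i a * C.fr j a := by
          intro a; simp [tm, C.fr_and hg]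
        have hv := C.vars_and hg
        have hb : |z p 2| ≤ τ := by
          rw [hzz, Finset.sum_congr rfl fun a _ => by rw [htm a]]
          refine heavy_rect hw hDE hE hD (C.valid_and hC hp hg) hbi hbj ?_
            (C.fr_dep hC i (i.2.le.trans hp)) (C.fr_dep hC j (j.2.le.trans hp)) ?_
            (C.abs_fr_le i) (C.abs_fr_le j) hc'1
          · rw [← hv]; exact hbp
          · rw [← hv]; exact hc'dep
        have b0 : 0 ≤ ∑ q ∈ C.xorInputs p, C.bnd D τ q :=
          Finset.sum_nonneg fun q _ => C.bnd_nonneg D hτ q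
        refine hb.trans ?_
        rw [if_pos rfl]
        split_ifs <;> linarith
      · have htm : ∀ a, C.tm p 2 a = C.fr p a := by
          intro a; simp [tm]
        rw [if_pos rfl, if_pos hpb, hzz, Finset.sum_congr rfl fun a _ => by rw [htm a]]
        have hpk := C.blocks_le k p hpb
        exact xor_bound hw hDE hE hD hV hτ C hC hp hbp hg
          (fun q hq => ih q (lt_of_lt_of_le hq hpk) (hq.le.trans hp)) c' hc'dep hc'1
    rw [e1]
    have s1 : |∑ p ∈ Finset.range (C.out + 1), ∑ t : Fin 3, z p t|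
        ≤ ∑ p ∈ Finset.range (C.out + 1), (6 * τ + (if p ∈ C.blocks D k then
          ∑ q ∈ C.xorInputs p, C.bnd D τ q else 0)) := by
      refine (Finset.abs_sum_le_sum_abs _ _).trans (Finset.sum_le_sum fun p hp => ?_)
      have hp' : p ≤ C.out := Nat.lt_succ_iff.mp (Finset.mem_range.mp hp)
      refine (Finset.abs_sum_le_sum_abs _ _).trans ?_
      rw [Fin.sum_univ_three]
      have t0 := hstop p hp' 0
      have t1 := hstop p hp' 1
      have t2 := hstop p hp' 2
      rw [if_neg (by decide)] at t0 t1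
      rw [if_pos rfl] at t2
      linarith
    refine s1.trans ?_
    rw [Finset.sum_add_distrib, Finset.sum_const, Finset.card_range, nsmul_eq_mul]
    have s2 : ∑ p ∈ Finset.range (C.out + 1), (if p ∈ C.blocks D k then
          ∑ q ∈ C.xorInputs p, C.bnd D τ q else 0)
        = ∑ p ∈ C.blocks D k, ∑ q ∈ C.xorInputs p, C.bnd D τ q := by
      rw [← Finset.sum_filter]
      refine Finset.sum_congr ?_ fun _ _ => rfl
      ext p
      simp only [Finset.mem_filter, Finset.mem_range]
      constructor
      · exact fun h => h.2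
      · intro h
        exact ⟨Nat.lt_succ_of_le ((C.blocks_le k p h).trans hk), h⟩
    rw [s2]
    have s3 : ∑ p ∈ C.blocks D k, ∑ q ∈ C.xorInputs p, C.bnd D τ q
        = 6 * C.size * τ * ((∑ h ∈ C.blocks D k, ∑ i ∈ C.xorInputs h, C.chains D i : ℕ) : ℝ) := by
      push_cast
      rw [Finset.mul_sum]
      refine Finset.sum_congr rfl fun p _ => ?_
      rw [Finset.mul_sum]
      refine Finset.sum_congr rfl fun q _ => ?_
      unfold bnd; ring
    rw [s3]
    unfold bnd size
    rw [C.chains_eq D k]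
    push_cast
    apply le_of_eq
    ring

/-- The main bound for the output of a circuit. -/
theorem out_bound (hw : Disc w τ E) (hDE : D ≤ E) (hE : 4 ≤ E) (hD : 2 ≤ D)
    (hV : 2 ≤ Fintype.card V) (hτ : 0 ≤ τ) (C : Circuit V) (hC : C.Valid D) :
    |∑ a, w a * C.fr C.out a| ≤ C.bnd D τ C.out := by
  by_cases hb : C.Big D C.out
  · have := region_bound hw hDE hE hD hV hτ C hC C.out le_rfl hb (fun _ => 1)
      (fun _ _ _ => rfl) (fun _ => by simp)
    simpa using this
  · have h1 := small_rect hw hDE hE hD hV (Finset.subset_univ (C.vars C.out)) hb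
      (by simp; omega) (C.fr_dep hC C.out le_rfl) (c := fun _ => 1) (fun _ _ _ => rfl)
      (C.abs_fr_le C.out) (fun _ => by simp)
    simp only [mul_one] at h1
    refine h1.trans ?_
    unfold bnd size
    have h2 : (1 : ℝ) ≤ C.chains D C.out := by
      have := C.chains_eq D C.out
      have : 1 ≤ C.chains D C.out := by omega
      exact_mod_cast this
    have h3 : (1 : ℝ) ≤ ((C.out + 1 : ℕ) : ℝ) := by
      push_cast
      have : (0 : ℝ) ≤ C.out := Nat.cast_nonneg _
      linarith
    have h4 : (1 : ℝ) ≤ 6 * ((C.out + 1 : ℕ) : ℝ) * C.chains D C.out := by nlinarith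
    nlinarith

end Circuit

end Pool.Agent.H548R2
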