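import Mathlib

/-!
CNF formulas, their satisfying assignments, and the CNF of a constraint on few variables.
-/

namespace Pool.Agent.H548R2

open Finset

/-- A CNF formula over the variable set `V`: a list of clauses, a clause being a list of literals.
The literal `(v, true)` is the variable `v` and `(v, false)` is its negation. -/
abbrev CNF (V : Type) : Type := List (List (V × Bool))

/-- The assignment `a` satisfies the formula `φ`. -/
def Satisfies {V : Type} (a : V → Bool) (φ : CNF V) : Prop :=
  ∀ C ∈ φ, ∃ l ∈ C, a l.1 = l.2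

/-- The variable `v` occurs in the formula `φ`. -/
def Occurs {V : Type} (v : V) (φ : CNF V) : Prop := ∃ C ∈ φ, ∃ l ∈ C, l.1 = v

/-- The number of satisfying assignments. -/
noncomputable def modelCount {V : Type} (φ : CNF V) : ℕ :=
  Nat.card {a : V → Bool // Satisfies a φ}

open Classical in
/-- The indicator function of the set of satisfying assignments. -/
noncomputable def indicator {V : Type} (φ : CNF V) (a : V → Bool) : ℝ :=
  if Satisfies a φ then 1 else 0

theorem modelCount_eq {V : Type} [Fintype V] [DecidableEq V] (φ : CNF V) :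
    (modelCount φ : ℝ) = ∑ a, indicator φ a := by
  classical
  unfold modelCount indicator
  rw [Nat.card_eq_fintype_card, Fintype.card_subtype]
  simp

theorem satisfies_append {V : Type} (a : V → Bool) (φ ψ : CNF V) :
    Satisfies a (φ ++ ψ) ↔ Satisfies a φ ∧ Satisfies a ψ := by
  unfold Satisfies
  simp only [List.mem_append]
  constructor
  · intro h
    exact ⟨fun C hC => h C (Or.inl hC), fun C hC => h C (Or.inr hC)⟩
  · rintro ⟨h1, h2⟩ C (hC | hC)
    · exact h1 C hC
    · exact h2 C hC

section cnfOf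

variable {V : Type} [DecidableEq V]

open Classical in
/-- The canonical CNF of a constraint `Q` on the variables `S`. -/
noncomputable def cnfOf (S : Finset V) (Q : (V → Bool) → Prop) : CNF V :=
  ((S.powerset.filter (fun T => ¬ Q (fun v => decide (v ∈ T)))).toList).map
    (fun T => S.toList.map (fun v => (v, !decide (v ∈ T))))

theorem mem_cnfOf (S : Finset V) (Q : (V → Bool) → Prop) (C : List (V × Bool)) :
    C ∈ cnfOf S Q ↔ ∃ T : Finset V, T ⊆ S ∧ ¬ Q (fun v => decide (v ∈ T)) ∧
      S.toList.map (fun v => (v, !decide (v ∈ T))) = C := by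
  classical
  unfold cnfOf
  simp only [List.mem_map, Finset.mem_toList, Finset.mem_filter, Finset.mem_powerset]
  constructor
  · rintro ⟨T, ⟨h1, h2⟩, h3⟩; exact ⟨T, h1, h2, h3⟩
  · rintro ⟨T, h1, h2, h3⟩; exact ⟨T, ⟨h1, h2⟩, h3⟩

theorem satisfies_cnfOf (S : Finset V) (Q : (V → Bool) → Prop)
    (hQ : ∀ a b : V → Bool, (∀ v ∈ S, a v = b v) → (Q a ↔ Q b)) (a : V → Bool) :
    Satisfies a (cnfOf S Q) ↔ Q a := by
  classical
  constructor
  · intro h
    by_contra hQa
    set T := S.filter (fun v => a v = true) with hT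
    have hag : ∀ v ∈ S, a v = decide (v ∈ T) := by
      intro v hv
      simp only [hT, Finset.mem_filter, hv, true_and]
      cases a v <;> simp
    have hnQ : ¬ Q (fun v => decide (v ∈ T)) := by
      rw [← hQ a _ hag]; exact hQa
    obtain ⟨l, hl, hal⟩ := h _ ((mem_cnfOf S Q _).mpr ⟨T, Finset.filter_subset _ _, hnQ, rfl⟩)
    rw [List.mem_map] at hl
    obtain ⟨v, hv, rfl⟩ := hl
    rw [Finset.mem_toList] at hv
    simp only at hal
    rw [hag v hv] at hal
    cases h : decide (v ∈ T) <;> rw [h] at hal <;> simp at hal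
  · intro hQa C hC
    obtain ⟨T, _, hnQ, rfl⟩ := (mem_cnfOf S Q C).mp hC
    by_contra hcon
    apply hnQ
    rw [← hQ a]
    · exact hQa
    · intro v hv
      by_contra hne
      apply hcon
      refine ⟨(v, !decide (v ∈ T)), List.mem_map.mpr ⟨v, Finset.mem_toList.mpr hv, rfl⟩, ?_⟩
      simp only
      revert hne
      cases a v <;> cases decide (v ∈ T) <;> simp

theorem width_cnfOf (S : Finset V) (Q : (V → Bool) → Prop) (C : List (V × Bool))
    (hC : C ∈ cnfOf S Q) : C.length = S.card := by
  obtain ⟨T, _, _, rfl⟩ := (mem_cnfOf S Q C).mp hC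
  simp

theorem length_cnfOf (S : Finset V) (Q : (V → Bool) → Prop) :
    (cnfOf S Q).length ≤ 2 ^ S.card := by
  classical
  unfold cnfOf
  rw [List.length_map, Finset.length_toList]
  refine (Finset.card_filter_le _ _).trans ?_
  rw [Finset.card_powerset]

theorem occurs_cnfOf (S : Finset V) (Q : (V → Bool) → Prop) (T : Finset V) (hT : T ⊆ S)
    (hQT : ¬ Q (fun v => decide (v ∈ T))) (v : V) (hv : v ∈ S) :
    Occurs v (cnfOf S Q) := by
  refine ⟨_, (mem_cnfOf S Q _).mpr ⟨T, hT, hQT, rfl⟩, (v, !decide (v ∈ T)), ?_, rfl⟩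
  exact List.mem_map.mpr ⟨v, Finset.mem_toList.mpr hv, rfl⟩

end cnfOf

end Pool.Agent.H548R2
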