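import Mathlib

/-!
Number-on-forehead estimate: a product of `k+1` bounded functions, the `i`-th of which ignores
block `i`, has exponentially small correlation with the sign of the generalised inner product.
-/

namespace Pool.Agent.H548R2

open Finset

/-- `bet k` bounds the correlation per coordinate for `k+1` blocks. -/
noncomputable def bet : ℕ → ℝ
  | 0 => 0
  | k + 1 => Real.sqrt ((1 + bet k) / 2)

theorem bet_nonneg : ∀ k, 0 ≤ bet k
  | 0 => le_refl _
  | _ + 1 => Real.sqrt_nonneg _

theorem bet_lt_one : ∀ k, bet k < 1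
  | 0 => by simp [bet]
  | k + 1 => by
    have h := bet_lt_one k
    have h0 := bet_nonneg k
    rw [bet, Real.sqrt_lt' one_pos]
    linarith

theorem bet_sq (k : ℕ) : bet (k + 1) ^ 2 = (1 + bet k) / 2 := by
  rw [bet, Real.sq_sqrt]
  have := bet_nonneg k
  positivity

/-- The sign of the generalised inner product, restricted to the coordinates where `c` holds. -/
def sg {m k : ℕ} (c : Fin m → Bool) (u : Fin k → Fin m → Bool) : ℝ :=
  ∏ e : Fin m, if c e = true ∧ ∀ i, u i e = true then (-1 : ℝ) else 1

/-- The product bound. -/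
noncomputable def bd {m : ℕ} (k : ℕ) (c : Fin m → Bool) : ℝ :=
  ∏ e : Fin m, if c e = true then bet k else 1

theorem sg_cons {m k : ℕ} (c : Fin m → Bool) (w : Fin m → Bool) (v : Fin k → Fin m → Bool) :
    sg c (Fin.cons w v : Fin (k + 1) → Fin m → Bool) = sg (fun e => c e && w e) v := by
  unfold sg
  refine Finset.prod_congr rfl fun e _ => ?_
  refine if_congr ?_ rfl rfl
  rw [Fin.forall_fin_succ]
  simp only [Fin.cons_zero, Fin.cons_succ, Bool.and_eq_true]
  tauto

theorem sg_mul {m k : ℕ} (c w w' : Fin m → Bool) (v : Fin k → Fin m → Bool) :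
    sg (fun e => c e && w e) v * sg (fun e => c e && w' e) v
      = sg (fun e => c e && (xor (w e) (w' e))) v := by
  unfold sg
  rw [← Finset.prod_mul_distrib]
  refine Finset.prod_congr rfl fun e _ => ?_
  by_cases h : ∀ i, v i e = true
  · simp only [h]
    generalize c e = x; generalize w e = y; generalize w' e = z
    cases x <;> cases y <;> cases z <;> simp
  · simp [h]

theorem sum_pi_prod {m : ℕ} (f : Fin m → Bool → ℝ) :
    ∑ w : Fin m → Bool, ∏ e, f e (w e) = ∏ e, (f e true + f e false) := by
  have := Finset.prod_univ_sum (fun _ : Fin m => (Finset.univ : Finset Bool)) f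
  rw [Fintype.piFinset_univ] at this
  rw [← this]
  refine Finset.prod_congr rfl fun e _ => ?_
  simp

theorem core (m : ℕ) : ∀ (k : ℕ) (c : Fin m → Bool)
    (F : Fin (k + 1) → (Fin (k + 1) → Fin m → Bool) → ℝ),
    (∀ i u, |F i u| ≤ 1) →
    (∀ i u w, F i (Function.update u i w) = F i u) →
    |∑ u : Fin (k + 1) → Fin m → Bool, sg c u * ∏ i, F i u|
      ≤ (2 ^ m : ℝ) ^ (k + 1) * bd k c := by
  intro k
  induction k with
  | zero =>
    intro c F hF hI
    have h0 : ∀ u : Fin 1 → Fin m → Bool, F 0 u = F 0 (fun _ _ => false) := by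
      intro u
      have := hI 0 u (fun _ => false)
      rw [← this]
      congr 1
      funext i
      have : i = 0 := Subsingleton.elim (α := Fin 1) _ _
      subst this
      simp
    have h1 : ∑ u : Fin 1 → Fin m → Bool, sg c u * ∏ i, F i u
        = F 0 (fun _ _ => false) * ∏ e, (if c e = true then (0 : ℝ) else 2) := by
      have : ∀ u : Fin 1 → Fin m → Bool, sg c u * ∏ i, F i u
          = F 0 (fun _ _ => false) * ∏ e, (if c e = true ∧ u 0 e = true then (-1 : ℝ) else 1) := by
        intro u
        rw [Fin.prod_univ_one, h0 u, mul_comm]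
        congr 1
        unfold sg
        refine Finset.prod_congr rfl fun e _ => ?_
        refine if_congr ?_ rfl rfl
        constructor
        · rintro ⟨a, b⟩; exact ⟨a, b 0⟩
        · rintro ⟨a, b⟩
          refine ⟨a, fun i => ?_⟩
          have : i = 0 := Subsingleton.elim (α := Fin 1) _ _
          subst this; exact b
      rw [Finset.sum_congr rfl (fun u _ => this u), ← Finset.mul_sum]
      congr 1
      rw [← (Equiv.funUnique (Fin 1) (Fin m → Bool)).symm.sum_comp]
      simp only [Equiv.funUnique_symm_apply, uniqueElim_const]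
      rw [sum_pi_prod (fun e b => if c e = true ∧ b = true then (-1 : ℝ) else 1)]
      refine Finset.prod_congr rfl fun e _ => ?_
      cases c e <;> norm_num
    rw [h1, abs_mul]
    have h2 : |∏ e : Fin m, (if c e = true then (0 : ℝ) else 2)| = (2 ^ m : ℝ) * bd 0 c := by
      rw [Finset.abs_prod]
      unfold bd
      have : (2 ^ m : ℝ) = ∏ _e : Fin m, (2 : ℝ) := by simp
      rw [this, ← Finset.prod_mul_distrib]
      refine Finset.prod_congr rfl fun e _ => ?_
      cases c e <;> simp [bet]
    rw [h2, pow_one]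
    have h3 := hF 0 (fun _ _ => false)
    have h4 : 0 ≤ (2 ^ m : ℝ) * bd 0 c := by rw [← h2]; exact abs_nonneg _
    nlinarith
  | succ k ih =>
    intro c F hF hI
    set G0 : (Fin (k + 1) → Fin m → Bool) → ℝ :=
      fun v => F 0 (Fin.cons (fun _ => false) v : Fin (k + 2) → Fin m → Bool) with hG0
    set H : (Fin m → Bool) → (Fin (k + 1) → Fin m → Bool) → ℝ :=
      fun w v => ∏ i : Fin (k + 1), F i.succ (Fin.cons w v : Fin (k + 2) → Fin m → Bool) with hH
    set T : (Fin (k + 1) → Fin m → Bool) → ℝ :=
      fun v => ∑ w : Fin m → Bool, sg (fun e => c e && w e) v * H w v with hT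
    have e1 : ∑ u : Fin (k + 2) → Fin m → Bool, sg c u * ∏ i, F i u
        = ∑ v : Fin (k + 1) → Fin m → Bool, G0 v * T v := by
      rw [← (Fin.consEquiv (fun _ : Fin (k + 2) => Fin m → Bool)).sum_comp,
        Fintype.sum_prod_type, Finset.sum_comm]
      refine Finset.sum_congr rfl fun v _ => ?_
      rw [hT]
      simp only
      rw [Finset.mul_sum]
      refine Finset.sum_congr rfl fun w _ => ?_
      simp only [Fin.consEquiv, Equiv.coe_fn_mk]
      rw [sg_cons, Fin.prod_univ_succ]
      have : F 0 (Fin.cons w v : Fin (k + 2) → Fin m → Bool) = G0 v := by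
        rw [hG0]
        simp only
        rw [← hI 0 (Fin.cons w v : Fin (k + 2) → Fin m → Bool) (fun _ => false),
          Fin.update_cons_zero]
      rw [this]
      ring
    have e2 : |∑ v : Fin (k + 1) → Fin m → Bool, G0 v * T v|
        ≤ ∑ v : Fin (k + 1) → Fin m → Bool, |T v| := by
      refine (Finset.abs_sum_le_sum_abs _ _).trans (Finset.sum_le_sum fun v _ => ?_)
      rw [abs_mul]
      have := hF 0 (Fin.cons (fun _ => false) v : Fin (k + 2) → Fin m → Bool)
      have h' := abs_nonneg (T v)
      have : |G0 v| ≤ 1 := this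
      nlinarith
    have e3 : (∑ v : Fin (k + 1) → Fin m → Bool, |T v|) ^ 2
        ≤ (2 ^ m : ℝ) ^ (k + 1) * ∑ v : Fin (k + 1) → Fin m → Bool, T v ^ 2 := by
      have := sq_sum_le_card_mul_sum_sq (s := (Finset.univ : Finset (Fin (k + 1) → Fin m → Bool)))
        (f := fun v => |T v|)
      have hc : ((Finset.univ : Finset (Fin (k + 1) → Fin m → Bool)).card : ℝ)
          = (2 ^ m : ℝ) ^ (k + 1) := by
        rw [Finset.card_univ]
        simp
      rw [hc] at this
      refine this.trans (le_of_eq ?_)
      congr 1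
      refine Finset.sum_congr rfl fun v _ => ?_
      exact sq_abs _
    have e4 : ∑ v : Fin (k + 1) → Fin m → Bool, T v ^ 2
        ≤ ∑ w : Fin m → Bool, ∑ w' : Fin m → Bool,
            (2 ^ m : ℝ) ^ (k + 1) * bd k (fun e => c e && xor (w e) (w' e)) := by
      have h1 : ∑ v : Fin (k + 1) → Fin m → Bool, T v ^ 2
          = ∑ w : Fin m → Bool, ∑ w' : Fin m → Bool, ∑ v : Fin (k + 1) → Fin m → Bool,
              sg (fun e => c e && xor (w e) (w' e)) v * ∏ i : Fin (k + 1),
                (F i.succ (Fin.cons w v : Fin (k + 2) → Fin m → Bool)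
                  * F i.succ (Fin.cons w' v : Fin (k + 2) → Fin m → Bool)) := by
        have : ∀ v : Fin (k + 1) → Fin m → Bool, T v ^ 2
            = ∑ w : Fin m → Bool, ∑ w' : Fin m → Bool,
              sg (fun e => c e && xor (w e) (w' e)) v * ∏ i : Fin (k + 1),
                (F i.succ (Fin.cons w v : Fin (k + 2) → Fin m → Bool)
                  * F i.succ (Fin.cons w' v : Fin (k + 2) → Fin m → Bool)) := by
          intro v
          rw [sq, hT]
          simp only
          rw [Finset.sum_mul_sum]
          refine Finset.sum_congr rfl fun w _ => Finset.sum_congr rfl fun w' _ => ?_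
          rw [← sg_mul, Finset.prod_mul_distrib, hH]
          simp only
          ring
        rw [Finset.sum_congr rfl (fun v _ => this v), Finset.sum_comm]
        refine Finset.sum_congr rfl fun w _ => ?_
        rw [Finset.sum_comm]
      rw [h1]
      refine Finset.sum_le_sum fun w _ => Finset.sum_le_sum fun w' _ => ?_
      refine (le_abs_self _).trans (ih _ (fun i v =>
        F i.succ (Fin.cons w v : Fin (k + 2) → Fin m → Bool)
                  * F i.succ (Fin.cons w' v : Fin (k + 2) → Fin m → Bool)) ?_ ?_)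
      · intro i u
        rw [abs_mul]
        have a1 := hF i.succ (Fin.cons w u : Fin (k + 2) → Fin m → Bool)
        have a2 := hF i.succ (Fin.cons w' u : Fin (k + 2) → Fin m → Bool)
        exact mul_le_one₀ a1 (abs_nonneg _) a2
      · intro i u z
        rw [Fin.cons_update, Fin.cons_update, hI, hI]
    have e5 : ∑ w : Fin m → Bool, ∑ w' : Fin m → Bool,
            (2 ^ m : ℝ) ^ (k + 1) * bd k (fun e => c e && xor (w e) (w' e))
        = (2 ^ m : ℝ) ^ (k + 1) * ((2 ^ m : ℝ) ^ 2 * (bd (k + 1) c) ^ 2) := by
      rw [show (∑ w : Fin m → Bool, ∑ w' : Fin m → Bool,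
            (2 ^ m : ℝ) ^ (k + 1) * bd k (fun e => c e && xor (w e) (w' e)))
          = (2 ^ m : ℝ) ^ (k + 1) * ∑ w : Fin m → Bool, ∑ w' : Fin m → Bool,
            bd k (fun e => c e && xor (w e) (w' e)) by
        rw [Finset.mul_sum]
        refine Finset.sum_congr rfl fun w _ => ?_
        rw [Finset.mul_sum]]
      congr 1
      have h1 : ∀ w : Fin m → Bool, ∑ w' : Fin m → Bool,
            bd k (fun e => c e && xor (w e) (w' e))
          = ∏ e, (if c e = true then 1 + bet k else 2) := by
        intro w
        unfold bd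
        rw [sum_pi_prod (fun e b => if (c e && xor (w e) b) = true then bet k else 1)]
        refine Finset.prod_congr rfl fun e _ => ?_
        generalize c e = x; generalize w e = y
        cases x <;> cases y <;> simp <;> norm_num
        ring
      rw [Finset.sum_congr rfl (fun w _ => h1 w), Finset.sum_const, Finset.card_univ]
      have h2 : Fintype.card (Fin m → Bool) = 2 ^ m := by simp
      rw [h2, nsmul_eq_mul]
      have h3 : (∏ e, (if c e = true then 1 + bet k else 2)) = (2 ^ m : ℝ) * bd (k + 1) c ^ 2 := by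
        unfold bd
        have : (2 ^ m : ℝ) = ∏ _e : Fin m, (2 : ℝ) := by simp
        rw [this, ← Finset.prod_pow, ← Finset.prod_mul_distrib]
        refine Finset.prod_congr rfl fun e _ => ?_
        cases c e
        · simp
        · simp only [if_true]
          rw [bet_sq]; ring
      rw [h3]
      push_cast
      ring
    have hb : 0 ≤ bd (k + 1) c := by
      unfold bd
      refine Finset.prod_nonneg fun e _ => ?_
      split_ifs
      · exact bet_nonneg _
      · exact zero_le_one
    rw [e1]
    refine e2.trans ?_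
    have h0 : 0 ≤ ∑ v : Fin (k + 1) → Fin m → Bool, |T v| :=
      Finset.sum_nonneg fun _ _ => abs_nonneg _
    have hp : (0 : ℝ) ≤ (2 ^ m : ℝ) ^ (k + 1 + 1) * bd (k + 1) c := by positivity
    rw [← abs_of_nonneg h0, ← abs_of_nonneg hp]
    refine sq_le_sq.mp ?_
    calc _ ≤ (2 ^ m : ℝ) ^ (k + 1) * ∑ v : Fin (k + 1) → Fin m → Bool, T v ^ 2 := e3
      _ ≤ (2 ^ m : ℝ) ^ (k + 1) * ((2 ^ m : ℝ) ^ (k + 1) * ((2 ^ m : ℝ) ^ 2 * (bd (k + 1) c) ^ 2)) := by
        refine mul_le_mul_of_nonneg_left (e4.trans (le_of_eq e5)) (by positivity)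
      _ = ((2 ^ m : ℝ) ^ (k + 1 + 1) * bd (k + 1) c) ^ 2 := by ring

end Pool.Agent.H548R2
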