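import Pool.Agent.H548R2.Core

/-!
Transfer of the number-on-forehead estimate to functions on `V → Bool` with a family of
disjoint blocks of variables inside `V`.
-/

namespace Pool.Agent.H548R2

open Finset

variable {V : Type}

section Override

variable {m k : ℕ} (v : Fin k → Fin m → V)

open Classical in
/-- Overwrite the block variables of `a` by `u`. -/
noncomputable def ov (a : V → Bool) (u : Fin k → Fin m → Bool) : V → Bool :=
  fun x => if h : ∃ p : Fin k × Fin m, v p.1 p.2 = x then u h.choose.1 h.choose.2 else a x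

/-- Read the block variables of `a`. -/
def rs (a : V → Bool) : Fin k → Fin m → Bool := fun i e => a (v i e)

theorem ov_block (hinj : Function.Injective (fun p : Fin k × Fin m => v p.1 p.2))
    (a : V → Bool) (u : Fin k → Fin m → Bool) (i : Fin k) (e : Fin m) :
    ov v a u (v i e) = u i e := by
  have h : ∃ p : Fin k × Fin m, v p.1 p.2 = v i e := ⟨(i, e), rfl⟩
  unfold ov
  rw [dif_pos h]
  have h2 : h.choose = (i, e) := hinj h.choose_spec
  rw [h2]

theorem ov_off (a : V → Bool) (u : Fin k → Fin m → Bool) (x : V)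
    (hx : ∀ i e, v i e ≠ x) : ov v a u x = a x := by
  unfold ov
  rw [dif_neg]
  rintro ⟨p, hp⟩
  exact hx _ _ hp

theorem ov_ov (hinj : Function.Injective (fun p : Fin k × Fin m => v p.1 p.2))
    (a : V → Bool) (u : Fin k → Fin m → Bool) : ov v (ov v a u) (rs v a) = a := by
  funext x
  by_cases h : ∃ p : Fin k × Fin m, v p.1 p.2 = x
  · obtain ⟨⟨i, e⟩, rfl⟩ := h
    rw [ov_block v hinj]
    rfl
  · have h' : ∀ i e, v i e ≠ x := fun i e hh => h ⟨(i, e), hh⟩
    rw [ov_off v _ _ _ h', ov_off v _ _ _ h']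

theorem rs_ov (hinj : Function.Injective (fun p : Fin k × Fin m => v p.1 p.2))
    (a : V → Bool) (u : Fin k → Fin m → Bool) : rs v (ov v a u) = u := by
  funext i e
  exact ov_block v hinj a u i e

theorem sum_ov [Fintype V] [DecidableEq V] (hinj : Function.Injective (fun p : Fin k × Fin m => v p.1 p.2))
    (f : (V → Bool) → ℝ) :
    ∑ a : V → Bool, ∑ u : Fin k → Fin m → Bool, f (ov v a u)
      = (2 ^ m : ℝ) ^ k * ∑ a : V → Bool, f a := by
  let E : (V → Bool) × (Fin k → Fin m → Bool) ≃ (V → Bool) × (Fin k → Fin m → Bool) :=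
    { toFun := fun p => (ov v p.1 p.2, rs v p.1)
      invFun := fun p => (ov v p.1 p.2, rs v p.1)
      left_inv := fun p => Prod.ext (ov_ov v hinj p.1 p.2) (rs_ov v hinj p.1 p.2)
      right_inv := fun p => Prod.ext (ov_ov v hinj p.1 p.2) (rs_ov v hinj p.1 p.2) }
  have h1 : ∑ a : V → Bool, ∑ u : Fin k → Fin m → Bool, f (ov v a u)
      = ∑ p : (V → Bool) × (Fin k → Fin m → Bool), f (E p).1 := by
    rw [Fintype.sum_prod_type]
    rfl
  rw [h1, Equiv.sum_comp E (fun p => f p.1), Fintype.sum_prod_type]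
  simp only [Finset.sum_const, Finset.card_univ, nsmul_eq_mul]
  rw [← Finset.mul_sum]
  congr 1
  simp

end Override

theorem block_disc [Fintype V] [DecidableEq V] {m k : ℕ} (v : Fin (k + 1) → Fin m → V)
    (hinj : Function.Injective (fun p : Fin (k + 1) × Fin m => v p.1 p.2))
    (F : Fin (k + 1) → (V → Bool) → ℝ) (hF : ∀ i a, |F i a| ≤ 1)
    (hmiss : ∀ i a b, (∀ x, (∀ e, v i e ≠ x) → a x = b x) → F i a = F i b) :
    |∑ a : V → Bool, (∏ e : Fin m, if (∀ i, a (v i e) = true) then (-1 : ℝ) else 1)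
        * ∏ i, F i a| ≤ 2 ^ Fintype.card V * bet k ^ m := by
  set f : (V → Bool) → ℝ := fun a =>
    (∏ e : Fin m, if (∀ i, a (v i e) = true) then (-1 : ℝ) else 1) * ∏ i, F i a with hf
  have hsum := sum_ov v hinj f
  have hbd : bd k (fun _ : Fin m => true) = bet k ^ m := by
    unfold bd; simp
  have hin : ∀ a : V → Bool, |∑ u : Fin (k + 1) → Fin m → Bool, f (ov v a u)|
      ≤ (2 ^ m : ℝ) ^ (k + 1) * bet k ^ m := by
    intro a
    have := core m k (fun _ => true) (fun i u => F i (ov v a u)) (fun i u => hF i _) (by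
      intro i u w
      apply hmiss
      intro x hx
      by_cases h : ∃ p : Fin (k + 1) × Fin m, v p.1 p.2 = x
      · obtain ⟨⟨j, e⟩, rfl⟩ := h
        rw [ov_block v hinj, ov_block v hinj]
        have hj : j ≠ i := by
          rintro rfl
          exact hx e rfl
        rw [Function.update_of_ne hj]
      · have h' : ∀ i e, v i e ≠ x := fun i e hh => h ⟨(i, e), hh⟩
        rw [ov_off v _ _ _ h', ov_off v _ _ _ h'])
    rw [hbd] at this
    refine le_trans (le_of_eq ?_) this
    congr 1
    refine Finset.sum_congr rfl fun u _ => ?_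
    rw [hf]
    simp only
    congr 1
    unfold sg
    refine Finset.prod_congr rfl fun e _ => ?_
    refine if_congr ?_ rfl rfl
    simp only [true_and]
    refine forall_congr' fun i => ?_
    rw [ov_block v hinj]
  have hc : (0 : ℝ) < (2 ^ m : ℝ) ^ (k + 1) := by positivity
  have h3 : (2 ^ m : ℝ) ^ (k + 1) * |∑ a : V → Bool, f a|
      ≤ (2 ^ m : ℝ) ^ (k + 1) * (2 ^ Fintype.card V * bet k ^ m) := by
    calc (2 ^ m : ℝ) ^ (k + 1) * |∑ a : V → Bool, f a|
        = |∑ a : V → Bool, ∑ u : Fin (k + 1) → Fin m → Bool, f (ov v a u)| := by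
          rw [hsum, abs_mul, abs_of_pos hc]
      _ ≤ ∑ a : V → Bool, |∑ u : Fin (k + 1) → Fin m → Bool, f (ov v a u)| :=
          Finset.abs_sum_le_sum_abs _ _
      _ ≤ ∑ _a : V → Bool, (2 ^ m : ℝ) ^ (k + 1) * bet k ^ m :=
          Finset.sum_le_sum fun a _ => hin a
      _ = (2 ^ m : ℝ) ^ (k + 1) * (2 ^ Fintype.card V * bet k ^ m) := by
          rw [Finset.sum_const, Finset.card_univ, nsmul_eq_mul]
          simp only [Fintype.card_pi, Fintype.card_bool, Finset.prod_const, Finset.card_univ]
          push_cast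
          ring
  exact le_of_mul_le_mul_left h3 hc

theorem factor_disc [Fintype V] [DecidableEq V] {m k : ℕ} (v : Fin (k + 1) → Fin m → V)
    (hinj : Function.Injective (fun p : Fin (k + 1) × Fin m => v p.1 p.2))
    {ι : Type} [Fintype ι] (ψ : ι → (V → Bool) → ℝ) (h1 : ∀ t a, |ψ t a| ≤ 1)
    (hS : ∀ t, ∃ i : Fin (k + 1), ∃ S : Set V, DependsOn (ψ t) S ∧ ∀ e, v i e ∉ S) :
    |∑ a : V → Bool, (∏ e : Fin m, if (∀ i, a (v i e) = true) then (-1 : ℝ) else 1)
        * ∏ t, ψ t a| ≤ 2 ^ Fintype.card V * bet k ^ m := by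
  choose I S hdep hoff using hS
  have := block_disc v hinj (fun i a => ∏ t, if I t = i then ψ t a else 1)
    (by
      intro i a
      rw [Finset.abs_prod]
      refine Finset.prod_le_one (fun t _ => abs_nonneg _) (fun t _ => ?_)
      split_ifs
      · exact h1 t a
      · simp)
    (by
      intro i a b hab
      refine Finset.prod_congr rfl fun t _ => ?_
      by_cases ht : I t = i
      · rw [if_pos ht, if_pos ht]
        apply hdep t
        intro x hx
        apply hab
        intro e he
        subst ht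
        exact hoff t e (he ▸ hx)
      · rw [if_neg ht, if_neg ht])
  refine le_trans (le_of_eq ?_) this
  congr 1
  refine Finset.sum_congr rfl fun a _ => ?_
  congr 1
  rw [Finset.prod_comm]
  refine Finset.prod_congr rfl fun t _ => ?_
  simp

end Pool.Agent.H548R2
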