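import Pool.Agent.H548R2.CircMain
import Pool.Agent.H548R2.Disc
import Pool.Agent.H548R2.Graph

/-!
The sign `σ` (a sum of monomials of degree `d+3` on a sparse mixing graph) and its small
correlation with products of balanced rectangles and `d`-local factors.
-/

namespace Pool.Agent.H548R2

open Finset

/-- `Ψ` is a product of functions with values in `[-1,1]`, each depending on at most `d`
variables. -/
def IsLocal {V : Type} (d : ℕ) (Ψ : (V → Bool) → ℝ) : Prop :=
  ∃ (κ : Type) (_ : Fintype κ) (S : κ → Finset V) (ψ : κ → (V → Bool) → ℝ),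
    (∀ t, (S t).card ≤ d) ∧ (∀ t, DependsOn (ψ t) (S t : Set V)) ∧ (∀ t a, |ψ t a| ≤ 1) ∧
    ∀ a, Ψ a = ∏ t, ψ t a

section vars

variable {r B L d : ℕ}

/-- Variables: tails, heads, private variables of the edges, partial parities. -/
abbrev Var (r B L d : ℕ) : Type :=
  (Fin r × Fin B) ⊕ (Fin r × Fin B) ⊕ ((Fin r × Fin B) × Fin L × Fin (d + 2)) ⊕ Fin (r + 1)

def vU (t : Fin r × Fin B) : Var r B L d := Sum.inl t
def vW (t : Fin r × Fin B) : Var r B L d := Sum.inr (Sum.inl t)
def vY (t : Fin r × Fin B) (l : Fin L) (s : Fin (d + 2)) : Var r B L d :=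
  Sum.inr (Sum.inr (Sum.inl (t, l, s)))
def vP (j : Fin (r + 1)) : Var r B L d := Sum.inr (Sum.inr (Sum.inr j))

theorem card_var : Fintype.card (Var r B L d)
    = r * B + (r * B + (r * B * (L * (d + 2)) + (r + 1))) := by
  simp [Var]

/-- Index type of the monomials: an edge `(t, l)` and the kind of the monomial. -/
abbrev Mon (r B L : ℕ) : Type := (Fin r × Fin B) × Fin L × Bool

/-- The variables of a monomial. -/
def mon (f : Fin r × Fin B → Fin L → Fin r × Fin B) (q : Mon r B L) : Finset (Var r B L d) :=
  if q.2.2 = true then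
    insert (vU q.1) (Finset.univ.image (fun s : Fin (d + 2) => vY q.1 q.2.1 s))
  else
    insert (vU q.1) (insert (vW (f q.1 q.2.1))
      (Finset.univ.image (fun s : Fin (d + 1) => vY q.1 q.2.1 s.castSucc)))

/-- Sign of one monomial. -/
def msg (f : Fin r × Fin B → Fin L → Fin r × Fin B) (q : Mon r B L)
    (a : Var r B L d → Bool) : ℝ :=
  if ∀ x ∈ mon f q, a x = true then -1 else 1

/-- The sign `σ`. -/
def sig (f : Fin r × Fin B → Fin L → Fin r × Fin B) (a : Var r B L d → Bool) : ℝ :=
  ∏ q : Mon r B L, msg f q a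

theorem abs_msg (f : Fin r × Fin B → Fin L → Fin r × Fin B) (q : Mon r B L)
    (a : Var r B L d → Bool) : |msg f q a| = 1 := by
  unfold msg; split_ifs <;> simp

theorem msg_dep (f : Fin r × Fin B → Fin L → Fin r × Fin B) (q : Mon r B L) :
    DependsOn (msg (d := d) f q) ((mon (d := d) f q : Finset (Var r B L d)) : Set (Var r B L d)) := by
  intro a b hab
  unfold msg
  refine if_congr ?_ rfl rfl
  refine forall_congr' fun x => ?_
  refine forall_congr' fun hx => ?_
  rw [hab x (Finset.mem_coe.mpr hx)]

/-- `m` monomials with pairwise disjoint supports arranged in `d+3` blocks, one block inside `X`,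
one outside `X`, such that every other monomial misses a block. -/
def Cross (f : Fin r × Fin B → Fin L → Fin r × Fin B) (m : ℕ) (X : Finset (Var r B L d)) : Prop :=
  ∃ (v : Fin (d + 2 + 1) → Fin m → Var r B L d) (idx : Fin m → Mon r B L),
    Function.Injective (fun p : Fin (d + 2 + 1) × Fin m => v p.1 p.2) ∧
    Function.Injective idx ∧
    (∀ e x, x ∈ mon f (idx e) ↔ ∃ i, v i e = x) ∧
    (∀ q, (∀ e, idx e ≠ q) → ∃ i, ∀ e, v i e ∉ mon f q) ∧
    (∃ i, ∀ e, v i e ∈ X) ∧ (∃ i, ∀ e, v i e ∉ X)

theorem Cross.symm {f : Fin r × Fin B → Fin L → Fin r × Fin B} {m : ℕ}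
    {X : Finset (Var r B L d)} (h : Cross f m Xᶜ) : Cross f m X := by
  obtain ⟨v, idx, h1, h2, h3, h4, ⟨i, hi⟩, ⟨j, hj⟩⟩ := h
  refine ⟨v, idx, h1, h2, h3, h4, ⟨j, fun e => ?_⟩, ⟨i, fun e => ?_⟩⟩
  · have := hj e
    rw [Finset.mem_compl, not_not] at this
    exact this
  · have := hi e
    rw [Finset.mem_compl] at this
    exact this

theorem disc_of_cross (f : Fin r × Fin B → Fin L → Fin r × Fin B) (m E : ℕ)
    (hcross : ∀ X : Finset (Var r B L d), Fintype.card (Var r B L d) ≤ E * X.card →
      Fintype.card (Var r B L d) ≤ E * (Xᶜ).card → Cross f m X)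
    (Ψ : (Var r B L d → Bool) → ℝ) (hΨ : IsLocal d Ψ) :
    Disc (fun a => sig f a * Ψ a) (2 ^ Fintype.card (Var r B L d) * bet (d + 2) ^ m) E := by
  intro X hX hXc F₁ F₂ hA hB hA1 hB1
  obtain ⟨v, idx, hinj, hidx, hmem, hmiss, ⟨iX, hiX⟩, ⟨iY, hiY⟩⟩ := hcross X hX hXc
  obtain ⟨κ, _, S, ψ, hS, hdep, hψ1, hΨe⟩ := hΨ
  classical
  -- the factors
  let φ : (Mon r B L ⊕ κ) ⊕ Bool → (Var r B L d → Bool) → ℝ := fun t a =>
    match t with
    | Sum.inl (Sum.inl q) => if ∃ e, idx e = q then 1 else msg f q a
    | Sum.inl (Sum.inr t) => ψ t a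
    | Sum.inr true => F₁ a
    | Sum.inr false => F₂ a
  have hmain := factor_disc v hinj φ (by
    intro t a
    rcases t with (q | t) | b
    · simp only [φ]
      split_ifs
      · simp
      · rw [abs_msg]
    · exact hψ1 t a
    · cases b
      · exact hB1 a
      · exact hA1 a) (by
    intro t
    rcases t with (q | t) | b
    · by_cases hq : ∃ e, idx e = q
      · refine ⟨0, ∅, ?_, by simp⟩
        intro a b _
        simp only [φ, hq, if_true]
      · have hq' : ∀ e, idx e ≠ q := fun e he => hq ⟨e, he⟩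
        obtain ⟨i, hi⟩ := hmiss q hq'
        refine ⟨i, ((mon (d := d) f q : Finset (Var r B L d)) : Set (Var r B L d)), ?_,
          fun e he => hi e (Finset.mem_coe.mp he)⟩
        intro a b hab
        simp only [φ, hq, if_false]
        exact msg_dep f q hab
    · -- a local factor misses one of the d+3 blocks
      have : ∃ i : Fin (d + 2 + 1), ∀ e, v i e ∉ S t := by
        by_contra hcon
        push Not at hcon
        choose e he using hcon
        have hinj2 : Function.Injective (fun i : Fin (d + 2 + 1) => v i (e i)) := by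
          intro i j hij
          have := @hinj (i, e i) (j, e j) hij
          exact congrArg Prod.fst this
        have hsub : Finset.univ.image (fun i : Fin (d + 2 + 1) => v i (e i)) ⊆ S t := by
          intro x hx
          rw [Finset.mem_image] at hx
          obtain ⟨i, _, rfl⟩ := hx
          exact he i
        have hc := Finset.card_le_card hsub
        rw [Finset.card_image_of_injective _ hinj2, Finset.card_univ, Fintype.card_fin] at hc
        have := hS t
        omega
      obtain ⟨i, hi⟩ := this
      exact ⟨i, (S t : Set (Var r B L d)), hdep t, fun e he => hi e (Finset.mem_coe.mp he)⟩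
    · cases b
      · exact ⟨iX, ((X : Set (Var r B L d))ᶜ), hB, fun e he => he (Finset.mem_coe.mpr (hiX e))⟩
      · exact ⟨iY, (X : Set (Var r B L d)), hA, fun e he => hiY e (Finset.mem_coe.mp he)⟩)
  refine le_trans (le_of_eq ?_) hmain
  congr 1
  refine Finset.sum_congr rfl fun a _ => ?_
  rw [Fintype.prod_sum_type, Fintype.prod_sum_type, Fintype.prod_bool]
  simp only [φ]
  rw [← hΨe a]
  have hsig : sig f a = (∏ e : Fin m, if (∀ i, a (v i e) = true) then (-1 : ℝ) else 1)
      * ∏ q : Mon r B L, (if ∃ e, idx e = q then 1 else msg f q a) := by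
    have h1 : sig f a = (∏ q : Mon r B L, (if ∃ e, idx e = q then msg f q a else 1))
        * ∏ q : Mon r B L, (if ∃ e, idx e = q then 1 else msg f q a) := by
      unfold sig
      rw [← Finset.prod_mul_distrib]
      refine Finset.prod_congr rfl fun q _ => ?_
      split_ifs <;> simp
    rw [h1]
    congr 1
    have h2 : ∏ e : Fin m, (if (∀ i, a (v i e) = true) then (-1 : ℝ) else 1)
        = ∏ e : Fin m, msg f (idx e) a := by
      refine Finset.prod_congr rfl fun e _ => ?_
      unfold msg
      refine if_congr ?_ rfl rfl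
      constructor
      · intro h x hx
        obtain ⟨i, rfl⟩ := (hmem e x).mp hx
        exact h i
      · intro h i
        exact h _ ((hmem e _).mpr ⟨i, rfl⟩)
    rw [h2, ← Finset.prod_image (s := Finset.univ) (g := idx) (f := fun q => msg f q a)
      (fun x _ y _ h => hidx h), ← Finset.prod_filter]
    refine Finset.prod_congr ?_ fun _ _ => rfl
    ext q
    simp
  rw [hsig]
  ring

end vars

end Pool.Agent.H548R2
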