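import Pool.Agent.H548R2.Cases
import Pool.Agent.H548R2.Cnf

/-!
The hard formula: it says that the partial parities `p_j` of the monomials are correct and that
the total parity is even.
-/

namespace Pool.Agent.H548R2

open Finset

section

variable {r B L d : ℕ} (f : Fin r × Fin B → Fin L → Fin r × Fin B)

/-- `false ↦ 1`, `true ↦ -1`. -/
def pm (b : Bool) : ℝ := if b = true then -1 else 1

theorem pm_sq (b : Bool) : pm b * pm b = 1 := by cases b <;> simp [pm]

/-- The sign of the monomials of block `j`. -/
def tau (j : Fin r) (a : Var r B L d → Bool) : ℝ :=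
  ∏ q : Fin B × Fin L × Bool, msg f ((j, q.1), q.2.1, q.2.2) a

/-- The variables of constraint `j`. -/
def blkS (j : Fin r) : Finset (Var r B L d) :=
  insert (vP j.castSucc) (insert (vP j.succ)
    (Finset.univ.biUnion (fun q : Fin B × Fin L × Bool => mon f ((j, q.1), q.2.1, q.2.2))))

/-- Constraint `j`. -/
def blkQ (j : Fin r) (a : Var r B L d → Bool) : Prop :=
  pm (a (vP j.castSucc)) * pm (a (vP j.succ)) = tau f j a

/-- The hard formula. -/
noncomputable def hard : CNF (Var r B L d) :=
  ((List.finRange r).flatMap (fun j => cnfOf (blkS f j) (blkQ f j)))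
    ++ [[(vP 0, false)], [(vP (Fin.last r), false)]]

theorem card_mon (q : Mon r B L) : (mon (d := d) f q).card ≤ d + 3 := by
  unfold mon
  split_ifs
  · refine (Finset.card_insert_le _ _).trans ?_
    have := Finset.card_image_le (s := (Finset.univ : Finset (Fin (d + 2))))
      (f := fun s : Fin (d + 2) => (vY q.1 q.2.1 s : Var r B L d))
    simp only [Finset.card_univ, Fintype.card_fin] at this
    omega
  · refine (Finset.card_insert_le _ _).trans ?_
    have h2 := Finset.card_insert_le (vW (f q.1 q.2.1) : Var r B L d)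
      (Finset.univ.image (fun s : Fin (d + 1) => (vY q.1 q.2.1 s.castSucc : Var r B L d)))
    have := Finset.card_image_le (s := (Finset.univ : Finset (Fin (d + 1))))
      (f := fun s : Fin (d + 1) => (vY q.1 q.2.1 s.castSucc : Var r B L d))
    simp only [Finset.card_univ, Fintype.card_fin] at this
    omega

theorem card_blkS (j : Fin r) :
    (blkS (d := d) f j).card ≤ 2 + B * (L * 2) * (d + 3) := by
  unfold blkS
  refine (Finset.card_insert_le _ _).trans ?_
  have h1 := Finset.card_insert_le (vP j.succ : Var r B L d)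
    (Finset.univ.biUnion (fun q : Fin B × Fin L × Bool => mon f ((j, q.1), q.2.1, q.2.2)))
  have h2 : (Finset.univ.biUnion (fun q : Fin B × Fin L × Bool =>
      (mon f ((j, q.1), q.2.1, q.2.2) : Finset (Var r B L d)))).card
      ≤ B * (L * 2) * (d + 3) := by
    refine Finset.card_biUnion_le.trans ?_
    refine (Finset.sum_le_card_nsmul _ _ (d + 3) (fun q _ => card_mon f _)).trans ?_
    simp
  omega

theorem tau_dep (j : Fin r) (a b : Var r B L d → Bool)
    (h : ∀ v ∈ blkS f j, a v = b v) : tau f j a = tau f j b := by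
  unfold tau
  refine Finset.prod_congr rfl fun q _ => ?_
  refine msg_dep f _ fun x hx => h x ?_
  unfold blkS
  refine Finset.mem_insert_of_mem (Finset.mem_insert_of_mem ?_)
  exact Finset.mem_biUnion.mpr ⟨q, Finset.mem_univ _, Finset.mem_coe.mp hx⟩

theorem blkQ_dep (j : Fin r) (a b : Var r B L d → Bool)
    (h : ∀ v ∈ blkS f j, a v = b v) : blkQ f j a ↔ blkQ f j b := by
  unfold blkQ
  rw [tau_dep f j a b h, h (vP j.castSucc) (by simp [blkS]), h (vP j.succ) (by simp [blkS])]

theorem satisfies_hard (a : Var r B L d → Bool) : Satisfies a (hard f) ↔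
    (∀ j, blkQ f j a) ∧ a (vP 0) = false ∧ a (vP (Fin.last r)) = false := by
  unfold hard
  rw [satisfies_append]
  refine and_congr ?_ ?_
  · constructor
    · intro h j
      rw [← satisfies_cnfOf (blkS f j) (blkQ f j) (blkQ_dep f j) a]
      intro C hC
      exact h C (List.mem_flatMap.mpr ⟨j, List.mem_finRange j, hC⟩)
    · intro h C hC
      obtain ⟨j, _, hC⟩ := List.mem_flatMap.mp hC
      exact (satisfies_cnfOf (blkS f j) (blkQ f j) (blkQ_dep f j) a).mpr (h j) C hC
  · unfold Satisfies
    constructor
    · intro h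
      obtain ⟨l, hl, e⟩ := h [(vP 0, false)] (by simp)
      obtain ⟨l', hl', e'⟩ := h [(vP (Fin.last r), false)] (by simp)
      rw [List.mem_singleton] at hl hl'
      subst hl hl'
      exact ⟨e, e'⟩
    · rintro ⟨h1, h2⟩ C hC
      simp only [List.mem_cons, List.not_mem_nil, or_false] at hC
      rcases hC with rfl | rfl
      · exact ⟨_, List.mem_singleton.mpr rfl, h1⟩
      · exact ⟨_, List.mem_singleton.mpr rfl, h2⟩

theorem msg_eq_or (q : Mon r B L) (a : Var r B L d → Bool) : msg f q a = 1 ∨ msg f q a = -1 := by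
  unfold msg; split_ifs <;> simp

theorem tau_eq_or (j : Fin r) (a : Var r B L d → Bool) : tau f j a = 1 ∨ tau f j a = -1 := by
  unfold tau
  refine Finset.prod_induction _ (fun x => x = 1 ∨ x = -1) ?_ (Or.inl rfl)
    (fun q _ => msg_eq_or f _ a)
  rintro x y (rfl | rfl) (rfl | rfl) <;> simp

theorem tau_sq (j : Fin r) (a : Var r B L d → Bool) : tau f j a * tau f j a = 1 := by
  rcases tau_eq_or f j a with h | h <;> rw [h] <;> norm_num

theorem sig_eq (a : Var r B L d → Bool) : sig f a = ∏ j, tau f j a := by
  unfold sig tau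
  rw [Fintype.prod_prod_type, Fintype.prod_prod_type]
  refine Finset.prod_congr rfl fun j _ => ?_
  rw [Fintype.prod_prod_type]

theorem sig_eq_or (a : Var r B L d → Bool) : sig f a = 1 ∨ sig f a = -1 := by
  unfold sig
  refine Finset.prod_induction _ (fun x => x = 1 ∨ x = -1) ?_ (Or.inl rfl)
    (fun q _ => msg_eq_or f _ a)
  rintro x y (rfl | rfl) (rfl | rfl) <;> simp

theorem sig_of_satisfies (a : Var r B L d → Bool) (h : Satisfies a (hard f)) : sig f a = 1 := by
  rw [satisfies_hard] at h
  obtain ⟨h1, h2, h3⟩ := h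
  rw [sig_eq]
  have e1 : ∏ j, tau f j a = ∏ j : Fin r, (pm (a (vP j.castSucc)) * pm (a (vP j.succ))) :=
    Finset.prod_congr rfl fun j _ => (h1 j).symm
  rw [e1, Finset.prod_mul_distrib]
  have e2 := Fin.prod_univ_castSucc (fun i : Fin (r + 1) => pm (a (vP i)))
  have e3 := Fin.prod_univ_succ (fun i : Fin (r + 1) => pm (a (vP i)))
  rw [h3] at e2
  rw [h2] at e3
  simp only [pm, Bool.false_eq_true, if_false, mul_one, one_mul] at e2 e3 ⊢
  rw [← e2, ← e3, ← Finset.prod_mul_distrib]
  refine Finset.prod_eq_one fun i _ => ?_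
  split_ifs <;> norm_num

/-! ### Counting the satisfying assignments -/

/-- The partial products of the block signs. -/
def ppr (a : Var r B L d → Bool) (j : ℕ) : ℝ :=
  ∏ i ∈ Finset.univ.filter (fun i : Fin r => i.1 < j), tau f i a

theorem ppr_eq_or (a : Var r B L d → Bool) (j : ℕ) : ppr f a j = 1 ∨ ppr f a j = -1 := by
  unfold ppr
  refine Finset.prod_induction _ (fun x => x = 1 ∨ x = -1) ?_ (Or.inl rfl)
    (fun q _ => tau_eq_or f _ a)
  rintro x y (rfl | rfl) (rfl | rfl) <;> simp

theorem ppr_succ (a : Var r B L d → Bool) (j : Fin r) :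
    ppr f a (j.1 + 1) = ppr f a j.1 * tau f j a := by
  unfold ppr
  have : Finset.univ.filter (fun i : Fin r => i.1 < j.1 + 1)
      = insert j (Finset.univ.filter (fun i : Fin r => i.1 < j.1)) := by
    ext i
    simp only [Finset.mem_filter, Finset.mem_univ, true_and, Finset.mem_insert, Fin.ext_iff]
    omega
  rw [this, Finset.prod_insert (by simp), mul_comm]

open Classical in
/-- Correct the parity variables. -/
noncomputable def fixP (a : Var r B L d → Bool) : Var r B L d → Bool := fun x =>
  match x with
  | Sum.inl t => a (Sum.inl t)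
  | Sum.inr (Sum.inl t) => a (Sum.inr (Sum.inl t))
  | Sum.inr (Sum.inr (Sum.inl y)) => a (Sum.inr (Sum.inr (Sum.inl y)))
  | Sum.inr (Sum.inr (Sum.inr j)) => decide (ppr f a j.1 = -1)

theorem fixP_vP (a : Var r B L d → Bool) (j : Fin (r + 1)) :
    pm (fixP f a (vP j)) = ppr f a j.1 := by
  show pm (decide (ppr f a j.1 = -1)) = ppr f a j.1
  rcases ppr_eq_or f a j.1 with h | h
  · rw [h]; norm_num [pm]
  · rw [h]; norm_num [pm]

theorem fixP_off (a : Var r B L d → Bool) (x : Var r B L d) (hx : ∀ j, x ≠ vP j) :
    fixP f a x = a x := by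
  rcases x with t | t | y | j
  · rfl
  · rfl
  · rfl
  · exact absurd rfl (hx j)

theorem vP_notMem_mon (q : Mon r B L) (j : Fin (r + 1)) : (vP j : Var r B L d) ∉ mon f q := by
  obtain ⟨t, l, b⟩ := q
  cases b
  · rw [mem_mon_false]
    rintro (h | h | ⟨s, h⟩)
    · exact absurd h vP_ne_vU
    · exact absurd h vP_ne_vW
    · exact absurd h vP_ne_vY
  · rw [mem_mon_true]
    rintro (h | ⟨s, h⟩)
    · exact absurd h vP_ne_vU
    · exact absurd h vP_ne_vY

theorem tau_fixP (a : Var r B L d → Bool) (j : Fin r) : tau f j (fixP f a) = tau f j a := by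
  unfold tau
  refine Finset.prod_congr rfl fun q _ => ?_
  refine msg_dep f _ fun x hx => fixP_off f a x ?_
  rintro i rfl
  exact vP_notMem_mon f _ i (Finset.mem_coe.mp hx)

theorem satisfies_fixP (a : Var r B L d → Bool) (h : sig f a = 1) :
    Satisfies (fixP f a) (hard f) := by
  have hpm : ∀ b : Bool, pm b = 1 → b = false := by
    intro b; cases b <;> norm_num [pm]
  rw [satisfies_hard]
  refine ⟨fun j => ?_, ?_, ?_⟩
  · unfold blkQ
    rw [fixP_vP, fixP_vP, tau_fixP]
    simp only [Fin.val_castSucc, Fin.val_succ]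
    rw [ppr_succ]
    rcases ppr_eq_or f a j.1 with h | h <;> rw [h] <;> ring
  · apply hpm
    rw [fixP_vP]
    simp [ppr]
  · apply hpm
    rw [fixP_vP, ← h, sig_eq]
    unfold ppr
    refine Finset.prod_congr ?_ fun _ _ => rfl
    ext i
    simp

theorem card_sig_le : (Finset.univ.filter (fun a : Var r B L d → Bool => sig f a = 1)).card
    ≤ modelCount (hard (d := d) f) * 2 ^ (r + 1) := by
  classical
  have hinj : Function.Injective (fun a : {a : Var r B L d → Bool // sig f a = 1} =>
      ((⟨fixP f a.1, satisfies_fixP f a.1 a.2⟩ : {a : Var r B L d → Bool // Satisfies a (hard f)}),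
        (fun j : Fin (r + 1) => a.1 (vP j)))) := by
    rintro ⟨a, ha⟩ ⟨b, hb⟩ h
    simp only [Prod.mk.injEq, Subtype.mk.injEq] at h
    obtain ⟨h1, h2⟩ := h
    apply Subtype.ext
    funext x
    by_cases hx : ∃ j, x = vP j
    · obtain ⟨j, rfl⟩ := hx
      exact congrFun h2 j
    · have hx' : ∀ j, x ≠ vP j := fun j hj => hx ⟨j, hj⟩
      have := congrFun h1 x
      rw [fixP_off f a x hx', fixP_off f b x hx'] at this
      exact this
  have := Nat.card_le_card_of_injective _ hinj
  rw [Nat.card_prod] at this
  have e1 : Nat.card {a : Var r B L d → Bool // sig f a = 1}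
      = (Finset.univ.filter (fun a : Var r B L d → Bool => sig f a = 1)).card := by
    rw [Nat.card_eq_fintype_card, Fintype.card_subtype]
  have e2 : Nat.card (Fin (r + 1) → Bool) = 2 ^ (r + 1) := by simp
  rw [e1, e2] at this
  exact this

theorem count_lower (hsum : |∑ a : Var r B L d → Bool, sig f a|
      ≤ 2 ^ Fintype.card (Var r B L d) / 2) :
    (2 : ℝ) ^ Fintype.card (Var r B L d) ≤ 2 ^ (r + 3) * modelCount (hard (d := d) f) := by
  classical
  have h1 := card_sig_le (d := d) f
  set P := Finset.univ.filter (fun a : Var r B L d → Bool => sig f a = 1) with hP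
  have hs : ∑ a : Var r B L d → Bool, sig f a
      = 2 * (P.card : ℝ) - 2 ^ Fintype.card (Var r B L d) := by
    have : ∀ a : Var r B L d → Bool, sig f a = 2 * (if sig f a = 1 then (1 : ℝ) else 0) - 1 := by
      intro a
      rcases sig_eq_or f a with h | h
      · rw [h]; norm_num
      · rw [h]; norm_num
    rw [Finset.sum_congr rfl fun a _ => this a, Finset.sum_sub_distrib, ← Finset.mul_sum,
      Finset.sum_boole]
    simp [hP]
  rw [hs, abs_le] at hsum
  have h2 : (P.card : ℝ) ≤ modelCount (hard (d := d) f) * 2 ^ (r + 1) := by exact_mod_cast h1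
  have h3 : (2 : ℝ) ^ (r + 3) = 4 * 2 ^ (r + 1) := by ring
  rw [h3]
  nlinarith [hsum.1]

/-! ### Size of the formula -/

theorem hard_width (C : List (Var r B L d × Bool)) (hC : C ∈ hard f) :
    C.length ≤ 2 + B * (L * 2) * (d + 3) := by
  unfold hard at hC
  rcases List.mem_append.mp hC with hC | hC
  · obtain ⟨j, _, hC⟩ := List.mem_flatMap.mp hC
    rw [width_cnfOf _ _ _ hC]
    exact card_blkS f j
  · simp only [List.mem_cons, List.not_mem_nil, or_false] at hC
    rcases hC with rfl | rfl <;>
      exact (by norm_num : 1 ≤ 2).trans (Nat.le_add_right _ _)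

theorem hard_length : (hard (d := d) f).length ≤ r * 2 ^ (2 + B * (L * 2) * (d + 3)) + 2 := by
  unfold hard
  rw [List.length_append, List.length_flatMap]
  have : ((List.finRange r).map (fun j => (cnfOf (blkS (d := d) f j) (blkQ f j)).length)).sum
      ≤ r * 2 ^ (2 + B * (L * 2) * (d + 3)) := by
    have h1 := List.sum_le_card_nsmul
      ((List.finRange r).map (fun j => (cnfOf (blkS (d := d) f j) (blkQ f j)).length))
      (2 ^ (2 + B * (L * 2) * (d + 3))) (by
        intro x hx
        obtain ⟨j, _, rfl⟩ := List.mem_map.mp hx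
        exact (length_cnfOf _ _).trans (Nat.pow_le_pow_right (by norm_num) (card_blkS f j)))
    simpa using h1
  simpa using this

theorem hard_occurs (l0 : Fin L) (hl0 : ∀ t, f t l0 = t) (v : Var r B L d) :
    Occurs v (hard f) := by
  classical
  -- every variable of a block occurs
  have hblk : ∀ (j : Fin r), ∀ v ∈ blkS (d := d) f j, Occurs v (hard f) := by
    intro j v hv
    have hoc : Occurs v (cnfOf (blkS (d := d) f j) (blkQ f j)) := by
      refine occurs_cnfOf _ _ {vP j.castSucc} ?_ ?_ v hv
      · intro x hx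
        rw [Finset.mem_singleton] at hx
        subst hx
        simp [blkS]
      · unfold blkQ
        have ht : tau f j (fun v : Var r B L d =>
            decide (v ∈ ({vP j.castSucc} : Finset (Var r B L d)))) = 1 := by
          unfold tau
          refine Finset.prod_eq_one fun q _ => ?_
          unfold msg
          rw [if_neg]
          intro h
          have hU : (vU (j, q.1) : Var r B L d) ∈ mon f ((j, q.1), q.2.1, q.2.2) := by
            unfold mon; split_ifs <;> simp
          have := h _ hU
          simp only [Finset.mem_singleton, decide_eq_true_eq] at this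
          exact absurd this.symm vP_ne_vU
        rw [ht]
        have h1 : (vP j.succ : Var r B L d) ∉ ({vP j.castSucc} : Finset (Var r B L d)) := by
          rw [Finset.mem_singleton, vP_inj]
          exact (Fin.castSucc_lt_succ).ne'
        simp only [Finset.mem_singleton, decide_true, pm, if_true, h1, decide_false,
          Bool.false_eq_true, if_false, mul_one]
        norm_num [Finset.mem_singleton.not.mp h1]
    obtain ⟨C, hC, l, hl, hlv⟩ := hoc
    refine ⟨C, ?_, l, hl, hlv⟩
    unfold hard
    exact List.mem_append.mpr (Or.inl (List.mem_flatMap.mpr ⟨j, List.mem_finRange j, hC⟩))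
  have hmon : ∀ (t : Fin r × Fin B) (l : Fin L) (b : Bool), ∀ x ∈ mon f (t, l, b),
      Occurs (x : Var r B L d) (hard f) := by
    intro t l b x hx
    apply hblk t.1
    unfold blkS
    refine Finset.mem_insert_of_mem (Finset.mem_insert_of_mem ?_)
    exact Finset.mem_biUnion.mpr ⟨(t.2, l, b), Finset.mem_univ _, hx⟩
  rcases v with t | t | y | j
  · exact hmon t l0 true (vU t) (by rw [mem_mon_true]; exact Or.inl rfl)
  · refine hmon t l0 false (vW t) ?_
    rw [mem_mon_false, hl0 t]
    exact Or.inr (Or.inl rfl)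
  · exact hmon y.1 y.2.1 true (vY y.1 y.2.1 y.2.2) (by
      rw [mem_mon_true]; exact Or.inr ⟨_, rfl⟩)
  · by_cases hj : j = Fin.last r
    · subst hj
      refine ⟨[(vP (Fin.last r), false)], ?_, (vP (Fin.last r), false), by simp, rfl⟩
      unfold hard
      exact List.mem_append.mpr (Or.inr (by simp))
    · obtain ⟨i, rfl⟩ := Fin.exists_castSucc_eq.mpr hj
      exact hblk i (vP i.castSucc) (by simp [blkS])

end

end Pool.Agent.H548R2
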