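import Pool.Agent.H548R2.Graph

/-!
Mixing graphs of logarithmic degree overhead, and almost perfect matchings across a partition.
-/

namespace Pool.Agent.H548R2

open Finset

theorem two_mul_pow_le (c : ℕ) (hc : 2 ≤ c) : 2 * (c - 1) ^ c ≤ c ^ c := by
  obtain ⟨a, rfl⟩ : ∃ a, c = a + 1 := ⟨c - 1, by omega⟩
  simp only [Nat.add_sub_cancel]
  have ha : (0 : ℝ) < a := by
    have : 0 < a := by omega
    exact_mod_cast this
  have h1 := one_add_mul_le_pow (a := (1 / a : ℝ)) (by
    have : (0 : ℝ) ≤ 1 / a := by positivity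
    linarith) (a + 1)
  have h2 : (2 : ℝ) ≤ (1 + 1 / a) ^ (a + 1) := by
    refine le_trans ?_ h1
    push_cast
    have : ((a : ℝ) + 1) * (1 / a) = 1 + 1 / a := by field_simp
    rw [this]
    have : (0 : ℝ) ≤ 1 / a := by positivity
    linarith
  have h3 : (1 + 1 / (a : ℝ)) ^ (a + 1) * (a : ℝ) ^ (a + 1) = ((a : ℝ) + 1) ^ (a + 1) := by
    rw [← mul_pow]
    congr 1
    field_simp
  have h4 : (2 : ℝ) * (a : ℝ) ^ (a + 1) ≤ ((a : ℝ) + 1) ^ (a + 1) := by
    rw [← h3]
    exact mul_le_mul_of_nonneg_right h2 (by positivity)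
  exact_mod_cast h4

theorem degree_log (c n : ℕ) (hc : 2 ≤ c) :
    n ^ 2 * (c - 1) ^ (c * (2 * (Nat.log 2 n + 1))) < c ^ (c * (2 * (Nat.log 2 n + 1))) := by
  have h1 : n < 2 ^ (Nat.log 2 n + 1) := Nat.lt_pow_succ_log_self (by norm_num) n
  have h2 : n ^ 2 < 2 ^ (2 * (Nat.log 2 n + 1)) := by
    rw [mul_comm 2, pow_mul]
    exact Nat.pow_lt_pow_left h1 (by norm_num)
  have h3 : 2 ^ (2 * (Nat.log 2 n + 1)) * (c - 1) ^ (c * (2 * (Nat.log 2 n + 1)))
      ≤ c ^ (c * (2 * (Nat.log 2 n + 1))) := by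
    rw [pow_mul (c - 1), pow_mul c, ← mul_pow]
    exact Nat.pow_le_pow_left (two_mul_pow_le c hc) _
  refine lt_of_lt_of_le ?_ h3
  exact Nat.mul_lt_mul_of_pos_right h2 (Nat.pow_pos (by omega))

theorem exists_mixing_log (c m D0 : ℕ) (hc : 2 ≤ c) (hm : 1 ≤ m) (α : Type) [Fintype α]
    [DecidableEq α] (hα : Fintype.card α = c * m)
    (hD : (c * m) ^ 2 * (c - 1) ^ D0 < c ^ D0) :
    ∃ g : α × Fin D0 → α, ∀ A B : Finset α, m ≤ A.card → m ≤ B.card →
      ∃ t ∈ A, ∃ l, g (t, l) ∈ B := by
  classical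
  set n := Fintype.card α with hn
  let bad : Finset α × Finset α → Finset (α × Fin D0 → α) := fun P =>
    Fintype.piFinset (fun p : α × Fin D0 => if p.1 ∈ P.1 then P.2ᶜ else Finset.univ)
  let prs : Finset (Finset α × Finset α) :=
    (Finset.powersetCard m Finset.univ) ×ˢ (Finset.powersetCard m Finset.univ)
  have hbad : ∀ P ∈ prs, (bad P).card = ((n - m) ^ D0) ^ m * (n ^ D0) ^ (n - m) := by
    intro P hP
    simp only [prs, Finset.mem_product, Finset.mem_powersetCard] at hP
    simp only [bad, Fintype.card_piFinset]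
    have : ∀ p : α × Fin D0, (if p.1 ∈ P.1 then P.2ᶜ else Finset.univ : Finset α).card
        = if p.1 ∈ P.1 then n - m else n := by
      intro p
      split_ifs
      · rw [Finset.card_compl, hP.2.2]
      · rw [Finset.card_univ]
    rw [Finset.prod_congr rfl fun p _ => this p, prod_ite_pow, Finset.card_compl, hP.1.2]
  have hprs : prs.card ≤ (n ^ 2) ^ m := by
    simp only [prs, Finset.card_product]
    have h1 : (Finset.powersetCard m (Finset.univ : Finset α)).card ≤ n ^ m := by
      rw [Finset.card_powersetCard, Finset.card_univ]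
      exact Nat.choose_le_pow _ _
    calc _ ≤ n ^ m * n ^ m := Nat.mul_le_mul h1 h1
      _ = (n ^ 2) ^ m := by rw [← mul_pow, sq]
  have hlt : (prs.biUnion bad).card < Fintype.card (α × Fin D0 → α) := by
    refine lt_of_le_of_lt Finset.card_biUnion_le ?_
    rw [Finset.sum_congr rfl hbad, Finset.sum_const, smul_eq_mul]
    have hcard : Fintype.card (α × Fin D0 → α) = (n ^ D0) ^ m * (n ^ D0) ^ (n - m) := by
      rw [Fintype.card_fun, Fintype.card_prod, Fintype.card_fin, ← hn, ← pow_add, ← pow_mul]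
      congr 1
      have : m + (n - m) = n := by
        have : m ≤ n := by rw [hα]; nlinarith
        omega
      rw [this, mul_comm]
    rw [hcard]
    have hn0 : 0 < n := by rw [hα]; exact Nat.mul_pos (by omega) (by omega)
    refine lt_of_le_of_lt (Nat.mul_le_mul_right _ hprs) ?_
    rw [← mul_assoc]
    refine Nat.mul_lt_mul_of_pos_right ?_ (by positivity)
    have e1 : (n ^ 2) ^ m * ((n - m) ^ D0) ^ m = ((c * m) ^ 2 * (c - 1) ^ D0) ^ m * (m ^ D0) ^ m := by
      rw [hα, show c * m - m = (c - 1) * m by rw [Nat.sub_mul, one_mul], mul_pow (c - 1) m,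
        mul_pow ((c - 1) ^ D0), mul_pow ((c * m) ^ 2)]
      ring
    have e2 : (n ^ D0) ^ m = (c ^ D0) ^ m * (m ^ D0) ^ m := by
      rw [hα, mul_pow, mul_pow]
    rw [e1, e2]
    refine Nat.mul_lt_mul_of_pos_right ?_ (by positivity)
    exact Nat.pow_lt_pow_left hD (by omega)
  obtain ⟨g, hg⟩ : ∃ g : α × Fin D0 → α, g ∉ prs.biUnion bad := by
    by_contra hcon
    push Not at hcon
    have : prs.biUnion bad = Finset.univ := Finset.eq_univ_iff_forall.mpr hcon
    rw [this, Finset.card_univ] at hlt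
    exact lt_irrefl _ hlt
  refine ⟨g, fun A B hA hB => ?_⟩
  obtain ⟨A', hA', hA'c⟩ := Finset.exists_subset_card_eq hA
  obtain ⟨B', hB', hB'c⟩ := Finset.exists_subset_card_eq hB
  by_contra hcon
  push Not at hcon
  apply hg
  rw [Finset.mem_biUnion]
  refine ⟨(A', B'), ?_, ?_⟩
  · simp [prs, Finset.mem_powersetCard, hA'c, hB'c]
  · simp only [bad, Fintype.mem_piFinset]
    rintro ⟨t, l⟩
    by_cases ht : t ∈ A'
    · simp only [ht, if_true, Finset.mem_compl]
      intro hmem
      exact hcon t (hA' ht) l (hB' hmem)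
    · simp [ht]

/-- Greedy matching, almost perfect. -/
theorem exists_matching_of {α β : Type} [DecidableEq α] (m : ℕ)
    (f : α → β → α)
    (hf : ∀ A B : Finset α, m ≤ A.card → m ≤ B.card → ∃ t ∈ A, ∃ l, f t l ∈ B)
    (A B : Finset α) (μ : ℕ) (hA : μ + m ≤ A.card) (hB : μ + m ≤ B.card) :
    ∃ t : Fin μ → α, ∃ l : Fin μ → β, Function.Injective t ∧
      Function.Injective (fun e => f (t e) (l e)) ∧ (∀ e, t e ∈ A) ∧ (∀ e, f (t e) (l e) ∈ B) := by
  have key : ∀ q ≤ μ, ∃ t : Fin q → α, ∃ l : Fin q → β, Function.Injective t ∧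
      Function.Injective (fun e => f (t e) (l e)) ∧ (∀ e, t e ∈ A) ∧
      (∀ e, f (t e) (l e) ∈ B) := by
    intro q
    induction q with
    | zero =>
      intro _
      exact ⟨fun e => e.elim0, fun e => e.elim0, fun e => e.elim0, fun e => e.elim0,
        fun e => e.elim0, fun e => e.elim0⟩
    | succ q ih =>
      intro hq
      obtain ⟨t, l, h1, h2, h3, h4⟩ := ih (by omega)
      have c1 : m ≤ (A \ Finset.univ.image t).card := by
        have := Finset.le_card_sdiff (Finset.univ.image t) A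
        have h5 : (Finset.univ.image t).card ≤ q := by
          refine Finset.card_image_le.trans ?_
          simp
        omega
      have c2 : m ≤ (B \ Finset.univ.image (fun e => f (t e) (l e))).card := by
        have := Finset.le_card_sdiff (Finset.univ.image (fun e => f (t e) (l e))) B
        have h5 : (Finset.univ.image (fun e => f (t e) (l e))).card ≤ q := by
          refine Finset.card_image_le.trans ?_
          simp
        omega
      obtain ⟨t0, ht0, l0, hl0⟩ := hf _ _ c1 c2
      rw [Finset.mem_sdiff, Finset.mem_image] at ht0 hl0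
      refine ⟨Fin.cons t0 t, Fin.cons l0 l, ?_, ?_, ?_, ?_⟩
      · rw [Fin.cons_injective_iff]
        refine ⟨?_, h1⟩
        rintro ⟨e, he⟩
        exact ht0.2 ⟨e, Finset.mem_univ _, he⟩
      · have : (fun e : Fin (q + 1) => f ((Fin.cons t0 t : Fin (q + 1) → α) e)
            ((Fin.cons l0 l : Fin (q + 1) → β) e))
            = (Fin.cons (f t0 l0) (fun e => f (t e) (l e)) : Fin (q + 1) → α) := by
          funext e
          refine Fin.cases ?_ (fun e => ?_) e
          · simp
          · simp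
        rw [this, Fin.cons_injective_iff]
        refine ⟨?_, h2⟩
        rintro ⟨e, he⟩
        exact hl0.2 ⟨e, Finset.mem_univ _, he⟩
      · intro e
        refine Fin.cases ?_ (fun e => ?_) e
        · exact ht0.1
        · exact h3 e
      · intro e
        refine Fin.cases ?_ (fun e => ?_) e
        · exact hl0.1
        · exact h4 e
  exact key μ le_rfl

end Pool.Agent.H548R2
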