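import Pool.Agent.H548R2.Graph2

/-!
A graph of logarithmic degree has perfect matchings across most balanced partitions.
-/

namespace Pool.Agent.H548R2

open Finset

/-- `g` contains a matching of size `μ` from `A` to `B`. -/
def HasMatching {α : Type} {D : ℕ} (g : α × Fin D → α) (A B : Finset α) (μ : ℕ) : Prop :=
  ∃ t : Fin μ → α, ∃ l : Fin μ → Fin D, Function.Injective t ∧
    Function.Injective (fun e => g (t e, l e)) ∧ (∀ e, t e ∈ A) ∧ (∀ e, g (t e, l e) ∈ B)

theorem eight_pow_le (N s : ℕ) (hN : 1 ≤ N) (hs : 1 ≤ s) :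
    8 * (N : ℝ) ^ (2 * s) ≤ 8 ^ ((Nat.log 2 N + 2) * s) := by
  have h1 : N < 2 ^ (Nat.log 2 N + 1) := Nat.lt_pow_succ_log_self (by norm_num) N
  have h2 : (2 * N : ℝ) ≤ 2 ^ (Nat.log 2 N + 2) := by
    have h3 : 2 * N ≤ 2 ^ (Nat.log 2 N + 2) := by
      rw [pow_succ]; omega
    exact_mod_cast h3
  have hN' : (1 : ℝ) ≤ N := by exact_mod_cast hN
  have h4 : (8 : ℝ) ^ (Nat.log 2 N + 2) = (2 ^ (Nat.log 2 N + 2)) ^ 3 := by
    rw [← pow_mul, mul_comm, pow_mul]
    norm_num
  have h5 : 8 * (N : ℝ) ^ 2 ≤ 8 ^ (Nat.log 2 N + 2) := by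
    rw [h4]
    calc 8 * (N : ℝ) ^ 2 ≤ 8 * (N : ℝ) ^ 3 := by
          have : (N : ℝ) ^ 2 ≤ (N : ℝ) ^ 3 := pow_le_pow_right₀ hN' (by norm_num)
          linarith
      _ = (2 * (N : ℝ)) ^ 3 := by ring
      _ ≤ _ := pow_le_pow_left₀ (by positivity) h2 3
  have h6 : (8 : ℝ) * (N : ℝ) ^ (2 * s) ≤ (8 * (N : ℝ) ^ 2) ^ s := by
    rw [mul_pow, ← pow_mul]
    have : (8 : ℝ) ^ 1 ≤ 8 ^ s := pow_le_pow_right₀ (by norm_num) hs
    rw [pow_one] at this
    exact mul_le_mul_of_nonneg_right this (by positivity)
  rw [pow_mul (8 : ℝ)]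
  exact h6.trans (pow_le_pow_left₀ (by positivity) h5 s)

theorem term_bound (N a s D' : ℕ) (hN : 2 ≤ N) (haN : a ≤ N) (h8 : 3 * N ≤ 8 * a)
    (hs : 1 ≤ s) (hsa : s ≤ a) (hD' : D' = Nat.log 2 N + 2) :
    8 * N * (a.choose s : ℝ) * (a.choose (s - 1) : ℝ) *
      (1 - (((a - s + 1 : ℕ) : ℝ)) / N) ^ (16 * D' * s) ≤ 1 := by
  have hN0 : (0 : ℝ) < N := by
    have : 0 < N := by omega
    exact_mod_cast this
  set r : ℕ := a - s + 1 with hr
  have hrN : r ≤ N := by omega
  have hrN' : (r : ℝ) ≤ N := by exact_mod_cast hrN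
  set y : ℝ := 1 - (r : ℝ) / N with hy
  have hy0 : 0 ≤ y := by
    rw [hy, sub_nonneg, div_le_one hN0]
    exact hrN'
  rcases le_or_gt (2 * s) a with hcase | hcase
  · -- few vertices
    have h1 : y ≤ 13 / 16 := by
      rw [hy]
      have h2 : 3 * N ≤ 16 * r := by omega
      have h3 : (3 : ℝ) * N ≤ 16 * r := by exact_mod_cast h2
      have h4 : 3 / 16 ≤ (r : ℝ) / N := by
        rw [div_le_div_iff₀ (by norm_num) hN0]
        linarith
      linarith
    have h2 : y ^ (16 * D' * s) ≤ (1 / 8) ^ (D' * s) := by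
      rw [mul_assoc, pow_mul]
      refine pow_le_pow_left₀ (by positivity) ?_ _
      calc y ^ 16 ≤ (13 / 16) ^ 16 := pow_le_pow_left₀ hy0 h1 16
        _ ≤ 1 / 8 := by norm_num
    have h3 : (a.choose s : ℝ) ≤ N ^ s := by
      have : a.choose s ≤ N ^ s := (Nat.choose_le_pow a s).trans (Nat.pow_le_pow_left haN s)
      exact_mod_cast this
    have h4 : (a.choose (s - 1) : ℝ) ≤ N ^ (s - 1) := by
      have : a.choose (s - 1) ≤ N ^ (s - 1) :=
        (Nat.choose_le_pow a _).trans (Nat.pow_le_pow_left haN _)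
      exact_mod_cast this
    calc 8 * N * (a.choose s : ℝ) * (a.choose (s - 1) : ℝ) * y ^ (16 * D' * s)
        ≤ 8 * N * (N : ℝ) ^ s * (N : ℝ) ^ (s - 1) * (1 / 8) ^ (D' * s) := by gcongr
      _ = (8 * (N : ℝ) ^ (2 * s)) * (1 / 8) ^ (D' * s) := by
          have : 2 * s = 1 + s + (s - 1) := by omega
          rw [this, pow_add, pow_add, pow_one]
          ring
      _ ≤ 8 ^ (D' * s) * (1 / 8) ^ (D' * s) := by
          refine mul_le_mul_of_nonneg_right ?_ (by positivity)
          rw [hD']
          exact eight_pow_le N s (by omega) hs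
      _ = 1 := by rw [← mul_pow]; norm_num
  · -- many vertices
    set z : ℝ := 1 - 1 / N with hz
    have hz0 : 0 ≤ z := by
      rw [hz, sub_nonneg, div_le_one hN0]
      have : 1 ≤ N := by omega
      exact_mod_cast this
    have hz1 : z ≤ 1 := by
      rw [hz]
      have : (0 : ℝ) ≤ 1 / N := by positivity
      linarith
    have h1 : y ≤ z ^ r := by
      have h2 := one_add_mul_le_pow (a := (-(1 / N) : ℝ)) (by
        have : (1 : ℝ) / N ≤ 1 := by
          rw [div_le_one hN0]
          have : 1 ≤ N := by omega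
          exact_mod_cast this
        linarith) r
      have e1 : 1 + (r : ℝ) * -(1 / N) = y := by rw [hy]; ring
      have e2 : (1 : ℝ) + -(1 / N) = z := by rw [hz]; ring
      rw [e1, e2] at h2
      exact h2
    have hzN : z ^ N ≤ 1 / 2 := by
      have h2 := two_mul_pow_le N hN
      have h3 : (2 : ℝ) * ((N - 1 : ℕ) : ℝ) ^ N ≤ (N : ℝ) ^ N := by exact_mod_cast h2
      have h4 : z = ((N - 1 : ℕ) : ℝ) / N := by
        rw [hz, Nat.cast_sub (by omega)]
        push_cast
        field_simp
      rw [h4, div_pow, div_le_div_iff₀ (by positivity) (by norm_num)]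
      linarith
    have h2 : y ^ (16 * D' * s) ≤ (1 / 8) ^ (D' * r) := by
      calc y ^ (16 * D' * s) ≤ (z ^ r) ^ (16 * D' * s) := pow_le_pow_left₀ hy0 h1 _
        _ = (z ^ (16 * s)) ^ (D' * r) := by
            rw [← pow_mul, ← pow_mul]
            congr 1
            ring
        _ ≤ (z ^ (N * 3)) ^ (D' * r) := by
            refine pow_le_pow_left₀ (by positivity) ?_ _
            exact pow_le_pow_of_le_one hz0 hz1 (by omega)
        _ ≤ (1 / 8) ^ (D' * r) := by
            refine pow_le_pow_left₀ (by positivity) ?_ _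
            rw [pow_mul]
            calc (z ^ N) ^ 3 ≤ (1 / 2) ^ 3 := pow_le_pow_left₀ (by positivity) hzN 3
              _ = 1 / 8 := by norm_num
    have h3 : (a.choose s : ℝ) ≤ N ^ (r - 1) := by
      have e : a.choose s = a.choose (r - 1) := by
        rw [← Nat.choose_symm hsa]
        congr 1
      have : a.choose s ≤ N ^ (r - 1) := by
        rw [e]
        exact (Nat.choose_le_pow a _).trans (Nat.pow_le_pow_left haN _)
      exact_mod_cast this
    have h4 : (a.choose (s - 1) : ℝ) ≤ N ^ r := by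
      have e : a.choose (s - 1) = a.choose r := by
        rw [← Nat.choose_symm (show s - 1 ≤ a by omega)]
        congr 1
        omega
      have : a.choose (s - 1) ≤ N ^ r := by
        rw [e]
        exact (Nat.choose_le_pow a _).trans (Nat.pow_le_pow_left haN _)
      exact_mod_cast this
    calc 8 * N * (a.choose s : ℝ) * (a.choose (s - 1) : ℝ) * y ^ (16 * D' * s)
        ≤ 8 * N * (N : ℝ) ^ (r - 1) * (N : ℝ) ^ r * (1 / 8) ^ (D' * r) := by gcongr
      _ = (8 * (N : ℝ) ^ (2 * r)) * (1 / 8) ^ (D' * r) := by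
          have : 2 * r = 1 + (r - 1) + r := by omega
          rw [this, pow_add, pow_add, pow_one]
          ring
      _ ≤ 8 ^ (D' * r) * (1 / 8) ^ (D' * r) := by
          refine mul_le_mul_of_nonneg_right ?_ (by positivity)
          rw [hD']
          exact eight_pow_le N r (by omega) (by omega)
      _ = 1 := by rw [← mul_pow]; norm_num

open Classical in
theorem few_bad {α : Type} [Fintype α] [DecidableEq α] (hN : 2 ≤ Fintype.card α)
    (A B : Finset α) (a : ℕ) (hA : A.card = a) (hB : B.card = a)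
    (h8 : 3 * Fintype.card α ≤ 8 * a) :
    8 * (Finset.univ.filter fun g : α × Fin (16 * (Nat.log 2 (Fintype.card α) + 2)) → α =>
      ¬ HasMatching g A B a).card
      ≤ Fintype.card (α × Fin (16 * (Nat.log 2 (Fintype.card α) + 2)) → α) := by
  set N := Fintype.card α with hNdef
  set D' := Nat.log 2 N + 2 with hD'
  set D := 16 * D' with hD
  have haN : a ≤ N := by rw [← hA]; exact Finset.card_le_univ A
  have hN0 : (0 : ℝ) < N := by
    have : 0 < N := by omega
    exact_mod_cast this
  let Bd : Finset α → Finset α → Finset (α × Fin D → α) := fun S T =>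
    Fintype.piFinset (fun p : α × Fin D => if p.1 ∈ S then (B \ T)ᶜ else Finset.univ)
  let f : ℕ → ℕ := fun s => if s = 0 then 0 else
    a.choose (s - 1) * (((N - (a - s + 1)) ^ D) ^ s * (N ^ D) ^ (N - s))
  have hsub : (Finset.univ.filter fun g : α × Fin D → α => ¬ HasMatching g A B a) ⊆
      A.powerset.biUnion fun S => if S.card = 0 then ∅ else
        (Finset.powersetCard (S.card - 1) B).biUnion fun T => Bd S T := by
    intro g hg
    rw [Finset.mem_filter] at hg
    by_contra hcon
    apply hg.2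
    -- Hall's condition
    let t : A → Finset α := fun u => B ∩ Finset.univ.image fun l => g (u.1, l)
    have hall : ∀ s : Finset A, s.card ≤ (s.biUnion t).card := by
      intro s
      by_contra hlt
      push Not at hlt
      apply hcon
      rw [Finset.mem_biUnion]
      set S : Finset α := s.map (Function.Embedding.subtype _) with hS
      have hSc : S.card = s.card := Finset.card_map _
      have hSA : S ⊆ A := by
        intro x hx
        rw [hS, Finset.mem_map] at hx
        obtain ⟨y, _, rfl⟩ := hx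
        exact y.2
      have hSle : S.card ≤ a := by rw [← hA]; exact Finset.card_le_card hSA
      refine ⟨S, Finset.mem_powerset.mpr hSA, ?_⟩
      rw [if_neg (by omega), Finset.mem_biUnion]
      have hsubB : s.biUnion t ⊆ B := by
        intro x hx
        rw [Finset.mem_biUnion] at hx
        obtain ⟨u, _, hu⟩ := hx
        exact (Finset.mem_inter.mp hu).1
      obtain ⟨T, hT1, hT2, hT3⟩ := Finset.exists_subsuperset_card_eq hsubB (n := S.card - 1)
        (by omega) (by omega)
      refine ⟨T, Finset.mem_powersetCard.mpr ⟨hT2, hT3⟩, ?_⟩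
      simp only [Bd, Fintype.mem_piFinset]
      rintro ⟨u, l⟩
      by_cases hu : u ∈ S
      · rw [if_pos hu, Finset.mem_compl, Finset.mem_sdiff]
        rintro ⟨h1, h2⟩
        apply h2
        apply hT1
        rw [Finset.mem_biUnion]
        rw [hS, Finset.mem_map] at hu
        obtain ⟨u', hu', rfl⟩ := hu
        refine ⟨u', hu', ?_⟩
        rw [Finset.mem_inter]
        exact ⟨h1, Finset.mem_image.mpr ⟨l, Finset.mem_univ _, rfl⟩⟩
      · rw [if_neg hu]
        exact Finset.mem_univ _
    obtain ⟨F, hF1, hF2⟩ := (Finset.all_card_le_biUnion_card_iff_exists_injective t).mp hall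
    have hl : ∀ u : A, ∃ l, g (u.1, l) = F u := by
      intro u
      obtain ⟨l, _, hl⟩ := Finset.mem_image.mp (Finset.mem_inter.mp (hF2 u)).2
      exact ⟨l, hl⟩
    choose lf hlf using hl
    have e : Fin a ≃ A := (Fin.castOrderIso hA.symm).toEquiv.trans A.equivFin.symm
    refine ⟨fun i => (e i).1, fun i => lf (e i), ?_, ?_, fun i => (e i).2, ?_⟩
    · exact Subtype.val_injective.comp e.injective
    · intro i j hij
      simp only [hlf] at hij
      exact e.injective (hF1 hij)
    · intro i
      rw [hlf]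
      exact (Finset.mem_inter.mp (hF2 _)).1
  have hBd : ∀ S ∈ A.powerset, ∀ T ∈ Finset.powersetCard (S.card - 1) B, S.card ≠ 0 →
      (Bd S T).card = ((N - (a - S.card + 1)) ^ D) ^ S.card * (N ^ D) ^ (N - S.card) := by
    intro S hS T hT hS0
    have hSle : S.card ≤ a := by
      rw [← hA]; exact Finset.card_le_card (Finset.mem_powerset.mp hS)
    rw [Finset.mem_powersetCard] at hT
    have hBT : (B \ T).card = a - S.card + 1 := by
      rw [Finset.card_sdiff_of_subset hT.1, hB, hT.2]
      omega
    simp only [Bd, Fintype.card_piFinset]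
    have : ∀ p : α × Fin D, (if p.1 ∈ S then (B \ T)ᶜ else Finset.univ : Finset α).card
        = if p.1 ∈ S then N - (a - S.card + 1) else N := by
      intro p
      split_ifs
      · rw [Finset.card_compl, hBT]
      · rw [Finset.card_univ]
    rw [Finset.prod_congr rfl fun p _ => this p, prod_ite_pow, Finset.card_compl]
  have hcard1 : (Finset.univ.filter fun g : α × Fin D → α => ¬ HasMatching g A B a).card
      ≤ ∑ S ∈ A.powerset, f S.card := by
    refine (Finset.card_le_card hsub).trans (Finset.card_biUnion_le.trans ?_)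
    refine Finset.sum_le_sum fun S hS => ?_
    by_cases hS0 : S.card = 0
    · rw [if_pos hS0, Finset.card_empty]
      exact Nat.zero_le _
    · rw [if_neg hS0]
      refine Finset.card_biUnion_le.trans ?_
      rw [Finset.sum_congr rfl fun T hT => hBd S hS T hT hS0, Finset.sum_const,
        Finset.card_powersetCard, smul_eq_mul, hB]
      simp only [f, if_neg hS0]
      exact le_rfl
  rw [Finset.sum_powerset_apply_card, hA] at hcard1
  have htot : Fintype.card (α × Fin D → α) = (N ^ D) ^ N := by
    rw [Fintype.card_fun, Fintype.card_prod, Fintype.card_fin, ← hNdef, ← pow_mul, mul_comm]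
  rw [htot]
  have hterm : ∀ s ∈ Finset.range (a + 1),
      ((a.choose s • f s : ℕ) : ℝ) ≤ if s = 0 then 0 else ((N : ℝ) ^ D) ^ N / (8 * N) := by
    intro s hs
    rw [Finset.mem_range] at hs
    by_cases hs0 : s = 0
    · subst hs0
      simp [f]
    · rw [if_neg hs0]
      simp only [f, if_neg hs0, smul_eq_mul]
      push_cast
      have hrN : a - s + 1 ≤ N := by omega
      have key := term_bound N a s D' hN haN h8 (by omega) (by omega) hD'
      rw [le_div_iff₀ (by positivity)]
      have e1 : ((N - (a - s + 1) : ℕ) : ℝ) = N * (1 - (((a - s + 1 : ℕ) : ℝ)) / N) := by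
        rw [Nat.cast_sub hrN]
        field_simp
      have e2 : (((N : ℝ) ^ D) ^ N) = (((N : ℝ) ^ D) ^ s) * ((N : ℝ) ^ D) ^ (N - s) := by
        rw [← pow_add]
        congr 1
        omega
      rw [e1, e2, mul_pow, mul_pow, ← pow_mul (1 - (((a - s + 1 : ℕ) : ℝ)) / N)]
      have hpos : 0 ≤ (((N : ℝ) ^ D) ^ s) * ((N : ℝ) ^ D) ^ (N - s) := by positivity
      have := mul_le_mul_of_nonneg_right key hpos
      rw [one_mul] at this
      refine le_trans (le_of_eq ?_) this
      rw [hD]
      ring
  have hreal : ((∑ s ∈ Finset.range (a + 1), a.choose s • f s : ℕ) : ℝ)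
      ≤ ((N : ℝ) ^ D) ^ N / 8 := by
    rw [Nat.cast_sum]
    refine (Finset.sum_le_sum hterm).trans ?_
    rw [Finset.sum_range_succ', if_pos rfl, add_zero]
    simp only [Nat.add_eq_zero_iff, one_ne_zero, and_false, if_false]
    rw [Finset.sum_const, Finset.card_range, nsmul_eq_mul]
    have haN' : (a : ℝ) ≤ N := by exact_mod_cast haN
    rw [div_eq_mul_inv, mul_inv]
    have : (a : ℝ) * (((N : ℝ) ^ D) ^ N * (8⁻¹ * (N : ℝ)⁻¹))
        = (a / N) * (((N : ℝ) ^ D) ^ N / 8) := by
      field_simp
    rw [this]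
    have h1 : (a : ℝ) / N ≤ 1 := (div_le_one hN0).mpr haN'
    exact mul_le_of_le_one_left (by positivity) h1
  have h1 : (((Finset.univ.filter fun g : α × Fin D → α => ¬ HasMatching g A B a).card : ℕ) : ℝ)
      ≤ ((N : ℝ) ^ D) ^ N / 8 := le_trans (by exact_mod_cast hcard1) hreal
  have h2 : (8 * (Finset.univ.filter fun g : α × Fin D → α => ¬ HasMatching g A B a).card : ℝ)
      ≤ ((N : ℝ) ^ D) ^ N := by linarith
  exact_mod_cast h2

end Pool.Agent.H548R2
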