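import Pool.Agent.H548R2.Formula

/-!
Correlation bounds for products of few block signs, and the formula without end constraints.
-/

namespace Pool.Agent.H548R2

open Finset

section

variable {r B L d : ℕ} (f : Fin r × Fin B → Fin L → Fin r × Fin B)

theorem prod_tau_eq (R : Finset (Fin r)) (a : Var r B L d → Bool) :
    ∏ j ∈ R, tau f j a = ∏ q : Mon r B L, if q.1.1 ∈ R then msg f q a else 1 := by
  unfold tau
  rw [Fintype.prod_prod_type, Fintype.prod_prod_type]
  rw [← Finset.prod_subset (Finset.subset_univ R)]
  · refine Finset.prod_congr rfl fun j hj => ?_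
    rw [Fintype.prod_prod_type]
    refine Finset.prod_congr rfl fun b _ => Finset.prod_congr rfl fun x _ => ?_
    rw [if_pos hj]
  · intro j _ hj
    refine Finset.prod_eq_one fun b _ => Finset.prod_eq_one fun x _ => ?_
    rw [if_neg hj]

theorem disc_rows {m : ℕ} {X : Finset (Var r B L d)} (hc : Cross f m X) :
    ∃ c : Fin r → ℕ, (∀ j, c j ≤ B * (L * 2)) ∧ ∑ j, c j = m ∧
      ∀ (R : Finset (Fin r)) (Ψ : (Var r B L d → Bool) → ℝ), IsLocal d Ψ →
      ∀ F₁ F₂ : (Var r B L d → Bool) → ℝ, DependsOn F₁ (X : Set (Var r B L d)) →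
        DependsOn F₂ ((X : Set (Var r B L d))ᶜ) → (∀ a, |F₁ a| ≤ 1) → (∀ a, |F₂ a| ≤ 1) →
        |∑ a, (∏ j ∈ R, tau f j a) * Ψ a * (F₁ a * F₂ a)|
          ≤ 2 ^ Fintype.card (Var r B L d) * bet (d + 2) ^ (∑ j ∈ R, c j) := by
  classical
  obtain ⟨v, idx, hinj, hidx, hmem, hmiss, ⟨iX, hiX⟩, ⟨iY, hiY⟩⟩ := hc
  refine ⟨fun j => (Finset.univ.filter fun e => (idx e).1.1 = j).card, fun j => ?_, ?_, ?_⟩
  · have h1 : (Finset.univ.filter fun e => (idx e).1.1 = j).card
        ≤ (Finset.univ.filter fun q : Mon r B L => q.1.1 = j).card := by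
      refine Finset.card_le_card_of_injOn idx (fun e he => ?_) (fun _ _ _ _ h => hidx h)
      exact Finset.mem_coe.mpr (Finset.mem_filter.mpr ⟨Finset.mem_univ _, (Finset.mem_filter.mp he).2⟩)
    refine h1.trans ?_
    have h2 : (Finset.univ.filter fun q : Mon r B L => q.1.1 = j)
        ⊆ (Finset.univ : Finset (Fin B × Fin L × Bool)).image
          (fun x => ((j, x.1), x.2.1, x.2.2)) := by
      intro q hq
      have hq' := (Finset.mem_filter.mp hq).2
      refine Finset.mem_image.mpr ⟨(q.1.2, q.2.1, q.2.2), Finset.mem_univ _, ?_⟩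
      rw [← hq']
    refine (Finset.card_le_card h2).trans (Finset.card_image_le.trans ?_)
    simp
  · rw [← Finset.card_eq_sum_card_fiberwise (f := fun e => (idx e).1.1) (s := Finset.univ)
      (t := Finset.univ) (fun e _ => Finset.mem_coe.mpr (Finset.mem_univ _))]
    simp
  · intro R Ψ hΨ F₁ F₂ hA hB hA1 hB1
    obtain ⟨κ, _, S, ψ, hS, hdep, hψ1, hΨe⟩ := hΨ
    set ER : Finset (Fin m) := Finset.univ.filter fun e => (idx e).1.1 ∈ R with hER
    have hERc : ER.card = ∑ j ∈ R, (Finset.univ.filter fun e => (idx e).1.1 = j).card := by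
      rw [Finset.card_eq_sum_card_fiberwise (f := fun e => (idx e).1.1) (s := ER) (t := R)
        (fun e he => Finset.mem_coe.mpr (Finset.mem_filter.mp he).2)]
      refine Finset.sum_congr rfl fun j hj => ?_
      congr 1
      ext e
      rw [Finset.mem_filter, hER, Finset.mem_filter, Finset.mem_filter]
      constructor
      · rintro ⟨⟨h1, _⟩, h2⟩; exact ⟨h1, h2⟩
      · rintro ⟨h1, h2⟩; exact ⟨⟨h1, h2 ▸ hj⟩, h2⟩
    rw [← hERc]
    set w : Fin ER.card → Fin m := fun e => ER.orderEmbOfFin rfl e with hw
    have hwinj : Function.Injective w := (ER.orderEmbOfFin rfl).injective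
    have hwmem : ∀ e, w e ∈ ER := fun e => Finset.orderEmbOfFin_mem ER rfl e
    have hwsurj : ∀ e ∈ ER, ∃ e', w e' = e := by
      intro e he
      have := Finset.range_orderEmbOfFin ER rfl
      have h2 : e ∈ Set.range (ER.orderEmbOfFin rfl) := by rw [this]; exact he
      obtain ⟨e', he'⟩ := h2
      exact ⟨e', he'⟩
    let φ : (Mon r B L ⊕ κ) ⊕ Bool → (Var r B L d → Bool) → ℝ := fun t a =>
      match t with
      | Sum.inl (Sum.inl q) => if q.1.1 ∈ R ∧ ¬ ∃ e, idx (w e) = q then msg f q a else 1
      | Sum.inl (Sum.inr t) => ψ t a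
      | Sum.inr true => F₁ a
      | Sum.inr false => F₂ a
    have hmain := factor_disc (fun i e => v i (w e)) (by
      rintro ⟨i, e⟩ ⟨j, e'⟩ h
      have := @hinj (i, w e) (j, w e') h
      rw [Prod.mk.injEq] at this
      exact Prod.ext this.1 (hwinj this.2)) φ (by
      intro t a
      rcases t with (q | t) | b
      · simp only [φ]
        split_ifs
        · rw [abs_msg]
        · simp
      · exact hψ1 t a
      · cases b
        · exact hB1 a
        · exact hA1 a) (by
      intro t
      rcases t with (q | t) | b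
      · by_cases hq : q.1.1 ∈ R ∧ ¬ ∃ e, idx (w e) = q
        · have hq' : ∀ e, idx e ≠ q := by
            intro e he
            apply hq.2
            have : e ∈ ER := Finset.mem_filter.mpr ⟨Finset.mem_univ _, by rw [he]; exact hq.1⟩
            obtain ⟨e', he'⟩ := hwsurj e this
            exact ⟨e', by rw [he', he]⟩
          obtain ⟨i, hi⟩ := hmiss q hq'
          refine ⟨i, ((mon (d := d) f q : Finset (Var r B L d)) : Set (Var r B L d)), ?_,
            fun e he => hi (w e) (Finset.mem_coe.mp he)⟩
          intro a b hab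
          simp only [φ]
          rw [if_pos hq, if_pos hq]
          exact msg_dep f q hab
        · refine ⟨0, ∅, ?_, by simp⟩
          intro a b _
          simp only [φ]
          rw [if_neg hq, if_neg hq]
      · have : ∃ i : Fin (d + 2 + 1), ∀ e, v i (w e) ∉ S t := by
          by_contra hcon
          push Not at hcon
          choose e he using hcon
          have hinj2 : Function.Injective (fun i : Fin (d + 2 + 1) => v i (w (e i))) := by
            intro i j hij
            have := @hinj (i, w (e i)) (j, w (e j)) hij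
            exact congrArg Prod.fst this
          have hsub : Finset.univ.image (fun i : Fin (d + 2 + 1) => v i (w (e i))) ⊆ S t := by
            intro x hx
            rw [Finset.mem_image] at hx
            obtain ⟨i, _, rfl⟩ := hx
            exact he i
          have hc := Finset.card_le_card hsub
          rw [Finset.card_image_of_injective _ hinj2, Finset.card_univ, Fintype.card_fin] at hc
          have := hS t
          omega
        obtain ⟨i, hi⟩ := this
        exact ⟨i, (S t : Set (Var r B L d)), hdep t, fun e he => hi e (Finset.mem_coe.mp he)⟩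
      · cases b
        · exact ⟨iX, ((X : Set (Var r B L d))ᶜ), hB,
            fun e he => he (Finset.mem_coe.mpr (hiX (w e)))⟩
        · exact ⟨iY, (X : Set (Var r B L d)), hA, fun e he => hiY (w e) (Finset.mem_coe.mp he)⟩)
    refine le_trans (le_of_eq ?_) hmain
    congr 1
    refine Finset.sum_congr rfl fun a _ => ?_
    rw [Fintype.prod_sum_type, Fintype.prod_sum_type, Fintype.prod_bool]
    simp only [φ]
    rw [← hΨe a]
    have hprod : ∏ j ∈ R, tau f j a
        = (∏ e : Fin ER.card, if (∀ i, a (v i (w e)) = true) then (-1 : ℝ) else 1)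
        * ∏ q : Mon r B L, (if q.1.1 ∈ R ∧ ¬ ∃ e, idx (w e) = q then msg f q a else 1) := by
      have h1 : ∏ j ∈ R, tau f j a
          = (∏ q : Mon r B L, (if ∃ e, idx (w e) = q then msg f q a else 1))
          * ∏ q : Mon r B L, (if q.1.1 ∈ R ∧ ¬ ∃ e, idx (w e) = q then msg f q a else 1) := by
        rw [prod_tau_eq, ← Finset.prod_mul_distrib]
        refine Finset.prod_congr rfl fun q _ => ?_
        by_cases hq1 : ∃ e, idx (w e) = q
        · have hq2 : q.1.1 ∈ R := by
            obtain ⟨e, rfl⟩ := hq1
            exact (Finset.mem_filter.mp (hwmem e)).2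
          rw [if_pos hq2, if_pos hq1, if_neg (fun h => h.2 hq1), mul_one]
        · rw [if_neg hq1, one_mul]
          by_cases hq2 : q.1.1 ∈ R
          · rw [if_pos hq2, if_pos ⟨hq2, hq1⟩]
          · rw [if_neg hq2, if_neg (fun h => hq2 h.1)]
      rw [h1]
      congr 1
      have h2 : ∏ e : Fin ER.card, (if (∀ i, a (v i (w e)) = true) then (-1 : ℝ) else 1)
          = ∏ e : Fin ER.card, msg f (idx (w e)) a := by
        refine Finset.prod_congr rfl fun e _ => ?_
        unfold msg
        refine if_congr ?_ rfl rfl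
        constructor
        · intro h x hx
          obtain ⟨i, rfl⟩ := (hmem (w e) x).mp hx
          exact h i
        · intro h i
          exact h _ ((hmem (w e) _).mpr ⟨i, rfl⟩)
      rw [h2, ← Finset.prod_image (s := Finset.univ) (g := fun e => idx (w e))
        (f := fun q => msg f q a) (fun x _ y _ h => hwinj (hidx h)), ← Finset.prod_filter]
      refine Finset.prod_congr ?_ fun _ _ => rfl
      ext q
      simp
    rw [hprod]
    ring

/-- The formula saying that the partial parities are consistent. -/
noncomputable def rowsF : CNF (Var r B L d) :=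
  (List.finRange r).flatMap (fun j => cnfOf (blkS f j) (blkQ f j))

theorem satisfies_rowsF (a : Var r B L d → Bool) : Satisfies a (rowsF f) ↔ ∀ j, blkQ f j a := by
  unfold rowsF
  constructor
  · intro h j
    rw [← satisfies_cnfOf (blkS f j) (blkQ f j) (blkQ_dep f j) a]
    intro C hC
    exact h C (List.mem_flatMap.mpr ⟨j, List.mem_finRange j, hC⟩)
  · intro h C hC
    obtain ⟨j, _, hC⟩ := List.mem_flatMap.mp hC
    exact (satisfies_cnfOf (blkS f j) (blkQ f j) (blkQ_dep f j) a).mpr (h j) C hC

theorem rowsF_width (C : List (Var r B L d × Bool)) (hC : C ∈ rowsF f) :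
    C.length ≤ 2 + B * (L * 2) * (d + 3) := by
  unfold rowsF at hC
  obtain ⟨j, _, hC⟩ := List.mem_flatMap.mp hC
  rw [width_cnfOf _ _ _ hC]
  exact card_blkS f j

theorem rowsF_length : (rowsF (d := d) f).length ≤ r * 2 ^ (2 + B * (L * 2) * (d + 3)) := by
  have h1 := hard_length (d := d) f
  unfold hard at h1
  rw [List.length_append] at h1
  simp only [List.length_cons, List.length_nil] at h1
  unfold rowsF
  omega

theorem rowsF_occurs (hr : 1 ≤ r) (l0 : Fin L) (hl0 : ∀ t, f t l0 = t) (v : Var r B L d) :
    Occurs v (rowsF f) := by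
  classical
  have hblk : ∀ (j : Fin r), ∀ v ∈ blkS (d := d) f j, Occurs v (rowsF f) := by
    intro j v hv
    have hoc : Occurs v (cnfOf (blkS (d := d) f j) (blkQ f j)) := by
      refine occurs_cnfOf _ _ {vP j.castSucc} ?_ ?_ v hv
      · intro x hx
        rw [Finset.mem_singleton] at hx
        subst hx
        simp [blkS]
      · unfold blkQ
        have ht : tau f j (fun v : Var r B L d =>
            decide (v ∈ ({vP j.castSucc} : Finset (Var r B L d)))) = 1 := by
          unfold tau
          refine Finset.prod_eq_one fun q _ => ?_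
          unfold msg
          rw [if_neg]
          intro h
          have hU : (vU (j, q.1) : Var r B L d) ∈ mon f ((j, q.1), q.2.1, q.2.2) := by
            unfold mon; split_ifs <;> simp
          have := h _ hU
          simp only [Finset.mem_singleton, decide_eq_true_eq] at this
          exact absurd this.symm vP_ne_vU
        rw [ht]
        have h1 : (vP j.succ : Var r B L d) ∉ ({vP j.castSucc} : Finset (Var r B L d)) := by
          rw [Finset.mem_singleton, vP_inj]
          exact (Fin.castSucc_lt_succ).ne'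
        simp only [Finset.mem_singleton, decide_true, pm, if_true, h1, decide_false,
          Bool.false_eq_true, if_false, mul_one]
        norm_num [Finset.mem_singleton.not.mp h1]
    obtain ⟨C, hC, l, hl, hlv⟩ := hoc
    refine ⟨C, ?_, l, hl, hlv⟩
    unfold rowsF
    exact List.mem_flatMap.mpr ⟨j, List.mem_finRange j, hC⟩
  have hmon : ∀ (t : Fin r × Fin B) (l : Fin L) (b : Bool), ∀ x ∈ mon f (t, l, b),
      Occurs (x : Var r B L d) (rowsF f) := by
    intro t l b x hx
    apply hblk t.1
    unfold blkS
    refine Finset.mem_insert_of_mem (Finset.mem_insert_of_mem ?_)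
    exact Finset.mem_biUnion.mpr ⟨(t.2, l, b), Finset.mem_univ _, hx⟩
  rcases v with t | t | y | j
  · exact hmon t l0 true (vU t) (by rw [mem_mon_true]; exact Or.inl rfl)
  · refine hmon t l0 false (vW t) ?_
    rw [mem_mon_false, hl0 t]
    exact Or.inr (Or.inl rfl)
  · exact hmon y.1 y.2.1 true (vY y.1 y.2.1 y.2.2) (by
      rw [mem_mon_true]; exact Or.inr ⟨_, rfl⟩)
  · by_cases hj : j = Fin.last r
    · subst hj
      obtain ⟨r', rfl⟩ : ∃ r', r = r' + 1 := ⟨r - 1, by omega⟩
      refine hblk (Fin.last r') (vP (Fin.last (r' + 1))) ?_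
      have : (Fin.last r').succ = Fin.last (r' + 1) := rfl
      rw [← this]
      simp [blkS]
    · obtain ⟨i, rfl⟩ := Fin.exists_castSucc_eq.mpr hj
      exact hblk i (vP i.castSucc) (by simp [blkS])

/-- Many models. -/
theorem rowsF_count : 2 ^ Fintype.card (Var r B L d) ≤ modelCount (rowsF (d := d) f) * 2 ^ (r + 1) := by
  classical
  have hsat : ∀ a : Var r B L d → Bool, Satisfies (fixP f a) (rowsF f) := by
    intro a
    rw [satisfies_rowsF]
    intro j
    unfold blkQ
    rw [fixP_vP, fixP_vP, tau_fixP]
    simp only [Fin.val_castSucc, Fin.val_succ]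
    rw [ppr_succ]
    rcases ppr_eq_or f a j.1 with h | h <;> rw [h] <;> ring
  have hinj : Function.Injective (fun a : Var r B L d → Bool =>
      ((⟨fixP f a, hsat a⟩ : {a : Var r B L d → Bool // Satisfies a (rowsF f)}),
        (fun j : Fin (r + 1) => a (vP j)))) := by
    intro a b h
    simp only [Prod.mk.injEq, Subtype.mk.injEq] at h
    obtain ⟨h1, h2⟩ := h
    funext x
    by_cases hx : ∃ j, x = vP j
    · obtain ⟨j, rfl⟩ := hx
      exact congrFun h2 j
    · have hx' : ∀ j, x ≠ vP j := fun j hj => hx ⟨j, hj⟩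
      have := congrFun h1 x
      rw [fixP_off f a x hx', fixP_off f b x hx'] at this
      exact this
  have := Nat.card_le_card_of_injective _ hinj
  rw [Nat.card_prod] at this
  have e1 : Nat.card (Var r B L d → Bool) = 2 ^ Fintype.card (Var r B L d) := by
    rw [Nat.card_eq_fintype_card, Fintype.card_fun, Fintype.card_bool]
  have e2 : Nat.card (Fin (r + 1) → Bool) = 2 ^ (r + 1) := by simp
  rw [e1, e2] at this
  exact this

/-- The local factor of a set of blocks. -/
def locF (R : Finset (Fin r)) (a : Var r B L d → Bool) : ℝ :=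
  ∏ j ∈ R, pm (a (vP j.castSucc)) * pm (a (vP j.succ))

theorem abs_pm (b : Bool) : |pm b| ≤ 1 := by cases b <;> simp [pm]

theorem locF_local (hd : 1 ≤ d) (R : Finset (Fin r)) :
    IsLocal d (locF (B := B) (L := L) (d := d) R) := by
  classical
  refine ⟨R × Bool, inferInstance,
    fun x => if x.2 = true then {vP x.1.1.castSucc} else {vP x.1.1.succ},
    fun x a => if x.2 = true then pm (a (vP x.1.1.castSucc)) else pm (a (vP x.1.1.succ)),
    ?_, ?_, ?_, ?_⟩
  · rintro ⟨j, b⟩
    cases b <;> simpa using hd
  · rintro ⟨j, b⟩ a a' h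
    cases b
    · simp only [Bool.false_eq_true, if_false] at h ⊢
      rw [h _ (by simp)]
    · simp only [if_true] at h ⊢
      rw [h _ (by simp)]
  · rintro ⟨j, b⟩ a
    cases b
    · simp only [Bool.false_eq_true, if_false]; exact abs_pm _
    · simp only [if_true]; exact abs_pm _
  · intro a
    unfold locF
    rw [Fintype.prod_prod_type]
    simp only [Fintype.prod_bool, if_true, Bool.false_eq_true, if_false]
    rw [Finset.prod_coe_sort R (fun j => pm (a (vP j.castSucc)) * pm (a (vP j.succ)))]

theorem indicator_rowsF (a : Var r B L d → Bool) :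
    indicator (rowsF f) a
      = (1 / 2) ^ r * ∑ R : Finset (Fin r), (∏ j ∈ R, tau f j a) * locF R a := by
  classical
  have h1 : ∀ R : Finset (Fin r), (∏ j ∈ R, tau f j a) * locF R a
      = ∏ j ∈ R, (tau f j a * (pm (a (vP j.castSucc)) * pm (a (vP j.succ)))) := by
    intro R
    unfold locF
    rw [← Finset.prod_mul_distrib]
  have h2 : ∑ R : Finset (Fin r), (∏ j ∈ R, tau f j a) * locF R a
      = ∏ j : Fin r, (1 + tau f j a * (pm (a (vP j.castSucc)) * pm (a (vP j.succ)))) := by
    rw [Finset.prod_one_add, Finset.powerset_univ]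
    exact Finset.sum_congr rfl fun R _ => h1 R
  rw [h2]
  have h3 : (1 / 2 : ℝ) ^ r = ∏ _j : Fin r, (1 / 2 : ℝ) := by simp
  rw [h3, ← Finset.prod_mul_distrib]
  have hpm : ∀ j : Fin r, pm (a (vP j.castSucc)) * pm (a (vP j.succ)) = 1 ∨
      pm (a (vP j.castSucc)) * pm (a (vP j.succ)) = -1 := by
    intro j
    cases a (vP j.castSucc) <;> cases a (vP j.succ) <;> simp [pm]
  unfold indicator
  by_cases hs : Satisfies a (rowsF f)
  · rw [if_pos hs]
    rw [satisfies_rowsF] at hs
    symm
    refine Finset.prod_eq_one fun j _ => ?_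
    have := hs j
    unfold blkQ at this
    rw [this, tau_sq]
    norm_num
  · rw [if_neg hs]
    rw [satisfies_rowsF] at hs
    push Not at hs
    obtain ⟨j, hj⟩ := hs
    symm
    refine Finset.prod_eq_zero (Finset.mem_univ j) ?_
    unfold blkQ at hj
    rcases hpm j with h | h <;> rcases tau_eq_or f j a with h' | h'
    · exact absurd (h.trans h'.symm) hj
    · rw [h, h']; norm_num
    · rw [h, h']; norm_num
    · exact absurd (h.trans h'.symm) hj

end

end Pool.Agent.H548R2
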