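import Pool.Agent.H548R2.Rows
import Pool.Agent.H548R2.Cancel

/-!
Every decomposable circuit overlaps the set of models only in an exponentially small part of its
mass.
-/

namespace Pool.Agent.H548R2

open Finset

open Classical in
theorem subset_count {r : ℕ} (G : Finset (Fin r)) (q : ℕ) (hG : 4 * q ≤ G.card) :
    ((Finset.univ.filter fun R : Finset (Fin r) => (R ∩ G).card < q).card : ℝ)
      ≤ 2 ^ r * (81 / 128) ^ q := by
  have h1 : ∑ R : Finset (Fin r), (1 / 2 : ℝ) ^ (R ∩ G).card = 2 ^ r * (3 / 4) ^ G.card := by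
    have h2 : ∀ R : Finset (Fin r), (1 / 2 : ℝ) ^ (R ∩ G).card
        = ∏ j ∈ R, if j ∈ G then (1 / 2 : ℝ) else 1 := by
      intro R
      rw [Finset.prod_ite, Finset.prod_const, Finset.prod_const_one, mul_one,
        Finset.filter_mem_eq_inter]
    rw [Finset.sum_congr rfl fun R _ => h2 R, ← Finset.powerset_univ, ← Finset.prod_one_add]
    have h3 : ∀ j : Fin r, (1 + if j ∈ G then (1 / 2 : ℝ) else 1)
        = 2 * if j ∈ G then (3 / 4 : ℝ) else 1 := by
      intro j; split_ifs <;> norm_num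
    rw [Finset.prod_congr rfl fun j _ => h3 j, Finset.prod_mul_distrib, Finset.prod_const,
      Finset.card_univ, Fintype.card_fin, Finset.prod_ite, Finset.prod_const,
      Finset.prod_const_one, mul_one, Finset.filter_mem_eq_inter, Finset.univ_inter]
  have h2 : ((Finset.univ.filter fun R : Finset (Fin r) => (R ∩ G).card < q).card : ℝ) * (1 / 2) ^ q
      ≤ ∑ R : Finset (Fin r), (1 / 2 : ℝ) ^ (R ∩ G).card := by
    rw [← nsmul_eq_mul, ← Finset.sum_const]
    refine le_trans (Finset.sum_le_sum fun R hR => ?_)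
      (Finset.sum_le_sum_of_subset_of_nonneg (Finset.filter_subset _ _)
        fun _ _ _ => by positivity)
    exact pow_le_pow_of_le_one (by norm_num) (by norm_num) (Finset.mem_filter.mp hR).2.le
  have h3 : (3 / 4 : ℝ) ^ G.card ≤ (81 / 256) ^ q := by
    calc (3 / 4 : ℝ) ^ G.card ≤ (3 / 4) ^ (4 * q) :=
          pow_le_pow_of_le_one (by norm_num) (by norm_num) hG
      _ = (81 / 256) ^ q := by rw [pow_mul]; norm_num
  rw [h1] at h2
  have h4 : (2 : ℝ) ^ r * (3 / 4) ^ G.card ≤ 2 ^ r * (81 / 256) ^ q :=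
    mul_le_mul_of_nonneg_left h3 (by positivity)
  have h5 : (2 : ℝ) ^ r * (81 / 256) ^ q = (2 ^ r * (81 / 128) ^ q) * (1 / 2) ^ q := by
    rw [mul_assoc, ← mul_pow]
    norm_num
  rw [h5] at h4
  exact le_of_mul_le_mul_right (h2.trans h4) (by positivity)

section

variable {r B L d : ℕ} (f : Fin r × Fin B → Fin L → Fin r × Fin B)

/-- Balanced rectangles contain few models. -/
theorem strong_disc (hd : 1 ≤ d) {b q κ : ℕ} {X : Finset (Var r B L d)}
    (hc : Cross f (r * (2 * b)) X) (hb : 1 ≤ b)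
    (hM : B * (L * 2) = κ * b) (hq : 4 * q * κ ≤ r) (hκ : 1 ≤ κ)
    (u v : (Var r B L d → Bool) → ℝ) (hu : DependsOn u (X : Set (Var r B L d)))
    (hv : DependsOn v ((X : Set (Var r B L d))ᶜ)) (hu0 : ∀ a, 0 ≤ u a) (hu1 : ∀ a, u a ≤ 1)
    (hv0 : ∀ a, 0 ≤ v a) (hv1 : ∀ a, v a ≤ 1) :
    ∑ a, indicator (rowsF f) a * (u a * v a)
      ≤ (81 / 128) ^ q * ∑ a, u a * v a
        + 2 ^ Fintype.card (Var r B L d) * bet (d + 2) ^ (q * b) := by
  classical
  obtain ⟨c, hc1, hc2, hc3⟩ := disc_rows f hc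
  set G : Finset (Fin r) := Finset.univ.filter fun j => b ≤ c j with hG
  have hGc : 4 * q ≤ G.card := by
    have h1 : ∑ j, c j ≤ G.card * (κ * b) + r * b := by
      rw [← Finset.sum_filter_add_sum_filter_not Finset.univ (fun j => b ≤ c j)]
      refine Nat.add_le_add ?_ ?_
      · refine (Finset.sum_le_card_nsmul _ _ (κ * b) fun j _ => (hc1 j).trans hM.le).trans ?_
        rw [smul_eq_mul]
      · refine (Finset.sum_le_card_nsmul _ _ b fun j hj => ?_).trans ?_
        · exact (not_le.mp (Finset.mem_filter.mp hj).2).le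
        · rw [smul_eq_mul]
          refine Nat.mul_le_mul_right _ ((Finset.card_filter_le _ _).trans ?_)
          rw [Finset.card_univ, Fintype.card_fin]
    rw [hc2] at h1
    have h2 : r * b ≤ (G.card * κ) * b := by nlinarith
    have h3 : r ≤ G.card * κ := Nat.le_of_mul_le_mul_right h2 (by omega)
    have h4 : 4 * q * κ ≤ G.card * κ := hq.trans h3
    exact Nat.le_of_mul_le_mul_right h4 (by omega)
  set Bd : Finset (Finset (Fin r)) :=
    Finset.univ.filter fun R : Finset (Fin r) => (R ∩ G).card < q with hBd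
  have hbad := subset_count G q hGc
  set S : ℝ := ∑ a, u a * v a with hS
  have hS0 : 0 ≤ S := Finset.sum_nonneg fun a _ => mul_nonneg (hu0 a) (hv0 a)
  set τ : ℝ := 2 ^ Fintype.card (Var r B L d) * bet (d + 2) ^ (q * b) with hτ
  have hτ0 : 0 ≤ τ := mul_nonneg (by positivity) (pow_nonneg (bet_nonneg _) _)
  have e1 : ∑ a, indicator (rowsF f) a * (u a * v a)
      = (1 / 2) ^ r * ∑ R : Finset (Fin r), ∑ a,
        (∏ j ∈ R, tau f j a) * locF R a * (u a * v a) := by
    rw [Finset.sum_comm, Finset.mul_sum]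
    refine Finset.sum_congr rfl fun a _ => ?_
    rw [indicator_rowsF, mul_assoc, Finset.sum_mul]
  have htau : ∀ (R : Finset (Fin r)) (a : Var r B L d → Bool), |∏ j ∈ R, tau f j a| ≤ 1 := by
    intro R a
    rw [Finset.abs_prod]
    refine Finset.prod_le_one (fun _ _ => abs_nonneg _) fun j _ => ?_
    rcases tau_eq_or f j a with h | h <;> rw [h] <;> simp
  have hloc : ∀ (R : Finset (Fin r)) (a : Var r B L d → Bool), |locF R a| ≤ 1 := by
    intro R a
    exact (locF_local hd R).abs_le a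
  have h1 : ∀ R : Finset (Fin r), ∑ a, (∏ j ∈ R, tau f j a) * locF R a * (u a * v a) ≤ S := by
    intro R
    refine Finset.sum_le_sum fun a _ => ?_
    refine (le_abs_self _).trans ?_
    rw [abs_mul, abs_mul, abs_of_nonneg (mul_nonneg (hu0 a) (hv0 a))]
    refine mul_le_of_le_one_left (mul_nonneg (hu0 a) (hv0 a)) ?_
    exact mul_le_one₀ (htau R a) (abs_nonneg _) (hloc R a)
  have h2 : ∀ R : Finset (Fin r), R ∉ Bd →
      ∑ a, (∏ j ∈ R, tau f j a) * locF R a * (u a * v a) ≤ τ := by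
    intro R hR
    have h3 : q ≤ (R ∩ G).card := by
      by_contra hcon
      exact hR (Finset.mem_filter.mpr ⟨Finset.mem_univ _, not_le.mp hcon⟩)
    refine (le_abs_self _).trans ((hc3 R (locF R) (locF_local hd R) u v hu hv
      (fun a => by rw [abs_of_nonneg (hu0 a)]; exact hu1 a)
      (fun a => by rw [abs_of_nonneg (hv0 a)]; exact hv1 a)).trans ?_)
    refine mul_le_mul_of_nonneg_left ?_ (by positivity)
    refine pow_le_pow_of_le_one (bet_nonneg _) (bet_lt_one _).le ?_
    calc q * b ≤ (R ∩ G).card * b := Nat.mul_le_mul_right _ h3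
      _ ≤ ∑ j ∈ R ∩ G, c j := by
          rw [← smul_eq_mul]
          refine Finset.card_nsmul_le_sum _ _ _ fun j hj => ?_
          exact (Finset.mem_filter.mp (Finset.mem_inter.mp hj).2).2
      _ ≤ ∑ j ∈ R, c j :=
          Finset.sum_le_sum_of_subset_of_nonneg Finset.inter_subset_left fun _ _ _ => Nat.zero_le _
  have h3 : ∑ R : Finset (Fin r), ∑ a, (∏ j ∈ R, tau f j a) * locF R a * (u a * v a)
      ≤ Bd.card * S + 2 ^ r * τ := by
    rw [← Finset.sum_filter_add_sum_filter_not Finset.univ (fun R => R ∈ Bd)]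
    refine add_le_add ?_ ?_
    · refine (Finset.sum_le_card_nsmul _ _ S fun R _ => h1 R).trans ?_
      rw [nsmul_eq_mul, Finset.filter_mem_eq_inter, Finset.univ_inter]
    · refine (Finset.sum_le_card_nsmul _ _ τ fun R hR => h2 R (Finset.mem_filter.mp hR).2).trans ?_
      rw [nsmul_eq_mul]
      refine mul_le_mul_of_nonneg_right ?_ hτ0
      have : (Finset.univ.filter fun R : Finset (Fin r) => R ∉ Bd).card ≤ 2 ^ r := by
        refine (Finset.card_filter_le _ _).trans ?_
        rw [Finset.card_univ, Fintype.card_finset, Fintype.card_fin]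
      exact_mod_cast this
  rw [e1]
  have h4 : (1 / 2 : ℝ) ^ r * 2 ^ r = 1 := by rw [← mul_pow]; norm_num
  calc (1 / 2 : ℝ) ^ r * ∑ R : Finset (Fin r), ∑ a, (∏ j ∈ R, tau f j a) * locF R a * (u a * v a)
      ≤ (1 / 2) ^ r * (Bd.card * S + 2 ^ r * τ) := mul_le_mul_of_nonneg_left h3 (by positivity)
    _ ≤ (1 / 2) ^ r * ((2 ^ r * (81 / 128) ^ q) * S + 2 ^ r * τ) := by
        refine mul_le_mul_of_nonneg_left ?_ (by positivity)
        exact add_le_add (mul_le_mul_of_nonneg_right hbad hS0) le_rfl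
    _ = ((1 / 2) ^ r * 2 ^ r) * ((81 / 128) ^ q * S + τ) := by ring
    _ = _ := by rw [h4, one_mul]

end

section levels

variable {V : Type} [Fintype V] [DecidableEq V]

/-- One dyadic level. -/
theorem level_bound {φ : (V → Bool) → ℝ} (hφ0 : ∀ a, 0 ≤ φ a) {X : Finset V} {δ ε : ℝ}
    (hδ : 0 ≤ δ)
    (hSP : ∀ u v : (V → Bool) → ℝ, DependsOn u (X : Set V) → DependsOn v ((X : Set V)ᶜ) →
      (∀ a, 0 ≤ u a) → (∀ a, u a ≤ 1) → (∀ a, 0 ≤ v a) → (∀ a, v a ≤ 1) →
      ∑ a, φ a * (u a * v a) ≤ δ * ∑ a, u a * v a + ε)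
    {g h : (V → Bool) → ℝ} (hg : DependsOn g (X : Set V)) (hh : DependsOn h ((X : Set V)ᶜ))
    (hg0 : ∀ a, 0 ≤ g a) (hh0 : ∀ a, 0 ≤ h a) {γ : ℝ} (hγ : 0 < γ) :
    ∑ a, (if γ / 2 < g a ∧ g a ≤ γ then φ a * min 1 (g a * h a) else 0)
      ≤ 2 * δ * (∑ a, if γ / 2 < g a ∧ g a ≤ γ then g a * h a else 0) + 2 * ε := by
  classical
  have h1 := hSP (fun a => if γ / 2 < g a ∧ g a ≤ γ then g a / γ else 0)
    (fun a => if h a * γ ≤ 1 then h a * γ else 0)
    (fun a b hab => by simp only [hg hab]) (fun a b hab => by simp only [hh hab])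
    (fun a => by
      show (0 : ℝ) ≤ if γ / 2 < g a ∧ g a ≤ γ then g a / γ else 0
      split_ifs
      · exact div_nonneg (hg0 a) hγ.le
      · exact le_rfl)
    (fun a => by
      show (if γ / 2 < g a ∧ g a ≤ γ then g a / γ else 0) ≤ (1 : ℝ)
      split_ifs with hc
      · exact (div_le_one hγ).mpr hc.2
      · exact zero_le_one)
    (fun a => by
      show (0 : ℝ) ≤ if h a * γ ≤ 1 then h a * γ else 0
      split_ifs
      · exact mul_nonneg (hh0 a) hγ.le
      · exact le_rfl)
    (fun a => by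
      show (if h a * γ ≤ 1 then h a * γ else 0) ≤ (1 : ℝ)
      split_ifs with hc
      · exact hc
      · exact zero_le_one)
  have h2 := hSP (fun a => if γ / 2 < g a ∧ g a ≤ γ then 1 else 0)
    (fun a => if h a * γ ≤ 1 then 0 else 1)
    (fun a b hab => by simp only [hg hab]) (fun a b hab => by simp only [hh hab])
    (fun a => by
      show (0 : ℝ) ≤ if γ / 2 < g a ∧ g a ≤ γ then 1 else 0
      split_ifs <;> norm_num)
    (fun a => by
      show (if γ / 2 < g a ∧ g a ≤ γ then 1 else 0) ≤ (1 : ℝ)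
      split_ifs <;> norm_num)
    (fun a => by
      show (0 : ℝ) ≤ if h a * γ ≤ 1 then 0 else 1
      split_ifs <;> norm_num)
    (fun a => by
      show (if h a * γ ≤ 1 then 0 else 1) ≤ (1 : ℝ)
      split_ifs <;> norm_num)
  have h3 : ∑ a, (if γ / 2 < g a ∧ g a ≤ γ then φ a * min 1 (g a * h a) else 0)
      ≤ ∑ a, φ a * ((if γ / 2 < g a ∧ g a ≤ γ then g a / γ else 0) *
          (if h a * γ ≤ 1 then h a * γ else 0)) +
        ∑ a, φ a * ((if γ / 2 < g a ∧ g a ≤ γ then 1 else 0) *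
          (if h a * γ ≤ 1 then 0 else 1)) := by
    rw [← Finset.sum_add_distrib]
    refine Finset.sum_le_sum fun a _ => ?_
    by_cases hc : γ / 2 < g a ∧ g a ≤ γ
    · rw [if_pos hc, if_pos hc, if_pos hc]
      by_cases hd : h a * γ ≤ 1
      · rw [if_pos hd, if_pos hd, mul_zero, mul_zero, add_zero]
        have e : g a / γ * (h a * γ) = g a * h a := by field_simp
        rw [e]
        exact mul_le_mul_of_nonneg_left (min_le_right _ _) (hφ0 a)
      · rw [if_neg hd, if_neg hd, mul_zero, mul_zero, zero_add, mul_one, mul_one]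
        exact mul_le_of_le_one_right (hφ0 a) (min_le_left _ _)
    · rw [if_neg hc, if_neg hc, if_neg hc]
      simp
  have h4 : (∑ a, (if γ / 2 < g a ∧ g a ≤ γ then g a / γ else 0) *
          (if h a * γ ≤ 1 then h a * γ else 0)) +
        ∑ a, (if γ / 2 < g a ∧ g a ≤ γ then (1 : ℝ) else 0) *
          (if h a * γ ≤ 1 then 0 else 1)
      ≤ 2 * ∑ a, if γ / 2 < g a ∧ g a ≤ γ then g a * h a else 0 := by
    rw [← Finset.sum_add_distrib, Finset.mul_sum]
    refine Finset.sum_le_sum fun a _ => ?_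
    by_cases hc : γ / 2 < g a ∧ g a ≤ γ
    · rw [if_pos hc, if_pos hc, if_pos hc]
      have hgh := mul_nonneg (hg0 a) (hh0 a)
      by_cases hd : h a * γ ≤ 1
      · rw [if_pos hd, if_pos hd, mul_zero, add_zero]
        have e : g a / γ * (h a * γ) = g a * h a := by field_simp
        rw [e]
        linarith
      · rw [if_neg hd, if_neg hd, mul_zero, zero_add, mul_one]
        have hd' : 1 < h a * γ := not_le.mp hd
        have hc1 := hc.1
        have hh' : 0 < h a := by
          by_contra hcon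
          have : h a * γ ≤ 0 := mul_nonpos_of_nonpos_of_nonneg (not_lt.mp hcon) hγ.le
          linarith
        have := mul_lt_mul_of_pos_right hc1 hh'
        nlinarith
    · rw [if_neg hc, if_neg hc, if_neg hc]
      simp
  have h5 := mul_le_mul_of_nonneg_left h4 hδ
  rw [mul_add] at h5
  linarith

theorem overlap_rect {φ : (V → Bool) → ℝ} (hφ0 : ∀ a, 0 ≤ φ a) {X : Finset V} {δ ε : ℝ}
    (hδ : 0 ≤ δ) 
    (hSP : ∀ u v : (V → Bool) → ℝ, DependsOn u (X : Set V) → DependsOn v ((X : Set V)ᶜ) →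
      (∀ a, 0 ≤ u a) → (∀ a, u a ≤ 1) → (∀ a, 0 ≤ v a) → (∀ a, v a ≤ 1) →
      ∑ a, φ a * (u a * v a) ≤ δ * ∑ a, u a * v a + ε)
    {g h : (V → Bool) → ℝ} (hg : DependsOn g (X : Set V)) (hh : DependsOn h ((X : Set V)ᶜ))
    (hg0 : ∀ a, 0 ≤ g a) (hh0 : ∀ a, 0 ≤ h a) (I : ℕ) :
    ∑ a, φ a * min 1 (g a * h a)
      ≤ (2 * δ + (1 / 2) ^ I * ∑ a, φ a) * (∑ a, g a * h a) + 2 * I * ε := by
  classical
  have hε : 0 ≤ ε := by
    have := hSP (fun _ => 0) (fun _ => 0) (fun _ _ _ => rfl) (fun _ _ _ => rfl)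
      (fun _ => le_rfl) (fun _ => zero_le_one) (fun _ => le_rfl) (fun _ => zero_le_one)
    simpa using this
  obtain ⟨a1, ha1⟩ := Finite.exists_max g
  set Gm := g a1 with hGm
  set S := ∑ a, g a * h a with hS
  have hS0 : 0 ≤ S := Finset.sum_nonneg fun a _ => mul_nonneg (hg0 a) (hh0 a)
  have hΦ0 : 0 ≤ ∑ a, φ a := Finset.sum_nonneg fun a _ => hφ0 a
  -- the maximum of g times any value of h is at most S
  have hmax : ∀ a, Gm * h a ≤ S := by
    intro a
    set a3 : V → Bool := fun v => if v ∈ X then a1 v else a v with ha3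
    have e1 : g a3 = Gm := hg fun x hx => by
      have hx' : x ∈ X := Finset.mem_coe.mp hx
      simp [ha3, hx']
    have e2 : h a3 = h a := hh fun x hx => by
      have hx' : x ∉ X := fun h => hx (Finset.mem_coe.mpr h)
      simp [ha3, hx']
    rw [← e1, ← e2]
    exact Finset.single_le_sum (f := fun a => g a * h a)
      (fun a _ => mul_nonneg (hg0 a) (hh0 a)) (Finset.mem_univ a3)
  rcases (hg0 a1).eq_or_lt with hz | hpos
  · have hg00 : ∀ a, g a = 0 := fun a => le_antisymm ((ha1 a).trans hz.symm.le) (hg0 a)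
    have : ∑ a, φ a * min 1 (g a * h a) = 0 := by
      refine Finset.sum_eq_zero fun a _ => ?_
      rw [hg00 a, zero_mul, min_eq_right zero_le_one, mul_zero]
    rw [this]
    positivity
  -- levels
  have key : ∀ I : ℕ, ∑ a, (if Gm * (1 / 2) ^ I < g a then φ a * min 1 (g a * h a) else 0)
      ≤ 2 * δ * (∑ a, if Gm * (1 / 2) ^ I < g a then g a * h a else 0) + 2 * I * ε := by
    intro I
    induction I with
    | zero =>
      have h0 : ∀ a, ¬ Gm * (1 / 2) ^ 0 < g a := fun a => by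
        rw [pow_zero, mul_one]; exact not_lt.mpr (ha1 a)
      simp only [if_neg (h0 _), Finset.sum_const_zero]
      simp
    | succ I ih =>
      have hγ : 0 < Gm * (1 / 2 : ℝ) ^ I := by positivity
      have h1 := level_bound hφ0 hδ hSP hg hh hg0 hh0 hγ
      have hhalf : Gm * (1 / 2 : ℝ) ^ I / 2 = Gm * (1 / 2) ^ (I + 1) := by rw [pow_succ]; ring
      rw [hhalf] at h1
      have hsplit : ∀ F : (V → Bool) → ℝ,
          ∑ a, (if Gm * (1 / 2 : ℝ) ^ (I + 1) < g a then F a else 0)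
          = ∑ a, (if Gm * (1 / 2 : ℝ) ^ I < g a then F a else 0)
          + ∑ a, (if Gm * (1 / 2 : ℝ) ^ (I + 1) < g a ∧ g a ≤ Gm * (1 / 2) ^ I then F a
              else 0) := by
        intro F
        rw [← Finset.sum_add_distrib]
        refine Finset.sum_congr rfl fun a _ => ?_
        have hlt : Gm * (1 / 2 : ℝ) ^ (I + 1) < Gm * (1 / 2) ^ I := by
          rw [← hhalf]; linarith
        by_cases hA : Gm * (1 / 2 : ℝ) ^ I < g a
        · rw [if_pos (hlt.trans hA), if_pos hA, if_neg (fun h => not_lt.mpr h.2 hA), add_zero]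
        · rw [if_neg hA, zero_add]
          by_cases hB : Gm * (1 / 2 : ℝ) ^ (I + 1) < g a
          · rw [if_pos hB, if_pos ⟨hB, not_lt.mp hA⟩]
          · rw [if_neg hB, if_neg (fun h => hB h.1)]
      rw [hsplit, hsplit]
      push_cast
      linarith
  have hI := key I
  have hle1 : ∑ a, (if Gm * (1 / 2 : ℝ) ^ I < g a then g a * h a else 0) ≤ S := by
    refine Finset.sum_le_sum fun a _ => ?_
    split_ifs
    · exact le_rfl
    · exact mul_nonneg (hg0 a) (hh0 a)
  have hle2 : ∑ a, φ a * min 1 (g a * h a)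
      ≤ ∑ a, (if Gm * (1 / 2 : ℝ) ^ I < g a then φ a * min 1 (g a * h a) else 0)
        + ∑ a, φ a * ((1 / 2) ^ I * S) := by
    rw [← Finset.sum_add_distrib]
    refine Finset.sum_le_sum fun a _ => ?_
    split_ifs with hc
    · have : 0 ≤ φ a * ((1 / 2) ^ I * S) := mul_nonneg (hφ0 a) (by positivity)
      linarith
    · rw [zero_add]
      refine mul_le_mul_of_nonneg_left ((min_le_right _ _).trans ?_) (hφ0 a)
      calc g a * h a ≤ (Gm * (1 / 2) ^ I) * h a :=
            mul_le_mul_of_nonneg_right (not_lt.mp hc) (hh0 a)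
        _ = (1 / 2) ^ I * (Gm * h a) := by ring
        _ ≤ _ := mul_le_mul_of_nonneg_left (hmax a) (by positivity)
  rw [← Finset.sum_mul] at hle2
  have h6 := mul_le_mul_of_nonneg_left hle1 (by positivity : 0 ≤ 2 * δ)
  have e : (2 * δ + (1 / 2) ^ I * ∑ a, φ a) * S + 2 * I * ε
      = 2 * δ * S + 2 * I * ε + (∑ a, φ a) * ((1 / 2) ^ I * S) := by ring
  rw [e]
  linarith

end levels

end Pool.Agent.H548R2
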