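import Pool.Agent.H548R2.Sampling

/-!
Assembly of the sampling lower bound.
-/

namespace Pool.Agent.H548R2

open Finset

theorem exists_rows (E : ℕ) (hE : 4 ≤ E) : ∃ C : ℕ, ∀ n : ℕ, 1 ≤ n →
    ∃ (V : Type) (_ : Fintype V) (_ : DecidableEq V) (φ : CNF V) (δ ε : ℝ),
      2 ≤ Fintype.card V ∧ Fintype.card V ≤ C * n ∧ φ.length ≤ C * n ∧ (∀ K ∈ φ, K.length ≤ C) ∧
      (∀ v, Occurs v φ) ∧ 0 < modelCount φ ∧ 0 ≤ δ ∧
      (∀ X : Finset V, Fintype.card V ≤ E * X.card → Fintype.card V ≤ E * (Xᶜ).card →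
        ∀ u v : (V → Bool) → ℝ, DependsOn u (X : Set V) → DependsOn v ((X : Set V)ᶜ) →
          (∀ a, 0 ≤ u a) → (∀ a, u a ≤ 1) → (∀ a, 0 ≤ v a) → (∀ a, v a ≤ 1) →
          ∑ a, indicator φ a * (u a * v a) ≤ δ * ∑ a, u a * v a + ε) ∧
      2 * δ + (1 / 2) ^ (2 * Fintype.card V) * (modelCount φ : ℝ) ≤ (1 / 2) ^ (n + 1) ∧
      2 * ((2 * Fintype.card V : ℕ) : ℝ) * ε ≤ (1 / 2) ^ (n + 1) * modelCount φ := by
  classical
  obtain ⟨D0, hD0⟩ := exists_degree (16 * E) (by omega)
  set L := D0 + 1 with hL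
  set κ := 64 * E * L with hκ
  have hκ1 : 64 ≤ κ := by
    rw [hκ]
    nlinarith
  set Q := 32 * κ * (32 * E * (2 + 3 * L) + 2) with hQ
  have hQ1 : 1 ≤ Q := by
    rw [hQ]
    nlinarith [Nat.zero_le (32 * E * (2 + 3 * L))]
  have hβ0 : 0 ≤ bet (1 + 2) ^ 8 := pow_nonneg (bet_nonneg _) _
  have hβ1 : bet (1 + 2) ^ 8 < 1 := pow_lt_one₀ (bet_nonneg _) (bet_lt_one _) (by norm_num)
  have hpos : (0 : ℝ) < (1 / 2) ^ (32 * κ + 4) / (8 * Q) := by
    have : (0 : ℝ) < Q := by exact_mod_cast hQ1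
    positivity
  have htend := tendsto_self_mul_const_pow_of_lt_one hβ0 hβ1
  obtain ⟨b, hb, hb1⟩ : ∃ b : ℕ, (b : ℝ) * (bet (1 + 2) ^ 8) ^ b < (1 / 2) ^ (32 * κ + 4) / (8 * Q)
      ∧ 1 ≤ b :=
    ((htend.eventually_lt_const hpos).and (Filter.eventually_ge_atTop 1)).exists
  set B := 32 * E * b with hB
  set K := 2 + B * (L * 2) * (1 + 3) with hK
  refine ⟨Q * b + 32 * κ * 2 ^ K + K, fun n hn => ?_⟩
  set r := κ * 32 * n with hr
  have hr1 : 1 ≤ r := by
    rw [hr]
    have : 1 * 1 ≤ κ * 32 * n := Nat.mul_le_mul (by omega) hn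
    omega
  have hrB : r * B = 16 * E * (r * (2 * b)) := by rw [hB]; ring
  obtain ⟨g, hg⟩ := exists_mixing (16 * E) (r * (2 * b)) D0 (by omega)
    (Nat.mul_pos hr1 (by omega)) hD0 (Fin r × Fin B) (by simp; exact hrB)
  set f : Fin r × Fin B → Fin L → Fin r × Fin B :=
    fun t l => Fin.cases t (fun l' => g (t, l')) l with hf
  have hf0 : ∀ t, f t 0 = t := fun t => rfl
  have hfs : ∀ t l', f t (Fin.succ l') = g (t, l') := fun t l' => rfl
  have hmix : ∀ A B' : Finset (Fin r × Fin B), r * (2 * b) ≤ A.card → r * (2 * b) ≤ B'.card →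
      ∃ t ∈ A, ∃ l, f t l ∈ B' := by
    intro A B' hA hB'
    obtain ⟨t, ht, l', hl'⟩ := hg A B' hA hB'
    exact ⟨t, ht, Fin.succ l', by rw [hfs]; exact hl'⟩
  have hcardV : Fintype.card (Var r B L 1) = r * B + (r * B + (r * B * (L * (1 + 2)) + (r + 1))) :=
    card_var
  set N := Fintype.card (Var r B L 1) with hN
  have hNr : r + 1 ≤ N := by rw [hcardV]; omega
  have hNQ : N ≤ Q * b * n := by
    have h1 : N ≤ r * (B * (2 + 3 * L) + 2) := by
      rw [hcardV]
      nlinarith
    have h2 : B * (2 + 3 * L) + 2 ≤ (32 * E * (2 + 3 * L) + 2) * b := by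
      rw [hB]
      nlinarith
    calc N ≤ r * (B * (2 + 3 * L) + 2) := h1
      _ ≤ r * ((32 * E * (2 + 3 * L) + 2) * b) := Nat.mul_le_mul_left _ h2
      _ = Q * b * n := by rw [hr, hQ]; ring
  have hcount := rowsF_count (d := 1) f
  rw [← hN] at hcount
  have hcount' : (2 : ℝ) ^ N ≤ modelCount (rowsF (d := 1) f) * 2 ^ (r + 1) := by
    exact_mod_cast hcount
  have hcN : (modelCount (rowsF (d := 1) f) : ℝ) ≤ 2 ^ N := by
    have : modelCount (rowsF (d := 1) f) ≤ 2 ^ N := by
      unfold modelCount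
      rw [Nat.card_eq_fintype_card]
      refine (Fintype.card_subtype_le _).trans ?_
      rw [Fintype.card_fun, Fintype.card_bool]
    exact_mod_cast this
  have hc0 : 0 < modelCount (rowsF (d := 1) f) := by
    rcases Nat.eq_zero_or_pos (modelCount (rowsF (d := 1) f)) with h | h
    · rw [h, zero_mul] at hcount
      have : 0 < 2 ^ N := by positivity
      omega
    · exact h
  have hc0' : (0 : ℝ) < modelCount (rowsF (d := 1) f) := by exact_mod_cast hc0
  refine ⟨Var r B L 1, inferInstance, inferInstance, rowsF f, (81 / 128) ^ (8 * n),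
    2 ^ N * bet (1 + 2) ^ (8 * n * b), ?_, ?_, ?_, ?_, ?_, hc0, by positivity, ?_, ?_, ?_⟩
  · rw [← hN]; omega
  · rw [← hN]
    refine hNQ.trans ?_
    exact Nat.mul_le_mul_right _ (by omega)
  · refine (rowsF_length f).trans ?_
    rw [← hK, hr]
    calc κ * 32 * n * 2 ^ K = (32 * κ * 2 ^ K) * n := by ring
      _ ≤ _ := Nat.mul_le_mul_right _ (by omega)
  · intro C hC
    refine (rowsF_width f C hC).trans ?_
    rw [← hK]
    exact Nat.le_add_left _ _
  · exact rowsF_occurs f hr1 0 hf0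
  · intro X hX1 hX2 u v hu hv hu0 hu1 hv0 hv1
    have hcross : Cross f (r * (2 * b)) X :=
      cross_all f (r * (2 * b)) E (Nat.le_mul_of_pos_right _ (by omega)) hr1 hrB (by omega)
        hmix X hX1 hX2
    have := strong_disc f (le_refl 1) (q := 8 * n) (κ := κ) hcross hb1
      (by rw [hB, hκ]; ring) (by rw [hr]; nlinarith) (by omega) u v hu hv hu0 hu1 hv0 hv1
    exact this
  · rw [← hN]
    have h1 : ((81 : ℝ) / 128) ^ (8 * n) ≤ (1 / 2) ^ (4 * n) := by
      rw [show 8 * n = 2 * (4 * n) by ring, pow_mul]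
      exact pow_le_pow_left₀ (by positivity) (by norm_num) _
    have h2 : (1 / 2 : ℝ) ^ (2 * N) * modelCount (rowsF (d := 1) f) ≤ (1 / 2) ^ (4 * n) := by
      calc (1 / 2 : ℝ) ^ (2 * N) * modelCount (rowsF (d := 1) f)
          ≤ (1 / 2) ^ (2 * N) * 2 ^ N := mul_le_mul_of_nonneg_left hcN (by positivity)
        _ = (1 / 2) ^ N := by
            rw [two_mul, pow_add, mul_assoc, ← mul_pow]
            norm_num
        _ ≤ (1 / 2) ^ (4 * n) := by
            refine pow_le_pow_of_le_one (by norm_num) (by norm_num) ?_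
            refine le_trans ?_ ((Nat.le_succ r).trans hNr)
            rw [hr]
            exact Nat.mul_le_mul_right _ (by omega)
    have h3 : (3 : ℝ) * (1 / 2) ^ (4 * n) ≤ (1 / 2) ^ (n + 1) := by
      have h4 : (1 / 2 : ℝ) ^ (4 * n) ≤ (1 / 2) ^ (n + 1 + 2) :=
        pow_le_pow_of_le_one (by norm_num) (by norm_num) (by omega)
      rw [pow_add _ (n + 1) 2] at h4
      have h5 : (0 : ℝ) ≤ (1 / 2) ^ (n + 1) := by positivity
      nlinarith
    linarith
  · rw [← hN]
    have hQ0 : (0 : ℝ) < Q := by exact_mod_cast hQ1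
    have hb0 : (1 : ℝ) ≤ b := by exact_mod_cast hb1
    have hn0 : (1 : ℝ) ≤ n := by exact_mod_cast hn
    set β : ℝ := (bet (1 + 2) ^ 8) ^ b with hβ
    have hβn : 0 ≤ β := by positivity
    have e1 : bet (1 + 2) ^ (8 * n * b) = β ^ n := by
      rw [hβ, ← pow_mul, ← pow_mul]
      congr 1
      ring
    rw [e1]
    have h1 : 2 * ((2 * N : ℕ) : ℝ) * (2 ^ N * β ^ n)
        ≤ 4 * (Q * b * n) * ((modelCount (rowsF (d := 1) f) * 2 ^ (r + 1)) * β ^ n) := by
      have h2 : 2 * ((2 * N : ℕ) : ℝ) ≤ 4 * (Q * b * n) := by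
        have : (N : ℝ) ≤ Q * b * n := by exact_mod_cast hNQ
        push_cast
        linarith
      exact mul_le_mul h2 (mul_le_mul_of_nonneg_right hcount' (by positivity)) (by positivity)
        (by positivity)
    refine h1.trans ?_
    have h2 : (b : ℝ) * β ^ n ≤ (b * β) ^ n := by
      rw [mul_pow]
      refine mul_le_mul_of_nonneg_right ?_ (by positivity)
      calc (b : ℝ) = b ^ 1 := (pow_one _).symm
        _ ≤ b ^ n := pow_le_pow_right₀ hb0 hn
    have h3 : (b * β) ^ n ≤ ((1 / 2 : ℝ) ^ (32 * κ + 4) / (8 * Q)) ^ n :=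
      pow_le_pow_left₀ (by positivity) hb.le n
    have h4 : ((1 / 2 : ℝ) ^ (32 * κ + 4) / (8 * Q)) ^ n
        ≤ (1 / 2) ^ (32 * κ * n) * (1 / 2) ^ (4 * n) / (8 * Q) := by
      rw [div_pow, ← pow_mul, ← pow_add]
      rw [show (32 * κ + 4) * n = 32 * κ * n + 4 * n by ring]
      refine div_le_div_of_nonneg_left (by positivity) (by positivity) ?_
      have h8 : (1 : ℝ) ≤ 8 * Q := by
        have : (1 : ℝ) ≤ Q := by exact_mod_cast hQ1
        linarith
      calc 8 * (Q : ℝ) = (8 * Q) ^ 1 := (pow_one _).symm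
        _ ≤ (8 * Q) ^ n := pow_le_pow_right₀ h8 hn
    have h5 : (2 : ℝ) ^ (r + 1) * (1 / 2) ^ (32 * κ * n) = 2 := by
      rw [hr, show κ * 32 * n = 32 * κ * n by ring, pow_succ, mul_right_comm, ← mul_pow]
      norm_num
    have h6 : (n : ℝ) ≤ 2 ^ n := by
      exact_mod_cast (Nat.lt_two_pow_self (n := n)).le
    have h7 : (b : ℝ) * β ^ n ≤ (1 / 2) ^ (32 * κ * n) * (1 / 2) ^ (4 * n) / (8 * Q) :=
      h2.trans (h3.trans h4)
    calc 4 * (Q * b * n) * ((modelCount (rowsF (d := 1) f) * 2 ^ (r + 1)) * β ^ n)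
        = (4 * Q * n * modelCount (rowsF (d := 1) f) * 2 ^ (r + 1)) * (b * β ^ n) := by ring
      _ ≤ (4 * Q * n * modelCount (rowsF (d := 1) f) * 2 ^ (r + 1)) *
          ((1 / 2) ^ (32 * κ * n) * (1 / 2) ^ (4 * n) / (8 * Q)) :=
          mul_le_mul_of_nonneg_left h7 (by positivity)
      _ = (n * (1 / 2) ^ (4 * n)) * modelCount (rowsF (d := 1) f) *
          (2 ^ (r + 1) * (1 / 2) ^ (32 * κ * n)) / 2 := by
          field_simp
          ring
      _ = (n * (1 / 2) ^ (4 * n)) * modelCount (rowsF (d := 1) f) := by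
          rw [h5]; ring
      _ ≤ (1 / 2) ^ (n + 1) * modelCount (rowsF (d := 1) f) := by
          refine mul_le_mul_of_nonneg_right ?_ hc0'.le
          calc (n : ℝ) * (1 / 2) ^ (4 * n) ≤ 2 ^ n * (1 / 2) ^ (4 * n) :=
                mul_le_mul_of_nonneg_right h6 (by positivity)
            _ = (1 / 2) ^ (3 * n) := by
                rw [show 4 * n = n + 3 * n by ring, pow_add, ← mul_assoc, ← mul_pow]
                norm_num
            _ ≤ _ := pow_le_pow_of_le_one (by norm_num) (by norm_num) (by omega)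

theorem min_list_sum {α : Type} {M : ℝ} (hM : 0 ≤ M) (T : List α) (x : α → ℝ)
    (hx : ∀ t ∈ T, 0 ≤ x t) : min M (T.map x).sum ≤ (T.map fun t => min M (x t)).sum := by
  induction T with
  | nil => simp [hM]
  | cons t T ih =>
    rw [List.map_cons, List.sum_cons, List.map_cons, List.sum_cons]
    have h1 := ih fun u hu => hx u (List.mem_cons_of_mem _ hu)
    have h2 := hx t List.mem_cons_self
    have h3 : 0 ≤ (T.map x).sum := List.sum_nonneg (by
      intro y hy
      obtain ⟨z, hz, rfl⟩ := List.mem_map.mp hy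
      exact hx z (List.mem_cons_of_mem _ hz))
    refine le_trans ?_ (add_le_add le_rfl h1)
    rcases le_total M (x t) with h | h
    · rw [min_eq_left h]
      exact (min_le_left _ _).trans (le_add_of_nonneg_right (le_min hM h3))
    · rw [min_eq_right h]
      rcases le_total M (T.map x).sum with h' | h'
      · rw [min_eq_left h']
        exact (min_le_left _ _).trans (le_add_of_nonneg_left h2)
      · rw [min_eq_right h']
        exact min_le_right _ _

theorem min_finset_sum {α : Type} {M : ℝ} (hM : 0 ≤ M) (T : Finset α) (x : α → ℝ)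
    (hx : ∀ t ∈ T, 0 ≤ x t) : min M (∑ t ∈ T, x t) ≤ ∑ t ∈ T, min M (x t) := by
  classical
  have := min_list_sum hM T.toList x fun t ht => hx t (Finset.mem_toList.mp ht)
  rwa [Finset.sum_map_toList, Finset.sum_map_toList] at this

theorem sampling_main (D : ℕ) (hD : 2 ≤ D) : ∃ C : ℕ, ∀ n : ℕ, 1 ≤ n →
    ∃ (V : Type) (_ : Fintype V) (_ : DecidableEq V) (φ : CNF V),
      Fintype.card V ≤ C * n ∧ φ.length ≤ C * n ∧ (∀ K ∈ φ, K.length ≤ C) ∧
      (∀ v, Occurs v φ) ∧ 0 < modelCount φ ∧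
      ∀ (d : ℕ) (J : Type) (_ : Fintype J) (A : J → ACircuit V) (M : ℝ), 0 ≤ M →
        (∀ j, (A j).Valid d D) →
        ∑ a, indicator φ a * min M (∑ j, |(A j).val (A j).out a|)
          ≤ (1 / 2) ^ n * ∑ j, (A j).size *
            (M * modelCount φ + ∑ a, (A j).absVal (A j).out a) := by
  classical
  obtain ⟨C, hC⟩ := exists_rows (max D 4) (le_max_right _ _)
  refine ⟨C, fun n hn => ?_⟩
  obtain ⟨V, i1, i2, φ, δ, ε, hV2, hV, hlen, hwid, hocc, hpos, hδ, hSP, hn1, hn2⟩ := hC n hn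
  refine ⟨V, i1, i2, φ, hV, hlen, hwid, hocc, hpos, ?_⟩
  intro d J _ A M hM hA
  have hφ0 : ∀ a, 0 ≤ indicator φ a := fun a => by
    unfold indicator; split_ifs <;> norm_num
  have hφsum : ∑ a, indicator φ a = modelCount φ := (modelCount_eq φ).symm
  have hcpos : (0 : ℝ) < modelCount φ := by exact_mod_cast hpos
  -- one rectangle
  have hrect : ∀ t : (V → Bool) → ℝ, IsRect (max D 4) t → ∀ W : ℝ, ∑ a, |t a| ≤ W →
      ∑ a, indicator φ a * min M |t a| ≤ (1 / 2) ^ (n + 1) * (M * modelCount φ + W) := by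
    intro t ht W hW
    have hW0 : 0 ≤ W := (Finset.sum_nonneg fun a _ => abs_nonneg _).trans hW
    rcases hM.eq_or_lt with hM0 | hMp
    · subst hM0
      have : ∑ a, indicator φ a * min 0 |t a| = 0 := Finset.sum_eq_zero fun a _ => by
        rw [min_eq_left (abs_nonneg _), mul_zero]
      rw [this, zero_mul, zero_add]
      positivity
    obtain ⟨X, h1, h2, g, h, hg, hh, hgh⟩ := ht
    have key := overlap_rect hφ0 hδ (hSP X h1 h2) (g := fun a => |g a| / M) (h := fun a => |h a|)
      (fun a b hab => by show |g a| / M = |g b| / M; rw [hg hab])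
      (fun a b hab => by show |h a| = |h b|; rw [hh hab])
      (fun a => div_nonneg (abs_nonneg _) hMp.le) (fun a => abs_nonneg _) (2 * Fintype.card V)
    have e1 : ∑ a, indicator φ a * min M |t a|
        = M * ∑ a, indicator φ a * min 1 (|g a| / M * |h a|) := by
      rw [Finset.mul_sum]
      refine Finset.sum_congr rfl fun a _ => ?_
      have e2 : min M |t a| = M * min 1 (|g a| / M * |h a|) := by
        rw [mul_min_of_nonneg _ _ hMp.le, mul_one, hgh, abs_mul]
        congr 1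
        field_simp
      rw [e2]
      ring
    have e2 : ∑ a, |g a| / M * |h a| = (∑ a, |t a|) / M := by
      rw [Finset.sum_div]
      refine Finset.sum_congr rfl fun a _ => ?_
      rw [hgh, abs_mul]
      ring
    rw [e2, hφsum] at key
    rw [e1]
    calc M * ∑ a, indicator φ a * min 1 (|g a| / M * |h a|)
        ≤ M * ((2 * δ + (1 / 2) ^ (2 * Fintype.card V) * modelCount φ) * ((∑ a, |t a|) / M)
          + 2 * ((2 * Fintype.card V : ℕ) : ℝ) * ε) := mul_le_mul_of_nonneg_left key hMp.le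
      _ = (2 * δ + (1 / 2) ^ (2 * Fintype.card V) * modelCount φ) * (∑ a, |t a|)
          + M * (2 * ((2 * Fintype.card V : ℕ) : ℝ) * ε) := by
          field_simp
      _ ≤ (1 / 2) ^ (n + 1) * W + M * ((1 / 2) ^ (n + 1) * modelCount φ) := by
          refine add_le_add ?_ (mul_le_mul_of_nonneg_left hn2 hMp.le)
          exact mul_le_mul hn1 hW (Finset.sum_nonneg fun a _ => abs_nonneg _) (by positivity)
      _ = _ := by ring
  -- one circuit
  have hcirc : ∀ j, ∑ a, indicator φ a * min M |(A j).val (A j).out a|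
      ≤ (1 / 2) ^ n * ((A j).size * (M * modelCount φ + ∑ a, (A j).absVal (A j).out a)) := by
    intro j
    obtain ⟨T, hT, hTlen, hval, habs⟩ := ACircuit.decomp (C := A j) (E := max D 4) (hA j)
      (le_max_left _ _) (le_max_right _ _) hD hV2
    set W := ∑ a, (A j).absVal (A j).out a with hW
    have hW0 : 0 ≤ W := Finset.sum_nonneg fun a _ => (A j).absVal_nonneg _ _
    have h1 : ∀ a, indicator φ a * min M |(A j).val (A j).out a|
        ≤ (T.map fun t => indicator φ a * min M |t.1 a|).sum := by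
      intro a
      rw [← list_mul_sum]
      refine mul_le_mul_of_nonneg_left ?_ (hφ0 a)
      refine le_trans ?_ (min_list_sum hM T (fun t => |t.1 a|) fun _ _ => abs_nonneg _)
      refine min_le_min le_rfl ?_
      rw [hval a]
      refine (abs_list_sum_le _ _).trans ?_
      refine List.sum_le_sum fun t ht => ?_
      rw [abs_mul]
      exact mul_le_of_le_one_right (abs_nonneg _) ((hT t ht).2.abs_le a)
    have h2 : ∀ t ∈ T, ∑ a, indicator φ a * min M |t.1 a|
        ≤ (1 / 2) ^ (n + 1) * (M * modelCount φ + W) := by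
      intro t ht
      refine hrect t.1 (hT t ht).1 W ?_
      refine Finset.sum_le_sum fun a _ => ?_
      exact (list_single_le T (fun t => |t.1 a|) (fun _ _ => abs_nonneg _) ht).trans (habs a)
    calc ∑ a, indicator φ a * min M |(A j).val (A j).out a|
        ≤ ∑ a, (T.map fun t => indicator φ a * min M |t.1 a|).sum :=
          Finset.sum_le_sum fun a _ => h1 a
      _ = (T.map fun t => ∑ a, indicator φ a * min M |t.1 a|).sum := sum_list_comm _ _ _
      _ ≤ T.length * ((1 / 2) ^ (n + 1) * (M * modelCount φ + W)) := list_sum_bound _ _ _ h2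
      _ ≤ (2 * (A j).size) * ((1 / 2) ^ (n + 1) * (M * modelCount φ + W)) := by
          refine mul_le_mul_of_nonneg_right (by exact_mod_cast hTlen) (by positivity)
      _ = _ := by rw [pow_succ]; ring
  calc ∑ a, indicator φ a * min M (∑ j, |(A j).val (A j).out a|)
      ≤ ∑ a, ∑ j, indicator φ a * min M |(A j).val (A j).out a| := by
        refine Finset.sum_le_sum fun a _ => ?_
        rw [← Finset.mul_sum]
        exact mul_le_mul_of_nonneg_left
          (min_finset_sum hM _ _ fun _ _ => abs_nonneg _) (hφ0 a)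
    _ = ∑ j, ∑ a, indicator φ a * min M |(A j).val (A j).out a| := Finset.sum_comm
    _ ≤ ∑ j, (1 / 2) ^ n * ((A j).size * (M * modelCount φ + ∑ a, (A j).absVal (A j).out a)) :=
        Finset.sum_le_sum fun j _ => hcirc j
    _ = _ := by rw [Finset.mul_sum]

end Pool.Agent.H548R2
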