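import Mathlib

/-!
Random signs: independence, moments, and anticoncentration on disjoint blocks.
-/

namespace Pool.Agent.H548R2

open Finset

section signs

variable {V : Type} [Fintype V] [DecidableEq V]

/-- Average over all assignments. -/
noncomputable def ex (f : (V → Bool) → ℝ) : ℝ := (∑ σ, f σ) / 2 ^ Fintype.card V

theorem ex_const (c : ℝ) : ex (fun _ : V → Bool => c) = c := by
  unfold ex
  rw [Finset.sum_const, Finset.card_univ, Fintype.card_fun, Fintype.card_bool, nsmul_eq_mul]
  push_cast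
  field_simp

theorem ex_add (f g : (V → Bool) → ℝ) : ex (fun σ => f σ + g σ) = ex f + ex g := by
  unfold ex
  rw [Finset.sum_add_distrib, add_div]

theorem ex_mul_left (c : ℝ) (f : (V → Bool) → ℝ) : ex (fun σ => c * f σ) = c * ex f := by
  unfold ex
  rw [← Finset.mul_sum, mul_div_assoc]

theorem ex_sum {ι : Type} (s : Finset ι) (f : ι → (V → Bool) → ℝ) :
    ex (fun σ => ∑ i ∈ s, f i σ) = ∑ i ∈ s, ex (f i) := by
  unfold ex
  rw [Finset.sum_comm, Finset.sum_div]

theorem ex_mono {f g : (V → Bool) → ℝ} (h : ∀ σ, f σ ≤ g σ) : ex f ≤ ex g := by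
  unfold ex
  exact div_le_div_of_nonneg_right (Finset.sum_le_sum fun σ _ => h σ) (by positivity)

theorem exists_lt_one {f : (V → Bool) → ℝ} (h : ex f < 1) : ∃ σ, f σ < 1 := by
  by_contra hcon
  push Not at hcon
  have := ex_mono hcon
  rw [ex_const] at this
  linarith

theorem ex_mul {f g : (V → Bool) → ℝ} {S T : Finset V} (hST : Disjoint S T)
    (hf : DependsOn f (S : Set V)) (hg : DependsOn g (T : Set V)) :
    ex (fun σ => f σ * g σ) = ex f * ex g := by
  have key : (∑ σ : V → Bool, f σ) * (∑ τ : V → Bool, g τ)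
      = 2 ^ Fintype.card V * ∑ σ, f σ * g σ := by
    rw [Finset.sum_mul_sum]
    let e : ((V → Bool) × (V → Bool)) → ((V → Bool) × (V → Bool)) := fun p =>
      (fun v => if v ∈ T then p.2 v else p.1 v, fun v => if v ∈ T then p.1 v else p.2 v)
    have he : Function.Involutive e := by
      intro p
      refine Prod.ext ?_ ?_ <;> funext v <;> simp only [e] <;> split_ifs <;> rfl
    have h1 : ∑ p : (V → Bool) × (V → Bool), f p.1 * g p.2
        = ∑ p : (V → Bool) × (V → Bool), f p.1 * g p.1 := by
      refine Fintype.sum_bijective e he.bijective _ _ fun p => ?_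
      have e1 : f (e p).1 = f p.1 := hf fun v hv => by
        have : v ∉ T := fun h => (Finset.disjoint_left.mp hST) (Finset.mem_coe.mp hv) h
        simp only [e, if_neg this]
      have e2 : g (e p).1 = g p.2 := hg fun v hv => by
        simp only [e, if_pos (Finset.mem_coe.mp hv)]
      rw [e1, e2]
    rw [Fintype.sum_prod_type] at h1
    rw [h1, Fintype.sum_prod_type]
    simp only [Finset.sum_const, Finset.card_univ, Fintype.card_fun, Fintype.card_bool,
      nsmul_eq_mul]
    rw [Finset.mul_sum]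
    push_cast
    rfl
  have hp : (2 : ℝ) ^ Fintype.card V ≠ 0 := by positivity
  unfold ex
  rw [div_mul_div_comm, key]
  field_simp

/-- The sign of a bit. -/
def sgn (b : Bool) : ℝ := if b then 1 else -1

/-- Sum of the signs over a set of variables. -/
noncomputable def ssum (P : Finset V) (σ : V → Bool) : ℝ := ∑ v ∈ P, sgn (σ v)

theorem ssum_dep (P : Finset V) : DependsOn (ssum P) (P : Set V) := by
  intro a b hab
  unfold ssum
  refine Finset.sum_congr rfl fun v hv => ?_
  rw [hab v (Finset.mem_coe.mpr hv)]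

theorem sgn_dep (v : V) : DependsOn (fun σ : V → Bool => sgn (σ v)) (({v} : Finset V) : Set V) := by
  intro a b hab
  show sgn (a v) = sgn (b v)
  rw [hab v (by simp)]

theorem sgn_sq (b : Bool) : sgn b * sgn b = 1 := by
  unfold sgn
  split_ifs <;> norm_num

theorem ex_sgn (v : V) : ex (fun σ : V → Bool => sgn (σ v)) = 0 := by
  unfold ex
  have h : ∑ σ : V → Bool, sgn (σ v) = 0 := by
    have h1 : ∑ σ : V → Bool, sgn (σ v) = ∑ σ : V → Bool, -sgn (σ v) := by
      let e : (V → Bool) → (V → Bool) := fun σ => Function.update σ v (!σ v)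
      have he : Function.Involutive e := by
        intro σ
        simp only [e, Function.update_self, Bool.not_not, Function.update_idem,
          Function.update_eq_self]
      refine Fintype.sum_bijective e he.bijective _ _ fun σ => ?_
      simp only [e, Function.update_self]
      unfold sgn
      cases σ v <;> simp
    rw [Finset.sum_neg_distrib] at h1
    linarith
  rw [h, zero_div]

theorem ssum_insert {P : Finset V} {v : V} (hv : v ∉ P) (σ : V → Bool) :
    ssum (insert v P) σ = sgn (σ v) + ssum P σ := by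
  unfold ssum
  rw [Finset.sum_insert hv]

theorem dep_comp {f : (V → Bool) → ℝ} {P : Finset V} (h : DependsOn f (P : Set V)) (g : ℝ → ℝ) :
    DependsOn (fun σ => g (f σ)) (P : Set V) := by
  intro a b hab
  show g (f a) = g (f b)
  rw [h hab]

theorem ex_ssum_sq (P : Finset V) : ex (fun σ => ssum P σ ^ 2) = P.card := by
  induction P using Finset.induction_on with
  | empty => simp [ssum, ex_const]
  | insert v P hv ih =>
    have hdis : Disjoint ({v} : Finset V) P := Finset.disjoint_singleton_left.mpr hv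
    have h1 : (fun σ : V → Bool => ssum (insert v P) σ ^ 2)
        = fun σ => 1 + (2 * (sgn (σ v) * ssum P σ) + ssum P σ ^ 2) := by
      funext σ
      rw [ssum_insert hv, ← sgn_sq (σ v)]
      ring
    rw [h1, ex_add, ex_const, ex_add, ex_mul_left, ex_mul hdis (sgn_dep v) (ssum_dep P), ex_sgn,
      ih, Finset.card_insert_of_notMem hv]
    push_cast
    ring

theorem ex_ssum_four (P : Finset V) :
    ex (fun σ => ssum P σ ^ 4) ≤ 3 * (P.card : ℝ) ^ 2 := by
  suffices h : ex (fun σ => ssum P σ ^ 4) = 3 * (P.card : ℝ) ^ 2 - 2 * P.card by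
    rw [h]
    have : (0 : ℝ) ≤ P.card := Nat.cast_nonneg _
    linarith
  induction P using Finset.induction_on with
  | empty => simp [ssum, ex_const]
  | insert v P hv ih =>
    have hdis : Disjoint ({v} : Finset V) P := Finset.disjoint_singleton_left.mpr hv
    have h1 : (fun σ : V → Bool => ssum (insert v P) σ ^ 4)
        = fun σ => 1 + (4 * (sgn (σ v) * ssum P σ) + (6 * ssum P σ ^ 2 +
          (4 * (sgn (σ v) * ssum P σ ^ 3) + ssum P σ ^ 4))) := by
      funext σ
      rw [ssum_insert hv]
      have h2 : sgn (σ v) ^ 2 = 1 := by rw [sq, sgn_sq]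
      have h3 : sgn (σ v) ^ 3 = sgn (σ v) := by rw [pow_succ, h2, one_mul]
      have h4 : sgn (σ v) ^ 4 = 1 := by
        have : sgn (σ v) ^ 4 = (sgn (σ v) ^ 2) ^ 2 := by ring
        rw [this, h2, one_pow]
      have : (sgn (σ v) + ssum P σ) ^ 4 = sgn (σ v) ^ 4 + (4 * (sgn (σ v) ^ 3 * ssum P σ) +
        (6 * (sgn (σ v) ^ 2 * ssum P σ ^ 2) + (4 * (sgn (σ v) * ssum P σ ^ 3)
          + ssum P σ ^ 4))) := by ring
      rw [this, h2, h3, h4, one_mul]
    rw [h1, ex_add, ex_const, ex_add, ex_mul_left, ex_mul hdis (sgn_dep v) (ssum_dep P), ex_sgn,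
      ex_add, ex_mul_left, ex_ssum_sq, ex_add, ex_mul_left,
      ex_mul hdis (sgn_dep v) (dep_comp (ssum_dep P) fun x => x ^ 3), ex_sgn, ih,
      Finset.card_insert_of_notMem hv]
    push_cast
    ring

open Classical in
/-- `1/2` if the block sum is large, and `1` otherwise. -/
noncomputable def half (P : Finset V) (σ : V → Bool) : ℝ :=
  if (P.card : ℝ) ≤ 4 * ssum P σ ^ 2 then 1 / 2 else 1

theorem half_dep (P : Finset V) : DependsOn (half P) (P : Set V) := by
  intro a b hab
  unfold half
  rw [ssum_dep P hab]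

theorem half_pos (P : Finset V) (σ : V → Bool) : 0 ≤ half P σ := by
  unfold half
  split_ifs <;> norm_num

theorem ex_half {P : Finset V} (hP : 1 ≤ P.card) : ex (half P) ≤ 9 / 10 := by
  have hn : (0 : ℝ) < P.card := by exact_mod_cast hP
  set n : ℝ := (P.card : ℝ) with hndef
  have hpt : ∀ σ : V → Bool, half P σ ≤
      (1 + 3 / 40 + 9 / 3200 * 2) + ((-3 / 10 * (1 / n) - 9 / 200 / 2 * (1 / n)) * ssum P σ ^ 2 +
        (9 / 200 * (1 / n ^ 2)) * ssum P σ ^ 4) := by
    intro σ
    set y : ℝ := ssum P σ ^ 2 / n with hy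
    have hy0 : 0 ≤ y := by positivity
    have e1 : ssum P σ ^ 2 = n * y := by rw [hy]; field_simp
    have e2 : ssum P σ ^ 4 = n ^ 2 * y ^ 2 := by
      have : ssum P σ ^ 4 = (ssum P σ ^ 2) ^ 2 := by ring
      rw [this, e1]; ring
    rw [e2, e1]
    have e3 : (1 + 3 / 40 + 9 / 3200 * 2) + ((-3 / 10 * (1 / n) - 9 / 200 / 2 * (1 / n)) * (n * y) +
        (9 / 200 * (1 / n ^ 2)) * (n ^ 2 * y ^ 2))
        = 1 - (3 / 10 * (y - 1 / 4) - 9 / 200 * (y - 1 / 4) ^ 2)
          + (9 / 3200 * 2 - 9 / 200 / 16) := by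
      field_simp
      ring
    rw [e3]
    unfold half
    rw [e1]
    split_ifs with h
    · -- y ≥ 1/4
      nlinarith [sq_nonneg (3 / 10 * (y - 1 / 4) - 1)]
    · -- y < 1/4
      have h2 : 4 * (n * y) < n := not_le.mp h
      have h3 : y < 1 / 4 := by
        by_contra hcon
        have := mul_le_mul_of_nonneg_left (not_lt.mp hcon) hn.le
        linarith
      nlinarith
  refine (ex_mono hpt).trans ?_
  rw [ex_add, ex_const, ex_add, ex_mul_left, ex_mul_left, ex_ssum_sq]
  have h4 := ex_ssum_four P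
  have h5 : (9 / 200 * (1 / n ^ 2)) * ex (fun σ => ssum P σ ^ 4)
      ≤ (9 / 200 * (1 / n ^ 2)) * (3 * n ^ 2) :=
    mul_le_mul_of_nonneg_left h4 (by positivity)
  have h6 : (9 / 200 * (1 / n ^ 2)) * (3 * n ^ 2) = 27 / 200 := by field_simp; norm_num
  have h7 : (-3 / 10 * (1 / n) - 9 / 200 / 2 * (1 / n)) * n = -3 / 10 - 9 / 400 := by
    field_simp; norm_num
  rw [← hndef, h7]
  rw [h6] at h5
  linarith

end signs

end Pool.Agent.H548R2
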