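import Mathlib

/-!
Tree tensor networks and the rank of their restrictions.
-/

namespace Pool.Agent.H548R2

open Finset

/-- A rooted binary tree whose leaves carry sets of variables. -/
inductive VTree (V : Type) : Type
  | leaf (S : Finset V)
  | node (l r : VTree V)

namespace VTree

variable {V : Type} [DecidableEq V]

/-- The variables at the leaves. -/
def vars : VTree V → Finset V
  | .leaf S => S
  | .node l r => l.vars ∪ r.vars

/-- The leaves carry pairwise disjoint sets of at most `b` variables. -/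
def Proper (b : ℕ) : VTree V → Prop
  | .leaf S => S.card ≤ b
  | .node l r => l.Proper b ∧ r.Proper b ∧ Disjoint l.vars r.vars

end VTree

/-- `Net K s T f`: the `s` functions `f i` with values in the field `K` are computed by a tensor
network along the tree `T`: at a leaf they are arbitrary functions of the variables of the leaf,
at an inner node they are bilinear combinations of `s` functions computed along the left subtree
and `s` functions computed along the right subtree. -/
def Net {V : Type} (K : Type) [Field K] (s : ℕ) : VTree V → (Fin s → (V → Bool) → K) → Prop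
  | .leaf S, f => ∀ i, DependsOn (f i) (S : Set V)
  | .node l r, h => ∃ (f g : Fin s → (V → Bool) → K) (M : Fin s → Fin s → Fin s → K),
      Net K s l f ∧ Net K s r g ∧ ∀ i a, h i a = ∑ j, ∑ k, M i j k * (f j a * g k a)

section restrict

variable {V : Type} [DecidableEq V]

/-- The assignment `σ` on the variables in `A ∪ B` and `ρ` elsewhere. -/
def restr (A B : Finset V) (ρ σ : V → Bool) : V → Bool :=
  fun v => if v ∈ A ∪ B then σ v else ρ v

/-- `F` is a combination of `card ι` products of a function of `A` and a function of `B` with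
coefficients depending on `O`. -/
def Form (K : Type) [Field K] (s : ℕ) (A B O : Finset V) (ρ : V → Bool)
    (f : Fin s → (V → Bool) → K) (N : ℕ) : Prop :=
  ∃ (ι : Type) (_ : Fintype ι) (G : Fin s → ι → (V → Bool) → K) (α β : ι → (V → Bool) → K),
    Fintype.card ι ≤ N ∧ (∀ i j, DependsOn (G i j) (O : Set V)) ∧
    (∀ j, DependsOn (α j) (A : Set V)) ∧ (∀ j, DependsOn (β j) (B : Set V)) ∧
    ∀ i σ, f i (restr A B ρ σ) = ∑ j, G i j σ * (α j σ * β j σ)

variable {K : Type} [Field K] {s : ℕ} {A B O : Finset V} {ρ : V → Bool}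

theorem expand_one (A O : Finset V) (G : (V → Bool) → K) (σ : V → Bool) :
    G σ = ∑ U ∈ (A ∩ O).powerset, (if ∀ v ∈ A ∩ O, (σ v = true ↔ v ∈ U) then (1 : K) else 0) *
      G (fun v => if v ∈ A ∩ O then decide (v ∈ U) else σ v) := by
  classical
  set U0 := (A ∩ O).filter (fun v => σ v = true) with hU0
  rw [Finset.sum_eq_single_of_mem U0 (Finset.mem_powerset.mpr (Finset.filter_subset _ _))]
  · rw [if_pos]
    · rw [one_mul]
      refine congrArg G ?_
      funext v
      split_ifs with h
      · by_cases hv : σ v = true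
        · have : v ∈ U0 := Finset.mem_filter.mpr ⟨h, hv⟩
          simp [this, hv]
        · have : v ∉ U0 := fun h' => hv (Finset.mem_filter.mp h').2
          simp only [this, decide_false]
          simpa using hv
      · rfl
    · intro v hv
      rw [hU0, Finset.mem_filter]
      exact ⟨fun h => ⟨hv, h⟩, fun h => h.2⟩
  · intro U hU hne
    rw [if_neg, zero_mul]
    intro hcon
    apply hne
    ext v
    rw [hU0, Finset.mem_filter]
    constructor
    · intro hv
      have hvO := (Finset.mem_powerset.mp hU) hv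
      exact ⟨hvO, (hcon v hvO).mpr hv⟩
    · rintro ⟨hv, hσ⟩
      exact (hcon v hv).mp hσ

/-- Closing the open piece, expanding over the variables in `A ∩ O`. -/
theorem Form.close_left {f : Fin s → (V → Bool) → K} {N : ℕ}
    (hO : O ⊆ A ∪ B) (h : Form K s A B O ρ f N) :
    Form K s A B ∅ ρ f (s * 2 ^ (A ∩ O).card * N) := by
  classical
  obtain ⟨ι, _, G, α, β, h1, h2, h3, h4, h5⟩ := h
  refine ⟨Fin s × ((A ∩ O).powerset : Finset (Finset V)) × ι, inferInstance,
    fun i x _ => if i = x.1 then 1 else 0,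
    fun x σ => (if ∀ v ∈ A ∩ O, (σ v = true ↔ v ∈ x.2.1.1) then (1 : K) else 0) * α x.2.2 σ,
    fun x σ => G x.1 x.2.2 (fun v => if v ∈ A ∩ O then decide (v ∈ x.2.1.1) else σ v)
      * β x.2.2 σ, ?_, ?_, ?_, ?_, ?_⟩
  · rw [Fintype.card_prod, Fintype.card_prod, Fintype.card_fin, Fintype.card_coe,
      Finset.card_powerset, mul_assoc]
    exact Nat.mul_le_mul_left _ (Nat.mul_le_mul_left _ h1)
  · intro i x a b _
    rfl
  · intro x a b hab
    show _ * _ = _ * _
    rw [h3 x.2.2 hab]
    congr 1
    have : (∀ v ∈ A ∩ O, (a v = true ↔ v ∈ x.2.1.1)) ↔ ∀ v ∈ A ∩ O, (b v = true ↔ v ∈ x.2.1.1) := by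
      refine forall₂_congr fun v hv => ?_
      rw [hab v (Finset.mem_coe.mpr (Finset.mem_inter.mp hv).1)]
    simp only [this]
  · intro x a b hab
    show _ * _ = _ * _
    rw [h4 x.2.2 hab]
    congr 1
    refine h2 x.1 x.2.2 fun v hv => ?_
    by_cases hvA : v ∈ A ∩ O
    · simp only [if_pos hvA]
    · simp only [if_neg hvA]
      have hvO : v ∈ O := Finset.mem_coe.mp hv
      rcases Finset.mem_union.mp (hO hvO) with h | h
      · exact absurd (Finset.mem_inter.mpr ⟨h, hvO⟩) hvA
      · exact hab v (Finset.mem_coe.mpr h)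
  · intro i σ
    rw [h5, Fintype.sum_prod_type, Finset.sum_eq_single_of_mem i (Finset.mem_univ _)]
    · rw [Fintype.sum_prod_type, Finset.sum_comm]
      refine Finset.sum_congr rfl fun j _ => ?_
      rw [expand_one A O (G i j) σ, Finset.sum_mul,
        ← Finset.sum_coe_sort (A ∩ O).powerset]
      refine Finset.sum_congr rfl fun U _ => ?_
      simp only [if_true]
      ring
    · intro i' _ hne
      refine Finset.sum_eq_zero fun x _ => ?_
      simp only [if_neg (Ne.symm hne), zero_mul]

theorem Form.swap {f : Fin s → (V → Bool) → K} {N : ℕ} (h : Form K s A B O ρ f N) :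
    Form K s B A O ρ f N := by
  obtain ⟨ι, i1, G, α, β, h1, h2, h3, h4, h5⟩ := h
  refine ⟨ι, i1, G, β, α, h1, h2, h4, h3, fun i σ => ?_⟩
  have : restr B A ρ σ = restr A B ρ σ := by
    unfold restr
    rw [Finset.union_comm]
  rw [this, h5]
  exact Finset.sum_congr rfl fun j _ => by rw [mul_comm (β j σ)]

theorem Form.close {f : Fin s → (V → Bool) → K} {N : ℕ}
    (hO : O ⊆ A ∪ B) (h : Form K s A B O ρ f N) :
    Form K s A B ∅ ρ f (s * 2 ^ (min (A ∩ O).card (B ∩ O).card) * N) := by
  rcases le_total (A ∩ O).card (B ∩ O).card with hle | hle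
  · rw [min_eq_left hle]
    exact h.close_left hO
  · rw [min_eq_right hle]
    exact (h.swap.close_left (by rwa [Finset.union_comm])).swap

theorem Form.node {O₁ O₂ : Finset V} {f g h : Fin s → (V → Bool) → K} {N₁ N₂ : ℕ}
    (M : Fin s → Fin s → Fin s → K)
    (hh : ∀ i a, h i a = ∑ j, ∑ k, M i j k * (f j a * g k a))
    (hf : Form K s A B O₁ ρ f N₁) (hg : Form K s A B O₂ ρ g N₂) :
    Form K s A B (O₁ ∪ O₂) ρ h (N₁ * N₂) := by
  classical
  obtain ⟨ι, _, G, α, β, h1, h2, h3, h4, h5⟩ := hf
  obtain ⟨ι', _, G', α', β', h1', h2', h3', h4', h5'⟩ := hg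
  refine ⟨ι × ι', inferInstance,
    fun i x σ => ∑ j, ∑ k, M i j k * (G j x.1 σ * G' k x.2 σ),
    fun x σ => α x.1 σ * α' x.2 σ, fun x σ => β x.1 σ * β' x.2 σ, ?_, ?_, ?_, ?_, ?_⟩
  · rw [Fintype.card_prod]
    exact Nat.mul_le_mul h1 h1'
  · intro i x a b hab
    show (∑ j, ∑ k, M i j k * (G j x.1 a * G' k x.2 a))
      = ∑ j, ∑ k, M i j k * (G j x.1 b * G' k x.2 b)
    refine Finset.sum_congr rfl fun j _ => Finset.sum_congr rfl fun k _ => ?_
    rw [h2 j x.1 (fun v hv => hab v (by
        rw [Finset.coe_union]; exact Or.inl hv)),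
      h2' k x.2 (fun v hv => hab v (by
        rw [Finset.coe_union]; exact Or.inr hv))]
  · intro x a b hab
    show _ * _ = _ * _
    rw [h3 x.1 hab, h3' x.2 hab]
  · intro x a b hab
    show _ * _ = _ * _
    rw [h4 x.1 hab, h4' x.2 hab]
  · intro i σ
    rw [hh]
    simp only [h5, h5']
    rw [Fintype.sum_prod_type]
    simp only [Finset.mul_sum, Finset.sum_mul]
    -- reorder the four sums
    calc ∑ j, ∑ k, ∑ y, ∑ x, M i j k *
          (G j x σ * (α x σ * β x σ) * (G' k y σ * (α' y σ * β' y σ)))
        = ∑ j, ∑ k, ∑ x, ∑ y, M i j k *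
          (G j x σ * (α x σ * β x σ) * (G' k y σ * (α' y σ * β' y σ))) :=
          Finset.sum_congr rfl fun j _ => Finset.sum_congr rfl fun k _ => Finset.sum_comm
      _ = ∑ j, ∑ x, ∑ k, ∑ y, M i j k *
          (G j x σ * (α x σ * β x σ) * (G' k y σ * (α' y σ * β' y σ))) :=
          Finset.sum_congr rfl fun j _ => Finset.sum_comm
      _ = ∑ j, ∑ x, ∑ y, ∑ k, M i j k *
          (G j x σ * (α x σ * β x σ) * (G' k y σ * (α' y σ * β' y σ))) :=
          Finset.sum_congr rfl fun j _ => Finset.sum_congr rfl fun x _ => Finset.sum_comm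
      _ = ∑ x, ∑ j, ∑ y, ∑ k, M i j k *
          (G j x σ * (α x σ * β x σ) * (G' k y σ * (α' y σ * β' y σ))) := Finset.sum_comm
      _ = ∑ x, ∑ y, ∑ j, ∑ k, M i j k *
          (G j x σ * (α x σ * β x σ) * (G' k y σ * (α' y σ * β' y σ))) :=
          Finset.sum_congr rfl fun x _ => Finset.sum_comm
      _ = _ := by
          refine Finset.sum_congr rfl fun x _ => Finset.sum_congr rfl fun y _ =>
            Finset.sum_congr rfl fun j _ => Finset.sum_congr rfl fun k _ => ?_
          ring

theorem Form.leaf {S X : Finset V} {f : Fin s → (V → Bool) → K}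
    (hf : ∀ i, DependsOn (f i) (S : Set V)) (hX : A ∪ B ⊆ X) :
    Form K s A B ((S ∩ X) ∩ (A ∪ B)) ρ f 1 := by
  refine ⟨Unit, inferInstance, fun i _ σ => f i (restr A B ρ σ), fun _ _ => 1, fun _ _ => 1,
    by simp, ?_, fun _ _ _ _ => rfl, fun _ _ _ _ => rfl, ?_⟩
  · intro i _ a b hab
    refine hf i fun v hv => ?_
    unfold restr
    split_ifs with h
    · refine hab v (Finset.mem_coe.mpr ?_)
      exact Finset.mem_inter.mpr ⟨Finset.mem_inter.mpr ⟨Finset.mem_coe.mp hv, hX h⟩, h⟩
    · rfl
  · intro i σ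
    simp

theorem Form.mono {O' : Finset V} {f : Fin s → (V → Bool) → K} {N N' : ℕ}
    (h : Form K s A B O ρ f N) (hO : O ⊆ O') (hN : N ≤ N') : Form K s A B O' ρ f N' := by
  obtain ⟨ι, i1, G, α, β, h1, h2, h3, h4, h5⟩ := h
  refine ⟨ι, i1, G, α, β, h1.trans hN, fun i j a b hab => h2 i j fun v hv => hab v ?_, h3, h4, h5⟩
  exact Finset.mem_coe.mpr (hO (Finset.mem_coe.mp hv))

/-- The weight of a list of closed pieces. -/
def wt (A B : Finset V) (L : List (Finset V)) : ℕ :=
  (L.map fun P => min (A ∩ P).card (B ∩ P).card).sum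

/-- Decomposition of a tree into pieces of bounded size and the resulting representation of all
networks along it. -/
theorem pieces (θ b : ℕ) (X : Finset V) (hb : b < θ) : ∀ T : VTree V, T.Proper b →
    ∃ (L : List (Finset V)) (O : Finset V), O.card < θ ∧
      (∀ P ∈ L, θ ≤ P.card ∧ P.card < 2 * θ) ∧ O ⊆ T.vars ∩ X ∧ (∀ P ∈ L, P ⊆ T.vars ∩ X) ∧
      L.Pairwise Disjoint ∧ (∀ P ∈ L, Disjoint P O) ∧
      O.card + (L.map Finset.card).sum = (T.vars ∩ X).card ∧
      ∀ (K : Type) (_ : Field K) (s : ℕ) (f : Fin s → (V → Bool) → K), Net K s T f →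
        ∀ (A B : Finset V) (ρ : V → Bool), A ∪ B ⊆ X →
          Form K s A B (O ∩ (A ∪ B)) ρ f (s ^ L.length * 2 ^ wt A B L) := by
  intro T
  induction T with
  | leaf S =>
    intro hT
    refine ⟨[], S ∩ X, ?_, ?_, ?_, ?_, List.Pairwise.nil, ?_, ?_, ?_⟩
    · exact lt_of_le_of_lt ((Finset.card_le_card Finset.inter_subset_left).trans hT) hb
    · intro P hP; simp at hP
    · exact subset_rfl
    · intro P hP; simp at hP
    · intro P hP; simp at hP
    · simp [VTree.vars]
    · intro K _ s f hf A B ρ hX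
      have := Form.leaf (K := K) (ρ := ρ) (X := X) (hf : ∀ i, DependsOn (f i) (S : Set V)) hX
      simpa [wt] using this
  | node l r ihl ihr =>
    intro hT
    obtain ⟨hl, hr, hdis⟩ := hT
    obtain ⟨L1, O1, a1, a2, a3, a4, a5, a6, a7, a8⟩ := ihl hl
    obtain ⟨L2, O2, b1, b2, b3, b4, b5, b6, b7, b8⟩ := ihr hr
    have hdisX : Disjoint (l.vars ∩ X) (r.vars ∩ X) :=
      Disjoint.mono Finset.inter_subset_left Finset.inter_subset_left hdis
    have hvars : (VTree.node l r).vars ∩ X = (l.vars ∩ X) ∪ (r.vars ∩ X) := by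
      simp only [VTree.vars, Finset.union_inter_distrib_right]
    have hOO : Disjoint O1 O2 := Disjoint.mono a3 b3 hdisX
    have hcO : (O1 ∪ O2).card = O1.card + O2.card := Finset.card_union_of_disjoint hOO
    have hcX : ((VTree.node l r).vars ∩ X).card = (l.vars ∩ X).card + (r.vars ∩ X).card := by
      rw [hvars, Finset.card_union_of_disjoint hdisX]
    have hmemL : ∀ P ∈ L1 ++ L2, θ ≤ P.card ∧ P.card < 2 * θ := by
      intro P hP
      rcases List.mem_append.mp hP with h | h
      · exact a2 P h
      · exact b2 P h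
    have hsubL : ∀ P ∈ L1 ++ L2, P ⊆ (VTree.node l r).vars ∩ X := by
      intro P hP
      rw [hvars]
      rcases List.mem_append.mp hP with h | h
      · exact (a4 P h).trans Finset.subset_union_left
      · exact (b4 P h).trans Finset.subset_union_right
    have hpair : (L1 ++ L2).Pairwise Disjoint := by
      rw [List.pairwise_append]
      exact ⟨a5, b5, fun P hP Q hQ => Disjoint.mono (a4 P hP) (b4 Q hQ) hdisX⟩
    have hLO : ∀ P ∈ L1 ++ L2, Disjoint P (O1 ∪ O2) := by
      intro P hP
      rw [Finset.disjoint_union_right]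
      rcases List.mem_append.mp hP with h | h
      · exact ⟨a6 P h, Disjoint.mono (a4 P h) b3 hdisX⟩
      · exact ⟨Disjoint.mono (b4 P h) a3 hdisX.symm, b6 P h⟩
    have hOsub : O1 ∪ O2 ⊆ (VTree.node l r).vars ∩ X := by
      rw [hvars]
      exact Finset.union_subset_union a3 b3
    have hsum : (O1 ∪ O2).card + ((L1 ++ L2).map Finset.card).sum
        = ((VTree.node l r).vars ∩ X).card := by
      rw [List.map_append, List.sum_append, hcO, hcX]
      omega
    have hform : ∀ (K : Type) (_ : Field K) (s : ℕ) (f : Fin s → (V → Bool) → K),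
        Net K s (VTree.node l r) f → ∀ (A B : Finset V) (ρ : V → Bool), A ∪ B ⊆ X →
          Form K s A B ((O1 ∪ O2) ∩ (A ∪ B)) ρ f (s ^ (L1 ++ L2).length * 2 ^ wt A B (L1 ++ L2)) := by
      intro K _ s h hnet A B ρ hX
      obtain ⟨f, g, M, hf, hg, hh⟩ := hnet
      have := Form.node M hh (a8 K _ s f hf A B ρ hX) (b8 K _ s g hg A B ρ hX)
      rw [← Finset.union_inter_distrib_right] at this
      refine this.mono subset_rfl (le_of_eq ?_)
      have e : wt A B (L1 ++ L2) = wt A B L1 + wt A B L2 := by
        unfold wt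
        rw [List.map_append, List.sum_append]
      rw [e, List.length_append, pow_add, pow_add]
      ring
    by_cases hsmall : (O1 ∪ O2).card < θ
    · exact ⟨L1 ++ L2, O1 ∪ O2, hsmall, hmemL, hOsub, hsubL, hpair, hLO, hsum, hform⟩
    · refine ⟨(O1 ∪ O2) :: (L1 ++ L2), ∅, by rw [Finset.card_empty]; omega, ?_,
        Finset.empty_subset _, ?_, ?_, fun P _ => Finset.disjoint_empty_right P, ?_, ?_⟩
      · intro P hP
        rcases List.mem_cons.mp hP with rfl | h
        · exact ⟨not_lt.mp hsmall, by rw [hcO]; omega⟩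
        · exact hmemL P h
      · intro P hP
        rcases List.mem_cons.mp hP with rfl | h
        · exact hOsub
        · exact hsubL P h
      · rw [List.pairwise_cons]
        exact ⟨fun P hP => (hLO P hP).symm, hpair⟩
      · rw [List.map_cons, List.sum_cons, Finset.card_empty, zero_add]
        exact hsum
      · intro K _ s f hnet A B ρ hX
        have h1 := (hform K _ s f hnet A B ρ hX).close Finset.inter_subset_right
        refine h1.mono (Finset.empty_subset _) (le_of_eq ?_)
        have e1 : A ∩ ((O1 ∪ O2) ∩ (A ∪ B)) = A ∩ (O1 ∪ O2) := by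
          ext v
          simp only [Finset.mem_inter, Finset.mem_union]
          tauto
        have e2 : B ∩ ((O1 ∪ O2) ∩ (A ∪ B)) = B ∩ (O1 ∪ O2) := by
          ext v
          simp only [Finset.mem_inter, Finset.mem_union]
          tauto
        have e3 : wt A B ((O1 ∪ O2) :: (L1 ++ L2))
            = min (A ∩ (O1 ∪ O2)).card (B ∩ (O1 ∪ O2)).card + wt A B (L1 ++ L2) := by
          unfold wt
          rw [List.map_cons, List.sum_cons]
        rw [e1, e2, e3, List.length_cons, pow_succ, pow_add]
        ring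

end restrict

end Pool.Agent.H548R2
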