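import Pool.Agent.H548R2.Signs
import Pool.Agent.H548R2.Tensor

/-!
One random partition is unbalanced on many pieces of every tree.
-/

namespace Pool.Agent.H548R2

open Finset

section tail

variable {V : Type} [Fintype V] [DecidableEq V]

theorem ex_prod_half : ∀ L : List (Finset V), L.Pairwise Disjoint → (∀ P ∈ L, 1 ≤ P.card) →
    ex (fun σ => (L.map fun P => half P σ).prod) ≤ (9 / 10) ^ L.length := by
  intro L
  induction L with
  | nil =>
    intro _ _
    simp [ex_const]
  | cons P L ih =>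
    intro hp hc
    rw [List.pairwise_cons] at hp
    have h1 := ih hp.2 fun Q hQ => hc Q (List.mem_cons_of_mem _ hQ)
    have h2 := ex_half (hc P List.mem_cons_self)
    have hdep : DependsOn (fun σ => (L.map fun Q => half Q σ).prod) ((Pᶜ : Finset V) : Set V) := by
      intro a b hab
      show (L.map fun Q => half Q a).prod = (L.map fun Q => half Q b).prod
      congr 1
      refine List.map_congr_left fun Q hQ => ?_
      refine half_dep Q fun v hv => hab v ?_
      rw [Finset.mem_coe, Finset.mem_compl]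
      exact fun hvP => (Finset.disjoint_left.mp (hp.1 Q hQ)) hvP (Finset.mem_coe.mp hv)
    have e : (fun σ => ((P :: L).map fun Q => half Q σ).prod)
        = fun σ => half P σ * (L.map fun Q => half Q σ).prod := by
      funext σ
      rw [List.map_cons, List.prod_cons]
    rw [e, ex_mul disjoint_compl_right (half_dep P) hdep, List.length_cons, pow_succ, mul_comm]
    refine mul_le_mul h1 h2 ?_ (by positivity)
    have := ex_mono (f := fun _ => 0) (g := half P) fun σ => half_pos P σ
    rwa [ex_const] at this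

open Classical in
/-- Number of pieces with a large sum of signs. -/
noncomputable def cnt (L : List (Finset V)) (σ : V → Bool) : ℕ :=
  (L.map fun P : Finset V => if (P.card : ℝ) ≤ 4 * ssum P σ ^ 2 then 1 else 0).sum

theorem prod_half_eq (L : List (Finset V)) (σ : V → Bool) :
    (L.map fun P => half P σ).prod = (1 / 2) ^ cnt L σ := by
  unfold cnt
  induction L with
  | nil => simp
  | cons P L ih =>
    rw [List.map_cons, List.prod_cons, List.map_cons, List.sum_cons, ih, pow_add]
    congr 1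
    unfold half
    split_ifs <;> simp

/-- The variables of `X` on side `b` of the partition given by `σ`. -/
def side (X : Finset V) (σ : V → Bool) (b : Bool) : Finset V := X.filter fun v => σ v = b

theorem side_card {X P : Finset V} (hP : P ⊆ X) (σ : V → Bool) :
    (side X σ true ∩ P).card + (side X σ false ∩ P).card = P.card := by
  have e1 : side X σ true ∩ P = P.filter fun v => σ v = true := by
    ext v
    simp only [side, Finset.mem_inter, Finset.mem_filter]
    constructor
    · rintro ⟨⟨_, h⟩, h'⟩; exact ⟨h', h⟩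
    · rintro ⟨h, h'⟩; exact ⟨⟨hP h, h'⟩, h⟩
  have e2 : side X σ false ∩ P = P.filter fun v => ¬ σ v = true := by
    ext v
    simp only [side, Finset.mem_inter, Finset.mem_filter, Bool.not_eq_true]
    constructor
    · rintro ⟨⟨_, h⟩, h'⟩; exact ⟨h', h⟩
    · rintro ⟨h, h'⟩; exact ⟨⟨hP h, h'⟩, h⟩
  rw [e1, e2, Finset.card_filter_add_card_filter_not]

theorem side_ssum {X P : Finset V} (hP : P ⊆ X) (σ : V → Bool) :
    ssum P σ = ((side X σ true ∩ P).card : ℝ) - ((side X σ false ∩ P).card : ℝ) := by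
  have e1 : side X σ true ∩ P = P.filter fun v => σ v = true := by
    ext v
    simp only [side, Finset.mem_inter, Finset.mem_filter]
    constructor
    · rintro ⟨⟨_, h⟩, h'⟩; exact ⟨h', h⟩
    · rintro ⟨h, h'⟩; exact ⟨⟨hP h, h'⟩, h⟩
  have e2 : side X σ false ∩ P = P.filter fun v => ¬ σ v = true := by
    ext v
    simp only [side, Finset.mem_inter, Finset.mem_filter, Bool.not_eq_true]
    constructor
    · rintro ⟨⟨_, h⟩, h'⟩; exact ⟨h', h⟩
    · rintro ⟨h, h'⟩; exact ⟨⟨hP h, h'⟩, h⟩
  rw [e1, e2]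
  unfold ssum
  rw [← Finset.sum_filter_add_sum_filter_not P (fun v => σ v = true)]
  have h1 : ∑ v ∈ P.filter (fun v => σ v = true), sgn (σ v)
      = ((P.filter fun v => σ v = true).card : ℝ) := by
    rw [Finset.sum_congr rfl (g := fun _ => (1 : ℝ)), Finset.sum_const, nsmul_eq_mul, mul_one]
    intro v hv
    simp [sgn, (Finset.mem_filter.mp hv).2]
  have h2 : ∑ v ∈ P.filter (fun v => ¬ σ v = true), sgn (σ v)
      = -((P.filter fun v => ¬ σ v = true).card : ℝ) := by
    rw [Finset.sum_congr rfl (g := fun _ => (-1 : ℝ)), Finset.sum_const, nsmul_eq_mul, mul_neg,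
      mul_one]
    intro v hv
    simp [sgn, (Finset.mem_filter.mp hv).2]
  rw [h1, h2]
  ring

theorem min_bound {X P : Finset V} (hP : P ⊆ X) (σ : V → Bool) {b0 : ℕ} (hb : b0 ^ 2 ≤ P.card)
    (hg : (P.card : ℝ) ≤ 4 * ssum P σ ^ 2) :
    4 * min (side X σ true ∩ P).card (side X σ false ∩ P).card + b0 ≤ 2 * P.card := by
  have h1 := side_card hP σ
  have h2 := side_ssum hP σ
  set x := (side X σ true ∩ P).card
  set y := (side X σ false ∩ P).card
  have h3 : ((b0 : ℝ)) ^ 2 ≤ (2 * ((x : ℝ) - y)) ^ 2 := by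
    rw [← h2]
    have : ((b0 ^ 2 : ℕ) : ℝ) ≤ P.card := by exact_mod_cast hb
    push_cast at this
    nlinarith
  have h4 : (b0 : ℝ) ≤ |2 * ((x : ℝ) - y)| := by
    have := Real.sqrt_le_sqrt h3
    rwa [Real.sqrt_sq (Nat.cast_nonneg _), Real.sqrt_sq_eq_abs] at this
  rcases le_total x y with hle | hle
  · rw [min_eq_left hle]
    have h5 : (x : ℝ) ≤ y := by exact_mod_cast hle
    rw [abs_of_nonpos (by linarith)] at h4
    have h6 : (b0 : ℝ) + 2 * x ≤ 2 * y := by linarith
    have h7 : b0 + 2 * x ≤ 2 * y := by exact_mod_cast h6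
    omega
  · rw [min_eq_right hle]
    have h5 : (y : ℝ) ≤ x := by exact_mod_cast hle
    rw [abs_of_nonneg (by linarith)] at h4
    have h6 : (b0 : ℝ) + 2 * y ≤ 2 * x := by linarith
    have h7 : b0 + 2 * y ≤ 2 * x := by exact_mod_cast h6
    omega

theorem wt_bound {X : Finset V} (σ : V → Bool) (b0 : ℕ) : ∀ L : List (Finset V),
    (∀ P ∈ L, P ⊆ X ∧ b0 ^ 2 ≤ P.card) →
    4 * wt (side X σ true) (side X σ false) L + b0 * cnt L σ ≤ 2 * (L.map Finset.card).sum := by
  intro L
  induction L with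
  | nil =>
    intro _
    simp [wt, cnt]
  | cons P L ih =>
    intro h
    have h1 := ih fun Q hQ => h Q (List.mem_cons_of_mem _ hQ)
    obtain ⟨h2, h3⟩ := h P List.mem_cons_self
    unfold wt cnt at *
    rw [List.map_cons, List.sum_cons, List.map_cons, List.sum_cons, List.map_cons, List.sum_cons]
    by_cases hg : (P.card : ℝ) ≤ 4 * ssum P σ ^ 2
    · have h4 := min_bound h2 σ h3 hg
      rw [if_pos hg]
      nlinarith
    · rw [if_neg hg]
      have h4 := side_card h2 σ
      have h5 : 2 * min (side X σ true ∩ P).card (side X σ false ∩ P).card ≤ P.card := by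
        rw [← h4]
        rcases le_total (side X σ true ∩ P).card (side X σ false ∩ P).card with hle | hle
        · rw [min_eq_left hle]; omega
        · rw [min_eq_right hle]; omega
      nlinarith

theorem ex_indicator_le (Bad : Finset (V → Bool)) (h : 8 * Bad.card ≤ 2 ^ Fintype.card V) :
    ex (fun σ => if σ ∈ Bad then (1 : ℝ) else 0) ≤ 1 / 8 := by
  unfold ex
  rw [Finset.sum_ite_mem, Finset.univ_inter, Finset.sum_const, nsmul_eq_mul, mul_one,
    div_le_div_iff₀ (by positivity) (by norm_num)]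
  have : ((8 * Bad.card : ℕ) : ℝ) ≤ ((2 ^ Fintype.card V : ℕ) : ℝ) := by exact_mod_cast h
  push_cast at this
  linarith

theorem exists_signs (X : Finset V) (hX : 1 ≤ X.card) {J : Type} [Fintype J]
    (L : J → List (Finset V)) (b0 q h' : ℕ) (hb0 : 1 ≤ b0)
    (hpair : ∀ j, (L j).Pairwise Disjoint)
    (hP : ∀ j, ∀ P ∈ L j, P ⊆ X ∧ b0 ^ 2 ≤ P.card) (hq : ∀ j, q ≤ (L j).length)
    (hJ : (Fintype.card J : ℝ) * (2 ^ h' * (9 / 10) ^ q) ≤ 1 / 2)
    (Bad : Finset (V → Bool)) (hBad : 8 * Bad.card ≤ 2 ^ Fintype.card V) :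
    ∃ σ : V → Bool, σ ∉ Bad ∧ ssum X σ ^ 2 < 4 * X.card ∧ ∀ j,
      4 * wt (side X σ true) (side X σ false) (L j) + b0 * h' ≤ 2 * ((L j).map Finset.card).sum := by
  have hXr : (0 : ℝ) < X.card := by exact_mod_cast hX
  set f : (V → Bool) → ℝ := fun σ => (∑ j, 2 ^ h' * ((L j).map fun P => half P σ).prod) +
    (1 / (4 * X.card) * ssum X σ ^ 2 + if σ ∈ Bad then (1 : ℝ) else 0) with hf
  have hprodpos : ∀ j σ, 0 ≤ ((L j).map fun P => half P σ).prod := by
    intro j σ
    rw [prod_half_eq]
    positivity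
  have hex : ex f < 1 := by
    have e1 : ex f = (∑ j, 2 ^ h' * ex (fun σ => ((L j).map fun P => half P σ).prod)) +
        (1 / (4 * X.card) * X.card + ex (fun σ => if σ ∈ Bad then (1 : ℝ) else 0)) := by
      rw [hf, ex_add, ex_sum, ex_add, ex_mul_left, ex_ssum_sq]
      congr 1
      refine Finset.sum_congr rfl fun j _ => ?_
      rw [ex_mul_left]
    have e2 : ∑ j, (2 : ℝ) ^ h' * ex (fun σ => ((L j).map fun P => half P σ).prod)
        ≤ (Fintype.card J : ℝ) * (2 ^ h' * (9 / 10) ^ q) := by
      rw [← nsmul_eq_mul, ← Finset.card_univ, ← Finset.sum_const]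
      refine Finset.sum_le_sum fun j _ => mul_le_mul_of_nonneg_left ?_ (by positivity)
      refine (ex_prod_half (L j) (hpair j) fun P hPL => ?_).trans ?_
      · have := (hP j P hPL).2
        nlinarith
      · exact pow_le_pow_of_le_one (by norm_num) (by norm_num) (hq j)
    rw [e1]
    have e3 : 1 / (4 * (X.card : ℝ)) * X.card = 1 / 4 := by field_simp
    have e4 := ex_indicator_le Bad hBad
    rw [e3]
    linarith
  obtain ⟨σ, hσ⟩ := exists_lt_one hex
  have hsum : 0 ≤ ∑ j, (2 : ℝ) ^ h' * ((L j).map fun P => half P σ).prod :=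
    Finset.sum_nonneg fun j _ => mul_nonneg (by positivity) (hprodpos j σ)
  have hsq : 0 ≤ 1 / (4 * (X.card : ℝ)) * ssum X σ ^ 2 := by positivity
  have hind : (0 : ℝ) ≤ if σ ∈ Bad then (1 : ℝ) else 0 := by split_ifs <;> norm_num
  simp only [hf] at hσ
  refine ⟨σ, ?_, ?_, fun j => ?_⟩
  · intro hcon
    rw [if_pos hcon] at hσ
    linarith
  · have h1 : 1 / (4 * (X.card : ℝ)) * ssum X σ ^ 2 < 1 := by linarith
    rw [one_div, inv_mul_lt_iff₀ (by positivity)] at h1
    linarith
  · have h1 : (2 : ℝ) ^ h' * ((L j).map fun P => half P σ).prod < 1 := by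
      have h2 : (2 : ℝ) ^ h' * ((L j).map fun P => half P σ).prod
          ≤ ∑ j, (2 : ℝ) ^ h' * ((L j).map fun P => half P σ).prod :=
        Finset.single_le_sum (f := fun j => (2 : ℝ) ^ h' * ((L j).map fun P => half P σ).prod)
          (fun j _ => mul_nonneg (by positivity) (hprodpos j σ)) (Finset.mem_univ j)
      linarith
    rw [prod_half_eq] at h1
    have h2 : h' < cnt (L j) σ := by
      by_contra hcon
      have h3 : (1 / 2 : ℝ) ^ h' ≤ (1 / 2) ^ cnt (L j) σ :=
        pow_le_pow_of_le_one (by norm_num) (by norm_num) (not_lt.mp hcon)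
      have h4 : (2 : ℝ) ^ h' * (1 / 2) ^ h' = 1 := by
        rw [← mul_pow]; norm_num
      have h5 : (2 : ℝ) ^ h' * (1 / 2) ^ h' ≤ 2 ^ h' * (1 / 2) ^ cnt (L j) σ :=
        mul_le_mul_of_nonneg_left h3 (by positivity)
      linarith
    have h3 := wt_bound (X := X) σ b0 (L j) (hP j)
    have h4 : b0 * h' ≤ b0 * cnt (L j) σ := Nat.mul_le_mul_left _ h2.le
    omega

end tail

end Pool.Agent.H548R2
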