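import Pool.Agent.H548R2.Tail
import Pool.Agent.H548R2.Graph3
import Pool.Agent.H548R2.Cnf

/-!
Sums of tree tensor networks along different trees need large bond dimension.
-/

namespace Pool.Agent.H548R2

open Finset

section rank

variable {V : Type} [DecidableEq V] {K : Type} [Field K]

/-- The assignment with `u p = (p ∈ S)` and `v p = (p ∉ T)`. -/
noncomputable def asg {μ : ℕ} (A : Finset V) (u v : Fin μ → V) (S T : Finset (Fin μ)) : V → Bool :=
  open Classical in
  fun x => if x ∈ A then decide (∃ p ∈ S, u p = x) else decide (¬ ∃ p ∈ T, v p = x)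

theorem rank_lower {ι : Type} [Fintype ι] (μ : ℕ)
    (u v : Fin μ → V) (hu : Function.Injective u) (hv : Function.Injective v) (A B : Finset V)
    (hAB : Disjoint A B) (huA : ∀ p, u p ∈ A) (hvB : ∀ p, v p ∈ B)
    (α β : ι → (V → Bool) → K) (hα : ∀ j, DependsOn (α j) (A : Set V))
    (hβ : ∀ j, DependsOn (β j) (B : Set V))
    (hF : ∀ σ, (∑ j, α j σ * β j σ ≠ 0) ↔ ∀ p, σ (u p) = true ∨ σ (v p) = true) :
    2 ^ μ ≤ Fintype.card ι := by
  classical
  have hvA : ∀ p, v p ∉ A := fun p h => (Finset.disjoint_left.mp hAB) h (hvB p)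
  have e1 : ∀ S T p, asg A u v S T (u p) = decide (p ∈ S) := by
    intro S T p
    unfold asg
    rw [if_pos (huA p)]
    congr 1
    apply propext
    constructor
    · rintro ⟨q, hq, hqp⟩; rwa [← hu hqp]
    · intro h; exact ⟨p, h, rfl⟩
  have e2 : ∀ S T p, asg A u v S T (v p) = decide (p ∉ T) := by
    intro S T p
    unfold asg
    rw [if_neg (hvA p)]
    congr 1
    apply propext
    rw [not_iff_not]
    constructor
    · rintro ⟨q, hq, hqp⟩; rwa [← hv hqp]
    · intro h; exact ⟨p, h, rfl⟩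
  have hval : ∀ S T : Finset (Fin μ),
      (∑ j, α j (asg A u v S ∅) * β j (asg A u v ∅ T) ≠ 0) ↔ T ⊆ S := by
    intro S T
    have h1 : ∀ j, α j (asg A u v S ∅) = α j (asg A u v S T) := fun j =>
      hα j fun x hx => by
        unfold asg
        rw [if_pos (Finset.mem_coe.mp hx), if_pos (Finset.mem_coe.mp hx)]
    have h2 : ∀ j, β j (asg A u v ∅ T) = β j (asg A u v S T) := fun j =>
      hβ j fun x hx => by
        have : x ∉ A := fun h => (Finset.disjoint_left.mp hAB) h (Finset.mem_coe.mp hx)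
        unfold asg
        rw [if_neg this, if_neg this]
    simp only [h1, h2]
    rw [hF]
    constructor
    · intro h p hp
      rcases h p with h3 | h3
      · rw [e1] at h3
        simpa using h3
      · rw [e2] at h3
        exact absurd hp (by simpa using h3)
    · intro h p
      by_cases hp : p ∈ T
      · left; rw [e1]; simpa using h hp
      · right; rw [e2]; simpa using hp
  have hli : LinearIndependent K (fun T : Finset (Fin μ) =>
      (fun j => β j (asg A u v ∅ T) : ι → K)) := by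
    rw [Fintype.linearIndependent_iff]
    intro c hc
    by_contra hcon
    push Not at hcon
    obtain ⟨T1, hT1⟩ := hcon
    obtain ⟨T0, hT0, hmin⟩ := Finset.exists_min_image
      (Finset.univ.filter fun T : Finset (Fin μ) => c T ≠ 0) Finset.card
      ⟨T1, Finset.mem_filter.mpr ⟨Finset.mem_univ _, hT1⟩⟩
    rw [Finset.mem_filter] at hT0
    have h1 : ∑ T, c T * ∑ j, α j (asg A u v T0 ∅) * β j (asg A u v ∅ T) = 0 := by
      have h2 : ∀ j, ∑ T, c T * β j (asg A u v ∅ T) = 0 := by
        intro j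
        have := congrFun hc j
        simpa [Finset.sum_apply, Pi.smul_apply, smul_eq_mul] using this
      calc ∑ T, c T * ∑ j, α j (asg A u v T0 ∅) * β j (asg A u v ∅ T)
          = ∑ j, α j (asg A u v T0 ∅) * ∑ T, c T * β j (asg A u v ∅ T) := by
            simp only [Finset.mul_sum]
            rw [Finset.sum_comm]
            refine Finset.sum_congr rfl fun j _ => Finset.sum_congr rfl fun T _ => ?_
            ring
        _ = 0 := Finset.sum_eq_zero fun j _ => by rw [h2 j, mul_zero]
    rw [Finset.sum_eq_single_of_mem T0 (Finset.mem_univ _)] at h1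
    · rcases mul_eq_zero.mp h1 with h | h
      · exact hT0.2 h
      · exact ((hval T0 T0).mpr subset_rfl) h
    · intro T _ hne
      by_cases hcT : c T = 0
      · rw [hcT, zero_mul]
      · have h2 : ¬ T ⊆ T0 := by
          intro hsub
          have h3 := hmin T (Finset.mem_filter.mpr ⟨Finset.mem_univ _, hcT⟩)
          exact hne (Finset.eq_of_subset_of_card_le hsub h3)
        have h3 : ∑ j, α j (asg A u v T0 ∅) * β j (asg A u v ∅ T) = 0 := by
          by_contra h
          exact h2 ((hval T0 T).mp h)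
        rw [h3, mul_zero]
  have := hli.fintype_card_le_finrank
  rwa [Fintype.card_finset, Fintype.card_fin, Module.finrank_fintype_fun_eq_card] at this

end rank

open Classical in
theorem exists_graph {α Ω : Type} [Fintype α] [DecidableEq α] [Fintype Ω]
    (hN : 2 ≤ Fintype.card α) (A B : Ω → Finset α) (a : Ω → ℕ) (hA : ∀ ω, (A ω).card = a ω)
    (hB : ∀ ω, (B ω).card = a ω) :
    ∃ g : α × Fin (16 * (Nat.log 2 (Fintype.card α) + 2)) → α,
      8 * (Finset.univ.filter fun ω => 3 * Fintype.card α ≤ 8 * a ω ∧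
        ¬ HasMatching g (A ω) (B ω) (a ω)).card ≤ Fintype.card Ω := by
  set D := 16 * (Nat.log 2 (Fintype.card α) + 2) with hD
  by_contra hcon
  push Not at hcon
  have h1 : ∑ g : α × Fin D → α, (Finset.univ.filter fun ω => 3 * Fintype.card α ≤ 8 * a ω ∧
        ¬ HasMatching g (A ω) (B ω) (a ω)).card
      = ∑ ω, (Finset.univ.filter fun g : α × Fin D → α => 3 * Fintype.card α ≤ 8 * a ω ∧
        ¬ HasMatching g (A ω) (B ω) (a ω)).card := by
    simp only [Finset.card_filter]
    rw [Finset.sum_comm]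
  have h2 : ∀ ω, 8 * (Finset.univ.filter fun g : α × Fin D → α => 3 * Fintype.card α ≤ 8 * a ω ∧
        ¬ HasMatching g (A ω) (B ω) (a ω)).card ≤ Fintype.card (α × Fin D → α) := by
    intro ω
    by_cases h : 3 * Fintype.card α ≤ 8 * a ω
    · refine le_trans (Nat.mul_le_mul_left 8 (Finset.card_le_card ?_))
        (few_bad hN (A ω) (B ω) (a ω) (hA ω) (hB ω) h)
      intro g hg
      rw [Finset.mem_filter] at hg ⊢
      exact ⟨hg.1, hg.2.2⟩
    · rw [Finset.filter_false_of_mem (fun g _ hg => h hg.1)]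
      simp
  have h3 : Fintype.card (α × Fin D → α) * Fintype.card Ω
      < ∑ g : α × Fin D → α, 8 * (Finset.univ.filter fun ω => 3 * Fintype.card α ≤ 8 * a ω ∧
        ¬ HasMatching g (A ω) (B ω) (a ω)).card := by
    have hne : (Finset.univ : Finset (α × Fin D → α)).Nonempty := ⟨fun p => p.1, Finset.mem_univ _⟩
    have := Finset.sum_lt_sum_of_nonempty hne (f := fun _ => Fintype.card Ω) fun g _ => hcon g
    rwa [Finset.sum_const, smul_eq_mul, Finset.card_univ] at this
  rw [← Finset.mul_sum, h1, Finset.mul_sum] at h3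
  have h4 : ∑ ω, 8 * (Finset.univ.filter fun g : α × Fin D → α => 3 * Fintype.card α ≤ 8 * a ω ∧
        ¬ HasMatching g (A ω) (B ω) (a ω)).card ≤ ∑ _ω : Ω, Fintype.card (α × Fin D → α) :=
    Finset.sum_le_sum fun ω _ => h2 ω
  rw [Finset.sum_const, smul_eq_mul, Finset.card_univ] at h4
  have h5 := h3.trans_le h4
  rw [mul_comm] at h5
  exact lt_irrefl _ h5

open Classical in
theorem exists_graph' {α Ω : Type} [Fintype α] [DecidableEq α] [Fintype Ω] {N D : ℕ}
    (hNc : Fintype.card α = N) (hD : D = 16 * (Nat.log 2 N + 2))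
    (hN : 2 ≤ N) (A B : Ω → Finset α) (a : Ω → ℕ) (hA : ∀ ω, (A ω).card = a ω)
    (hB : ∀ ω, (B ω).card = a ω) :
    ∃ g : α × Fin D → α,
      8 * (Finset.univ.filter fun ω => 3 * N ≤ 8 * a ω ∧
        ¬ HasMatching g (A ω) (B ω) (a ω)).card ≤ Fintype.card Ω := by
  subst hNc
  subst hD
  exact exists_graph hN A B a hA hB

/-- The hard formula: `z e ∨ x u ∨ x v` for all arcs `e = (u, l)` with `v = g e`. -/
noncomputable def arcs {N D : ℕ} (g : Fin N × Fin D → Fin N) : CNF (Fin N ⊕ (Fin N × Fin D)) :=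
  (Finset.univ : Finset (Fin N × Fin D)).toList.map fun e =>
    [(Sum.inr e, true), (Sum.inl e.1, true), (Sum.inl (g e), true)]

theorem satisfies_arcs {N D : ℕ} (g : Fin N × Fin D → Fin N)
    (a : Fin N ⊕ (Fin N × Fin D) → Bool) : Satisfies a (arcs g) ↔
      ∀ e, a (Sum.inr e) = true ∨ a (Sum.inl e.1) = true ∨ a (Sum.inl (g e)) = true := by
  unfold Satisfies arcs
  constructor
  · intro h e
    obtain ⟨l, hl, hl2⟩ := h _ (List.mem_map.mpr ⟨e, Finset.mem_toList.mpr (Finset.mem_univ e), rfl⟩)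
    simp only [List.mem_cons, List.not_mem_nil, or_false] at hl
    rcases hl with rfl | rfl | rfl
    · exact Or.inl hl2
    · exact Or.inr (Or.inl hl2)
    · exact Or.inr (Or.inr hl2)
  · intro h C hC
    obtain ⟨e, _, rfl⟩ := List.mem_map.mp hC
    rcases h e with h1 | h1 | h1
    · exact ⟨(Sum.inr e, true), by simp, h1⟩
    · exact ⟨(Sum.inl e.1, true), by simp, h1⟩
    · exact ⟨(Sum.inl (g e), true), by simp, h1⟩

theorem closed_form {V : Type} [DecidableEq V] {K : Type} [Field K] {s : ℕ}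
    {A B O : Finset V} {ρ : V → Bool} {f : Fin s → (V → Bool) → K} {N : ℕ}
    (h : Form K s A B (O ∩ (A ∪ B)) ρ f N) :
    Form K s A B ∅ ρ f (s * 2 ^ (min (A ∩ O).card (B ∩ O).card) * N) := by
  have h1 := h.close Finset.inter_subset_right
  have e1 : A ∩ (O ∩ (A ∪ B)) = A ∩ O := by
    ext v
    simp only [Finset.mem_inter, Finset.mem_union]
    tauto
  have e2 : B ∩ (O ∩ (A ∪ B)) = B ∩ O := by
    ext v
    simp only [Finset.mem_inter, Finset.mem_union]
    tauto
  rwa [e1, e2] at h1

theorem wt_mono {V : Type} [DecidableEq V] {A B A' B' : Finset V} (hA : A ⊆ A') (hB : B ⊆ B')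
    (L : List (Finset V)) : wt A B L ≤ wt A' B' L := by
  unfold wt
  induction L with
  | nil => simp
  | cons P L ih =>
    rw [List.map_cons, List.sum_cons, List.map_cons, List.sum_cons]
    refine Nat.add_le_add (min_le_min ?_ ?_) ih
    · exact Finset.card_le_card (Finset.inter_subset_inter_right hA)
    · exact Finset.card_le_card (Finset.inter_subset_inter_right hB)

/-- Final count: the sum of all networks, restricted, has small rank. -/
theorem sum_rank {V : Type} [DecidableEq V] {K : Type} [Field K] {J : Type} [Fintype J]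
    {s : J → ℕ} {A B : Finset V} {ρ : V → Bool} {f : (j : J) → Fin (s j) → (V → Bool) → K}
    (o : (j : J) → Fin (s j)) {R : ℕ} (h : ∀ j, Form K (s j) A B ∅ ρ (f j) R) :
    ∃ (ι : Type) (_ : Fintype ι) (α β : ι → (V → Bool) → K),
      Fintype.card ι ≤ Fintype.card J * R ∧ (∀ j, DependsOn (α j) (A : Set V)) ∧
      (∀ j, DependsOn (β j) (B : Set V)) ∧
      ∀ σ, ∑ j, f j (o j) (restr A B ρ σ) = ∑ i, α i σ * β i σ := by
  classical
  choose ι i1 G α β h1 h2 h3 h4 h5 using h
  refine ⟨(j : J) × ι j, inferInstance, fun x σ => G x.1 (o x.1) x.2 σ * α x.1 x.2 σ,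
    fun x σ => β x.1 x.2 σ, ?_, ?_, fun x => h4 x.1 x.2, fun σ => ?_⟩
  · rw [Fintype.card_sigma]
    calc ∑ j, Fintype.card (ι j) ≤ ∑ _j : J, R := Finset.sum_le_sum fun j _ => h1 j
      _ = _ := by rw [Finset.sum_const, smul_eq_mul, Finset.card_univ]
  · intro x a b hab
    show _ * _ = _ * _
    rw [h3 x.1 x.2 hab, h2 x.1 (o x.1) x.2 (fun v hv => by simp at hv)]
  · rw [Fintype.sum_sigma]
    refine Finset.sum_congr rfl fun j _ => ?_
    rw [h5]
    refine Finset.sum_congr rfl fun i _ => ?_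
    ring

/-- The restriction determined by a matching: matched arcs are switched on. -/
noncomputable def rho {N D μ : ℕ} (t : Fin μ → Fin N) (l : Fin μ → Fin D) :
    Fin N ⊕ (Fin N × Fin D) → Bool :=
  open Classical in
  Sum.elim (fun _ => true) (fun e => decide (¬ ∃ i, (t i, l i) = e))

theorem satisfies_restr {N D μ : ℕ} (g : Fin N × Fin D → Fin N) (t : Fin μ → Fin N)
    (l : Fin μ → Fin D)
    (A B : Finset (Fin N ⊕ (Fin N × Fin D)))
    (hA : A = Finset.univ.image fun i => Sum.inl (t i))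
    (hB : B = Finset.univ.image fun i => Sum.inl (g (t i, l i)))
    (σ : Fin N ⊕ (Fin N × Fin D) → Bool) :
    Satisfies (restr A B (rho t l) σ) (arcs g) ↔
      ∀ i, σ (Sum.inl (t i)) = true ∨ σ (Sum.inl (g (t i, l i))) = true := by
  classical
  rw [satisfies_arcs]
  have hr : ∀ e, restr A B (rho t l) σ (Sum.inr e) = decide (¬ ∃ i, (t i, l i) = e) := by
    intro e
    unfold restr
    rw [if_neg]
    · simp [rho]
    · rw [hA, hB]
      simp
  have hA' : ∀ i, restr A B (rho t l) σ (Sum.inl (t i)) = σ (Sum.inl (t i)) := by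
    intro i
    unfold restr
    rw [if_pos]
    rw [hA, Finset.mem_union]
    exact Or.inl (Finset.mem_image.mpr ⟨i, Finset.mem_univ _, rfl⟩)
  have hB' : ∀ i, restr A B (rho t l) σ (Sum.inl (g (t i, l i))) = σ (Sum.inl (g (t i, l i))) := by
    intro i
    unfold restr
    rw [if_pos]
    rw [hB, Finset.mem_union]
    exact Or.inr (Finset.mem_image.mpr ⟨i, Finset.mem_univ _, rfl⟩)
  constructor
  · intro h i
    rcases h (t i, l i) with h1 | h1 | h1
    · rw [hr] at h1
      exact absurd ⟨i, rfl⟩ (of_decide_eq_true h1)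
    · left; rw [← hA']; exact h1
    · right; rw [← hB']; exact h1
  · intro h e
    by_cases he : ∃ i, (t i, l i) = e
    · obtain ⟨i, rfl⟩ := he
      right
      rcases h i with h1 | h1
      · left; rw [hA']; exact h1
      · right; rw [hB']; exact h1
    · left
      rw [hr]
      simpa using he

/-- The numerical end of the argument. -/
theorem numeric_end {k p N μ q w card : ℕ} (hN : N = 2 ^ 34 * (p * k ^ 2)) (hk : 1 ≤ k) (hp : 1 ≤ p)
    (hq : q * (512 * k) ^ 2 ≤ N) (hw : 4 * w + 512 * k * (2048 * p) ≤ 2 * N)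
    (hμ : N < 2 * μ + 2 ^ 18 * (p * k)) (hcard : card < 2 ^ p)
    (h : 2 ^ μ ≤ card * ((2 ^ k) ^ (q + 1) * 2 ^ w)) : False := by
  have hq' : q ≤ 65536 * p := by
    by_contra hcon
    have h1 : (65536 * p) * (512 * k) ^ 2 < q * (512 * k) ^ 2 :=
      Nat.mul_lt_mul_of_pos_right (not_le.mp hcon) (by positivity)
    have h2 : (65536 * p) * (512 * k) ^ 2 = N := by rw [hN]; ring
    omega
  have h1 : 2 ^ μ < 2 ^ (p + (k * (q + 1) + w)) := by
    rw [pow_add, pow_add, pow_mul]
    refine lt_of_le_of_lt h ?_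
    exact Nat.mul_lt_mul_of_pos_right hcard (by positivity)
  have h2 : μ < p + (k * (q + 1) + w) := (Nat.pow_lt_pow_iff_right (by norm_num)).mp h1
  have h3 : k * (q + 1) ≤ 65536 * (p * k) + k := by nlinarith
  have h4 : k ≤ p * k := Nat.le_mul_of_pos_left _ (by omega)
  have h5 : p ≤ p * k := Nat.le_mul_of_pos_right _ (by omega)
  have h6 : 512 * k * (2048 * p) = 1048576 * (p * k) := by ring
  have h7 : 1 ≤ p * k := Nat.mul_pos (by omega) (by omega)
  omega

theorem log_bound {k p : ℕ} (hk : 1 ≤ k) (hp : 1 ≤ p) :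
    Nat.log 2 (2 ^ 34 * (p * k ^ 2)) ≤ 36 + 2 * Nat.log 2 (p * k) := by
  have h1 : p * k < 2 ^ (Nat.log 2 (p * k) + 1) := Nat.lt_pow_succ_log_self (by norm_num) _
  have h2 : p * k ^ 2 ≤ (p * k) ^ 2 := by
    rw [mul_pow]
    exact Nat.mul_le_mul_right _ (by nlinarith)
  have h3 : (p * k) ^ 2 < 2 ^ (2 * (Nat.log 2 (p * k) + 1)) := by
    rw [mul_comm 2, pow_mul]
    exact Nat.pow_lt_pow_left h1 (by norm_num)
  have h4 : 2 ^ 34 * (p * k ^ 2) < 2 ^ (37 + 2 * Nat.log 2 (p * k)) := by
    have e : 2 ^ (37 + 2 * Nat.log 2 (p * k)) = 2 ^ 34 * (2 ^ (2 * (Nat.log 2 (p * k) + 1)) * 2) := by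
      rw [← pow_succ, ← pow_add]
      congr 1
      ring
    rw [e]
    refine Nat.mul_lt_mul_of_pos_left ?_ (by positivity)
    omega
  have h5 := Nat.log_lt_of_lt_pow (by positivity) h4
  omega

theorem tensor_main : ∃ C : ℕ, ∀ k p : ℕ, 1 ≤ k → 1 ≤ p →
    ∃ (V : Type) (_ : Fintype V) (_ : DecidableEq V) (φ : CNF V),
      Fintype.card V ≤ C * (p * k ^ 2) * (Nat.log 2 (p * k) + 1) ∧
      φ.length ≤ Fintype.card V ∧ (∀ c ∈ φ, c.length = 3 ∧ ∀ l ∈ c, l.2 = true) ∧
      (∀ v, Occurs v φ) ∧
      ∀ (K : Type) (_ : Field K) (J : Type) (_ : Fintype J) (s : J → ℕ) (T : J → VTree V)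
        (f : (j : J) → Fin (s j) → (V → Bool) → K) (o : (j : J) → Fin (s j)),
        (∀ j, (T j).Proper (k ^ 2)) → (∀ j, (T j).vars = Finset.univ) →
        (∀ j, Net K (s j) (T j) (f j)) →
        (∀ a, Satisfies a φ ↔ ∑ j, f j (o j) a ≠ 0) →
        2 ^ p ≤ Fintype.card J ∨ ∃ j, 2 ^ k ≤ s j := by
  classical
  refine ⟨2 ^ 50, fun k p hk hp => ?_⟩
  have hk0 : 0 < k := hk
  have hp0 : 0 < p := hp
  have hpk2 : 1 ≤ p * k ^ 2 := Nat.mul_pos hp0 (by positivity)
  have hpk1 : 1 ≤ p * k := Nat.mul_pos hp0 hk0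
  set N := 2 ^ 34 * (p * k ^ 2) with hN
  have hN2 : 2 ≤ N := by rw [hN]; omega
  set D := 16 * (Nat.log 2 N + 2) with hD
  set V := Fin N ⊕ (Fin N × Fin D) with hV
  have hNc : Fintype.card (Fin N) = N := Fintype.card_fin N
  -- partitions
  let Aside : (V → Bool) → Finset (Fin N) := fun σ =>
    Finset.univ.filter fun u => σ (Sum.inl u) = true
  let Bside : (V → Bool) → Finset (Fin N) := fun σ =>
    Finset.univ.filter fun u => σ (Sum.inl u) = false
  let a : (V → Bool) → ℕ := fun σ => min (Aside σ).card (Bside σ).card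
  have hA' : ∀ σ, ∃ A' ⊆ Aside σ, A'.card = a σ := fun σ =>
    Finset.exists_subset_card_eq (min_le_left _ _)
  have hB' : ∀ σ, ∃ B' ⊆ Bside σ, B'.card = a σ := fun σ =>
    Finset.exists_subset_card_eq (min_le_right _ _)
  choose A' hA1 hA2 using hA'
  choose B' hB1 hB2 using hB'
  obtain ⟨g, hg⟩ := exists_graph' (α := Fin N) (Ω := V → Bool) hNc hD hN2 A' B' a hA2 hB2
  refine ⟨V, inferInstance, inferInstance, arcs g, ?_, ?_, ?_, ?_, ?_⟩
  · -- number of variables
    show Fintype.card (Fin N ⊕ (Fin N × Fin D)) ≤ _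
    rw [Fintype.card_sum, Fintype.card_prod, Fintype.card_fin, Fintype.card_fin, hD]
    have h1 := log_bound hk hp
    rw [← hN] at h1
    set L := Nat.log 2 (p * k)
    calc N + N * (16 * (Nat.log 2 N + 2)) ≤ N + N * (16 * (36 + 2 * L + 2)) := by gcongr
      _ = N * (609 + 32 * L) := by ring
      _ ≤ N * (2 ^ 16 * (L + 1)) := Nat.mul_le_mul_left _ (by omega)
      _ = 2 ^ 50 * (p * k ^ 2) * (L + 1) := by rw [hN]; ring
  · show _ ≤ Fintype.card (Fin N ⊕ (Fin N × Fin D))
    rw [Fintype.card_sum, Fintype.card_prod]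
    unfold arcs
    rw [List.length_map, Finset.length_toList, Finset.card_univ, Fintype.card_prod]
    omega
  · intro c hc
    unfold arcs at hc
    obtain ⟨e, _, rfl⟩ := List.mem_map.mp hc
    refine ⟨rfl, fun l hl => ?_⟩
    simp only [List.mem_cons, List.not_mem_nil, or_false] at hl
    rcases hl with rfl | rfl | rfl <;> rfl
  · have hDpos : 0 < D := by rw [hD]; omega
    rintro (u | e)
    · refine ⟨[(Sum.inr (u, ⟨0, hDpos⟩), true), (Sum.inl u, true),
        (Sum.inl (g (u, ⟨0, hDpos⟩)), true)], ?_, (Sum.inl u, true), by simp, rfl⟩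
      exact List.mem_map.mpr ⟨(u, ⟨0, hDpos⟩), Finset.mem_toList.mpr (Finset.mem_univ _), rfl⟩
    · refine ⟨[(Sum.inr e, true), (Sum.inl e.1, true), (Sum.inl (g e), true)], ?_,
        (Sum.inr e, true), by simp, rfl⟩
      exact List.mem_map.mpr ⟨e, Finset.mem_toList.mpr (Finset.mem_univ _), rfl⟩
  intro K _ J _ s T f o hT hTv hnet hφ
  by_contra hcon
  push Not at hcon
  obtain ⟨hJ, hs⟩ := hcon
  -- the pieces
  set X : Finset V := Finset.univ.map Function.Embedding.inl with hX
  have hXc : X.card = N := by rw [hX, Finset.card_map, Finset.card_univ, hNc]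
  have hθ : k ^ 2 < (512 * k) ^ 2 := by nlinarith
  have hpc := fun j => pieces ((512 * k) ^ 2) (k ^ 2) X hθ (T j) (hT j)
  choose L O h1 h2 h3 h4 h5 h6 h7 h8 using hpc
  have hvars : ∀ j, (T j).vars ∩ X = X := fun j => by rw [hTv j, Finset.univ_inter]
  have hsum : ∀ j, (O j).card + ((L j).map Finset.card).sum = N := by
    intro j
    rw [h7 j, hvars j, hXc]
  have hlen_up : ∀ j, (L j).length * (512 * k) ^ 2 ≤ N := by
    intro j
    have : ∀ M : List (Finset V), (∀ P ∈ M, (512 * k) ^ 2 ≤ P.card) →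
        M.length * (512 * k) ^ 2 ≤ (M.map Finset.card).sum := by
      intro M
      induction M with
      | nil => simp
      | cons P M ih =>
        intro hM
        rw [List.length_cons, List.map_cons, List.sum_cons, add_mul, one_mul, add_comm]
        exact Nat.add_le_add (hM P List.mem_cons_self)
          (ih fun Q hQ => hM Q (List.mem_cons_of_mem _ hQ))
    have h9 := this (L j) fun P hP => (h2 j P hP).1
    have := hsum j
    omega
  have hlen_low : ∀ j, 16 * (2048 * p) ≤ (L j).length := by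
    intro j
    have : ∀ M : List (Finset V), (∀ P ∈ M, P.card < 2 * (512 * k) ^ 2) →
        (M.map Finset.card).sum ≤ M.length * (2 * (512 * k) ^ 2) := by
      intro M
      induction M with
      | nil => simp
      | cons P M ih =>
        intro hM
        rw [List.length_cons, List.map_cons, List.sum_cons, add_mul, one_mul,
          add_comm (M.length * _)]
        exact Nat.add_le_add (hM P List.mem_cons_self).le
          (ih fun Q hQ => hM Q (List.mem_cons_of_mem _ hQ))
    have h9 := this (L j) fun P hP => (h2 j P hP).2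
    have h10 := hsum j
    have h11 := h1 j
    have e : N = 65536 * p * (512 * k) ^ 2 := by rw [hN]; ring
    have hθ0 : 0 < (512 * k) ^ 2 := by positivity
    generalize (512 * k) ^ 2 = θ at *
    by_contra hlt
    push Not at hlt
    have h12 : 2 * (L j).length + 1 ≤ 65536 * p := by omega
    have h13 : (2 * (L j).length + 1) * θ ≤ 65536 * p * θ := Nat.mul_le_mul_right _ h12
    nlinarith
  -- the signs
  set Bad : Finset (V → Bool) := Finset.univ.filter fun ω => 3 * N ≤ 8 * a ω ∧
        ¬ HasMatching g (A' ω) (B' ω) (a ω) with hBad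
  have hBadc : 8 * Bad.card ≤ 2 ^ Fintype.card V := by
    rw [Fintype.card_fun, Fintype.card_bool] at hg
    exact hg
  have hJ' : (Fintype.card J : ℝ) * (2 ^ (2048 * p) * (9 / 10) ^ (16 * (2048 * p))) ≤ 1 / 2 := by
    have e1 : (2 : ℝ) ^ (2048 * p) * (9 / 10) ^ (16 * (2048 * p)) ≤ (1 / 2) ^ (2048 * p) := by
      rw [pow_mul (9 / 10 : ℝ), ← mul_pow]
      exact pow_le_pow_left₀ (by positivity) (by norm_num) _
    have e2 : (Fintype.card J : ℝ) ≤ 2 ^ p := by exact_mod_cast hJ.le
    have e3 : (1 / 2 : ℝ) ^ (2048 * p) ≤ (1 / 2) ^ (p + 1) :=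
      pow_le_pow_of_le_one (by norm_num) (by norm_num) (by omega)
    calc _ ≤ (2 : ℝ) ^ p * (1 / 2) ^ (p + 1) :=
          mul_le_mul e2 (e1.trans e3) (by positivity) (by positivity)
      _ = 1 / 2 := by
          rw [pow_succ, ← mul_assoc, ← mul_pow]
          norm_num
  obtain ⟨σ, hσ1, hσ2, hσ3⟩ := exists_signs X (by omega) L (512 * k) (16 * (2048 * p)) (2048 * p)
    (by omega) h5 (fun j P hP => ⟨(h4 j P hP).trans (by rw [hvars j]), (h2 j P hP).1⟩)
    hlen_low hJ' Bad hBadc
  -- sizes of the two sides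
  have hsideA : side X σ true = (Aside σ).map Function.Embedding.inl := by
    ext v
    simp only [side, hX, Finset.mem_filter, Finset.mem_map, Finset.mem_univ, true_and, Aside]
    constructor
    · rintro ⟨⟨u, rfl⟩, hu⟩; exact ⟨u, hu, rfl⟩
    · rintro ⟨u, hu, rfl⟩; exact ⟨⟨u, rfl⟩, hu⟩
  have hsideB : side X σ false = (Bside σ).map Function.Embedding.inl := by
    ext v
    simp only [side, hX, Finset.mem_filter, Finset.mem_map, Finset.mem_univ, true_and, Bside]
    constructor
    · rintro ⟨⟨u, rfl⟩, hu⟩; exact ⟨u, hu, rfl⟩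
    · rintro ⟨u, hu, rfl⟩; exact ⟨⟨u, rfl⟩, hu⟩
  have hsX : ∀ b, side X σ b ∩ X = side X σ b := fun b =>
    Finset.inter_eq_left.mpr (Finset.filter_subset _ _)
  have hxy := side_card (subset_refl X) σ
  have hss := side_ssum (subset_refl X) σ
  rw [hsX, hsX, hsideA, hsideB, Finset.card_map, Finset.card_map, hXc] at hxy
  rw [hsX, hsX, hsideA, hsideB, Finset.card_map, Finset.card_map] at hss
  have hμ : N < 2 * a σ + 2 ^ 18 * (p * k) := by
    rw [hss, hXc] at hσ2
    have h9 : (4 : ℝ) * N ≤ (2 ^ 18 * (p * k)) ^ 2 := by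
      have h10 : 4 * N ≤ (2 ^ 18 * (p * k)) ^ 2 := by
        rw [hN]
        have : (2 ^ 18 * (p * k)) ^ 2 = 4 * (2 ^ 34 * (p * (p * k ^ 2))) := by ring
        rw [this]
        refine Nat.mul_le_mul_left _ (Nat.mul_le_mul_left _ ?_)
        exact Nat.le_mul_of_pos_left _ hp0
      exact_mod_cast h10
    have h11 := abs_lt_of_sq_lt_sq (hσ2.trans_le h9) (by positivity)
    obtain ⟨h12, h13⟩ := abs_lt.mp h11
    have h14 : ((Bside σ).card : ℝ) < (Aside σ).card + 2 ^ 18 * (p * k) := by linarith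
    have h15 : ((Aside σ).card : ℝ) < (Bside σ).card + 2 ^ 18 * (p * k) := by linarith
    have h16 : (Bside σ).card < (Aside σ).card + 2 ^ 18 * (p * k) := by exact_mod_cast h14
    have h17 : (Aside σ).card < (Bside σ).card + 2 ^ 18 * (p * k) := by exact_mod_cast h15
    simp only [a]
    rcases le_total (Aside σ).card (Bside σ).card with hle | hle
    · rw [min_eq_left hle]; omega
    · rw [min_eq_right hle]; omega
  have h3N : 3 * N ≤ 8 * a σ := by
    have h9 : 2 ^ 20 * (p * k) ≤ N := by
      rw [hN]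
      have : p * k ≤ p * k ^ 2 := Nat.mul_le_mul_left _ (by nlinarith)
      omega
    omega
  have hmatch : HasMatching g (A' σ) (B' σ) (a σ) := by
    by_contra hcon
    exact hσ1 (Finset.mem_filter.mpr ⟨Finset.mem_univ _, h3N, hcon⟩)
  obtain ⟨t, l, ht1, ht2, ht3, ht4⟩ := hmatch
  set A : Finset V := Finset.univ.image fun i => Sum.inl (t i) with hA
  set B : Finset V := Finset.univ.image fun i => Sum.inl (g (t i, l i)) with hB
  have hAs : A ⊆ side X σ true := by
    intro v hv
    rw [hA, Finset.mem_image] at hv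
    obtain ⟨i, _, rfl⟩ := hv
    rw [hsideA, Finset.mem_map]
    exact ⟨t i, hA1 σ (ht3 i), rfl⟩
  have hBs : B ⊆ side X σ false := by
    intro v hv
    rw [hB, Finset.mem_image] at hv
    obtain ⟨i, _, rfl⟩ := hv
    rw [hsideB, Finset.mem_map]
    exact ⟨g (t i, l i), hB1 σ (ht4 i), rfl⟩
  have hdisS : Disjoint (side X σ true) (side X σ false) := by
    rw [Finset.disjoint_left]
    intro v hv hv'
    have e1 := (Finset.mem_filter.mp hv).2
    have e2 := (Finset.mem_filter.mp hv').2
    rw [e1] at e2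
    exact absurd e2 (by decide)
  have hAB : Disjoint A B := Disjoint.mono hAs hBs hdisS
  have hABX : A ∪ B ⊆ X :=
    Finset.union_subset (hAs.trans (Finset.filter_subset _ _)) (hBs.trans (Finset.filter_subset _ _))
  -- the ranks
  set q := 65536 * p with hq
  set w := (2 * N - 512 * k * (2048 * p)) / 4 with hw
  have hq2 : q * (512 * k) ^ 2 = N := by rw [hq, hN]; ring
  have h4w : 512 * k * (2048 * p) ≤ 2 * N := by
    have e1 : 512 * k * (2048 * p) = 2 ^ 20 * (p * k) := by ring
    have h9 : 2 ^ 20 * (p * k) ≤ N := by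
      rw [hN]
      have : p * k ≤ p * k ^ 2 := Nat.mul_le_mul_left _ (by nlinarith)
      omega
    omega
  have hform : ∀ j, Form K (s j) A B ∅ (rho t l) (f j) ((2 ^ k) ^ (q + 1) * 2 ^ w) := by
    intro j
    have h9 := closed_form (h8 j K _ (s j) (f j) (hnet j) A B (rho t l) hABX)
    refine h9.mono subset_rfl ?_
    have h10 : (L j).length ≤ q := by
      by_contra hcon
      have h11 : q * (512 * k) ^ 2 < (L j).length * (512 * k) ^ 2 :=
        Nat.mul_lt_mul_of_pos_right (not_le.mp hcon) (by positivity)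
      have := hlen_up j
      omega
    have h12 : min (A ∩ O j).card (B ∩ O j).card + wt A B (L j) ≤ w := by
      have h13 := wt_mono hAs hBs (L j)
      have h14 := hσ3 j
      have h15 := hsum j
      have h16 : 2 * min (A ∩ O j).card (B ∩ O j).card ≤ (O j).card := by
        have h17 : (A ∩ O j).card + (B ∩ O j).card ≤ (O j).card := by
          rw [← Finset.card_union_of_disjoint (Disjoint.mono Finset.inter_subset_left
            Finset.inter_subset_left hAB)]
          refine Finset.card_le_card (Finset.union_subset ?_ ?_) <;> exact Finset.inter_subset_right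
        rcases le_total (A ∩ O j).card (B ∩ O j).card with hle | hle
        · rw [min_eq_left hle]; omega
        · rw [min_eq_right hle]; omega
      rw [hw]
      omega
    have hs1 : s j ≤ 2 ^ k := (hs j).le
    calc s j * 2 ^ (min (A ∩ O j).card (B ∩ O j).card) * (s j ^ (L j).length * 2 ^ wt A B (L j))
        = s j ^ ((L j).length + 1) * 2 ^ (min (A ∩ O j).card (B ∩ O j).card + wt A B (L j)) := by
          rw [pow_succ, pow_add]; ring
      _ ≤ (2 ^ k) ^ ((L j).length + 1) * 2 ^ w := by gcongr; norm_num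
      _ ≤ (2 ^ k) ^ (q + 1) * 2 ^ w := by
          refine Nat.mul_le_mul_right _ (Nat.pow_le_pow_right (by positivity) (by omega))
  obtain ⟨ι, _, α, β, hι, hα, hβ, hsumf⟩ := sum_rank o hform
  have hrank : 2 ^ a σ ≤ Fintype.card ι := by
    refine rank_lower (a σ) (fun i => (Sum.inl (t i) : V)) (fun i => Sum.inl (g (t i, l i)))
      (fun i j hij => ht1 (Sum.inl_injective hij)) (fun i j hij => ht2 (Sum.inl_injective hij))
      A B hAB (fun i => Finset.mem_image.mpr ⟨i, Finset.mem_univ _, rfl⟩)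
      (fun i => Finset.mem_image.mpr ⟨i, Finset.mem_univ _, rfl⟩) α β hα hβ fun τ => ?_
    rw [← hsumf τ, ← hφ, satisfies_restr g t l A B hA hB]
  have hfin : 2 ^ a σ ≤ Fintype.card J * ((2 ^ k) ^ (q + 1) * 2 ^ w) := hrank.trans hι
  exact numeric_end hN hk hp hq2.le (by omega) hμ hJ hfin

end Pool.Agent.H548R2
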